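import Pool.Agent.Lib.MP_3f8e0b_gt.Basic

/-!
# MP_3f8e0b_gt: the functions `alpha` and `beta`
-/

open Set Filter Topology
open scoped ContDiff Manifold

namespace SphTw

theorem AlphaBeta_sigma (x : ℝ) : Real.smoothTransition x + Real.smoothTransition (1 - x) = 1 := by
  unfold Real.smoothTransition
  have h := Real.smoothTransition.pos_denom x
  have h' : expNegInvGlue (1 - x) + expNegInvGlue (1 - (1 - x)) =
      expNegInvGlue x + expNegInvGlue (1 - x) := by
    rw [sub_sub_cancel, add_comm]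
  rw [h', ← add_div, div_self h.ne']

theorem AlphaBeta_local (n : ℤ) {t : ℝ} (h1 : (n : ℝ) - 1 < t) (h2 : t < n + 1) :
    alpha t = n - 3/2 + Real.smoothTransition (1/2 + 10 * (t - n))
      + Real.smoothTransition (1/2 + 10 * (t - n - 1))
      + Real.smoothTransition (1/2 + 10 * (t - n + 1)) := by
  rcases le_or_gt (n : ℝ) t with h | h
  · have hf : ⌊t⌋ = n := Int.floor_eq_iff.2 ⟨h, h2⟩
    have hfr : Int.fract t = t - n := by rw [Int.fract, hf]
    have h3 : Real.smoothTransition (1/2 + 10 * (t - n + 1)) = 1 :=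
      Real.smoothTransition.one_of_one_le (by linarith)
    unfold alpha
    rw [hfr, hf, h3]
    ring
  · have hf : ⌊t⌋ = n - 1 := Int.floor_eq_iff.2 ⟨by push_cast; linarith, by push_cast; linarith⟩
    have hfr : Int.fract t = t - n + 1 := by rw [Int.fract, hf]; push_cast; ring
    have h3 : Real.smoothTransition (1/2 + 10 * (t - n - 1)) = 0 :=
      Real.smoothTransition.zero_of_nonpos (by linarith)
    unfold alpha
    rw [hfr, hf, h3, show t - (n : ℝ) + 1 - 1 = t - n by ring]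
    push_cast
    ring

theorem alpha_contDiff : ContDiff ℝ ∞ alpha := by
  rw [contDiff_iff_contDiffAt]
  intro t
  have h1 : (⌊t⌋ : ℝ) - 1 < t := by linarith [Int.floor_le t]
  have h2 : t < ⌊t⌋ + 1 := Int.lt_floor_add_one t
  have hg : ContDiff ℝ ∞ (fun s : ℝ => (⌊t⌋ : ℝ) - 3/2 +
      Real.smoothTransition (1/2 + 10 * (s - ⌊t⌋))
      + Real.smoothTransition (1/2 + 10 * (s - ⌊t⌋ - 1))
      + Real.smoothTransition (1/2 + 10 * (s - ⌊t⌋ + 1))) := by
    have hs : ContDiff ℝ ∞ Real.smoothTransition := Real.smoothTransition.contDiff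
    refine ((contDiff_const.add (hs.comp ?_)).add (hs.comp ?_)).add (hs.comp ?_) <;> fun_prop
  refine hg.contDiffAt.congr_of_eventuallyEq ?_
  filter_upwards [Ioo_mem_nhds h1 h2] with s hs
  exact AlphaBeta_local ⌊t⌋ hs.1 hs.2

theorem alpha_add_one (t : ℝ) : alpha (t + 1) = alpha t + 1 := by
  unfold alpha
  rw [Int.floor_add_one, Int.fract_add_one]
  push_cast
  ring

theorem alpha_add_int (t : ℝ) (n : ℤ) : alpha (t + n) = alpha t + n := by
  unfold alpha
  rw [Int.floor_add_intCast, Int.fract_add_intCast]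
  push_cast
  ring

theorem alpha_const {t : ℝ} (h1 : 1/20 ≤ t) (h2 : t ≤ 19/20) : alpha t = 1/2 := by
  have hf : ⌊t⌋ = 0 := Int.floor_eq_iff.2 ⟨by push_cast; linarith, by push_cast; linarith⟩
  have hfr : Int.fract t = t := by rw [Int.fract, hf]; simp
  unfold alpha
  rw [hf, hfr, Real.smoothTransition.one_of_one_le (by linarith),
    Real.smoothTransition.zero_of_nonpos (by linarith)]
  norm_num

theorem beta_contDiff : ContDiff ℝ ∞ beta := by
  have hs : ContDiff ℝ ∞ Real.smoothTransition := Real.smoothTransition.contDiff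
  have hg : ContDiff ℝ ∞ (fun ρ : ℝ =>
      1/2 + 2 * ((1/2500 - ρ ^ 2) / (1/2500 + ρ ^ 2))) := by
    refine contDiff_const.add (contDiff_const.mul (ContDiff.div ?_ ?_ ?_))
    · fun_prop
    · fun_prop
    · intro x
      positivity
  exact hs.comp hg

theorem beta_nonneg (ρ : ℝ) : 0 ≤ beta ρ := Real.smoothTransition.nonneg _

theorem beta_le_one (ρ : ℝ) : beta ρ ≤ 1 := Real.smoothTransition.le_one _

theorem beta_eq_one {ρ : ℝ} (h0 : 0 ≤ ρ) (h1 : ρ ≤ 9/625) : beta ρ = 1 := by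
  unfold beta
  refine Real.smoothTransition.one_of_one_le ?_
  have h2 : ρ ^ 2 ≤ (9/625) ^ 2 := by gcongr
  have h3 : 1/4 ≤ (1/2500 - ρ ^ 2) / (1/2500 + ρ ^ 2) := by
    rw [le_div_iff₀ (by positivity)]
    nlinarith
  linarith

theorem beta_eq_zero {ρ : ℝ} (h : 1/36 ≤ ρ) : beta ρ = 0 := by
  unfold beta
  refine Real.smoothTransition.zero_of_nonpos ?_
  have h2 : (1/36) ^ 2 ≤ ρ ^ 2 := by gcongr
  have h3 : (1/2500 - ρ ^ 2) / (1/2500 + ρ ^ 2) ≤ -1/4 := by
    rw [div_le_iff₀ (by positivity)]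
    nlinarith
  linarith

theorem beta_add {ρ : ℝ} (h : 0 < ρ) : beta ρ + beta (1 / (2500 * ρ)) = 1 := by
  unfold beta
  have h1 : 1/2 + 2 * ((1/2500 - (1 / (2500 * ρ)) ^ 2) / (1/2500 + (1 / (2500 * ρ)) ^ 2)) =
      1 - (1/2 + 2 * ((1/2500 - ρ ^ 2) / (1/2500 + ρ ^ 2))) := by
    have h2 : (1/2500 - (1 / (2500 * ρ)) ^ 2) / (1/2500 + (1 / (2500 * ρ)) ^ 2) =
        -((1/2500 - ρ ^ 2) / (1/2500 + ρ ^ 2)) := by
      have h3 : (1/2500 + (1 / (2500 * ρ)) ^ 2 : ℝ) ≠ 0 := by positivity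
      have h4 : (1/2500 + ρ ^ 2 : ℝ) ≠ 0 := by positivity
      rw [← neg_div, div_eq_div_iff h3 h4]
      field_simp
      ring
    rw [h2]
    ring
  rw [h1]
  exact AlphaBeta_sigma _

end SphTw
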