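import Pool.Agent.Lib.MP_3f8e0b_gt.Defs

/-!
# Basic facts on étale quotients
-/

open Set Filter Topology
open scoped ContDiff Manifold

namespace SphTw

namespace Etale

theorem pr_of_mem {E : Type*} (S : Etale E) {x : E} (hx : x ∈ S.U) :
    S.pr x = Quot.mk _ ⟨x, hx⟩ := dif_pos hx

theorem pr_surj {E : Type*} (S : Etale E) (q : S.X) : ∃ x ∈ S.U, S.pr x = q := by
  induction q using Quot.ind with
  | mk x => exact ⟨x.1, x.2, S.pr_of_mem x.2⟩

variable {E : Type*} [NormedAddCommGroup E] [NormedSpace ℝ E] {S : Etale E}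

theorem Good.pr_eq_iff (hS : S.Good) {x z : E} (hx : x ∈ S.U) (hz : z ∈ S.U) :
    S.pr x = S.pr z ↔ S.r x z := by
  rw [S.pr_of_mem hx, S.pr_of_mem hz]
  have heq : Equivalence (fun x z : S.U => S.r x z) :=
    ⟨fun x => hS.refl x.2, fun h => hS.symm h, fun h h' => hS.trans h h'⟩
  exact (Quot.eq (r := fun x z : S.U => S.r x z)).trans heq.eqvGen_iff

theorem Good.pr_eq (hS : S.Good) {x z : E} (h : S.r x z) : S.pr x = S.pr z :=
  (hS.pr_eq_iff (hS.mem h).1 (hS.mem h).2).2 h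

theorem continuous_mk (S : Etale E) : Continuous (fun x : S.U => S.pr x) := by
  have : (fun x : S.U => S.pr x) = Quot.mk (fun x z : S.U => S.r x z) := by
    funext x; exact S.pr_of_mem x.2
  rw [this]; exact continuous_quot_mk

theorem Good.continuousOn_pr (_hS : S.Good) : ContinuousOn S.pr S.U := by
  rw [continuousOn_iff_continuous_domRestrict]
  exact S.continuous_mk

theorem Good.continuousAt_pr (hS : S.Good) {x : E} (hx : x ∈ S.U) : ContinuousAt S.pr x :=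
  hS.continuousOn_pr.continuousAt (hS.isOpen_U.mem_nhds hx)

/-- A map out of `X` is continuous as soon as its composition with `pr` is. -/
theorem Good.continuous_of (_hS : S.Good) {Y : Type*} [TopologicalSpace Y] {f : S.X → Y}
    (hf : ∀ x ∈ S.U, ContinuousAt (fun y => f (S.pr y)) x) : Continuous f := by
  have h1 : Continuous (fun x : S.U => f (Quot.mk (fun x z : S.U => S.r x z) x)) := by
    have h2 : ContinuousOn (fun y => f (S.pr y)) S.U := fun x hx => (hf x hx).continuousWithinAt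
    rw [continuousOn_iff_continuous_domRestrict] at h2
    refine h2.congr fun x => ?_
    simp only [Set.domRestrict_apply]
    rw [S.pr_of_mem x.2]
  refine continuous_coinduced_dom.2 ?_
  exact h1

/-- Local graphs move along. -/
theorem Good.graph_eventually (hS : S.Good) {x z : E} {g : E → E} (hg : S.IsGraph x z g) :
    ∀ᶠ y in 𝓝 x, S.r y (g y) := by
  obtain ⟨h1, h2, h3⟩ := hg
  have h4 : Tendsto (fun y => (y, g y)) (𝓝 x) (𝓝 (x, z)) := by
    have := h1.self_of_nhds.continuousAt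
    rw [ContinuousAt, h2] at this
    exact tendsto_id.prodMk_nhds this
  filter_upwards [h4.eventually h3] with y hy
  exact hy.2 rfl

theorem Good.isOpen_image (hS : S.Good) {V : Set E} (hV : IsOpen V) (hVU : V ⊆ S.U) :
    IsOpen (S.pr '' V) := by
  refine isOpen_coinduced.2 ?_
  rw [isOpen_induced_iff]
  refine ⟨{z | ∃ x ∈ V, S.r x z}, ?_, ?_⟩
  · rw [isOpen_iff_mem_nhds]
    rintro z ⟨x, hx, hxz⟩
    obtain ⟨g, hg⟩ := hS.graph (hS.symm hxz)
    have h1 := hS.graph_eventually hg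
    have h2 : ∀ᶠ y in 𝓝 z, g y ∈ V := by
      have := hg.1.self_of_nhds.continuousAt
      rw [ContinuousAt, hg.2.1] at this
      exact this.eventually (hV.mem_nhds hx)
    filter_upwards [h1, h2] with y hy1 hy2
    exact ⟨g y, hy2, hS.symm hy1⟩
  · ext z
    simp only [mem_preimage, mem_ofPred_eq, mem_image]
    constructor
    · rintro ⟨x, hx, hxz⟩
      refine ⟨x, hx, ?_⟩
      rw [hS.pr_eq hxz, S.pr_of_mem z.2]
    · rintro ⟨x, hx, hxz⟩
      refine ⟨x, hx, ?_⟩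
      rw [← S.pr_of_mem z.2] at hxz
      exact (hS.pr_eq_iff (hVU hx) z.2).1 hxz

theorem Good.map_pr_nhds (hS : S.Good) {x : E} (hx : x ∈ S.U) :
    Filter.map S.pr (𝓝 x) = 𝓝 (S.pr x) := by
  refine le_antisymm (hS.continuousAt_pr hx) ?_
  intro A hA
  rw [mem_map] at hA
  obtain ⟨V, hV1, hV2, hV3⟩ := mem_nhds_iff.1 (inter_mem hA (hS.isOpen_U.mem_nhds hx))
  refine mem_of_superset ((hS.isOpen_image hV2 fun y hy => (hV1 hy).2).mem_nhds
    (mem_image_of_mem _ hV3)) ?_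
  rintro _ ⟨y, hy, rfl⟩
  exact (hV1 hy).1

theorem Good.eventually_pr (hS : S.Good) {x : E} (hx : x ∈ S.U) {p : S.X → Prop} :
    (∀ᶠ q in 𝓝 (S.pr x), p q) ↔ ∀ᶠ y in 𝓝 x, p (S.pr y) := by
  rw [← hS.map_pr_nhds hx, eventually_map]

theorem Good.t2 (hS : S.Good) : T2Space S.X := by
  refine ⟨fun a b hab => ?_⟩
  obtain ⟨x, hx, rfl⟩ := S.pr_surj a
  obtain ⟨z, hz, rfl⟩ := S.pr_surj b
  have h1 : ¬ S.r x z := fun h => hab (hS.pr_eq h)
  have h2 := hS.closed hx hz h1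
  have h3 : ∀ᶠ p in 𝓝 ((x, z) : E × E), p.1 ∈ S.U ∧ p.2 ∈ S.U :=
    (hS.isOpen_U.prod hS.isOpen_U).mem_nhds ⟨hx, hz⟩
  have h4 := h2.and h3
  rw [nhds_prod_eq] at h4
  obtain ⟨pa, ha, pb, hb, h5⟩ := (eventually_prod_iff).1 h4
  obtain ⟨V, hV1, hV2, hV3⟩ := eventually_nhds_iff.1 ha
  obtain ⟨W, hW1, hW2, hW3⟩ := eventually_nhds_iff.1 hb
  have hVU : V ⊆ S.U := fun y hy => (h5 (hV1 y hy) (hW1 z hW3)).2.1
  have hWU : W ⊆ S.U := fun y hy => (h5 (hV1 x hV3) (hW1 y hy)).2.2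
  refine ⟨S.pr '' V, S.pr '' W, hS.isOpen_image hV2 hVU, hS.isOpen_image hW2 hWU,
    mem_image_of_mem _ hV3, mem_image_of_mem _ hW3, ?_⟩
  rw [disjoint_left]
  rintro _ ⟨y, hy, rfl⟩ ⟨w, hw, hyw⟩
  have h6 := (h5 (hV1 y hy) (hW1 w hw)).1
  exact h6 (hS.symm ((hS.pr_eq_iff (hWU hw) (hVU hy)).1 hyw))

/-- Two local graphs at the same pair agree near the point. -/
theorem Good.graph_unique (hS : S.Good) {x z : E} {g g' : E → E} (hg : S.IsGraph x z g)
    (hg' : S.IsGraph x z g') : g =ᶠ[𝓝 x] g' := by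
  have h4 : Tendsto (fun y => (y, g y)) (𝓝 x) (𝓝 (x, z)) := by
    have := hg.1.self_of_nhds.continuousAt
    rw [ContinuousAt, hg.2.1] at this
    exact tendsto_id.prodMk_nhds this
  filter_upwards [h4.eventually hg'.2.2, hS.graph_eventually hg] with y hy1 hy2
  exact hy1.1 hy2

/-- `pr` is injective near every point of `U`. -/
theorem Good.eventually_inj (hS : S.Good) {x : E} (hx : x ∈ S.U) :
    ∀ᶠ p in 𝓝 ((x, x) : E × E), (S.r p.1 p.2 ↔ p.1 = p.2) := by
  obtain ⟨g, hg⟩ := hS.graph (hS.refl hx)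
  have h1 : g =ᶠ[𝓝 x] id := by
    have h4 : Tendsto (fun y => ((y, y) : E × E)) (𝓝 x) (𝓝 (x, x)) :=
      tendsto_id.prodMk_nhds tendsto_id
    filter_upwards [h4.eventually hg.2.2, hS.isOpen_U.mem_nhds hx] with y hy hyU
    exact (hy.1 (hS.refl hyU)).symm
  have h2 : ∀ᶠ p in 𝓝 ((x, x) : E × E), g p.1 = p.1 := by
    rw [nhds_prod_eq]
    exact (tendsto_fst.eventually h1)
  filter_upwards [hg.2.2, h2] with p hp hp2
  rw [hp, hp2]
  exact eq_comm

/-- Uniqueness of local lifts up to a local graph. -/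
theorem Good.lift_eventually_r (hS : S.Good) {M : Type*} [TopologicalSpace M] {f : M → S.X}
    {a : M} {Z Z' : M → E} (hZ : ContinuousAt Z a) (hZ' : ContinuousAt Z' a)
    (h : ∀ᶠ p in 𝓝 a, Z p ∈ S.U ∧ S.pr (Z p) = f p)
    (h' : ∀ᶠ p in 𝓝 a, Z' p ∈ S.U ∧ S.pr (Z' p) = f p)
    {g : E → E} (hg : S.IsGraph (Z a) (Z' a) g) : ∀ᶠ p in 𝓝 a, Z' p = g (Z p) := by
  have h1 : Tendsto (fun p => (Z p, Z' p)) (𝓝 a) (𝓝 (Z a, Z' a)) := hZ.prodMk_nhds hZ'
  filter_upwards [h, h', h1.eventually hg.2.2] with p hp hp' hp2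
  exact hp2.1 ((hS.pr_eq_iff hp.1 hp'.1).1 (hp.2.trans hp'.2.symm))

end Etale

end SphTw
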