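import Pool.Agent.Lib.MP_3f8e0b_gt.Basic

/-!
# The derivative of the gluing map and the linear frame
-/

open Set Filter Topology MeasureTheory
open scoped ContDiff Manifold

noncomputable section

namespace SphTw

private theorem frameA_coord (x : E4) (i : Fin 4) :
    HasFDerivAt (fun y : E4 => y i) (EuclideanSpace.proj (𝕜 := ℝ) i : E4 →L[ℝ] ℝ) x :=
  (EuclideanSpace.proj (𝕜 := ℝ) i : E4 →L[ℝ] ℝ).hasFDerivAt

private theorem frameA_proj (i : Fin 4) (w : E4) :
    (EuclideanSpace.proj (𝕜 := ℝ) i : E4 →L[ℝ] ℝ) w = w i := rfl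

/-- The derivative of `dp`. -/
private def frameA_ddp (x : E4) : E4 →L[ℝ] ℝ :=
  (2 * (x 0 - 1/4)) • (EuclideanSpace.proj (𝕜 := ℝ) 0 : E4 →L[ℝ] ℝ)
    + (2 * (x 1 - 1/2)) • (EuclideanSpace.proj (𝕜 := ℝ) 1 : E4 →L[ℝ] ℝ)
    + (2 * (x 2 - 1/2)) • (EuclideanSpace.proj (𝕜 := ℝ) 2 : E4 →L[ℝ] ℝ)

private theorem frameA_sq (x : E4) (i : Fin 4) (c : ℝ) :
    HasFDerivAt (fun y : E4 => (y i - c) ^ 2)
      ((2 * (x i - c)) • (EuclideanSpace.proj (𝕜 := ℝ) i : E4 →L[ℝ] ℝ)) x := by
  have h := ((frameA_coord x i).sub_const c).pow 2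
  refine h.congr_fderiv ?_
  ext w
  simp

private theorem frameA_dp (x : E4) : HasFDerivAt dp (frameA_ddp x) x :=
  ((frameA_sq x 0 (1/4)).add (frameA_sq x 1 (1/2))).add (frameA_sq x 2 (1/2))

private theorem frameA_inv {x : E4} (hx : 0 < dp x) :
    HasFDerivAt (fun y : E4 => (50 * dp y)⁻¹) (-(50 * dp x ^ 2)⁻¹ • frameA_ddp x) x := by
  have h := (hasDerivAt_inv (x := 50 * dp x) (by positivity)).comp_hasFDerivAt x
    ((frameA_dp x).const_mul 50)
  refine h.congr_fderiv ?_
  ext w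
  simp only [_root_.smul_apply, smul_eq_mul]
  field_simp

private theorem frameA_ddp_apply (x w : E4) : frameA_ddp x w =
    2 * ((x 0 - 1/4) * w 0 + (x 1 - 1/2) * w 1 + (x 2 - 1/2) * w 2) := by
  simp only [frameA_ddp, _root_.add_apply, _root_.smul_apply, smul_eq_mul,
    frameA_proj]
  ring

private theorem frameA_cos (x : E4) : HasFDerivAt (fun y : E4 => Real.cos (2 * Real.pi * y 3))
    ((-Real.sin (2 * Real.pi * x 3) * (2 * Real.pi)) •
      (EuclideanSpace.proj (𝕜 := ℝ) 3 : E4 →L[ℝ] ℝ)) x := by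
  have h := (Real.hasDerivAt_cos (2 * Real.pi * x 3)).comp_hasFDerivAt x
    ((frameA_coord x 3).const_mul (2 * Real.pi))
  refine h.congr_fderiv ?_
  rw [smul_smul]

private theorem frameA_sin (x : E4) : HasFDerivAt (fun y : E4 => Real.sin (2 * Real.pi * y 3))
    ((Real.cos (2 * Real.pi * x 3) * (2 * Real.pi)) •
      (EuclideanSpace.proj (𝕜 := ℝ) 3 : E4 →L[ℝ] ℝ)) x := by
  have h := (Real.hasDerivAt_sin (2 * Real.pi * x 3)).comp_hasFDerivAt x
    ((frameA_coord x 3).const_mul (2 * Real.pi))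
  refine h.congr_fderiv ?_
  rw [smul_smul]

private theorem frameA_trig (x : E4) :
    Real.cos (Real.pi * 1 * (2 * x 3 + 1)) = - Real.cos (2 * Real.pi * x 3) ∧
      Real.sin (Real.pi * 1 * (2 * x 3 + 1)) = - Real.sin (2 * Real.pi * x 3) := by
  have h : Real.pi * 1 * (2 * x 3 + 1) = 2 * Real.pi * x 3 + Real.pi := by ring
  rw [h, Real.cos_add_pi, Real.sin_add_pi]
  exact ⟨rfl, rfl⟩

theorem fderiv_psi_eq {x : E4} (hx : 0 < dp x) :
    fderiv ℝ psi x = LinearMap.toContinuousLinearMap (bL 1 x) := by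
  apply HasFDerivAt.fderiv
  rw [← hasFDerivWithinAt_univ, hasFDerivWithinAt_euclidean]
  have hx0 : dp x ≠ 0 := hx.ne'
  obtain ⟨hc, hs⟩ := frameA_trig x
  intro i
  rw [hasFDerivWithinAt_univ]
  fin_cases i
  · have h := (((frameA_coord x 0).sub_const (1/4)).mul (frameA_inv hx)).const_sub (3/4)
    refine h.congr_fderiv ?_
    ext w
    simp only [_root_.neg_apply, _root_.add_apply, _root_.smul_apply, smul_eq_mul,
      frameA_proj, frameA_ddp_apply, ContinuousLinearMap.comp_apply,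
      LinearMap.coe_toContinuousLinearMap', PiLp.proj_apply]
    show _ = bf 1 x w 0
    simp only [bf, uu, P_zero]
    simp
    field_simp
  · have h := ((((frameA_cos x).mul ((frameA_coord x 1).sub_const (1/2))).sub
      ((frameA_sin x).mul ((frameA_coord x 2).sub_const (1/2)))).mul
        (frameA_inv hx)).const_add (1/2)
    refine h.congr_fderiv ?_
    ext w
    simp only [_root_.neg_apply, _root_.add_apply, _root_.sub_apply, _root_.smul_apply,
      smul_eq_mul,
      frameA_proj, frameA_ddp_apply, ContinuousLinearMap.comp_apply,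
      LinearMap.coe_toContinuousLinearMap', PiLp.proj_apply]
    show _ = bf 1 x w 1
    simp only [bf, uu, P_one, hc, hs]
    simp
    field_simp
    ring
  · have h := ((((frameA_sin x).mul ((frameA_coord x 1).sub_const (1/2))).add
      ((frameA_cos x).mul ((frameA_coord x 2).sub_const (1/2)))).mul
        (frameA_inv hx)).const_add (1/2)
    refine h.congr_fderiv ?_
    ext w
    simp only [_root_.neg_apply, _root_.add_apply, _root_.sub_apply, _root_.smul_apply,
      smul_eq_mul,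
      frameA_proj, frameA_ddp_apply, ContinuousLinearMap.comp_apply,
      LinearMap.coe_toContinuousLinearMap', PiLp.proj_apply]
    show _ = bf 1 x w 2
    simp only [bf, uu, P_two, hc, hs]
    simp
    field_simp
    ring
  · refine (frameA_coord x 3).congr_fderiv ?_
    ext w
    rfl

theorem bL_zero (x : E4) : bL 0 x = LinearMap.id := by
  ext w i
  show bf 0 x w i = w i
  fin_cases i <;> simp [bf, uu]

private theorem frameA_bf_zero {s : ℝ} {x : E4} (hs : s ∈ Icc (0 : ℝ) 1) (hx : 0 < dp x) {w : E4}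
    (h : bf s x w = 0) : w = 0 := by
  obtain ⟨hs0, hs1⟩ := hs
  set μ : ℝ := (1 - s) + s / (50 * dp x ^ 2) with hμ
  have hμpos : 0 < μ := by
    rcases hs0.eq_or_lt with h1 | h1
    · rw [hμ, ← h1]; norm_num
    · have : 0 < s / (50 * dp x ^ 2) := by positivity
      linarith
  have e3 : w 3 = 0 := by
    have := congrArg (fun z : E4 => z 3) h
    simpa [bf] using this
  have e0 : uu s x w 0 = 0 := by
    have h0 := congrArg (fun z : E4 => z 0) h
    have h1 : μ * uu s x w 0 = 0 := h0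
    exact (mul_eq_zero.mp h1).resolve_left hμpos.ne'
  set A : ℝ := Real.pi * s * (2 * x 3 + 1) with hA
  have e1 : Real.cos A * uu s x w 1 - Real.sin A * uu s x w 2 = 0 := by
    have h0 := congrArg (fun z : E4 => z 1) h
    have h1 : μ * (Real.cos A * uu s x w 1 - Real.sin A * uu s x w 2)
      + s * (2 * Real.pi / (50 * dp x)) * (- Real.sin (2 * Real.pi * x 3) * (x 1 - 1/2)
          - Real.cos (2 * Real.pi * x 3) * (x 2 - 1/2)) * w 3 = 0 := h0
    rw [e3, mul_zero, add_zero] at h1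
    exact (mul_eq_zero.mp h1).resolve_left hμpos.ne'
  have e2 : Real.sin A * uu s x w 1 + Real.cos A * uu s x w 2 = 0 := by
    have h0 := congrArg (fun z : E4 => z 2) h
    have h1 : μ * (Real.sin A * uu s x w 1 + Real.cos A * uu s x w 2)
      + s * (2 * Real.pi / (50 * dp x)) * (Real.cos (2 * Real.pi * x 3) * (x 1 - 1/2)
          - Real.sin (2 * Real.pi * x 3) * (x 2 - 1/2)) * w 3 = 0 := h0
    rw [e3, mul_zero, add_zero] at h1
    exact (mul_eq_zero.mp h1).resolve_left hμpos.ne'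
  have hcs := Real.sin_sq_add_cos_sq A
  have e1' : uu s x w 1 = 0 := by
    linear_combination (Real.cos A) * e1 + (Real.sin A) * e2 - uu s x w 1 * hcs
  have e2' : uu s x w 2 = 0 := by
    linear_combination (-Real.sin A) * e1 + (Real.cos A) * e2 - uu s x w 2 * hcs
  have key : uu s x w 0 ^ 2 + uu s x w 1 ^ 2 + uu s x w 2 ^ 2 =
      ((1 - s) ^ 2 + s ^ 2 * dp x) ^ 2 * (w 0 ^ 2 + w 1 ^ 2 + w 2 ^ 2) := by
    simp only [uu, dp]
    simp
    ring
  rw [e0, e1', e2'] at key
  have hq : 0 < (1 - s) ^ 2 + s ^ 2 * dp x := by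
    rcases hs0.eq_or_lt with h1 | h1
    · rw [← h1]; norm_num
    · positivity
  have hsum : w 0 ^ 2 + w 1 ^ 2 + w 2 ^ 2 = 0 := by
    have h1 : ((1 - s) ^ 2 + s ^ 2 * dp x) ^ 2 * (w 0 ^ 2 + w 1 ^ 2 + w 2 ^ 2) = 0 := by
      rw [← key]; norm_num
    exact (mul_eq_zero.mp h1).resolve_left (by positivity)
  have w0 : w 0 = 0 := by nlinarith [sq_nonneg (w 0), sq_nonneg (w 1), sq_nonneg (w 2)]
  have w1 : w 1 = 0 := by nlinarith [sq_nonneg (w 0), sq_nonneg (w 1), sq_nonneg (w 2)]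
  have w2 : w 2 = 0 := by nlinarith [sq_nonneg (w 0), sq_nonneg (w 1), sq_nonneg (w 2)]
  ext i
  fin_cases i
  · exact w0
  · exact w1
  · exact w2
  · exact e3

theorem bL_injective {s : ℝ} {x : E4} (hs : s ∈ Icc (0 : ℝ) 1) (hx : 0 < dp x) :
    Function.Injective (bL s x) := by
  rw [injective_iff_map_eq_zero]
  intro w hw
  exact frameA_bf_zero hs hx hw

end SphTw
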