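import Pool.Agent.Lib.MP_3f8e0b_gt.Psi
import Pool.Agent.Lib.MP_3f8e0b_gt.FrameA

/-!
# Change of variables along the gluing map
-/

open Set Filter Topology MeasureTheory
open scoped ContDiff Manifold

noncomputable section

namespace SphTw

/-- The standard basis. -/
private abbrev changeVar_b : Module.Basis (Fin 4) ℝ E4 := (EuclideanSpace.basisFun (Fin 4) ℝ).toBasis

private theorem changeVar_det (A : E4 →L[ℝ] E4) :
    A.det = Matrix.det (Matrix.of fun i j : Fin 4 => A (EuclideanSpace.single j 1) i) := by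
  rw [ContinuousLinearMap.det, ← LinearMap.det_toMatrix changeVar_b]
  congr 1

private theorem changeVar_det4 (a b c p d e f q g h i r : ℝ) :
    Matrix.det !![a, b, c, p; d, e, f, q; g, h, i, r; 0, 0, 0, 1]
      = a * (e * i - f * h) - b * (d * i - f * g) + c * (d * h - e * g) := by
  simp [Matrix.det_succ_row_zero, Fin.sum_univ_succ, Fin.succAbove]
  ring

private theorem changeVar_mat (x : E4) {C S : ℝ}
    (hC : Real.cos (Real.pi * 1 * (2 * x 3 + 1)) = C)
    (hS : Real.sin (Real.pi * 1 * (2 * x 3 + 1)) = S) :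
    (Matrix.of fun i j : Fin 4 => bf 1 x (EuclideanSpace.single j 1) i) =
    !![1 / (50 * dp x ^ 2) * (-dp x + 2 * (x 0 - 1/4) * (x 0 - 1/4)),
       1 / (50 * dp x ^ 2) * (2 * (x 1 - 1/2) * (x 0 - 1/4)),
       1 / (50 * dp x ^ 2) * (2 * (x 2 - 1/2) * (x 0 - 1/4)), 0;
       1 / (50 * dp x ^ 2) * (C * (2 * (x 0 - 1/4) * (x 1 - 1/2))
         - S * (2 * (x 0 - 1/4) * (x 2 - 1/2))),
       1 / (50 * dp x ^ 2) * (C * (-dp x + 2 * (x 1 - 1/2) * (x 1 - 1/2))
         - S * (2 * (x 1 - 1/2) * (x 2 - 1/2))),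
       1 / (50 * dp x ^ 2) * (C * (2 * (x 2 - 1/2) * (x 1 - 1/2))
         - S * (-dp x + 2 * (x 2 - 1/2) * (x 2 - 1/2))),
       bf 1 x (EuclideanSpace.single 3 1) 1;
       1 / (50 * dp x ^ 2) * (S * (2 * (x 0 - 1/4) * (x 1 - 1/2))
         + C * (2 * (x 0 - 1/4) * (x 2 - 1/2))),
       1 / (50 * dp x ^ 2) * (S * (-dp x + 2 * (x 1 - 1/2) * (x 1 - 1/2))
         + C * (2 * (x 1 - 1/2) * (x 2 - 1/2))),
       1 / (50 * dp x ^ 2) * (S * (2 * (x 2 - 1/2) * (x 1 - 1/2))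
         + C * (-dp x + 2 * (x 2 - 1/2) * (x 2 - 1/2))),
       bf 1 x (EuclideanSpace.single 3 1) 2;
       0, 0, 0, 1] := by
  rw [mul_one] at hC hS
  ext i j
  fin_cases i <;> fin_cases j <;> first | rfl | (simp [bf, uu, hC, hS])

theorem det_fderiv_psi_pos {x : E4} (hx : 0 < dp x) : 0 < (fderiv ℝ psi x).det := by
  have hc : Real.cos (Real.pi * 1 * (2 * x 3 + 1)) ^ 2 +
      Real.sin (Real.pi * 1 * (2 * x 3 + 1)) ^ 2 = 1 := by
    rw [add_comm]; exact Real.sin_sq_add_cos_sq _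
  have hx0 : dp x ≠ 0 := hx.ne'
  have key : (fderiv ℝ psi x).det = (1 / (50 * dp x)) ^ 3 := by
    rw [fderiv_psi_eq hx, changeVar_det]
    have h0 : ∀ j : Fin 4, (LinearMap.toContinuousLinearMap (bL 1 x))
        (EuclideanSpace.single j 1) = bf 1 x (EuclideanSpace.single j 1) := fun j => rfl
    simp only [h0]
    rw [changeVar_mat x rfl rfl, changeVar_det4]
    generalize Real.cos (Real.pi * 1 * (2 * x 3 + 1)) = C at hc ⊢
    generalize Real.sin (Real.pi * 1 * (2 * x 3 + 1)) = S at hc ⊢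
    have h1 : (1 / (50 * dp x)) ^ 3 = (1 / (50 * dp x ^ 2)) ^ 3 * dp x ^ 3 * (C ^ 2 + S ^ 2) := by
      rw [hc]
      field_simp
    rw [h1]
    generalize 1 / (50 * dp x ^ 2) = μ
    have h2 : dp x = (x 0 - 1/4) ^ 2 + (x 1 - 1/2) ^ 2 + (x 2 - 1/2) ^ 2 := rfl
    rw [h2]
    ring
  rw [key]
  positivity

private theorem changeVar_mapsTo {x : E4} (hx : x ∈ cell) (h1 : 1/100 < dp x)
    (h2 : dp x < 1/25) : psi x ∈ cell ∧ 1/100 < dm (psi x) ∧ dm (psi x) < 1/25 := by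
  refine ⟨?_, psi_lt_dm (by linarith) h2, psi_dm_lt h1⟩
  have hf := frac_psi h1
  intro i
  fin_cases i
  · show psi x 0 ∈ Ico (0 : ℝ) 1
    rw [← hf]
    exact ⟨Int.fract_nonneg _, Int.fract_lt_one _⟩
  · show psi x 1 ∈ Ico (0 : ℝ) 1
    rw [← hf]
    exact ⟨Int.fract_nonneg _, Int.fract_lt_one _⟩
  · show psi x 2 ∈ Ico (0 : ℝ) 1
    rw [← hf]
    exact ⟨Int.fract_nonneg _, Int.fract_lt_one _⟩
  · exact hx 3

private theorem changeVar_mapsTo' {x : E4} (hx : x ∈ cell) (h1 : 1/100 < dm x)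
    (h2 : dm x < 1/25) : psiInv x ∈ cell ∧ 1/100 < dp (psiInv x) ∧ dp (psiInv x) < 1/25 := by
  refine ⟨?_, psi_lt_dp (by linarith) h2, psi_dp_lt h1⟩
  have hf := frac_psiInv h1
  intro i
  fin_cases i
  · show psiInv x 0 ∈ Ico (0 : ℝ) 1
    rw [← hf]
    exact ⟨Int.fract_nonneg _, Int.fract_lt_one _⟩
  · show psiInv x 1 ∈ Ico (0 : ℝ) 1
    rw [← hf]
    exact ⟨Int.fract_nonneg _, Int.fract_lt_one _⟩
  · show psiInv x 2 ∈ Ico (0 : ℝ) 1
    rw [← hf]
    exact ⟨Int.fract_nonneg _, Int.fract_lt_one _⟩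
  · exact hx 3

private theorem changeVar_image :
    psi '' {x | x ∈ cell ∧ 1/100 < dp x ∧ dp x < 1/25} =
      {x | x ∈ cell ∧ 1/100 < dm x ∧ dm x < 1/25} := by
  apply Subset.antisymm
  · rintro _ ⟨x, ⟨h0, h1, h2⟩, rfl⟩
    exact changeVar_mapsTo h0 h1 h2
  · rintro x ⟨h0, h1, h2⟩
    exact ⟨psiInv x, changeVar_mapsTo' h0 h1 h2, psi_psiInv (by linarith)⟩

private theorem changeVar_meas :
    MeasurableSet {x : E4 | x ∈ cell ∧ 1/100 < dp x ∧ dp x < 1/25} := by
  have h1 : MeasurableSet cell := by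
    have : cell = ⋂ i : Fin 4, (fun x : E4 => x i) ⁻¹' Ico (0 : ℝ) 1 := by
      ext x
      simp [cell]
    rw [this]
    exact MeasurableSet.iInter fun i =>
      measurableSet_Ico.preimage (psi_contDiff_coord i).continuous.measurable
  have h2 : Measurable dp := psi_contDiff_dp.continuous.measurable
  exact h1.inter ((measurableSet_Ioi.preimage h2).inter (measurableSet_Iio.preimage h2))

theorem integral_psi (G : E4 → ℝ) :
    ∫ x in {x | x ∈ cell ∧ 1/100 < dm x ∧ dm x < 1/25}, G x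
      = ∫ x in {x | x ∈ cell ∧ 1/100 < dp x ∧ dp x < 1/25},
          (fderiv ℝ psi x).det * G (psi x) := by
  rw [← changeVar_image]
  have hpos : ∀ x ∈ {x : E4 | x ∈ cell ∧ 1/100 < dp x ∧ dp x < 1/25}, 0 < dp x :=
    fun x hx => lt_trans (by norm_num) hx.2.1
  rw [integral_image_eq_integral_abs_det_fderiv_smul volume changeVar_meas
    (fun x hx => ((contDiffAt_psi (hpos x hx)).differentiableAt (by simp)).hasFDerivAt.hasFDerivWithinAt)
    (fun x hx y hy hxy => by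
      rw [← psiInv_psi (hpos x hx), ← psiInv_psi (hpos y hy), hxy]) G]
  refine setIntegral_congr_fun changeVar_meas fun x hx => ?_
  show |(fderiv ℝ psi x).det| • G (psi x) = (fderiv ℝ psi x).det * G (psi x)
  rw [abs_of_pos (det_fderiv_psi_pos (hpos x hx)), smul_eq_mul]

private theorem changeVar_sum (w : E4) :
    w = ∑ k, w k • (EuclideanSpace.single k (1 : ℝ) : E4) := by
  have h := changeVar_b.sum_repr w
  simpa using h.symm

theorem jac_comp_psi {F : Fin 4 → E4 → ℝ} {x : E4} (hx : 0 < dp x)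
    (hF : ∀ i, DifferentiableAt ℝ (F i) (psi x)) :
    jac (fun i y => F i (psi y)) x = (fderiv ℝ psi x).det * jac F (psi x) := by
  have hpsi : DifferentiableAt ℝ psi x := (contDiffAt_psi hx).differentiableAt (by simp)
  rw [changeVar_det, mul_comm]
  unfold jac
  rw [← Matrix.det_mul]
  congr 1
  ext i j
  rw [Matrix.mul_apply]
  simp only [Matrix.of_apply]
  have h1 : fderiv ℝ (fun y => F i (psi y)) x = (fderiv ℝ (F i) (psi x)).comp (fderiv ℝ psi x) :=
    fderiv_comp x (hF i) hpsi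
  rw [h1, ContinuousLinearMap.comp_apply]
  conv_lhs => rw [changeVar_sum (fderiv ℝ psi x (EuclideanSpace.single j 1))]
  rw [map_sum]
  refine Finset.sum_congr rfl fun k _ => ?_
  rw [map_smul, smul_eq_mul, mul_comm]

end SphTw
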