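import Pool.Agent.Lib.MP_3f8e0b_gt.Frac

/-!
# The gluing map and its inverse
-/

open Set Filter Topology
open scoped ContDiff Manifold

namespace SphTw

theorem psi_cos_add_int (t : ℝ) (n : ℤ) :
    Real.cos (2 * Real.pi * (t + n)) = Real.cos (2 * Real.pi * t) := by
  have h : 2 * Real.pi * (t + n) = 2 * Real.pi * t + n * (2 * Real.pi) := by ring
  rw [h, Real.cos_add_int_mul_two_pi]

theorem psi_sin_add_int (t : ℝ) (n : ℤ) :
    Real.sin (2 * Real.pi * (t + n)) = Real.sin (2 * Real.pi * t) := by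
  have h : 2 * Real.pi * (t + n) = 2 * Real.pi * t + n * (2 * Real.pi) := by ring
  rw [h, Real.sin_add_int_mul_two_pi]

theorem dm_psi {x : E4} (hx : 0 < dp x) : dm (psi x) = 1 / (2500 * dp x) := by
  have hcs := Real.sin_sq_add_cos_sq (2 * Real.pi * x 3)
  have hN : dp x = (x 0 - 1/4) ^ 2 + (x 1 - 1/2) ^ 2 + (x 2 - 1/2) ^ 2 := rfl
  simp only [dm, psi, P_zero, P_one, P_two]
  generalize dp x = N at *
  generalize Real.cos (2 * Real.pi * x 3) = c at *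
  generalize Real.sin (2 * Real.pi * x 3) = s at *
  generalize x 0 - 1/4 = v0 at *
  generalize x 1 - 1/2 = v1 at *
  generalize x 2 - 1/2 = v2 at *
  have h1 : (3/4 - v0 / (50 * N) - 3/4) ^ 2 + (1/2 + (c * v1 - s * v2) / (50 * N) - 1/2) ^ 2
      + (1/2 + (s * v1 + c * v2) / (50 * N) - 1/2) ^ 2
      = (v0 ^ 2 + (s ^ 2 + c ^ 2) * (v1 ^ 2 + v2 ^ 2)) / (2500 * N ^ 2) := by
    field_simp
    ring
  rw [h1, hcs, one_mul, ← add_assoc, ← hN]
  field_simp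

theorem dp_psiInv {z : E4} (hz : 0 < dm z) : dp (psiInv z) = 1 / (2500 * dm z) := by
  have hcs := Real.sin_sq_add_cos_sq (2 * Real.pi * z 3)
  have hN : dm z = (z 0 - 3/4) ^ 2 + (z 1 - 1/2) ^ 2 + (z 2 - 1/2) ^ 2 := rfl
  simp only [dp, psiInv, P_zero, P_one, P_two]
  generalize dm z = N at *
  generalize Real.cos (2 * Real.pi * z 3) = c at *
  generalize Real.sin (2 * Real.pi * z 3) = s at *
  generalize z 0 - 3/4 = v0 at *
  generalize z 1 - 1/2 = v1 at *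
  generalize z 2 - 1/2 = v2 at *
  have h1 : (1/4 - v0 / (50 * N) - 1/4) ^ 2 + (1/2 + (c * v1 + s * v2) / (50 * N) - 1/2) ^ 2
      + (1/2 + (-s * v1 + c * v2) / (50 * N) - 1/2) ^ 2
      = (v0 ^ 2 + (s ^ 2 + c ^ 2) * (v1 ^ 2 + v2 ^ 2)) / (2500 * N ^ 2) := by
    field_simp
    ring
  rw [h1, hcs, one_mul, ← add_assoc, ← hN]
  field_simp

theorem psiInv_psi {x : E4} (hx : 0 < dp x) : psiInv (psi x) = x := by
  have hcs := Real.sin_sq_add_cos_sq (2 * Real.pi * x 3)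
  have hM := dm_psi hx
  ext i
  unfold psiInv
  rw [hM]
  fin_cases i
  · simp only [psi, P_zero, Fin.mk_zero, Fin.zero_eta]
    field_simp
    ring
  · simp only [psi, P_one, P_two, P_three, Fin.mk_one]
    generalize Real.cos (2 * Real.pi * x 3) = c at *
    generalize Real.sin (2 * Real.pi * x 3) = s at *
    have h1 : (1/2 + (c * (1/2 + (c * (x 1 - 1/2) - s * (x 2 - 1/2)) / (50 * dp x) - 1/2)
        + s * (1/2 + (s * (x 1 - 1/2) + c * (x 2 - 1/2)) / (50 * dp x) - 1/2))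
        / (50 * (1 / (2500 * dp x)))) = 1/2 + (s ^ 2 + c ^ 2) * (x 1 - 1/2) := by
      field_simp
      ring
    rw [h1, hcs]
    ring
  · simp only [psi, P_one, P_two, P_three, Fin.reduceFinMk]
    generalize Real.cos (2 * Real.pi * x 3) = c at *
    generalize Real.sin (2 * Real.pi * x 3) = s at *
    have h1 : (1/2 + (-s * (1/2 + (c * (x 1 - 1/2) - s * (x 2 - 1/2)) / (50 * dp x) - 1/2)
        + c * (1/2 + (s * (x 1 - 1/2) + c * (x 2 - 1/2)) / (50 * dp x) - 1/2))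
        / (50 * (1 / (2500 * dp x)))) = 1/2 + (s ^ 2 + c ^ 2) * (x 2 - 1/2) := by
      field_simp
      ring
    rw [h1, hcs]
    ring
  · simp [psi]

theorem psi_psiInv {z : E4} (hz : 0 < dm z) : psi (psiInv z) = z := by
  have hcs := Real.sin_sq_add_cos_sq (2 * Real.pi * z 3)
  have hM := dp_psiInv hz
  ext i
  unfold psi
  rw [hM]
  fin_cases i
  · simp only [psiInv, P_zero, Fin.mk_zero, Fin.zero_eta]
    field_simp
    ring
  · simp only [psiInv, P_one, P_two, P_three, Fin.mk_one]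
    generalize Real.cos (2 * Real.pi * z 3) = c at *
    generalize Real.sin (2 * Real.pi * z 3) = s at *
    have h1 : (1/2 + (c * (1/2 + (c * (z 1 - 1/2) + s * (z 2 - 1/2)) / (50 * dm z) - 1/2)
        - s * (1/2 + (-s * (z 1 - 1/2) + c * (z 2 - 1/2)) / (50 * dm z) - 1/2))
        / (50 * (1 / (2500 * dm z)))) = 1/2 + (s ^ 2 + c ^ 2) * (z 1 - 1/2) := by
      field_simp
      ring
    rw [h1, hcs]
    ring
  · simp only [psiInv, P_one, P_two, P_three, Fin.reduceFinMk]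
    generalize Real.cos (2 * Real.pi * z 3) = c at *
    generalize Real.sin (2 * Real.pi * z 3) = s at *
    have h1 : (1/2 + (s * (1/2 + (c * (z 1 - 1/2) + s * (z 2 - 1/2)) / (50 * dm z) - 1/2)
        + c * (1/2 + (-s * (z 1 - 1/2) + c * (z 2 - 1/2)) / (50 * dm z) - 1/2))
        / (50 * (1 / (2500 * dm z)))) = 1/2 + (s ^ 2 + c ^ 2) * (z 2 - 1/2) := by
      field_simp
      ring
    rw [h1, hcs]
    ring
  · simp [psiInv]

theorem psi_contDiff_coord (i : Fin 4) : ContDiff ℝ ∞ (fun y : E4 => y i) := by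
  fun_prop

theorem psi_contDiff_dp : ContDiff ℝ ∞ dp := by
  unfold dp
  fun_prop

theorem psi_contDiff_dm : ContDiff ℝ ∞ dm := by
  unfold dm
  fun_prop

theorem contDiffAt_psi {x : E4} (hx : 0 < dp x) : ContDiffAt ℝ ∞ psi x := by
  have h0 : (50 * dp x) ≠ 0 := by positivity
  have hd : ContDiffAt ℝ ∞ (fun y : E4 => 50 * dp y) x :=
    contDiffAt_const.mul psi_contDiff_dp.contDiffAt
  have hc : ContDiffAt ℝ ∞ (fun y : E4 => Real.cos (2 * Real.pi * y 3)) x := by fun_prop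
  have hs : ContDiffAt ℝ ∞ (fun y : E4 => Real.sin (2 * Real.pi * y 3)) x := by fun_prop
  have h1 : ContDiffAt ℝ ∞ (fun y : E4 => y 0 - 1/4) x := by fun_prop
  have h2 : ContDiffAt ℝ ∞ (fun y : E4 => y 1 - 1/2) x := by fun_prop
  have h3 : ContDiffAt ℝ ∞ (fun y : E4 => y 2 - 1/2) x := by fun_prop
  have h4 : ContDiffAt ℝ ∞ (fun y : E4 => y 3) x := by fun_prop
  rw [contDiffAt_euclidean]
  intro i
  fin_cases i
  · exact contDiffAt_const.sub (h1.div hd h0)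
  · exact contDiffAt_const.add (((hc.mul h2).sub (hs.mul h3)).div hd h0)
  · exact contDiffAt_const.add (((hs.mul h2).add (hc.mul h3)).div hd h0)
  · exact h4

theorem contDiffAt_psiInv {z : E4} (hz : 0 < dm z) : ContDiffAt ℝ ∞ psiInv z := by
  have h0 : (50 * dm z) ≠ 0 := by positivity
  have hd : ContDiffAt ℝ ∞ (fun y : E4 => 50 * dm y) z :=
    contDiffAt_const.mul psi_contDiff_dm.contDiffAt
  have hc : ContDiffAt ℝ ∞ (fun y : E4 => Real.cos (2 * Real.pi * y 3)) z := by fun_prop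
  have hs : ContDiffAt ℝ ∞ (fun y : E4 => Real.sin (2 * Real.pi * y 3)) z := by fun_prop
  have h1 : ContDiffAt ℝ ∞ (fun y : E4 => y 0 - 3/4) z := by fun_prop
  have h2 : ContDiffAt ℝ ∞ (fun y : E4 => y 1 - 1/2) z := by fun_prop
  have h3 : ContDiffAt ℝ ∞ (fun y : E4 => y 2 - 1/2) z := by fun_prop
  have h4 : ContDiffAt ℝ ∞ (fun y : E4 => y 3) z := by fun_prop
  rw [contDiffAt_euclidean]
  intro i
  fin_cases i
  · exact contDiffAt_const.sub (h1.div hd h0)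
  · exact contDiffAt_const.add (((hc.mul h2).add (hs.mul h3)).div hd h0)
  · exact contDiffAt_const.add (((hs.neg.mul h2).add (hc.mul h3)).div hd h0)
  · exact h4

theorem psi_dp_add_theta (x : E4) (t : ℝ) : dp (x + P 0 0 0 t) = dp x := by
  simp [dp]

theorem psi_dm_add_theta (x : E4) (t : ℝ) : dm (x + P 0 0 0 t) = dm x := by
  simp [dm]

theorem psi_add_theta (x : E4) (n : ℤ) : psi (x + P 0 0 0 n) = psi x + P 0 0 0 n := by
  ext i
  unfold psi
  rw [psi_dp_add_theta]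
  fin_cases i
  · simp
  · simp [psi_cos_add_int, psi_sin_add_int]
  · simp [psi_cos_add_int, psi_sin_add_int]
  · simp

theorem psiInv_add_theta (x : E4) (n : ℤ) :
    psiInv (x + P 0 0 0 n) = psiInv x + P 0 0 0 n := by
  ext i
  unfold psiInv
  rw [psi_dm_add_theta]
  fin_cases i
  · simp
  · simp [psi_cos_add_int, psi_sin_add_int]
  · simp [psi_cos_add_int, psi_sin_add_int]
  · simp

theorem psi_bounds_dm {z : E4} (h : dm z < 1/25) :
    (11/20 < z 0 ∧ z 0 < 19/20) ∧ (3/10 < z 1 ∧ z 1 < 7/10) ∧ (3/10 < z 2 ∧ z 2 < 7/10) := by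
  unfold dm at h
  have h0 : (z 0 - 3/4) ^ 2 < (1/5) ^ 2 := by
    nlinarith [sq_nonneg (z 1 - 1/2), sq_nonneg (z 2 - 1/2)]
  have h1 : (z 1 - 1/2) ^ 2 < (1/5) ^ 2 := by
    nlinarith [sq_nonneg (z 0 - 3/4), sq_nonneg (z 2 - 1/2)]
  have h2 : (z 2 - 1/2) ^ 2 < (1/5) ^ 2 := by
    nlinarith [sq_nonneg (z 0 - 3/4), sq_nonneg (z 1 - 1/2)]
  have h0' := abs_lt_of_sq_lt_sq' h0 (by norm_num)
  have h1' := abs_lt_of_sq_lt_sq' h1 (by norm_num)
  have h2' := abs_lt_of_sq_lt_sq' h2 (by norm_num)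
  refine ⟨⟨?_, ?_⟩, ⟨?_, ?_⟩, ⟨?_, ?_⟩⟩ <;> linarith [h0'.1, h0'.2, h1'.1, h1'.2, h2'.1, h2'.2]

theorem psi_bounds_dp {z : E4} (h : dp z < 1/25) :
    (1/20 < z 0 ∧ z 0 < 9/20) ∧ (3/10 < z 1 ∧ z 1 < 7/10) ∧ (3/10 < z 2 ∧ z 2 < 7/10) := by
  unfold dp at h
  have h0 : (z 0 - 1/4) ^ 2 < (1/5) ^ 2 := by
    nlinarith [sq_nonneg (z 1 - 1/2), sq_nonneg (z 2 - 1/2)]
  have h1 : (z 1 - 1/2) ^ 2 < (1/5) ^ 2 := by
    nlinarith [sq_nonneg (z 0 - 1/4), sq_nonneg (z 2 - 1/2)]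
  have h2 : (z 2 - 1/2) ^ 2 < (1/5) ^ 2 := by
    nlinarith [sq_nonneg (z 0 - 1/4), sq_nonneg (z 1 - 1/2)]
  have h0' := abs_lt_of_sq_lt_sq' h0 (by norm_num)
  have h1' := abs_lt_of_sq_lt_sq' h1 (by norm_num)
  have h2' := abs_lt_of_sq_lt_sq' h2 (by norm_num)
  refine ⟨⟨?_, ?_⟩, ⟨?_, ?_⟩, ⟨?_, ?_⟩⟩ <;> linarith [h0'.1, h0'.2, h1'.1, h1'.2, h2'.1, h2'.2]

theorem psi_dp_of_dm {z : E4} (h : dm z < 1/25) : 9/100 < dp z := by
  have h1 := (psi_bounds_dm h).1.1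
  unfold dp
  nlinarith [sq_nonneg (z 1 - 1/2), sq_nonneg (z 2 - 1/2)]

theorem psi_dm_of_dp {z : E4} (h : dp z < 1/25) : 9/100 < dm z := by
  have h1 := (psi_bounds_dp h).1.2
  unfold dm
  nlinarith [sq_nonneg (z 1 - 1/2), sq_nonneg (z 2 - 1/2)]

theorem psi_dm_lt {x : E4} (h1 : 1/100 < dp x) : dm (psi x) < 1/25 := by
  rw [dm_psi (by linarith), div_lt_div_iff₀ (by linarith) (by norm_num)]
  linarith

theorem psi_dp_lt {x : E4} (h1 : 1/100 < dm x) : dp (psiInv x) < 1/25 := by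
  rw [dp_psiInv (by linarith), div_lt_div_iff₀ (by linarith) (by norm_num)]
  linarith

theorem psi_lt_dm {x : E4} (h0 : 0 < dp x) (h1 : dp x < 1/25) : 1/100 < dm (psi x) := by
  rw [dm_psi h0, div_lt_div_iff₀ (by norm_num) (by linarith)]
  linarith

theorem psi_lt_dp {x : E4} (h0 : 0 < dm x) (h1 : dm x < 1/25) : 1/100 < dp (psiInv x) := by
  rw [dp_psiInv h0, div_lt_div_iff₀ (by norm_num) (by linarith)]
  linarith

theorem psi_frac_of_dm {z : E4} (h : dm z < 1/25) : frac z = z := by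
  have h1 := psi_bounds_dm h
  apply frac_eq_self <;> constructor <;> linarith [h1.1.1, h1.1.2, h1.2.1.1, h1.2.1.2,
    h1.2.2.1, h1.2.2.2]

theorem psi_frac_of_dp {z : E4} (h : dp z < 1/25) : frac z = z := by
  have h1 := psi_bounds_dp h
  apply frac_eq_self <;> constructor <;> linarith [h1.1.1, h1.1.2, h1.2.1.1, h1.2.1.2,
    h1.2.2.1, h1.2.2.2]

theorem frac_psi {x : E4} (h1 : 1/100 < dp x) : frac (psi x) = psi x :=
  psi_frac_of_dm (psi_dm_lt h1)

theorem frac_psiInv {x : E4} (h1 : 1/100 < dm x) : frac (psiInv x) = psiInv x :=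
  psi_frac_of_dp (psi_dp_lt h1)

theorem psi_mem {x : E4} (h1 : 1/100 < dp x) (h2 : dp x < 1/25) : psi x ∈ U0 := by
  show 1/100 < dp (frac (psi x)) ∧ 1/100 < dm (frac (psi x))
  rw [frac_psi h1]
  exact ⟨by linarith [psi_dp_of_dm (psi_dm_lt h1)], psi_lt_dm (by linarith) h2⟩

theorem psiInv_mem {x : E4} (h1 : 1/100 < dm x) (h2 : dm x < 1/25) : psiInv x ∈ U0 := by
  show 1/100 < dp (frac (psiInv x)) ∧ 1/100 < dm (frac (psiInv x))
  rw [frac_psiInv h1]
  exact ⟨psi_lt_dp (by linarith) h2, by linarith [psi_dm_of_dp (psi_dp_lt h1)]⟩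

end SphTw
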