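import Pool.Agent.Lib.MP_3f8e0b_gt.Frac
import Pool.Agent.Lib.MP_3f8e0b_gt.Psi
import Pool.Agent.Lib.MP_3f8e0b_gt.AlphaBeta

/-!
# Facts on the partition weight `chi`
-/

open Set Filter Topology
open scoped ContDiff Manifold

namespace SphTw

theorem ChiFacts_dp_contDiff : ContDiff ℝ ∞ dp := by
  unfold dp
  fun_prop

theorem ChiFacts_dm_contDiff : ContDiff ℝ ∞ dm := by
  unfold dm
  fun_prop

theorem chi_contDiff : ContDiff ℝ ∞ chi := by
  rw [contDiff_iff_contDiffAt]
  intro x
  have h1 : ContDiffAt ℝ ∞ (fun y => beta (dp (frac y))) x :=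
    contDiffAt_comp_frac (f := fun y => beta (dp y)) (c := 0)
      (fun y hy _ => beta_eq_zero (by linarith))
      (beta_contDiff.comp ChiFacts_dp_contDiff).contDiffAt
  have h2 : ContDiffAt ℝ ∞ (fun y => beta (dm (frac y))) x :=
    contDiffAt_comp_frac (f := fun y => beta (dm y)) (c := 0)
      (fun y _ hy => beta_eq_zero (by linarith))
      (beta_contDiff.comp ChiFacts_dm_contDiff).contDiffAt
  exact (contDiffAt_const.sub h1).sub h2

theorem chi_add_tr (x : E4) (m : Fin 4 → ℤ) : chi (x + tr m) = chi x := by
  unfold chi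
  rw [dp_frac_add_tr, dm_frac_add_tr]

theorem ChiFacts_dp_nonneg (x : E4) : 0 ≤ dp x := by
  unfold dp
  positivity

theorem ChiFacts_dm_nonneg (x : E4) : 0 ≤ dm x := by
  unfold dm
  positivity

theorem ChiFacts_zero_dp {x : E4} (h : dp (frac x) < 9/625) : chi x = 0 := by
  unfold chi
  have h1 : 1/16 ≤ dm (frac x) := by
    by_contra h'
    push Not at h'
    exact not_dp_dm (by linarith) h'
  rw [beta_eq_one (ChiFacts_dp_nonneg _) h.le, beta_eq_zero (by linarith)]
  norm_num

theorem ChiFacts_zero_dm {x : E4} (h : dm (frac x) < 9/625) : chi x = 0 := by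
  unfold chi
  have h1 : 1/16 ≤ dp (frac x) := by
    by_contra h'
    push Not at h'
    exact not_dp_dm h' (by linarith)
  rw [beta_eq_one (ChiFacts_dm_nonneg _) h.le, beta_eq_zero (by linarith)]
  norm_num

theorem tsupport_chi : tsupport chi ⊆ U0 := by
  intro x hx
  by_contra hU
  rcases frac_cases x with h | h
  · refine absurd hx ?_
    rw [notMem_tsupport_iff_eventuallyEq]
    · have hx' : dp (x - tr (fl x)) < 9/625 ∨ dm (x - tr (fl x)) < 9/625 := by
        by_contra h'
        push Not at h'
        apply hU
        show 1/100 < dp (frac x) ∧ 1/100 < dm (frac x)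
        rw [frac_eq]
        constructor <;> linarith [h'.1, h'.2]
      rcases hx' with hx' | hx'
      · have h1 : Continuous (fun y : E4 => dp (y - tr (fl x))) :=
          frac_dp_continuous.comp (continuous_id.sub continuous_const)
        filter_upwards [h, h1.continuousAt.eventually (gt_mem_nhds hx')] with y hy hy1
        apply ChiFacts_zero_dp
        rw [hy]
        exact hy1
      · have h1 : Continuous (fun y : E4 => dm (y - tr (fl x))) :=
          frac_dm_continuous.comp (continuous_id.sub continuous_const)
        filter_upwards [h, h1.continuousAt.eventually (gt_mem_nhds hx')] with y hy hy1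
        apply ChiFacts_zero_dm
        rw [hy]
        exact hy1
  · apply hU
    have := h.self_of_nhds
    exact ⟨by linarith [this.1], by linarith [this.2]⟩

theorem chi_psi {x : E4} (h1 : 1/100 < dp x) (h2 : dp x < 1/25) (h0 : frac x = x) :
    chi (psi x) = 1 - chi x := by
  have hpos : 0 < dp x := by linarith
  have e1 : frac (psi x) = psi x := frac_psi h1
  have e2 : dm (psi x) = 1 / (2500 * dp x) := dm_psi hpos
  have h3 : 1 / (2500 * dp x) < 1/25 := by
    rw [div_lt_div_iff₀ (by positivity) (by norm_num)]
    linarith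
  have h4 : 1/16 ≤ dp (psi x) := by
    by_contra h'
    push Not at h'
    exact not_dp_dm h' (by rw [e2]; linarith)
  have h5 : 1/16 ≤ dm x := by
    by_contra h'
    push Not at h'
    exact not_dp_dm (by linarith) h'
  unfold chi
  rw [e1, h0, e2, beta_eq_zero (ρ := dp (psi x)) (by linarith),
    beta_eq_zero (ρ := dm x) (by linarith)]
  linarith [beta_add hpos]

end SphTw
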