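import Pool.Agent.Lib.MP_3f8e0b_gt.Basic

/-!
# The reduction `frac` and the open set `U0`
-/

open Set Filter Topology
open scoped ContDiff Manifold

namespace SphTw

theorem frac_eq (x : E4) : frac x = x - tr (fl x) := by
  ext i
  fin_cases i
  · show Int.fract (x 0) = x 0 - ((⌊x 0⌋ : ℤ) : ℝ)
    rfl
  · show Int.fract (x 1) = x 1 - ((⌊x 1⌋ : ℤ) : ℝ)
    rfl
  · show Int.fract (x 2) = x 2 - ((⌊x 2⌋ : ℤ) : ℝ)
    rfl
  · show x 3 = x 3 - ((0 : ℤ) : ℝ)
    simp

theorem frac_add_tr (x : E4) (m : Fin 4 → ℤ) : frac (x + tr m) = frac x + P 0 0 0 (m 3) := by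
  ext i
  fin_cases i <;> simp [frac]

theorem frac_eq_self {x : E4} (h0 : x 0 ∈ Ico (0 : ℝ) 1) (h1 : x 1 ∈ Ico (0 : ℝ) 1)
    (h2 : x 2 ∈ Ico (0 : ℝ) 1) : frac x = x := by
  ext i
  fin_cases i
  · simpa [frac] using Int.fract_eq_self.2 h0
  · simpa [frac] using Int.fract_eq_self.2 h1
  · simpa [frac] using Int.fract_eq_self.2 h2
  · simp [frac]

theorem dp_frac_add_tr (x : E4) (m : Fin 4 → ℤ) : dp (frac (x + tr m)) = dp (frac x) := by
  rw [frac_add_tr]
  simp [dp]

theorem dm_frac_add_tr (x : E4) (m : Fin 4 → ℤ) : dm (frac (x + tr m)) = dm (frac x) := by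
  rw [frac_add_tr]
  simp [dm]

theorem frac_frac (x : E4) : frac (frac x) = frac x := by
  ext i
  fin_cases i <;> simp [frac]

theorem not_dp_dm {x : E4} (h : dp x < 1/16) (h' : dm x < 1/16) : False := by
  unfold dp at h
  unfold dm at h'
  nlinarith [sq_nonneg (x 1 - 1/2), sq_nonneg (x 2 - 1/2), sq_nonneg (x 0 - 1/2)]

/-- Near an integer, the fractional part is close to `0` or to `1`. -/
theorem frac_near_int {t : ℝ} {n : ℤ} (h : |t - n| < 1/100) :
    Int.fract t < 1/100 ∨ 99/100 < Int.fract t := by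
  rw [abs_lt] at h
  by_cases h0 : (n : ℝ) ≤ t
  · left
    have h1 : ⌊t⌋ = n := by
      rw [Int.floor_eq_iff]
      constructor <;> linarith [h.2]
    rw [Int.fract, h1]
    linarith [h.2]
  · right
    push Not at h0
    have h1 : ⌊t⌋ = n - 1 := by
      rw [Int.floor_eq_iff]
      push_cast
      constructor <;> linarith [h.1]
    rw [Int.fract, h1]
    push_cast
    linarith [h.1]

theorem frac_coord_tendsto (x : E4) (i : Fin 4) :
    Tendsto (fun y : E4 => y i) (𝓝 x) (𝓝 (x i)) := by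
  have : Continuous (fun y : E4 => y i) := by fun_prop
  exact this.continuousAt

theorem frac_floor_eventually {x : E4} {i : Fin 4} (h : ∀ n : ℤ, x i ≠ n) :
    ∀ᶠ y in 𝓝 x, ⌊y i⌋ = ⌊x i⌋ := by
  have h1 : x i ∈ Ioo ((⌊x i⌋ : ℤ) : ℝ) (⌊x i⌋ + 1) :=
    ⟨lt_of_le_of_ne (Int.floor_le _) (Ne.symm (h _)), Int.lt_floor_add_one _⟩
  filter_upwards [(frac_coord_tendsto x i).eventually (isOpen_Ioo.mem_nhds h1)] with y hy
  rw [Int.floor_eq_iff]
  exact ⟨hy.1.le, hy.2⟩

theorem frac_cases (x : E4) :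
    (∀ᶠ y in 𝓝 x, frac y = y - tr (fl x)) ∨
      (∀ᶠ y in 𝓝 x, 1/18 < dp (frac y) ∧ 1/18 < dm (frac y)) := by
  have hnear : ∀ i : Fin 4, (∃ n : ℤ, x i = n) →
      ∀ᶠ y in 𝓝 x, Int.fract (y i) < 1/100 ∨ 99/100 < Int.fract (y i) := by
    rintro i ⟨n, hn⟩
    have h1 := (frac_coord_tendsto x i).eventually (Metric.ball_mem_nhds (x i) (ε := 1/100)
      (by norm_num))
    filter_upwards [h1] with y hy
    apply frac_near_int (n := n)
    rw [← hn]
    rw [Real.dist_eq] at hy
    exact hy
  by_cases h0 : ∃ n : ℤ, x 0 = n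
  · right
    filter_upwards [hnear 0 h0] with y hy
    have hp := Int.fract_nonneg (y 0)
    have hp' := Int.fract_lt_one (y 0)
    simp only [dp, dm, frac, P_zero, P_one, P_two]
    have h1 := sq_nonneg (Int.fract (y 1) - 1/2)
    have h2 := sq_nonneg (Int.fract (y 2) - 1/2)
    rcases hy with hy | hy
    · constructor <;> nlinarith
    · constructor <;> nlinarith
  by_cases h1 : ∃ n : ℤ, x 1 = n
  · right
    filter_upwards [hnear 1 h1] with y hy
    have hp := Int.fract_nonneg (y 1)
    have hp' := Int.fract_lt_one (y 1)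
    simp only [dp, dm, frac, P_zero, P_one, P_two]
    have h1 := sq_nonneg (Int.fract (y 0) - 1/4)
    have h1' := sq_nonneg (Int.fract (y 0) - 3/4)
    have h2 := sq_nonneg (Int.fract (y 2) - 1/2)
    rcases hy with hy | hy
    · constructor <;> nlinarith
    · constructor <;> nlinarith
  by_cases h2 : ∃ n : ℤ, x 2 = n
  · right
    filter_upwards [hnear 2 h2] with y hy
    have hp := Int.fract_nonneg (y 2)
    have hp' := Int.fract_lt_one (y 2)
    simp only [dp, dm, frac, P_zero, P_one, P_two]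
    have h1 := sq_nonneg (Int.fract (y 0) - 1/4)
    have h1' := sq_nonneg (Int.fract (y 0) - 3/4)
    have h2 := sq_nonneg (Int.fract (y 1) - 1/2)
    rcases hy with hy | hy
    · constructor <;> nlinarith
    · constructor <;> nlinarith
  · left
    push Not at h0 h1 h2
    filter_upwards [frac_floor_eventually h0, frac_floor_eventually h1,
      frac_floor_eventually h2] with y hy0 hy1 hy2
    rw [frac_eq]
    congr 2
    simp only [fl, hy0, hy1, hy2]

theorem contDiffAt_comp_frac {G : Type*} [NormedAddCommGroup G] [NormedSpace ℝ G]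
    {f : E4 → G} {c : G} {x : E4}
    (hc : ∀ y, 1/18 < dp (frac y) → 1/18 < dm (frac y) → f (frac y) = c)
    (hf : ContDiffAt ℝ ∞ f (frac x)) : ContDiffAt ℝ ∞ (fun y => f (frac y)) x := by
  rcases frac_cases x with h | h
  · have h1 : ContDiffAt ℝ ∞ (fun y => f (y - tr (fl x))) x := by
      rw [frac_eq] at hf
      exact hf.comp x (contDiffAt_id.sub contDiffAt_const)
    refine h1.congr_of_eventuallyEq ?_
    filter_upwards [h] with y hy
    rw [hy]
  · refine (contDiffAt_const (c := c)).congr_of_eventuallyEq ?_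
    filter_upwards [h] with y hy
    exact hc y hy.1 hy.2

theorem frac_dp_continuous : Continuous dp := by
  unfold dp
  fun_prop

theorem frac_dm_continuous : Continuous dm := by
  unfold dm
  fun_prop

theorem isOpen_U0 : IsOpen U0 := by
  rw [isOpen_iff_mem_nhds]
  intro x hx
  rcases frac_cases x with h | h
  · have hx' : 1/100 < dp (x - tr (fl x)) ∧ 1/100 < dm (x - tr (fl x)) := by
      have := hx
      rw [U0, Set.mem_ofPred_eq, frac_eq] at this
      exact this
    have h1 : Continuous (fun y : E4 => dp (y - tr (fl x))) :=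
      frac_dp_continuous.comp (continuous_id.sub continuous_const)
    have h2 : Continuous (fun y : E4 => dm (y - tr (fl x))) :=
      frac_dm_continuous.comp (continuous_id.sub continuous_const)
    filter_upwards [h, h1.continuousAt.eventually (lt_mem_nhds hx'.1),
      h2.continuousAt.eventually (lt_mem_nhds hx'.2)] with y hy hy1 hy2
    show 1/100 < dp (frac y) ∧ 1/100 < dm (frac y)
    rw [hy]
    exact ⟨hy1, hy2⟩
  · filter_upwards [h] with y hy
    exact ⟨by linarith [hy.1], by linarith [hy.2]⟩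

theorem add_tr_mem_U0 {x : E4} (hx : x ∈ U0) (m : Fin 4 → ℤ) : x + tr m ∈ U0 := by
  show 1/100 < dp (frac (x + tr m)) ∧ 1/100 < dm (frac (x + tr m))
  rw [dp_frac_add_tr, dm_frac_add_tr]
  exact hx

end SphTw
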