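import Pool.Agent.Lib.MP_3f8e0b_gt.Psi

/-!
# The relation of the example is an equivalence relation on `U0`
-/

open Set Filter Topology
open scoped ContDiff Manifold

noncomputable section

namespace SphTw

theorem rel_tr_add (m n : Fin 4 → ℤ) : tr (m + n) = tr m + tr n := by
  ext i
  simp

theorem rel_tr_sub (m n : Fin 4 → ℤ) : tr (m - n) = tr m - tr n := by
  ext i
  simp

theorem rel_tr_neg (m : Fin 4 → ℤ) : tr (-m) = - tr m := by
  ext i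
  simp

theorem rel_tr_zero : tr 0 = 0 := by
  ext i
  simp

theorem rel_P_tr (n : ℤ) : P 0 0 0 (n : ℝ) = tr ![0, 0, 0, n] := by
  ext i
  fin_cases i <;> simp [tr]

theorem rel_frac_tr (x : E4) (m : Fin 4 → ℤ) :
    frac (x + tr m) = frac x + tr ![0, 0, 0, m 3] := by
  rw [frac_add_tr, rel_P_tr]

theorem rel_psi_frac_tr (x : E4) (m : Fin 4 → ℤ) :
    psi (frac (x + tr m)) = psi (frac x) + tr ![0, 0, 0, m 3] := by
  rw [frac_add_tr, psi_add_theta, rel_P_tr]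

theorem rel_not {x : E4} {m : Fin 4 → ℤ} (h1 : 1/100 < dp (frac x))
    (h2 : dp (frac (psi (frac x) + tr m)) < 1/25) : False := by
  rw [dp_frac_add_tr, frac_psi h1] at h2
  have h3 := psi_dm_lt h1
  exact not_dp_dm (x := psi (frac x)) (by linarith) (by linarith)

theorem r0_refl {x : E4} (hx : x ∈ U0) : r0 x x :=
  ⟨hx, hx, Or.inl ⟨0, by rw [rel_tr_zero, add_zero]⟩⟩

theorem r0_symm {x z : E4} (h : r0 x z) : r0 z x := by
  obtain ⟨hx, hz, h⟩ := h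
  refine ⟨hz, hx, ?_⟩
  rcases h with ⟨m, rfl⟩ | h | h
  · exact Or.inl ⟨-m, by rw [rel_tr_neg, add_neg_cancel_right]⟩
  · exact Or.inr (Or.inr h)
  · exact Or.inr (Or.inl h)

theorem rel_inj {x z : E4} (hx : 1/100 < dp (frac x)) (hz : 1/100 < dp (frac z))
    {m n : Fin 4 → ℤ} (h : psi (frac x) + tr m = psi (frac z) + tr n) :
    ∃ k, z = x + tr k := by
  have h1 : psi (frac x) = psi (frac z) + tr (n - m) := by
    rw [rel_tr_sub, add_sub, ← h, add_sub_cancel_right]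
  have h2 : psi (frac x) = psi (frac z + P 0 0 0 ((n - m) 3 : ℤ)) := by
    rw [psi_add_theta]
    have h3 := congrArg frac h1
    rw [frac_psi hx, frac_add_tr, frac_psi hz] at h3
    exact h3
  have h3 : frac x = frac z + P 0 0 0 ((n - m) 3 : ℤ) := by
    rw [← psiInv_psi (by linarith : 0 < dp (frac x)), h2, psiInv_psi]
    rw [psi_dp_add_theta]
    linarith
  rw [rel_P_tr, frac_eq, frac_eq] at h3
  refine ⟨fl z - fl x - ![0, 0, 0, (n - m) 3], ?_⟩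
  rw [rel_tr_sub, rel_tr_sub]
  have h4 : z = x - tr (fl x) + tr (fl z) - tr ![0, 0, 0, (n - m) 3] := by
    rw [h3]
    abel
  refine h4.trans ?_
  abel

theorem r0_trans {x y z : E4} (h : r0 x y) (h' : r0 y z) : r0 x z := by
  obtain ⟨hx, hy, h⟩ := h
  obtain ⟨-, hz, h'⟩ := h'
  refine ⟨hx, hz, ?_⟩
  rcases h with ⟨m, rfl⟩ | ⟨h1, m, rfl⟩ | ⟨h1, m, rfl⟩
  · rcases h' with ⟨n, rfl⟩ | ⟨h2, n, rfl⟩ | ⟨h2, n, h3⟩
    · exact Or.inl ⟨m + n, by rw [rel_tr_add, add_assoc]⟩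
    · refine Or.inr (Or.inl ⟨by rwa [dp_frac_add_tr] at h2, ![0, 0, 0, m 3] + n, ?_⟩)
      rw [rel_psi_frac_tr, rel_tr_add, add_assoc]
    · refine Or.inr (Or.inr ⟨h2, n - m, ?_⟩)
      rw [rel_tr_sub, add_sub, ← h3, add_sub_cancel_right]
  · rcases h' with ⟨n, rfl⟩ | ⟨h2, n, rfl⟩ | ⟨h2, n, h3⟩
    · exact Or.inr (Or.inl ⟨h1, m + n, by rw [rel_tr_add, add_assoc]⟩)
    · exact (rel_not hx.1 h2).elim
    · exact Or.inl (rel_inj hx.1 hz.1 h3)
  · rcases h' with ⟨n, rfl⟩ | ⟨h2, n, rfl⟩ | ⟨h2, n, rfl⟩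
    · refine Or.inr (Or.inr ⟨by rwa [dp_frac_add_tr], m - ![0, 0, 0, n 3], ?_⟩)
      rw [rel_psi_frac_tr, rel_tr_sub]
      abel
    · exact Or.inl ⟨n - m, by rw [rel_tr_sub]; abel⟩
    · exact (rel_not hz.1 h1).elim

theorem r0_psi {x : E4} (h1 : 1/100 < dp x) (h2 : dp x < 1/25)
    (h0 : frac x = x) : r0 x (psi x) := by
  refine ⟨⟨by rwa [h0], ?_⟩, psi_mem h1 h2, Or.inr (Or.inl ⟨by rwa [h0], 0, ?_⟩)⟩
  · rw [h0]
    have := psi_dm_of_dp h2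
    linarith
  · rw [h0, rel_tr_zero, add_zero]

theorem r0_tr {x : E4} (hx : x ∈ U0) (m : Fin 4 → ℤ) : r0 x (x + tr m) :=
  ⟨hx, add_tr_mem_U0 hx m, Or.inl ⟨m, rfl⟩⟩

end SphTw
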