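import Pool.Agent.Lib.MP_3f8e0b_gt.Basic

/-!
# Divergence of the cofactor field
-/

open Set Filter Topology MeasureTheory
open scoped ContDiff Manifold

noncomputable section

namespace SphTw

/-- the Jacobian matrix -/
def CofDiv_M (F : Fin 4 → E4 → ℝ) (x : E4) : Matrix (Fin 4) (Fin 4) ℝ :=
  Matrix.of fun i l : Fin 4 => fderiv ℝ (F i) x (EuclideanSpace.single l 1)

theorem CofDiv_cof_eq (F : Fin 4 → E4 → ℝ) (j k : Fin 4) (x : E4) :
    cof F j k x = ((CofDiv_M F x).updateRow j (Pi.single k 1)).det := by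
  unfold cof CofDiv_M
  congr 1
  ext i l
  simp only [Matrix.of_apply, Matrix.updateRow_apply, Pi.single_apply]

theorem jac_eq_sum_cof (F : Fin 4 → E4 → ℝ) (j : Fin 4) (x : E4) :
    jac F x = ∑ k, fderiv ℝ (F j) x (EuclideanSpace.single k 1) * cof F j k x := by
  have h := Matrix.det_eq_sum_mul_adjugate_row (CofDiv_M F x) j
  have e : jac F x = (CofDiv_M F x).det := rfl
  rw [e, h]
  refine Finset.sum_congr rfl (fun k _ => ?_)
  rw [Matrix.adjugate_apply, CofDiv_cof_eq]
  rfl

theorem CofDiv_fd {f : E4 → ℝ} {x : E4} (hf : ContDiffAt ℝ ∞ f x) (v : E4) :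
    ContDiffAt ℝ ∞ (fun y => fderiv ℝ f y v) x :=
  (hf.fderiv_right (m := ∞) (by simp)).clm_apply contDiffAt_const

theorem cof_contDiffAt {F : Fin 4 → E4 → ℝ} {j k : Fin 4} {x : E4}
    (hF : ∀ i, i ≠ j → ContDiffAt ℝ ∞ (F i) x) : ContDiffAt ℝ ∞ (cof F j k) x := by
  unfold cof
  simp only [Matrix.det_apply, Matrix.of_apply]
  refine ContDiffAt.sum (fun σ _ => ?_)
  refine ContDiffAt.const_smul _ ?_
  refine contDiffAt_prod (fun i _ => ?_)
  by_cases h : σ i = j
  · simp only [h, if_true]; exact contDiffAt_const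
  · simp only [h, if_false]
    exact CofDiv_fd (hF _ h) _

/-- the determinant as a continuous multilinear map of the rows -/
def CofDiv_D : ContinuousMultilinearMap ℝ (fun _ : Fin 4 => Fin 4 → ℝ) ℝ where
  toMultilinearMap := (Matrix.detRowAlternating (n := Fin 4) (R := ℝ)).toMultilinearMap
  cont := by
    have h : Continuous (fun A : Matrix (Fin 4) (Fin 4) ℝ => A.det) :=
      Continuous.matrix_det continuous_id
    exact h

theorem CofDiv_D_apply (A : Fin 4 → Fin 4 → ℝ) :
    CofDiv_D A = (Matrix.of A).det := rfl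

/-- rows of the cofactor matrix -/
def CofDiv_row (F : Fin 4 → E4 → ℝ) (j k i : Fin 4) (x : E4) : Fin 4 → ℝ :=
  if i = j then Pi.single k 1 else fun l => fderiv ℝ (F i) x (EuclideanSpace.single l 1)

/-- derivative of the rows -/
def CofDiv_drow (F : Fin 4 → E4 → ℝ) (j i : Fin 4) (x : E4) : E4 →L[ℝ] (Fin 4 → ℝ) :=
  if i = j then 0 else ContinuousLinearMap.pi (fun l : Fin 4 =>
    (ContinuousLinearMap.apply ℝ ℝ (EuclideanSpace.single l (1 : ℝ) : E4)).comp
      (fderiv ℝ (fderiv ℝ (F i)) x))

theorem CofDiv_hasFDerivAt_row {F : Fin 4 → E4 → ℝ} {j : Fin 4} (k i : Fin 4) {x : E4}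
    (hF : ∀ i, i ≠ j → ContDiffAt ℝ ∞ (F i) x) :
    HasFDerivAt (CofDiv_row F j k i) (CofDiv_drow F j i x) x := by
  by_cases h : i = j
  · have e1 : CofDiv_row F j k i = fun _ => Pi.single k 1 := by
      funext y; simp [CofDiv_row, h]
    have e2 : CofDiv_drow F j i x = 0 := by simp [CofDiv_drow, h]
    rw [e1, e2]
    exact hasFDerivAt_const _ _
  · have e1 : CofDiv_row F j k i = fun y => fun l =>
        fderiv ℝ (F i) y (EuclideanSpace.single l 1) := by
      funext y; simp [CofDiv_row, h]
    have e2 : CofDiv_drow F j i x = ContinuousLinearMap.pi (fun l : Fin 4 =>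
      (ContinuousLinearMap.apply ℝ ℝ (EuclideanSpace.single l (1 : ℝ) : E4)).comp
      (fderiv ℝ (fderiv ℝ (F i)) x)) := by simp [CofDiv_drow, h]
    rw [e1, e2]
    have hd : DifferentiableAt ℝ (fderiv ℝ (F i)) x :=
      ((hF i h).fderiv_right (m := 1) (by norm_cast)).differentiableAt (by norm_num)
    rw [hasFDerivAt_pi]
    intro l
    exact (ContinuousLinearMap.apply ℝ ℝ
      (EuclideanSpace.single l (1 : ℝ) : E4)).hasFDerivAt.comp x hd.hasFDerivAt

theorem CofDiv_cof_eq_D (F : Fin 4 → E4 → ℝ) (j k : Fin 4) :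
    cof F j k = fun y => CofDiv_D (fun i => CofDiv_row F j k i y) := by
  funext y
  rw [CofDiv_D_apply, CofDiv_cof_eq]
  congr 1
  ext i l
  simp only [Matrix.updateRow_apply, CofDiv_row, Matrix.of_apply, CofDiv_M]
  by_cases h : i = j
  · simp [h]
  · simp [h]

/-- the Hessian -/
def CofDiv_H (f : E4 → ℝ) (x : E4) (k l : Fin 4) : ℝ :=
  fderiv ℝ (fderiv ℝ f) x (EuclideanSpace.single k 1) (EuclideanSpace.single l 1)

/-- the alternating form -/
def CofDiv_B (A : Matrix (Fin 4) (Fin 4) ℝ) (j m k l : Fin 4) : ℝ :=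
  ((A.updateRow j (Pi.single k 1)).updateRow m (Pi.single l 1)).det

theorem CofDiv_B_anti (A : Matrix (Fin 4) (Fin 4) ℝ) {j m : Fin 4} (h : j ≠ m) (k l : Fin 4) :
    CofDiv_B A j m k l = - CofDiv_B A j m l k := by
  unfold CofDiv_B
  have h1 := (Matrix.detRowAlternating (n := Fin 4) (R := ℝ)).map_swap
    (fun i => ((A.updateRow j (Pi.single l 1)).updateRow m (Pi.single k 1)) i) h
  have h2 : ((fun i => ((A.updateRow j (Pi.single l 1)).updateRow m (Pi.single k 1)) i) ∘
      (Equiv.swap j m)) = (A.updateRow j (Pi.single k 1)).updateRow m (Pi.single l 1) := by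
    funext i
    simp only [Function.comp]
    by_cases hi : i = j
    · subst hi
      rw [Equiv.swap_apply_left]
      ext c
      simp [Matrix.updateRow_apply, h]
    · by_cases hi2 : i = m
      · subst hi2
        rw [Equiv.swap_apply_right]
        ext c
        simp [Matrix.updateRow_apply, h]
      · rw [Equiv.swap_apply_of_ne_of_ne hi hi2]
        ext c
        simp [Matrix.updateRow_apply, hi, hi2]
  rw [h2] at h1
  exact h1

theorem CofDiv_expand (A : Matrix (Fin 4) (Fin 4) ℝ) (m : Fin 4) (w : Fin 4 → ℝ) :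
    (A.updateRow m w).det = ∑ l, w l * (A.updateRow m (Pi.single l 1)).det := by
  rw [← Matrix.cramer_transpose_apply, Matrix.cramer_eq_adjugate_mulVec, Matrix.mulVec,
    dotProduct]
  refine Finset.sum_congr rfl (fun l _ => ?_)
  rw [← Matrix.adjugate_transpose, Matrix.transpose_apply, Matrix.adjugate_apply]
  ring

theorem sum_partial_cof {F : Fin 4 → E4 → ℝ} {j : Fin 4} {x : E4}
    (hF : ∀ i, i ≠ j → ContDiffAt ℝ ∞ (F i) x) :
    ∑ k, fderiv ℝ (cof F j k) x (EuclideanSpace.single k 1) = 0 := by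
  have h1 : ∀ k, fderiv ℝ (cof F j k) x (EuclideanSpace.single k 1) =
      ∑ m, if m = j then 0 else ∑ l, CofDiv_H (F m) x k l * CofDiv_B (CofDiv_M F x) j m k l := by
    intro k
    have hd := HasFDerivAt.multilinear_comp CofDiv_D
        (fun i => CofDiv_hasFDerivAt_row (j := j) k i hF)
    rw [CofDiv_cof_eq_D, hd.fderiv]
    simp only [_root_.sum_apply, ContinuousLinearMap.comp_apply]
    refine Finset.sum_congr rfl (fun m _ => ?_)
    by_cases hm : m = j
    · subst hm
      simp only [CofDiv_drow, if_true, _root_.zero_apply, map_zero]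
    · simp only [hm, if_false]
      have e1 : (CofDiv_D.toContinuousLinearMap (fun i => CofDiv_row F j k i x) m)
          (CofDiv_drow F j m x (EuclideanSpace.single k 1)) =
          (((CofDiv_M F x).updateRow j (Pi.single k 1)).updateRow m
            (fun l => CofDiv_H (F m) x k l)).det := by
        show CofDiv_D (Function.update (fun i => CofDiv_row F j k i x) m
          (CofDiv_drow F j m x (EuclideanSpace.single k 1))) = _
        rw [CofDiv_D_apply]
        congr 1
        ext i l
        by_cases hi : i = m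
        · subst hi
          simp [Matrix.updateRow_apply, CofDiv_drow, hm, CofDiv_H]
        · by_cases hi2 : i = j
          · subst hi2
            simp [Matrix.updateRow_apply, CofDiv_row, hi]
          · simp [Matrix.updateRow_apply, CofDiv_row, hi, hi2, CofDiv_M]
      rw [e1, CofDiv_expand]
      rfl
  simp only [h1]
  rw [Finset.sum_comm]
  refine Finset.sum_eq_zero (fun m _ => ?_)
  by_cases hm : m = j
  · simp [hm]
  · simp only [hm, if_false]
    have hsym : ∀ k l, CofDiv_H (F m) x k l = CofDiv_H (F m) x l k := by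
      intro k l
      have h := (hF m hm).isSymmSndFDerivAt (n := ∞) (by
        rw [minSmoothness_of_isRCLikeNormedField]; exact WithTop.coe_le_coe.2 le_top)
      exact h _ _
    have h3 : ∑ k, ∑ l, CofDiv_H (F m) x k l * CofDiv_B (CofDiv_M F x) j m k l =
        - ∑ k, ∑ l, CofDiv_H (F m) x k l * CofDiv_B (CofDiv_M F x) j m k l := by
      conv_lhs => rw [Finset.sum_comm]
      rw [← Finset.sum_neg_distrib]
      refine Finset.sum_congr rfl (fun k _ => ?_)
      rw [← Finset.sum_neg_distrib]
      refine Finset.sum_congr rfl (fun l _ => ?_)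
      rw [hsym l k, CofDiv_B_anti _ (Ne.symm hm) l k]
      ring
    linarith

end SphTw
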