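import Pool.Agent.Lib.MP_3f8e0b_gt.Basic

/-!
# Integral of a partial derivative of a periodic function over the unit cell
-/

open Set Filter Topology MeasureTheory
open scoped ContDiff Manifold

noncomputable section

namespace SphTw

theorem PartialCell_emb : MeasurableEmbedding (WithLp.toLp 2 : (Fin 4 → ℝ) → E4) :=
  (MeasurableEquiv.toLp 2 (Fin 4 → ℝ)).measurableEmbedding

theorem PartialCell_preimage :
    (WithLp.toLp 2 : (Fin 4 → ℝ) → E4) ⁻¹' cell =
      Set.pi Set.univ (fun _ : Fin 4 => Ico (0 : ℝ) 1) := by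
  ext y
  simp only [cell, Set.mem_preimage, Set.mem_pi, Set.mem_univ, forall_true_left]
  exact Iff.rfl

theorem PartialCell_integral (G : E4 → ℝ) :
    ∫ x in cell, G x = ∫ y in Icc (0 : Fin 4 → ℝ) 1, G (WithLp.toLp 2 y) := by
  have h := (PiLp.volume_preserving_toLp (Fin 4)).setIntegral_preimage_emb PartialCell_emb G cell
  rw [← h, PartialCell_preimage]
  exact setIntegral_congr_set (Measure.univ_pi_Ico_ae_eq_Icc
    (f := fun _ : Fin 4 => (0 : ℝ)) (g := fun _ : Fin 4 => (1 : ℝ)))

/-- C2 -/
theorem integral_cell_partial {g : E4 → ℝ} (hg : ContDiff ℝ 1 g) (k : Fin 4)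
    (hper : ∀ x, g (x + EuclideanSpace.single k 1) = g x) :
    ∫ x in cell, fderiv ℝ g x (EuclideanSpace.single k 1) = 0 := by
  rw [PartialCell_integral]
  set L : (Fin 4 → ℝ) →L[ℝ] E4 := ((EuclideanSpace.equiv (Fin 4) ℝ).symm : (Fin 4 → ℝ) →L[ℝ] E4)
    with hL
  have hLa : ∀ y, L y = WithLp.toLp 2 y := fun y => rfl
  have hgd : Differentiable ℝ g := hg.differentiable (by norm_num)
  have hd : ∀ y : Fin 4 → ℝ, HasFDerivAt (fun y => g (WithLp.toLp 2 y))
      ((fderiv ℝ g (WithLp.toLp 2 y)).comp L) y := by
    intro y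
    have h1 : HasFDerivAt (fun y : Fin 4 → ℝ => L y) L y := L.hasFDerivAt
    have h2 : HasFDerivAt g (fderiv ℝ g (L y)) (L y) := (hgd (L y)).hasFDerivAt
    exact h2.comp y h1
  have hsum : ∀ y : Fin 4 → ℝ, ∑ i : Fin 4, (if i = k then
      ((fderiv ℝ g (WithLp.toLp 2 y)).comp L) else 0) (Pi.single i (1 : ℝ)) =
      fderiv ℝ g (WithLp.toLp 2 y) (EuclideanSpace.single k 1) := by
    intro y
    rw [Finset.sum_eq_single k]
    · simp only [if_true]
      rfl
    · intro i _ hi
      simp [hi]
    · intro h; exact absurd (Finset.mem_univ k) h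
  have hcont : Continuous (fun y : Fin 4 → ℝ =>
      fderiv ℝ g (WithLp.toLp 2 y) (EuclideanSpace.single k 1)) := by
    have h1 : Continuous (fderiv ℝ g) := hg.continuous_fderiv (by norm_num)
    have h2 : Continuous (fun y : Fin 4 → ℝ => fderiv ℝ g (L y)) := h1.comp L.continuous
    exact h2.clm_apply continuous_const
  have hdiv := integral_divergence_of_hasFDerivAt_off_countable' (E := ℝ) (n := 3)
    (0 : Fin 4 → ℝ) 1 (fun i => zero_le_one)
    (fun i y => if i = k then g (WithLp.toLp 2 y) else 0)
    (fun i y => if i = k then ((fderiv ℝ g (WithLp.toLp 2 y)).comp L) else 0) ∅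
    Set.countable_empty
    (by
      intro i
      by_cases hi : i = k
      · simp only [hi, if_true]
        exact (hg.continuous.comp L.continuous).continuousOn
      · simp only [hi, if_false]
        exact continuousOn_const)
    (by
      intro y _ i
      by_cases hi : i = k
      · simp only [hi, if_true]
        exact hd y
      · simp only [hi, if_false]
        exact hasFDerivAt_const _ _)
    (by
      simp only [hsum]
      exact hcont.continuousOn.integrableOn_compact isCompact_Icc)
  simp only [hsum] at hdiv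
  rw [hdiv]
  refine Finset.sum_eq_zero (fun i _ => ?_)
  by_cases hi : i = k
  · subst hi
    simp only [if_true]
    rw [sub_eq_zero]
    refine integral_congr_ae (Filter.Eventually.of_forall (fun x => ?_))
    show g (WithLp.toLp 2 (i.insertNth (1 : ℝ) x)) = g (WithLp.toLp 2 (i.insertNth (0 : ℝ) x))
    rw [← hper (WithLp.toLp 2 (i.insertNth (0 : ℝ) x))]
    congr 1
    ext l
    refine Fin.succAboveCases i ?_ (fun m => ?_) l
    · simp
    · simp [Fin.succAbove_ne]
  · simp [hi]

end SphTw
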