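import Pool.Agent.Lib.MP_3f8e0b_gt.Basic
import Pool.Agent.Lib.MP_3f8e0b_gt.PartialCell
import Pool.Agent.Lib.MP_3f8e0b_gt.CofDiv

/-!
# Stokes on the unit cell
-/

open Set Filter Topology MeasureTheory
open scoped ContDiff Manifold

noncomputable section

namespace SphTw

theorem Stokes_cell_subset : cell ⊆ Metric.closedBall (0 : E4) 2 := by
  intro x hx
  rw [mem_closedBall_zero_iff, EuclideanSpace.norm_eq]
  rw [Real.sqrt_le_left (by norm_num)]
  have h : ∀ i : Fin 4, ‖x i‖ ^ 2 ≤ 1 := by
    intro i
    have h1 := (hx i).1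
    have h2 := (hx i).2
    rw [Real.norm_eq_abs, sq_abs]
    nlinarith
  calc ∑ i, ‖x i‖ ^ 2 ≤ ∑ _i : Fin 4, (1 : ℝ) := Finset.sum_le_sum (fun i _ => h i)
    _ = 2 ^ 2 := by norm_num

theorem Stokes_tr_single (k : Fin 4) :
    tr (Pi.single k 1) = EuclideanSpace.single k (1 : ℝ) := by
  ext i
  by_cases h : i = k
  · subst h; simp
  · simp [Pi.single_eq_of_ne h, h]

/-- C4 -/
theorem stokes_cell {F : Fin 4 → E4 → ℝ} {j : Fin 4} {V : Set E4} (hV : IsOpen V)
    (hVper : ∀ x ∈ V, ∀ m, x + tr m ∈ V)
    (hW : ContDiff ℝ ∞ (F j)) (hWper : ∀ x m, F j (x + tr m) = F j x)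
    (hsupp : tsupport (F j) ⊆ V) (hF : ∀ i, ∀ x ∈ V, ContDiffAt ℝ ∞ (F i) x)
    (hFper : ∀ i, ∀ x ∈ V, ∀ m, fderiv ℝ (F i) (x + tr m) = fderiv ℝ (F i) x) :
    ∫ x in cell, jac F x = 0 := by
  set g : Fin 4 → E4 → ℝ := fun k x => F j x * cof F j k x with hg
  have hzero : ∀ x, x ∉ tsupport (F j) → F j =ᶠ[𝓝 x] 0 := fun x hx =>
    notMem_tsupport_iff_eventuallyEq.1 hx
  have hgzero : ∀ k x, x ∉ tsupport (F j) → g k =ᶠ[𝓝 x] fun _ => (0 : ℝ) := by
    intro k x hx
    filter_upwards [hzero x hx] with y hy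
    simp only [hg]
    rw [hy]; simp
  have hsm : ∀ k, ContDiff ℝ ∞ (g k) := by
    intro k
    rw [contDiff_iff_contDiffAt]
    intro x
    by_cases hx : x ∈ V
    · exact (hW.contDiffAt).mul (cof_contDiffAt (fun i _ => hF i x hx))
    · have hx' : x ∉ tsupport (F j) := fun h => hx (hsupp h)
      exact contDiffAt_const.congr_of_eventuallyEq (hgzero k x hx')
  have hper : ∀ k x m, g k (x + tr m) = g k x := by
    intro k x m
    simp only [hg]
    rw [hWper x m]
    by_cases hx : x ∈ V
    · congr 1
      unfold cof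
      congr 1
      ext i l
      simp only [Matrix.of_apply]
      rw [hFper i x hx m]
    · have hx' : x ∉ tsupport (F j) := fun h => hx (hsupp h)
      have : F j x = 0 := (hzero x hx').self_of_nhds
      rw [this]; simp
  have hid : ∀ x, jac F x = ∑ k, fderiv ℝ (g k) x (EuclideanSpace.single k 1) := by
    intro x
    by_cases hx : x ∈ V
    · have h1 : ∀ k, fderiv ℝ (g k) x (EuclideanSpace.single k 1) =
          F j x * fderiv ℝ (cof F j k) x (EuclideanSpace.single k 1) +
          fderiv ℝ (F j) x (EuclideanSpace.single k 1) * cof F j k x := by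
        intro k
        have hd1 : DifferentiableAt ℝ (F j) x := (hW.contDiffAt).differentiableAt (by simp)
        have hd2 : DifferentiableAt ℝ (cof F j k) x :=
          (cof_contDiffAt (fun i _ => hF i x hx)).differentiableAt (by simp)
        have h2 : fderiv ℝ (g k) x = F j x • fderiv ℝ (cof F j k) x +
            cof F j k x • fderiv ℝ (F j) x := fderiv_fun_mul hd1 hd2
        rw [h2]
        simp only [_root_.add_apply, _root_.smul_apply, smul_eq_mul]
        ring
      simp only [h1, Finset.sum_add_distrib, ← Finset.mul_sum]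
      rw [sum_partial_cof (fun i _ => hF i x hx), mul_zero, zero_add]
      exact jac_eq_sum_cof F j x
    · have hx' : x ∉ tsupport (F j) := fun h => hx (hsupp h)
      have h1 : fderiv ℝ (F j) x = 0 := by
        rw [(hzero x hx').fderiv_eq]
        simp
      have h2 : ∀ k, fderiv ℝ (g k) x = 0 := by
        intro k
        rw [(hgzero k x hx').fderiv_eq]
        simp
      rw [jac_eq_sum_cof F j x]
      simp [h1, h2]
  have hint : ∀ k : Fin 4, IntegrableOn
      (fun x => fderiv ℝ (g k) x (EuclideanSpace.single k 1)) cell := by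
    intro k
    have hc : Continuous (fun x => fderiv ℝ (g k) x (EuclideanSpace.single k 1)) :=
      ((hsm k).continuous_fderiv (by simp)).clm_apply continuous_const
    exact (hc.continuousOn.integrableOn_compact (isCompact_closedBall (0 : E4) 2)).mono_set
      Stokes_cell_subset
  simp only [hid]
  rw [integral_finset_sum _ (fun k _ => hint k)]
  refine Finset.sum_eq_zero (fun k _ => ?_)
  refine integral_cell_partial ((hsm k).of_le (by exact_mod_cast le_top)) k ?_
  intro x
  rw [← Stokes_tr_single]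
  exact hper k x _

end SphTw
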