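import Pool.Agent.Lib.MP_3f8e0b_gt.Basic
import Pool.Agent.Lib.MP_3f8e0b_gt.Frac
import Pool.Agent.Lib.MP_3f8e0b_gt.Psi
import Pool.Agent.Lib.MP_3f8e0b_gt.Rel
import Pool.Agent.Lib.MP_3f8e0b_gt.AlphaBeta
import Pool.Agent.Lib.MP_3f8e0b_gt.ChiFacts
import Pool.Agent.Lib.MP_3f8e0b_gt.Stokes
import Pool.Agent.Lib.MP_3f8e0b_gt.ChangeVar

open Set Filter Topology MeasureTheory
open scoped ContDiff Manifold

noncomputable section

namespace SphTw

/-! ### Local constancy of the integer change -/

theorem bsl_locConst {Q : E4 → ℝ} (hQ : S0.CF Q) {g : E4 → E4} {x : E4}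
    (hgc : ContinuousAt g x) (hg : ∀ᶠ y in 𝓝 x, r0 y (g y)) :
    ∃ c : ℝ, ∀ᶠ y in 𝓝 x, Q (g y) = Q y + c := by
  have h0 := hg.self_of_nhds
  obtain ⟨m, hm⟩ := hQ.per (x := x) (z := g x) h0
  refine ⟨m, ?_⟩
  have h1 : ContinuousAt Q x := (hQ.smooth x h0.1).continuousAt
  have h2 : ContinuousAt Q (g x) := (hQ.smooth (g x) h0.2.1).continuousAt
  have h3 : ContinuousAt (fun y => Q (g y) - Q y) x :=
    (ContinuousAt.comp (f := g) (g := Q) h2 hgc).sub h1
  have h4 : ∀ᶠ y in 𝓝 x, |(Q (g y) - Q y) - m| < 1 := by
    have h5 : ContinuousAt (fun y => |(Q (g y) - Q y) - m|) x :=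
      (h3.sub continuousAt_const).abs
    have h6 : |(Q (g x) - Q x) - m| < 1 := by
      rw [hm]
      simp
    exact h5.eventually (gt_mem_nhds h6)
  filter_upwards [h4, hg] with y hy1 hy2
  obtain ⟨n, hn⟩ := hQ.per (x := y) (z := g y) hy2
  rw [hn] at hy1 ⊢
  have : |((n - m : ℤ) : ℝ)| < 1 := by
    push_cast
    have e : Q y + n - Q y - m = (n : ℝ) - m := by ring
    rwa [e] at hy1
  have h7 : |(n - m : ℤ)| < 1 := by exact_mod_cast this
  have h8 : n - m = 0 := Int.abs_lt_one_iff.mp h7
  have h9 : n = m := by omega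
  rw [h9]

theorem bsl_fderiv_comp {Q : E4 → ℝ} (hQ : S0.CF Q) {g : E4 → E4} {x : E4}
    (hgc : ContinuousAt g x) (hg : ∀ᶠ y in 𝓝 x, r0 y (g y)) :
    fderiv ℝ (fun y => Q (g y)) x = fderiv ℝ Q x := by
  obtain ⟨c, hc⟩ := bsl_locConst hQ hgc hg
  have : (fun y => Q (g y)) =ᶠ[𝓝 x] (fun y => Q y + c) := hc
  rw [this.fderiv_eq, fderiv_add_const]

theorem bsl_fderiv_tr {Q : E4 → ℝ} (hQ : S0.CF Q) {x : E4} (hx : x ∈ U0) (m : Fin 4 → ℤ) :
    fderiv ℝ Q (x + tr m) = fderiv ℝ Q x := by
  have h1 : ∀ᶠ y in 𝓝 x, r0 y (y + tr m) := by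
    filter_upwards [isOpen_U0.mem_nhds hx] with y hy
    exact r0_tr hy m
  have h2 := bsl_fderiv_comp hQ (g := fun y => y + tr m) (x := x) (by fun_prop) h1
  rw [fderiv_comp_add_right] at h2
  exact h2

theorem bsl_cf {Q : E4 → ℝ} (h : S0.RF Q) : S0.CF Q :=
  ⟨h.smooth, fun hr => ⟨0, by rw [h.inv hr]; simp⟩⟩

/-! ### Rows of the Jacobian -/

theorem bsl_jac_update (F : Fin 4 → E4 → ℝ) (j : Fin 4) (u : E4 → ℝ) (x : E4) :
    jac (Function.update F j u) x = Matrix.det (Matrix.updateRow
      (Matrix.of fun i l : Fin 4 => fderiv ℝ (F i) x (EuclideanSpace.single l 1)) j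
        (fun l => fderiv ℝ u x (EuclideanSpace.single l 1))) := by
  unfold jac
  congr 1
  ext i l
  by_cases hi : i = j
  · subst hi
    simp [Matrix.updateRow_self]
  · simp [Matrix.updateRow_ne hi, Function.update_of_ne hi]

theorem bsl_jac_zero {F : Fin 4 → E4 → ℝ} {j : Fin 4} {x : E4} (h : fderiv ℝ (F j) x = 0) :
    jac F x = 0 := by
  unfold jac
  apply Matrix.det_eq_zero_of_row_eq_zero j
  intro l
  simp [h]

theorem bsl_jac_congr {F G : Fin 4 → E4 → ℝ} {x : E4}
    (h : ∀ i, fderiv ℝ (F i) x = fderiv ℝ (G i) x) : jac F x = jac G x := by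
  unfold jac
  congr 1
  ext i l
  simp [h i]

theorem bsl_continuousAt_jac {F : Fin 4 → E4 → ℝ} {x : E4}
    (hF : ∀ i, ContDiffAt ℝ ∞ (F i) x) : ContinuousAt (jac F) x := by
  have h1 : ContinuousAt (fun y => Matrix.of fun i l : Fin 4 =>
      fderiv ℝ (F i) y (EuclideanSpace.single l 1)) x := by
    refine continuousAt_pi.mpr (fun i => continuousAt_pi.mpr (fun l => ?_))
    have h2 : ContDiffAt ℝ 0 (fderiv ℝ (F i)) x :=
      (hF i).fderiv_right (m := 0) (by simp)
    exact h2.continuousAt.clm_apply continuousAt_const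
  exact (Continuous.matrix_det continuous_id).continuousAt.comp h1

/-- Vanishing outside the support of one row. -/
theorem bsl_fderiv_zero {u : E4 → ℝ} {x : E4} (hx : x ∉ tsupport u) :
    ∀ᶠ y in 𝓝 x, u y = 0 ∧ fderiv ℝ u y = 0 := by
  have h1 : u =ᶠ[𝓝 x] 0 := notMem_tsupport_iff_eventuallyEq.mp hx
  filter_upwards [h1.eventuallyEq_nhds] with y hy
  refine ⟨hy.self_of_nhds, ?_⟩
  rw [hy.fderiv_eq]
  simp

theorem bsl_continuous_jac {F : Fin 4 → E4 → ℝ} {j : Fin 4} (hj : tsupport (F j) ⊆ U0)
    (hF : ∀ i, ∀ x ∈ U0, ContDiffAt ℝ ∞ (F i) x) : Continuous (jac F) := by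
  rw [continuous_iff_continuousAt]
  intro x
  by_cases hx : x ∈ tsupport (F j)
  · exact bsl_continuousAt_jac (fun i => hF i x (hj hx))
  · have h1 := bsl_fderiv_zero hx
    have h2 : jac F =ᶠ[𝓝 x] fun _ => 0 := by
      filter_upwards [h1] with y hy
      exact bsl_jac_zero hy.2
    exact (continuousAt_congr h2).mpr continuousAt_const

theorem bsl_integrableOn {G : E4 → ℝ} (hG : Continuous G) : IntegrableOn G cell := by
  have h1 : cell ⊆ Metric.closedBall (0 : E4) 2 := by
    intro x hx
    rw [mem_closedBall_zero_iff, EuclideanSpace.norm_eq]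
    apply Real.sqrt_le_iff.mpr
    refine ⟨by norm_num, ?_⟩
    calc ∑ i, ‖x i‖ ^ 2 ≤ ∑ i : Fin 4, (1 : ℝ) := by
          refine Finset.sum_le_sum (fun i _ => ?_)
          have := hx i
          rw [Real.norm_of_nonneg this.1]
          nlinarith [this.1, this.2]
      _ = 2 ^ 2 := by norm_num
  exact (hG.continuousOn.integrableOn_compact (isCompact_closedBall 0 2)).mono_set h1

theorem bsl_measurable_cell : MeasurableSet cell := by
  have : cell = ⋂ i : Fin 4, {x : E4 | x i ∈ Ico (0 : ℝ) 1} := by
    ext x
    simp [cell]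
  rw [this]
  refine MeasurableSet.iInter (fun i => ?_)
  have hc : Continuous (fun x : E4 => x i) := by fun_prop
  exact hc.measurable measurableSet_Ico

theorem bsl_dp_cont : Continuous dp := by
  unfold dp
  fun_prop

theorem bsl_dm_cont : Continuous dm := by
  unfold dm
  fun_prop

/-! ### The second integral -/

/-- Near a point of the cell in the shell around `p₊`, `frac` is the identity. -/
theorem bsl_frac_near {x : E4} (hx : x ∈ cell) (h : dp x < 1 / 25) :
    ∀ᶠ y in 𝓝 x, frac y = y := by
  have h0 : |x 0 - 1 / 4| < 1 / 5 := by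
    apply abs_lt_of_sq_lt_sq _ (by norm_num)
    unfold dp at h
    nlinarith [sq_nonneg (x 1 - 1/2), sq_nonneg (x 2 - 1/2)]
  have h1 : |x 1 - 1 / 2| < 1 / 5 := by
    apply abs_lt_of_sq_lt_sq _ (by norm_num)
    unfold dp at h
    nlinarith [sq_nonneg (x 0 - 1/4), sq_nonneg (x 2 - 1/2)]
  have h2 : |x 2 - 1 / 2| < 1 / 5 := by
    apply abs_lt_of_sq_lt_sq _ (by norm_num)
    unfold dp at h
    nlinarith [sq_nonneg (x 0 - 1/4), sq_nonneg (x 1 - 1/2)]
  have c0 : Continuous (fun y : E4 => |y 0 - 1 / 4|) := by fun_prop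
  have c1 : Continuous (fun y : E4 => |y 1 - 1 / 2|) := by fun_prop
  have c2 : Continuous (fun y : E4 => |y 2 - 1 / 2|) := by fun_prop
  filter_upwards [c0.continuousAt.eventually (gt_mem_nhds h0),
    c1.continuousAt.eventually (gt_mem_nhds h1),
    c2.continuousAt.eventually (gt_mem_nhds h2)] with y y0 y1 y2
  rw [abs_lt] at y0 y1 y2
  exact frac_eq_self ⟨by linarith, by linarith⟩ ⟨by linarith, by linarith⟩
    ⟨by linarith, by linarith⟩

theorem bsl_frac_cell {x : E4} (hx : x ∈ cell) : frac x = x :=
  frac_eq_self (hx 0) (hx 1) (hx 2)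

/-- The gradient of `chi` lives on the two shells. -/
theorem bsl_fderiv_chi {x : E4} (hx : x ∈ cell) (h1 : ¬ (1 / 100 < dp x ∧ dp x < 1 / 25))
    (h2 : ¬ (1 / 100 < dm x ∧ dm x < 1 / 25)) : fderiv ℝ chi x = 0 := by
  have hfx := bsl_frac_cell hx
  by_cases hU : x ∈ U0
  · have hU' := hU
    unfold U0 at hU'
    have hp : 1 / 25 ≤ dp x := by
      by_contra hc
      push Not at hc
      have := hU'.1
      rw [hfx] at this
      exact h1 ⟨this, hc⟩
    have hm : 1 / 25 ≤ dm x := by
      by_contra hc
      push Not at hc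
      have := hU'.2
      rw [hfx] at this
      exact h2 ⟨this, hc⟩
    have h3 : ∀ᶠ y in 𝓝 x, 1 / 36 < dp (frac y) ∧ 1 / 36 < dm (frac y) := by
      rcases frac_cases x with h | h
      · have e : tr (fl x) = 0 := by
          have := frac_eq x
          rw [hfx] at this
          have h5 : x = x - tr (fl x) := this
          have h6 : tr (fl x) = x - (x - tr (fl x)) := by abel
          rw [h6, ← h5, sub_self]
        rw [e] at h
        have h4 : ∀ᶠ y in 𝓝 x, 1 / 36 < dp y :=
          bsl_dp_cont.continuousAt.eventually (lt_mem_nhds (by linarith : (1 / 36 : ℝ) < dp x))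
        have h5 : ∀ᶠ y in 𝓝 x, 1 / 36 < dm y :=
          bsl_dm_cont.continuousAt.eventually (lt_mem_nhds (by linarith : (1 / 36 : ℝ) < dm x))
        filter_upwards [h, h4, h5] with y hy hy4 hy5
        rw [hy, sub_zero]
        exact ⟨hy4, hy5⟩
      · filter_upwards [h] with y hy
        exact ⟨by linarith [hy.1], by linarith [hy.2]⟩
    have h4 : chi =ᶠ[𝓝 x] fun _ => 1 := by
      filter_upwards [h3] with y hy
      unfold chi
      rw [beta_eq_zero hy.1.le, beta_eq_zero hy.2.le]
      ring
    rw [h4.fderiv_eq]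
    simp
  · have hx' : x ∉ tsupport chi := fun h => hU (tsupport_chi h)
    exact (bsl_fderiv_zero hx').self_of_nhds.2

theorem bsl_second {F : Fin 4 → E4 → ℝ} (hF : ∀ i, S0.CF (F i)) {j : Fin 4}
    (hj : S0.RF (F j)) :
    ∫ x in cell, F j x * jac (Function.update F j chi) x = 0 := by
  set G : E4 → ℝ := fun x => F j x * jac (Function.update F j chi) x with hG
  set Ap : Set E4 := {x | x ∈ cell ∧ 1/100 < dp x ∧ dp x < 1/25} with hAp
  set Am : Set E4 := {x | x ∈ cell ∧ 1/100 < dm x ∧ dm x < 1/25} with hAm
  have hsm : ∀ i, ∀ x ∈ U0, ContDiffAt ℝ ∞ (Function.update F j chi i) x := by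
    intro i x hx
    by_cases hi : i = j
    · subst hi
      rw [Function.update_self]
      exact chi_contDiff.contDiffAt
    · rw [Function.update_of_ne hi]
      exact (hF i).smooth x hx
  have hts : tsupport (Function.update F j chi j) ⊆ U0 := by
    rw [Function.update_self]
    exact tsupport_chi
  have hGc : Continuous G := by
    rw [continuous_iff_continuousAt]
    intro x
    by_cases hx : x ∈ tsupport chi
    · have hxU := tsupport_chi hx
      exact ((hF j).smooth x hxU).continuousAt.mul
        (bsl_continuousAt_jac (fun i => hsm i x hxU))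
    · have h2 : G =ᶠ[𝓝 x] fun _ => 0 := by
        filter_upwards [bsl_fderiv_zero hx] with y hy
        have : jac (Function.update F j chi) y = 0 :=
          bsl_jac_zero (j := j) (by rw [Function.update_self]; exact hy.2)
        simp [hG, this]
      exact (continuousAt_congr h2).mpr continuousAt_const
  have hGi : IntegrableOn G cell := bsl_integrableOn hGc
  have hmp : MeasurableSet Ap := by
    have : Ap = cell ∩ ({x | 1/100 < dp x} ∩ {x | dp x < 1/25}) := rfl
    rw [this]
    exact bsl_measurable_cell.inter ((isOpen_lt continuous_const bsl_dp_cont).measurableSet.inter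
      (isOpen_lt bsl_dp_cont continuous_const).measurableSet)
  have hmm : MeasurableSet Am := by
    have : Am = cell ∩ ({x | 1/100 < dm x} ∩ {x | dm x < 1/25}) := rfl
    rw [this]
    exact bsl_measurable_cell.inter ((isOpen_lt continuous_const bsl_dm_cont).measurableSet.inter
      (isOpen_lt bsl_dm_cont continuous_const).measurableSet)
  have hpc : Ap ⊆ cell := fun x hx => hx.1
  have hmc : Am ⊆ cell := fun x hx => hx.1
  have hdisj : Disjoint Ap Am := by
    rw [Set.disjoint_left]
    intro x hx hx'
    exact not_dp_dm (x := x) (by linarith [hx.2.2]) (by linarith [hx'.2.2])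
  have h1 : ∫ x in cell, G x = ∫ x in Ap ∪ Am, G x := by
    apply setIntegral_eq_of_subset_of_forall_sdiff_eq_zero bsl_measurable_cell
      (union_subset hpc hmc)
    intro x hx
    have hx1 : ¬ (1 / 100 < dp x ∧ dp x < 1 / 25) := fun h => hx.2 (Or.inl ⟨hx.1, h⟩)
    have hx2 : ¬ (1 / 100 < dm x ∧ dm x < 1 / 25) := fun h => hx.2 (Or.inr ⟨hx.1, h⟩)
    have h3 := bsl_fderiv_chi hx.1 hx1 hx2
    have : jac (Function.update F j chi) x = 0 :=
      bsl_jac_zero (j := j) (by rw [Function.update_self]; exact h3)
    simp [hG, this]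
  have h2 : ∫ x in Am, G x = ∫ x in Ap, (fderiv ℝ psi x).det * G (psi x) := integral_psi G
  have h3 : ∫ x in Ap, (fderiv ℝ psi x).det * G (psi x) = ∫ x in Ap, -G x := by
    apply setIntegral_congr_fun hmp
    rintro x ⟨hxc, hx1, hx2⟩
    have hx0 : 0 < dp x := by linarith
    have hfn := bsl_frac_near hxc hx2
    have hrn : ∀ᶠ y in 𝓝 x, r0 y (psi y) := by
      filter_upwards [hfn, bsl_dp_cont.continuousAt.eventually (lt_mem_nhds hx1),
        bsl_dp_cont.continuousAt.eventually (gt_mem_nhds hx2)] with y hy1 hy2 hy3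
      exact r0_psi hy2 hy3 hy1
    have hr := hrn.self_of_nhds
    have hpsic : ContinuousAt psi x := (contDiffAt_psi hx0).continuousAt
    have hjc := jac_comp_psi (F := Function.update F j chi) hx0
      (fun i => ((hsm i (psi x) hr.2.1).differentiableAt (by simp)))
    have hrow : jac (fun i y => Function.update F j chi i (psi y)) x
        = - jac (Function.update F j chi) x := by
      have e1 : jac (fun i y => Function.update F j chi i (psi y)) x
          = jac (Function.update F j (fun y => - chi y)) x := by
        apply bsl_jac_congr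
        intro i
        by_cases hi : i = j
        · subst hi
          simp only [Function.update_self]
          have : (fun y => chi (psi y)) =ᶠ[𝓝 x] (fun y => 1 - chi y) := by
            filter_upwards [hfn, bsl_dp_cont.continuousAt.eventually (lt_mem_nhds hx1),
              bsl_dp_cont.continuousAt.eventually (gt_mem_nhds hx2)] with y hy1 hy2 hy3
            exact chi_psi hy2 hy3 hy1
          rw [this.fderiv_eq, fderiv_const_sub, fderiv_fun_neg]
        · simp only [Function.update_of_ne hi]
          exact bsl_fderiv_comp (hF i) hpsic hrn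
      rw [e1, bsl_jac_update, bsl_jac_update]
      have e2 : (fun l => fderiv ℝ (fun y => - chi y) x (EuclideanSpace.single l 1))
          = (-1 : ℝ) • (fun l : Fin 4 => fderiv ℝ chi x (EuclideanSpace.single l (1 : ℝ))) := by
        ext l
        rw [fderiv_fun_neg]
        simp
      rw [e2, Matrix.det_updateRow_smul]
      ring
    have hFj : F j (psi x) = F j x := hj.inv (x := x) (z := psi x) hr
    simp only [hG]
    rw [hFj]
    calc (fderiv ℝ psi x).det * (F j x * jac (Function.update F j chi) (psi x))
        = F j x * ((fderiv ℝ psi x).det * jac (Function.update F j chi) (psi x)) := by ring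
      _ = F j x * (- jac (Function.update F j chi) x) := by rw [← hjc, hrow]
      _ = _ := by ring
  rw [h1, setIntegral_union hdisj hmm (hGi.mono_set hpc) (hGi.mono_set hmc), h2, h3,
    integral_neg, add_neg_cancel]

/-- C6: an exact form integrates to zero. -/
theorem bsl {F : Fin 4 → E4 → ℝ} (hF : ∀ i, S0.CF (F i)) {j : Fin 4} (hj : S0.RF (F j)) :
    ∫ x in cell, chi x * jac F x = 0 := by
  set W : E4 → ℝ := fun x => chi x * F j x with hW
  have hWsupp : tsupport W ⊆ tsupport chi := tsupport_mul_subset_left
  have hWU : tsupport W ⊆ U0 := hWsupp.trans tsupport_chi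
  have hWs : ContDiff ℝ ∞ W := by
    rw [contDiff_iff_contDiffAt]
    intro x
    by_cases hx : x ∈ tsupport chi
    · exact chi_contDiff.contDiffAt.mul ((hF j).smooth x (tsupport_chi hx))
    · have h1 : W =ᶠ[𝓝 x] fun _ => 0 := by
        filter_upwards [bsl_fderiv_zero hx] with y hy
        simp [hW, hy.1]
      exact (contDiffAt_const (c := (0 : ℝ))).congr_of_eventuallyEq h1
  have hWp : ∀ x m, W (x + tr m) = W x := by
    intro x m
    simp only [hW]
    rw [chi_add_tr]
    by_cases hx : x ∈ U0
    · rw [hj.inv (x := x) (z := x + tr m) (r0_tr hx m)]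
    · have : chi x = 0 := by
        by_contra hc
        exact hx (tsupport_chi (subset_tsupport chi hc))
      rw [this, zero_mul, zero_mul]
  have hsm : ∀ i, ∀ x ∈ U0, ContDiffAt ℝ ∞ (Function.update F j W i) x := by
    intro i x hx
    by_cases hi : i = j
    · subst hi
      rw [Function.update_self]
      exact hWs.contDiffAt
    · rw [Function.update_of_ne hi]
      exact (hF i).smooth x hx
  have hfirst : ∫ x in cell, jac (Function.update F j W) x = 0 := by
    apply stokes_cell (j := j) (V := U0) isOpen_U0 (fun x hx m => add_tr_mem_U0 hx m)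
    · rw [Function.update_self]; exact hWs
    · rw [Function.update_self]; exact hWp
    · rw [Function.update_self]; exact hWU
    · exact hsm
    · intro i x hx m
      by_cases hi : i = j
      · subst hi
        rw [Function.update_self]
        have e : (fun y => W (y + tr m)) = W := funext (fun y => hWp y m)
        have := fderiv_comp_add_right (𝕜 := ℝ) (f := W) (x := x) (tr m)
        rw [e] at this
        exact this.symm
      · rw [Function.update_of_ne hi]
        exact bsl_fderiv_tr (hF i) hx m
  have hJc : Continuous (jac (Function.update F j W)) :=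
    bsl_continuous_jac (j := j) (by rw [Function.update_self]; exact hWU) hsm
  have hsecond := bsl_second hF hj
  -- pointwise identity
  have hid : ∀ x, chi x * jac F x
      = jac (Function.update F j W) x - F j x * jac (Function.update F j chi) x := by
    intro x
    by_cases hx : x ∈ tsupport chi
    · have hxU := tsupport_chi hx
      have hdc : DifferentiableAt ℝ chi x := chi_contDiff.contDiffAt.differentiableAt (by simp)
      have hdF : DifferentiableAt ℝ (F j) x := ((hF j).smooth x hxU).differentiableAt (by simp)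
      have e1 : (fun l : Fin 4 => fderiv ℝ W x (EuclideanSpace.single l (1 : ℝ)))
          = (chi x • fun l : Fin 4 => fderiv ℝ (F j) x (EuclideanSpace.single l (1 : ℝ)))
            + (F j x • fun l : Fin 4 => fderiv ℝ chi x (EuclideanSpace.single l (1 : ℝ))) := by
        ext l
        simp only [hW, fderiv_fun_mul hdc hdF, Pi.add_apply, Pi.smul_apply, smul_eq_mul,
          add_apply, smul_apply]
      have e2 : jac F x = Matrix.det (Matrix.updateRow
          (Matrix.of fun i l : Fin 4 => fderiv ℝ (F i) x (EuclideanSpace.single l 1)) j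
          (fun l => fderiv ℝ (F j) x (EuclideanSpace.single l 1))) := by
        rw [← bsl_jac_update, Function.update_eq_self]
      rw [bsl_jac_update F j W, bsl_jac_update F j chi, e1, Matrix.det_updateRow_add,
        Matrix.det_updateRow_smul, Matrix.det_updateRow_smul, ← e2]
      ring
    · have h1 := (bsl_fderiv_zero hx).self_of_nhds
      have h2 : x ∉ tsupport W := fun h => hx (hWsupp h)
      have h3 := (bsl_fderiv_zero h2).self_of_nhds
      have e1 : jac (Function.update F j W) x = 0 :=
        bsl_jac_zero (j := j) (by rw [Function.update_self]; exact h3.2)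
      have e2 : jac (Function.update F j chi) x = 0 :=
        bsl_jac_zero (j := j) (by rw [Function.update_self]; exact h1.2)
      rw [e1, e2, h1.1]
      ring
  have hGi : IntegrableOn (fun x => F j x * jac (Function.update F j chi) x) cell := by
    have hc : Continuous (fun x => F j x * jac (Function.update F j chi) x) := by
      rw [continuous_iff_continuousAt]
      intro x
      by_cases hx : x ∈ tsupport chi
      · have hxU := tsupport_chi hx
        refine ((hF j).smooth x hxU).continuousAt.mul (bsl_continuousAt_jac (fun i => ?_))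
        by_cases hi : i = j
        · subst hi
          rw [Function.update_self]
          exact chi_contDiff.contDiffAt
        · rw [Function.update_of_ne hi]
          exact (hF i).smooth x hxU
      · have h2 : (fun x => F j x * jac (Function.update F j chi) x) =ᶠ[𝓝 x] fun _ => 0 := by
          filter_upwards [bsl_fderiv_zero hx] with y hy
          have : jac (Function.update F j chi) y = 0 :=
            bsl_jac_zero (j := j) (by rw [Function.update_self]; exact hy.2)
          simp [this]
        exact (continuousAt_congr h2).mpr continuousAt_const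
    exact bsl_integrableOn hc
  calc ∫ x in cell, chi x * jac F x
      = ∫ x in cell, (jac (Function.update F j W) x
          - F j x * jac (Function.update F j chi) x) := by
        apply setIntegral_congr_fun bsl_measurable_cell
        intro x _
        exact hid x
    _ = (∫ x in cell, jac (Function.update F j W) x)
          - ∫ x in cell, F j x * jac (Function.update F j chi) x :=
        integral_sub (bsl_integrableOn hJc) hGi
    _ = 0 := by rw [hfirst, hsecond, sub_zero]

end SphTw
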