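import Pool.Agent.Lib.MP_3f8e0b_gt.Basic

/-!
# Periodic bumps
-/

open Set Filter Topology MeasureTheory
open scoped ContDiff Manifold

noncomputable section

namespace SphTw

/-- C12: periodic bumps. -/
theorem exists_bump (p ε : ℝ) (hε : 0 < ε) : ∃ b : ℝ → ℝ, ContDiff ℝ ∞ b ∧
    (∀ t, b (t + 1) = b t) ∧ (∫ t in (0 : ℝ)..1, b t = 1) ∧
      ∀ t, b t ≠ 0 → ∃ n : ℤ, |t - (p + n)| < ε := by
  obtain ⟨δ, hδ0, hδε, hδ1⟩ : ∃ δ : ℝ, 0 < δ ∧ δ ≤ ε ∧ δ ≤ 1 / 2 :=
    ⟨min ε (1 / 2), lt_min hε (by norm_num), min_le_left _ _, min_le_right _ _⟩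
  have hpi := Real.pi_pos
  let f : ℝ → ℝ := fun t =>
    Real.smoothTransition (Real.cos (2 * Real.pi * (t - p)) - Real.cos (2 * Real.pi * δ))
  have hf : ContDiff ℝ ∞ f := by
    refine Real.smoothTransition.contDiff.comp ?_
    fun_prop
  have hfc : Continuous f := hf.continuous
  have hfper : ∀ t, f (t + 1) = f t := by
    intro t
    have h1 : 2 * Real.pi * (t + 1 - p) = 2 * Real.pi * (t - p) + 2 * Real.pi := by ring
    simp only [f]
    rw [h1, Real.cos_add_two_pi]
  have hf0 : ∀ t, 0 ≤ f t := fun t => Real.smoothTransition.nonneg _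
  have hpos : 0 < ∫ t in (0 : ℝ)..1, f t := by
    refine intervalIntegral.integral_pos one_pos hfc.continuousOn (fun t _ => hf0 t) ?_
    refine ⟨Int.fract p, ⟨Int.fract_nonneg p, (Int.fract_lt_one p).le⟩, ?_⟩
    refine Real.smoothTransition.pos_of_pos ?_
    have h1 : 2 * Real.pi * (Int.fract p - p) = 0 - (⌊p⌋ : ℤ) * (2 * Real.pi) := by
      rw [← Int.self_sub_floor]; ring
    rw [h1, Real.cos_sub_int_mul_two_pi, sub_pos]
    refine Real.cos_lt_cos_of_nonneg_of_le_pi le_rfl ?_ (by positivity)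
    nlinarith
  refine ⟨fun t => (∫ t in (0 : ℝ)..1, f t)⁻¹ * f t, contDiff_const.mul hf, ?_, ?_, ?_⟩
  · intro t
    simp only [hfper]
  · rw [intervalIntegral.integral_const_mul, inv_mul_cancel₀ hpos.ne']
  · intro t ht
    have h1 : f t ≠ 0 := right_ne_zero_of_mul ht
    refine ⟨round (t - p), ?_⟩
    have h2 : 0 < Real.cos (2 * Real.pi * (t - p)) - Real.cos (2 * Real.pi * δ) := by
      by_contra hcon
      exact h1 (Real.smoothTransition.zero_of_nonpos (not_lt.1 hcon))
    have h3 : Real.cos (2 * Real.pi * (t - p))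
        = Real.cos (2 * Real.pi * |t - p - round (t - p)|) := by
      have h4 : 2 * Real.pi * (t - p - round (t - p))
          = 2 * Real.pi * (t - p) - (round (t - p) : ℤ) * (2 * Real.pi) := by ring
      have h5 : 2 * Real.pi * |t - p - round (t - p)|
          = |2 * Real.pi * (t - p - round (t - p))| := by
        rw [abs_mul, abs_of_pos (by positivity : 0 < 2 * Real.pi)]
      rw [h5, Real.cos_abs, h4, Real.cos_sub_int_mul_two_pi]
    rw [h3] at h2
    have h6 := abs_sub_round (t - p)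
    have h7 : |t - p - round (t - p)| < δ := by
      by_contra hcon
      have h8 : Real.cos (2 * Real.pi * |t - p - round (t - p)|) ≤ Real.cos (2 * Real.pi * δ) := by
        refine Real.cos_le_cos_of_nonneg_of_le_pi (by positivity) ?_ ?_
        · nlinarith
        · exact mul_le_mul_of_nonneg_left (not_lt.1 hcon) (by positivity)
      linarith
    have h9 : t - (p + round (t - p)) = t - p - round (t - p) := by ring
    rw [h9]
    exact lt_of_lt_of_le h7 hδε

end SphTw
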