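import Pool.Agent.Lib.MP_3f8e0b_gt.Basic
import Pool.Agent.Lib.MP_3f8e0b_gt.ChiFacts
import Pool.Agent.Lib.MP_3f8e0b_gt.Bsl

open Set Filter Topology MeasureTheory
open scoped ContDiff Manifold

noncomputable section

namespace SphTw

theorem bump_per {h : ℝ → ℝ} (hp : ∀ t, h (t + 1) = h t) (t : ℝ) (m : ℤ) : h (t + m) = h t := by
  have h1 : Function.Periodic h 1 := hp
  have := h1.int_mul m
  simpa using this t

theorem bump_cont {G : E4 → ℝ} (hG : ∀ x ∈ U0, ContinuousAt G x) :
    Continuous (fun x => chi x * G x) := by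
  rw [continuous_iff_continuousAt]
  intro x
  by_cases hx : x ∈ tsupport chi
  · exact chi_contDiff.continuous.continuousAt.mul (hG x (tsupport_chi hx))
  · have h2 : (fun x => chi x * G x) =ᶠ[𝓝 x] fun _ => 0 := by
      filter_upwards [bsl_fderiv_zero hx] with y hy
      simp [hy.1]
    exact (continuousAt_congr h2).mpr continuousAt_const

/-- The primitive of a periodic function with mean zero. -/
theorem bump_prim {c : ℝ → ℝ} (hc : ContDiff ℝ ∞ c) (hp : ∀ t, c (t + 1) = c t)
    (hint : ∫ t in (0 : ℝ)..1, c t = 1) :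
    ∃ β : ℝ → ℝ, ContDiff ℝ ∞ β ∧ (∀ t, β (t + 1) = β t) ∧ ∀ t, HasDerivAt β (c t - 1) t := by
  have hcc : Continuous (fun t => c t - 1) := hc.continuous.sub continuous_const
  refine ⟨fun t => ∫ s in (0 : ℝ)..t, (c s - 1), ?_, ?_, ?_⟩
  · have hd : ∀ t, HasDerivAt (fun t => ∫ s in (0 : ℝ)..t, (c s - 1)) (c t - 1) t := fun t =>
      intervalIntegral.integral_hasDerivAt_right (hcc.intervalIntegrable _ _)
        (hcc.stronglyMeasurableAtFilter _ _) hcc.continuousAt
    rw [contDiff_infty_iff_deriv]
    refine ⟨fun t => (hd t).differentiableAt, ?_⟩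
    have : deriv (fun t => ∫ s in (0 : ℝ)..t, (c s - 1)) = fun t => c t - 1 :=
      funext (fun t => (hd t).deriv)
    rw [this]
    exact hc.sub contDiff_const
  · intro t
    have h1 : (∫ s in (0 : ℝ)..(t + 1), (c s - 1))
        = (∫ s in (0 : ℝ)..t, (c s - 1)) + ∫ s in t..(t + 1), (c s - 1) :=
      (intervalIntegral.integral_add_adjacent_intervals (hcc.intervalIntegrable _ _)
        (hcc.intervalIntegrable _ _)).symm
    have h2 : Function.Periodic (fun s => c s - 1) 1 := fun s => by simp [hp s]
    have h3 : (∫ s in t..(t + 1), (c s - 1)) = 0 := by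
      rw [h2.intervalIntegral_add_eq t 0, zero_add,
        intervalIntegral.integral_sub (hc.continuous.intervalIntegrable _ _)
          (continuous_const.intervalIntegrable _ _), hint]
      simp
    show (∫ s in (0 : ℝ)..(t + 1), (c s - 1)) = ∫ s in (0 : ℝ)..t, (c s - 1)
    rw [h1, h3, add_zero]
  · intro t
    exact intervalIntegral.integral_hasDerivAt_right (hcc.intervalIntegrable _ _)
      (hcc.stronglyMeasurableAtFilter _ _) hcc.continuousAt

/-- Jacobian with one row replaced by a product of functions of the rows. -/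
theorem bump_jac {F : Fin 4 → E4 → ℝ} {x : E4} (hF : ∀ i, DifferentiableAt ℝ (F i) x)
    {h h' : Fin 4 → ℝ → ℝ} (hh : ∀ l t, HasDerivAt (h l) (h' l t) t) (i : Fin 4) :
    jac (Function.update F i (fun y => ∏ l, h l (F l y))) x
      = ((∏ l ∈ Finset.univ.erase i, h l (F l x)) * h' i (F i x)) * jac F x := by
  have h1 : HasFDerivAt (fun y => ∏ l, h l (F l y))
      (∑ l, (∏ k ∈ Finset.univ.erase l, h k (F k x)) • (h' l (F l x) • fderiv ℝ (F l) x)) x :=
    HasFDerivAt.finsetProd (u := Finset.univ) (g := fun l y => h l (F l y))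
      (fun l _ => (hh l (F l x)).comp_hasFDerivAt x (hF l).hasFDerivAt)
  rw [bsl_jac_update, h1.fderiv]
  have e : (fun k : Fin 4 => (∑ l, (∏ k ∈ Finset.univ.erase l, h k (F k x)) •
      (h' l (F l x) • fderiv ℝ (F l) x)) (EuclideanSpace.single k (1 : ℝ)))
      = ∑ l, ((∏ k ∈ Finset.univ.erase l, h k (F k x)) * h' l (F l x)) •
        (Matrix.of fun i l : Fin 4 => fderiv ℝ (F i) x (EuclideanSpace.single l 1)) l := by
    ext k
    simp only [Finset.sum_apply, Pi.smul_apply, Matrix.of_apply, smul_eq_mul, sum_apply,
      smul_apply, mul_assoc]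
  rw [e, Matrix.det_updateRow_sum, smul_eq_mul]
  rfl

/-- Bump data. -/
structure BumpData (c : Fin 4 → ℝ → ℝ) : Prop where
  smooth : ∀ i, ContDiff ℝ ∞ (c i)
  per : ∀ i t, c i (t + 1) = c i t
  int : ∀ i, ∫ t in (0 : ℝ)..1, c i t = 1

theorem BumpData.update {c : Fin 4 → ℝ → ℝ} (hc : BumpData c) (i : Fin 4) :
    BumpData (Function.update c i (fun _ => 1)) := by
  refine ⟨fun l => ?_, fun l t => ?_, fun l => ?_⟩
  · by_cases h : l = i
    · subst h
      rw [Function.update_self]
      exact contDiff_const
    · rw [Function.update_of_ne h]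
      exact hc.smooth l
  · by_cases h : l = i
    · subst h
      rw [Function.update_self]
    · rw [Function.update_of_ne h]
      exact hc.per l t
  · by_cases h : l = i
    · subst h
      rw [Function.update_self]
      simp
    · rw [Function.update_of_ne h]
      exact hc.int l

theorem bump_integrable {F : Fin 4 → E4 → ℝ} (hF : ∀ i, S0.CF (F i)) {c : Fin 4 → ℝ → ℝ}
    (hc : BumpData c) :
    IntegrableOn (fun x => chi x * ((∏ i, c i (F i x)) * jac F x)) cell := by
  apply bsl_integrableOn
  apply bump_cont
  intro x hx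
  refine ContinuousAt.mul ?_ (bsl_continuousAt_jac (fun i => (hF i).smooth x hx))
  refine tendsto_finsetProd _ (fun i _ => ?_)
  exact ((hc.smooth i).continuous.continuousAt.comp ((hF i).smooth x hx).continuousAt)

theorem bump_step {F : Fin 4 → E4 → ℝ} (hF : ∀ i, S0.CF (F i)) {c : Fin 4 → ℝ → ℝ}
    (hc : BumpData c) (i : Fin 4) :
    ∫ x in cell, chi x * ((∏ l, c l (F l x)) * jac F x)
      = ∫ x in cell, chi x * ((∏ l, Function.update c i (fun _ => 1) l (F l x)) * jac F x) := by
  obtain ⟨β, hβ, hβp, hβd⟩ := bump_prim (hc.smooth i) (hc.per i) (hc.int i)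
  set h : Fin 4 → ℝ → ℝ := Function.update c i β with hh
  set h' : Fin 4 → ℝ → ℝ := Function.update (fun l => deriv (c l)) i (fun t => c i t - 1)
    with hh'
  have hd : ∀ l t, HasDerivAt (h l) (h' l t) t := by
    intro l t
    by_cases hl : l = i
    · subst hl
      simp only [hh, hh', Function.update_self]
      exact hβd t
    · simp only [hh, hh', Function.update_of_ne hl]
      exact ((hc.smooth l).differentiable (by simp)).differentiableAt.hasDerivAt
  have hsm : ∀ l, ContDiff ℝ ∞ (h l) := by
    intro l
    by_cases hl : l = i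
    · subst hl
      simp only [hh, Function.update_self]
      exact hβ
    · simp only [hh, Function.update_of_ne hl]
      exact hc.smooth l
  have hp : ∀ l t, h l (t + 1) = h l t := by
    intro l t
    by_cases hl : l = i
    · subst hl
      simp only [hh, Function.update_self]
      exact hβp t
    · simp only [hh, Function.update_of_ne hl]
      exact hc.per l t
  set W : E4 → ℝ := fun y => ∏ l, h l (F l y) with hW
  have hWRF : S0.RF W := by
    refine ⟨fun x hx => ?_, fun {x z} hr => ?_⟩
    · simp only [hW]
      exact contDiffAt_prod (fun l _ => (hsm l).contDiffAt.comp x ((hF l).smooth x hx))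
    · simp only [hW]
      refine Finset.prod_congr rfl (fun l _ => ?_)
      obtain ⟨m, hm⟩ := (hF l).per hr
      rw [hm, bump_per (hp l)]
  have hF' : ∀ l, S0.CF (Function.update F i W l) := by
    intro l
    by_cases hl : l = i
    · subst hl
      rw [Function.update_self]
      exact bsl_cf hWRF
    · rw [Function.update_of_ne hl]
      exact hF l
  have key := bsl hF' (j := i) (by rw [Function.update_self]; exact hWRF)
  have hid : ∀ x, chi x * jac (Function.update F i W) x
      = chi x * ((∏ l, c l (F l x)) * jac F x)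
        - chi x * ((∏ l, Function.update c i (fun _ => 1) l (F l x)) * jac F x) := by
    intro x
    by_cases hx : x ∈ U0
    · rw [hW, bump_jac (fun l => ((hF l).smooth x hx).differentiableAt (by simp)) hd i]
      have e1 : ∏ l ∈ Finset.univ.erase i, h l (F l x)
          = ∏ l ∈ Finset.univ.erase i, c l (F l x) := by
        refine Finset.prod_congr rfl (fun l hl => ?_)
        simp only [hh, Function.update_of_ne (Finset.ne_of_mem_erase hl)]
      have e2 : ∏ l, c l (F l x) = c i (F i x) * ∏ l ∈ Finset.univ.erase i, c l (F l x) :=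
        (Finset.mul_prod_erase _ _ (Finset.mem_univ i)).symm
      have e3 : ∏ l, Function.update c i (fun _ => 1) l (F l x)
          = ∏ l ∈ Finset.univ.erase i, c l (F l x) := by
        rw [← Finset.mul_prod_erase _ _ (Finset.mem_univ i), Function.update_self, one_mul]
        refine Finset.prod_congr rfl (fun l hl => ?_)
        simp only [Function.update_of_ne (Finset.ne_of_mem_erase hl)]
      have e4 : h' i (F i x) = c i (F i x) - 1 := by simp only [hh', Function.update_self]
      rw [e1, e2, e3, e4]
      ring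
    · have : chi x = 0 := by
        by_contra hc'
        exact hx (tsupport_chi (subset_tsupport chi hc'))
      rw [this]
      ring
  have h1 : ∫ x in cell, (chi x * ((∏ l, c l (F l x)) * jac F x)
        - chi x * ((∏ l, Function.update c i (fun _ => 1) l (F l x)) * jac F x)) = 0 := by
    rw [← key]
    apply setIntegral_congr_fun bsl_measurable_cell
    intro x _
    exact (hid x).symm
  rw [integral_sub (bump_integrable hF hc) (bump_integrable hF (hc.update i))] at h1
  linarith

/-- C7: bumps of mass one do not change the integral. -/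
theorem integral_bump {F : Fin 4 → E4 → ℝ} (hF : ∀ i, S0.CF (F i)) {b : Fin 4 → ℝ → ℝ}
    (hb : ∀ i, ContDiff ℝ ∞ (b i)) (hper : ∀ i t, b i (t + 1) = b i t)
    (hint : ∀ i, ∫ t in (0 : ℝ)..1, b i t = 1) :
    ∫ x in cell, chi x * ((∏ i, b i (F i x)) * jac F x) = ∫ x in cell, chi x * jac F x := by
  have h0 : BumpData b := ⟨hb, hper, hint⟩
  have h1 := h0.update 0
  have h2 := h1.update 1
  have h3 := h2.update 2
  rw [bump_step hF h0 0, bump_step hF h1 1, bump_step hF h2 2, bump_step hF h3 3]
  congr 1
  ext x
  congr 1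
  have : ∏ l, Function.update (Function.update (Function.update (Function.update b 0
      (fun _ => 1)) 1 (fun _ => 1)) 2 (fun _ => 1)) 3 (fun _ => 1) l (F l x) = 1 := by
    apply Finset.prod_eq_one
    intro l _
    fin_cases l <;> simp [Function.update]
  rw [this, one_mul]

end SphTw
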