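import Pool.Agent.Lib.MP_3f8e0b_gt.Basic

/-!
# Charts of the quotient of an étale relation
-/

open Set Filter Topology
open scoped ContDiff Manifold

noncomputable section

namespace SphTw

namespace Etale

variable {E : Type*} [NormedAddCommGroup E] [NormedSpace ℝ E] {S : Etale E}

/-- Inverses of the projection, restricted to small open sets, are charts. -/
theorem Good.exists_chart (hS : S.Good) {x : E} (hx : x ∈ S.U) :
    ∃ e : OpenPartialHomeomorph S.X E, S.pr x ∈ e.source ∧ e (S.pr x) = x ∧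
      e.target ⊆ S.U ∧ ∀ y ∈ e.target, e.symm y = S.pr y := by
  have h1 := hS.eventually_inj hx
  rw [nhds_prod_eq] at h1
  obtain ⟨pa, ha, pb, hb, h5⟩ := eventually_prod_iff.1 h1
  obtain ⟨V, hV1, hV2, hV3⟩ := mem_nhds_iff.1
    (inter_mem (inter_mem ha hb) (hS.isOpen_U.mem_nhds hx))
  have hVU : V ⊆ S.U := fun y hy => (hV1 hy).2
  have hinj : InjOn S.pr V := by
    intro y hy w hw hyw
    have h6 := (hS.pr_eq_iff (hVU hy) (hVU hw)).1 hyw
    exact (h5 (hV1 hy).1.1 (hV1 hw).1.2).1 h6
  haveI : Nonempty E := ⟨x⟩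
  let p : PartialEquiv E S.X := hinj.toPartialEquiv S.pr V
  have hpc : (p : E → S.X) = S.pr := rfl
  have hps : p.source = V := rfl
  have hcont : ContinuousOn p p.source := hS.continuousOn_pr.mono hVU
  have hopen : IsOpenMap (p.source.domRestrict p) := by
    intro W hW
    obtain ⟨W', hW', rfl⟩ := isOpen_induced_iff.1 hW
    have h7 : (p.source.domRestrict p) '' (Subtype.val ⁻¹' W') = S.pr '' (W' ∩ V) := by
      ext q
      constructor
      · rintro ⟨w, hw, rfl⟩
        exact ⟨w.1, ⟨hw, w.2⟩, rfl⟩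
      · rintro ⟨w, hw, rfl⟩
        exact ⟨⟨w, hw.2⟩, hw.1, rfl⟩
    rw [h7]
    exact hS.isOpen_image (hW'.inter hV2) fun y hy => hVU hy.2
  let e' : OpenPartialHomeomorph E S.X :=
    OpenPartialHomeomorph.ofContinuousOpenRestrict p hcont hopen hV2
  have he's : e'.source = V := rfl
  have he'c : ∀ y, e' y = S.pr y := fun y => rfl
  refine ⟨e'.symm, ?_, ?_, ?_, ?_⟩
  · rw [OpenPartialHomeomorph.symm_source, ← he'c]
    exact e'.map_source hV3
  · rw [← he'c]
    exact e'.left_inv hV3
  · rw [OpenPartialHomeomorph.symm_target]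
    exact hVU
  · intro y _
    rw [OpenPartialHomeomorph.symm_symm]
    exact he'c y

/-- The changes of charts are smooth. -/
theorem Good.chart_trans (hS : S.Good) {e e' : OpenPartialHomeomorph S.X E}
    (he : e.target ⊆ S.U ∧ ∀ y ∈ e.target, e.symm y = S.pr y)
    (he' : e'.target ⊆ S.U ∧ ∀ y ∈ e'.target, e'.symm y = S.pr y)
    {y : E} (hy : y ∈ e.target) (hy' : e.symm y ∈ e'.source) :
    ContDiffAt ℝ ∞ (fun w => e' (e.symm w)) y := by
  have key : ∀ w, w ∈ e.target → e.symm w ∈ e'.source → S.r w (e' (e.symm w)) := by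
    intro w hw hw'
    have h1 : e' (e.symm w) ∈ e'.target := e'.map_source hw'
    have h2 : S.pr (e' (e.symm w)) = S.pr w := by
      rw [← he'.2 _ h1, e'.left_inv hw', he.2 w hw]
    exact (hS.pr_eq_iff (he.1 hw) (he'.1 h1)).1 h2.symm
  obtain ⟨g, hg⟩ := hS.graph (key y hy hy')
  have hc1 : ContinuousAt e.symm y := e.continuousAt_symm hy
  have hc2 : ContinuousAt (fun w => e' (e.symm w)) y :=
    ContinuousAt.comp (e'.continuousAt hy') hc1
  have h4 : Tendsto (fun w => (w, e' (e.symm w))) (𝓝 y) (𝓝 (y, e' (e.symm y))) :=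
    tendsto_id.prodMk_nhds hc2
  have h5 : (fun w => e' (e.symm w)) =ᶠ[𝓝 y] g := by
    filter_upwards [h4.eventually hg.2.2, e.open_target.mem_nhds hy,
      hc1.eventually (e'.open_source.mem_nhds hy')] with w hw1 hw2 hw3
    exact hw1.1 (key w hw2 hw3)
  exact hg.1.self_of_nhds.congr_of_eventuallyEq h5

end Etale

end SphTw
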