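import Pool.Agent.Lib.MP_3f8e0b_gt.Frac
import Pool.Agent.Lib.MP_3f8e0b_gt.Psi
import Pool.Agent.Lib.MP_3f8e0b_gt.AlphaBeta

/-!
# B10: the circle functions of the example
-/

open Set Filter Topology
open scoped ContDiff Manifold

noncomputable section

namespace SphTw

private lemma circFun_range_dp {w : E4} (h : dp w < 1/25) {i : Fin 4} (hi : i ≠ 3) :
    1/20 < w i ∧ w i < 19/20 := by
  unfold dp at h
  have a0 := sq_nonneg (w 0 - 1/4)
  have a1 := sq_nonneg (w 1 - 1/2)
  have a2 := sq_nonneg (w 2 - 1/2)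
  fin_cases i
  · have : |w 0 - 1/4| < 1/5 := by
      apply abs_lt_of_sq_lt_sq _ (by norm_num)
      linarith
    rw [abs_lt] at this
    constructor
    · show 1/20 < w 0
      linarith
    · show w 0 < 19/20
      linarith
  · have : |w 1 - 1/2| < 1/5 := by
      apply abs_lt_of_sq_lt_sq _ (by norm_num)
      linarith
    rw [abs_lt] at this
    constructor
    · show 1/20 < w 1
      linarith
    · show w 1 < 19/20
      linarith
  · have : |w 2 - 1/2| < 1/5 := by
      apply abs_lt_of_sq_lt_sq _ (by norm_num)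
      linarith
    rw [abs_lt] at this
    constructor
    · show 1/20 < w 2
      linarith
    · show w 2 < 19/20
      linarith
  · exact absurd rfl hi

private lemma circFun_range_dm {w : E4} (h : dm w < 1/25) {i : Fin 4} (hi : i ≠ 3) :
    1/20 < w i ∧ w i < 19/20 := by
  unfold dm at h
  have a0 := sq_nonneg (w 0 - 3/4)
  have a1 := sq_nonneg (w 1 - 1/2)
  have a2 := sq_nonneg (w 2 - 1/2)
  fin_cases i
  · have : |w 0 - 3/4| < 1/5 := by
      apply abs_lt_of_sq_lt_sq _ (by norm_num)
      linarith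
    rw [abs_lt] at this
    constructor
    · show 1/20 < w 0
      linarith
    · show w 0 < 19/20
      linarith
  · have : |w 1 - 1/2| < 1/5 := by
      apply abs_lt_of_sq_lt_sq _ (by norm_num)
      linarith
    rw [abs_lt] at this
    constructor
    · show 1/20 < w 1
      linarith
    · show w 1 < 19/20
      linarith
  · have : |w 2 - 1/2| < 1/5 := by
      apply abs_lt_of_sq_lt_sq _ (by norm_num)
      linarith
    rw [abs_lt] at this
    constructor
    · show 1/20 < w 2
      linarith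
    · show w 2 < 19/20
      linarith
  · exact absurd rfl hi

private lemma circFun_frac (x : E4) {i : Fin 4} (hi : i ≠ 3) :
    x i = frac x i + (⌊x i⌋ : ℤ) := by
  fin_cases i
  · show x 0 = Int.fract (x 0) + (⌊x 0⌋ : ℤ)
    rw [Int.fract]; ring
  · show x 1 = Int.fract (x 1) + (⌊x 1⌋ : ℤ)
    rw [Int.fract]; ring
  · show x 2 = Int.fract (x 2) + (⌊x 2⌋ : ℤ)
    rw [Int.fract]; ring
  · exact absurd rfl hi

private lemma circFun_dm_psi {x : E4} (h1 : 1/100 < dp x) : dm (psi x) < 1/25 := by
  have hpos : 0 < dp x := by linarith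
  rw [dm_psi hpos, div_lt_div_iff₀ (by positivity) (by norm_num)]
  linarith

private lemma circFun_Q_psi {x z : E4} (hx : x ∈ U0) (h : dp (frac x) < 1/25) {m : Fin 4 → ℤ}
    (hz : z = psi (frac x) + tr m) (i : Fin 4) : ∃ n : ℤ, Q i z = Q i x + n := by
  by_cases hi : i = 3
  · subst hi
    refine ⟨m 3, ?_⟩
    rw [hz]
    simp [Q, psi, frac]
  · have hzi : z i = psi (frac x) i + (m i : ℤ) := by rw [hz]; rfl
    have h1 : alpha (frac x i) = 1/2 := by
      obtain ⟨a, b⟩ := circFun_range_dp h hi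
      exact alpha_const a.le b.le
    have h2 : alpha (psi (frac x) i) = 1/2 := by
      obtain ⟨a, b⟩ := circFun_range_dm (circFun_dm_psi hx.1) hi
      exact alpha_const a.le b.le
    refine ⟨m i - ⌊x i⌋, ?_⟩
    have e1 : alpha (x i) = 1/2 + (⌊x i⌋ : ℤ) := by
      conv_lhs => rw [circFun_frac x hi]
      rw [alpha_add_int, h1]
    simp only [Q, if_neg hi]
    rw [hzi, alpha_add_int, h2, e1]
    push_cast
    ring

/-- B10 (CircFun.lean) uses B1-B4, B9 -/
theorem Q_CF (i : Fin 4) : S0.CF (Q i) where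
  smooth := by
    intro x _
    have hc : ContDiff ℝ ∞ (fun y : E4 => y i) := by fun_prop
    by_cases hi : i = 3
    · have : Q i = fun y : E4 => y i := by
        funext y; simp [Q, hi]
      rw [this]
      exact hc.contDiffAt
    · have : Q i = fun y : E4 => alpha (y i) := by
        funext y; simp [Q, hi]
      rw [this]
      exact (alpha_contDiff.comp hc).contDiffAt
  per := by
    intro x z h
    obtain ⟨hx, hz, h⟩ := h
    rcases h with ⟨m, hm⟩ | ⟨h, m, hm⟩ | ⟨h, m, hm⟩
    · refine ⟨m i, ?_⟩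
      have hzi : z i = x i + (m i : ℤ) := by rw [hm]; rfl
      by_cases hi : i = 3
      · subst hi
        simp only [Q, if_pos]
        exact hzi
      · simp only [Q, if_neg hi]
        rw [hzi, alpha_add_int]
    · exact circFun_Q_psi hx h hm i
    · obtain ⟨n, hn⟩ := circFun_Q_psi hz h hm i
      exact ⟨-n, by rw [hn]; push_cast; ring⟩

private lemma circFun_dh_psi {x z : E4} (hx : x ∈ U0) (h : dp (frac x) < 1/25)
    {m : Fin 4 → ℤ} (hz : z = psi (frac x) + tr m) : dh z = dh x - 1 := by
  have hx1 : 1/100 < dp (frac x) := hx.1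
  have hpos : 0 < dp (frac x) := by linarith
  have hdm := circFun_dm_psi hx1
  have e1 : dp (frac z) = dp (psi (frac x)) := by
    rw [hz, dp_frac_add_tr, frac_psi hx1]
  have e2 : dm (frac z) = 1 / (2500 * dp (frac x)) := by
    rw [hz, dm_frac_add_tr, frac_psi hx1, dm_psi hpos]
  have h3 : 1/16 ≤ dp (psi (frac x)) := by
    by_contra hlt
    rw [not_le] at hlt
    exact not_dp_dm hlt (by linarith)
  have h4 : 1/16 ≤ dm (frac x) := by
    by_contra hlt
    rw [not_le] at hlt
    exact not_dp_dm (by linarith) hlt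
  have b1 : beta (dp (frac z)) = 0 := by
    rw [e1]; exact beta_eq_zero (by linarith)
  have b2 : beta (dm (frac x)) = 0 := beta_eq_zero (by linarith)
  have b3 := beta_add hpos
  unfold dh
  rw [b1, b2, e2]
  linarith

theorem dh_CF : S0.CF dh where
  smooth := by
    intro x _
    have hf : ContDiff ℝ ∞ (fun y : E4 => beta (dp y) - beta (dm y)) := by
      have h1 : ContDiff ℝ ∞ dp := by unfold dp; fun_prop
      have h2 : ContDiff ℝ ∞ dm := by unfold dm; fun_prop
      exact (beta_contDiff.comp h1).sub (beta_contDiff.comp h2)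
    have := contDiffAt_comp_frac (f := fun y : E4 => beta (dp y) - beta (dm y)) (c := (0 : ℝ))
      (x := x) (by
        intro y hy1 hy2
        show beta (dp (frac y)) - beta (dm (frac y)) = 0
        rw [beta_eq_zero (by linarith), beta_eq_zero (by linarith), sub_zero]) hf.contDiffAt
    exact this
  per := by
    intro x z h
    obtain ⟨hx, hz, h⟩ := h
    rcases h with ⟨m, hm⟩ | ⟨h, m, hm⟩ | ⟨h, m, hm⟩
    · refine ⟨0, ?_⟩
      unfold dh
      rw [hm, dp_frac_add_tr, dm_frac_add_tr]
      simp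
    · refine ⟨-1, ?_⟩
      rw [circFun_dh_psi hx h hm]
      push_cast
      ring
    · refine ⟨1, ?_⟩
      rw [circFun_dh_psi hz h hm]
      push_cast
      ring

private lemma circFun_Q_const {x : E4} {i : Fin 4} (hi : i ≠ 3)
    (h : 1/20 < frac x i ∧ frac x i < 19/20) : fderiv ℝ (Q i) x = 0 := by
  have hx := circFun_frac x hi
  have hcont : ContinuousAt (fun y : E4 => y i) x := by fun_prop
  have h1 : ∀ᶠ y : E4 in 𝓝 x, (⌊x i⌋ : ℝ) + 1/20 < y i :=
    hcont.eventually (lt_mem_nhds (by linarith [h.1]))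
  have h2 : ∀ᶠ y : E4 in 𝓝 x, y i < (⌊x i⌋ : ℝ) + 19/20 :=
    hcont.eventually (gt_mem_nhds (by linarith [h.2]))
  have h3 : Q i =ᶠ[𝓝 x] fun _ => 1/2 + (⌊x i⌋ : ℝ) := by
    filter_upwards [h1, h2] with y hy1 hy2
    simp only [Q, if_neg hi]
    have e : y i = (y i - (⌊x i⌋ : ℤ)) + (⌊x i⌋ : ℤ) := by ring
    rw [e, alpha_add_int, alpha_const (by linarith) (by linarith)]
  rw [h3.fderiv_eq]
  simp

theorem Q_dh_perp {i : Fin 4} (hi : i ≠ 3) {x : E4} (hx : x ∈ U0) :
    fderiv ℝ (Q i) x = 0 ∨ fderiv ℝ dh x = 0 := by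
  by_cases h1 : dp (frac x) < 1/25
  · exact Or.inl (circFun_Q_const hi (circFun_range_dp h1 hi))
  by_cases h2 : dm (frac x) < 1/25
  · exact Or.inl (circFun_Q_const hi (circFun_range_dm h2 hi))
  right
  rw [not_lt] at h1 h2
  have hev : ∀ᶠ y in 𝓝 x, 1/36 < dp (frac y) ∧ 1/36 < dm (frac y) := by
    rcases frac_cases x with h | h
    · have hc : Continuous (fun y : E4 => y - tr (fl x)) := by fun_prop
      have hdp : Continuous (fun y : E4 => dp (y - tr (fl x))) := frac_dp_continuous.comp hc
      have hdm : Continuous (fun y : E4 => dm (y - tr (fl x))) := frac_dm_continuous.comp hc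
      have e1 : ∀ᶠ y in 𝓝 x, 1/36 < dp (y - tr (fl x)) := by
        apply hdp.continuousAt.eventually (lt_mem_nhds _)
        show 1/36 < dp (x - tr (fl x))
        rw [← frac_eq]; linarith
      have e2 : ∀ᶠ y in 𝓝 x, 1/36 < dm (y - tr (fl x)) := by
        apply hdm.continuousAt.eventually (lt_mem_nhds _)
        show 1/36 < dm (x - tr (fl x))
        rw [← frac_eq]; linarith
      filter_upwards [h, e1, e2] with y hy hy1 hy2
      rw [hy]
      exact ⟨hy1, hy2⟩
    · filter_upwards [h] with y hy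
      exact ⟨by linarith [hy.1], by linarith [hy.2]⟩
  have h3 : dh =ᶠ[𝓝 x] fun _ => (0 : ℝ) := by
    filter_upwards [hev] with y hy
    unfold dh
    rw [beta_eq_zero hy.1.le, beta_eq_zero hy.2.le, sub_zero]
  rw [h3.fderiv_eq]
  simp

end SphTw
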