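import Pool.Agent.Lib.MP_3f8e0b_gt.Basic

/-!
# MP_3f8e0b_gt: a smooth circle action gives a smooth flow of period one
-/

open Set Filter Topology
open scoped ContDiff Manifold

namespace SphTw

namespace Etale

variable {E : Type*} [NormedAddCommGroup E] [NormedSpace ℝ E] {S : Etale E}

theorem CircleFlow_smooth [ChartedSpace E S.X] (hM : S.Mfd)
    {a : Circle → S.X → S.X}
    (ha : ContMDiff ((𝓡 1).prod 𝓘(ℝ, E)) 𝓘(ℝ, E) ∞ (fun p : Circle × S.X => a p.1 p.2))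
    (p : ℝ × E) (hp : p.2 ∈ S.U) :
    ContMDiffAt 𝓘(ℝ, ℝ × E) 𝓘(ℝ, E) ∞
      (fun p : ℝ × E => a (Circle.exp (2 * Real.pi * p.1)) (S.pr p.2)) p := by
  have h1 : ContMDiffAt 𝓘(ℝ, ℝ × E) (𝓡 1) ∞
      (fun p : ℝ × E => Circle.exp (2 * Real.pi * p.1)) p := by
    have h2 : ContMDiff 𝓘(ℝ, ℝ × E) 𝓘(ℝ, ℝ) ∞ (fun p : ℝ × E => 2 * Real.pi * p.1) :=
      (contDiff_const.mul contDiff_fst).contMDiff
    exact (contMDiff_circleExp.comp h2).contMDiffAt
  have h3 : ContMDiffAt 𝓘(ℝ, ℝ × E) 𝓘(ℝ, E) ∞ (fun p : ℝ × E => S.pr p.2) p := by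
    have h4 : ContMDiff 𝓘(ℝ, ℝ × E) 𝓘(ℝ, E) ∞ (fun p : ℝ × E => p.2) :=
      contDiff_snd.contMDiff
    exact ContMDiffAt.comp p (hM.pr_smooth p.2 hp) h4.contMDiffAt
  exact ContMDiffAt.comp p (ha.contMDiffAt
    (x := (Circle.exp (2 * Real.pi * p.1), S.pr p.2))) (h1.prodMk h3)

theorem Mfd.circle_flow [ChartedSpace E S.X] (hM : S.Mfd) (hS : S.Good)
    {a : Circle → S.X → S.X} (h1 : ∀ q, a 1 q = q) (hmul : ∀ g h q, a (g * h) q = a g (a h q))
    (ha : ContMDiff ((𝓡 1).prod 𝓘(ℝ, E)) 𝓘(ℝ, E) ∞ (fun p : Circle × S.X => a p.1 p.2)) :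
    S.SFlow (fun s q => a (Circle.exp (2 * Real.pi * s)) q) := by
  refine ⟨fun q => ?_, fun s t q => ?_, fun q => ?_, fun s x hx z hz h => ?_⟩
  · simp [h1]
  · simp only [mul_add, Circle.exp_add, hmul]
  · simp [h1]
  · obtain ⟨σ, hσ1, hσ2⟩ := hM.sec z hz
    have hcont : ContinuousAt
        (fun p : ℝ × E => a (Circle.exp (2 * Real.pi * p.1)) (S.pr p.2)) (s, x) :=
      (CircleFlow_smooth hM ha (s, x) hx).continuousAt
    rw [ContinuousAt] at hcont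
    have h' : a (Circle.exp (2 * Real.pi * s)) (S.pr x) = S.pr z := h.symm
    simp only [h'] at hcont
    have hev := hcont.eventually hσ2
    have hU : ∀ᶠ p in 𝓝 ((s, x) : ℝ × E), p.2 ∈ S.U :=
      (continuous_snd.continuousAt (x := (s, x))).eventually (hS.isOpen_U.mem_nhds hx)
    refine ⟨fun p => σ (a (Circle.exp (2 * Real.pi * p.1)) (S.pr p.2)), ?_, ?_, ?_⟩
    · filter_upwards [hev, hU] with p hp hpU
      rw [← contMDiffAt_iff_contDiffAt]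
      exact ContMDiffAt.comp p hp.1 (CircleFlow_smooth hM ha p hpU)
    · simp only [h', hσ1]
    · filter_upwards [hev] with p hp
      exact ⟨hp.2.1, hp.2.2⟩

end Etale

end SphTw
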