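import Pool.Agent.Lib.MP_3f8e0b_gt.Rel

/-!
# The relation is closed in `U0 × U0`
-/

open Set Filter Topology
open scoped ContDiff Manifold

namespace SphTw

/-- the lattice of integral translations is closed -/
theorem closed_lattice : IsClosed {y : E4 | ∃ m, y = tr m} := by
  have h : {y : E4 | ∃ m, y = tr m} = ⋂ i : Fin 4, {y : E4 | y i ∈ Set.range ((↑) : ℤ → ℝ)} := by
    ext y
    simp only [Set.mem_ofPred_eq, Set.mem_iInter, Set.mem_range]
    constructor
    · rintro ⟨m, rfl⟩ i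
      exact ⟨m i, rfl⟩
    · intro hy
      choose m hm using hy
      refine ⟨m, ?_⟩
      ext i
      rw [tr_apply, hm i]
  rw [h]
  refine isClosed_iInter fun i => ?_
  have hc : Continuous (fun y : E4 => y i) := by fun_prop
  exact Int.isClosedEmbedding_coe_real.isClosed_range.preimage hc

theorem closed_aux {f : E4 × E4 → E4} {p₀ : E4 × E4} (hf : ContinuousAt f p₀)
    (h : ¬ ∃ m, f p₀ = tr m) : ∀ᶠ p in 𝓝 p₀, ¬ ∃ m, f p = tr m :=
  hf.eventually (closed_lattice.isOpen_compl.mem_nhds h)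

theorem closed_psi {x z : E4} (hx : x ∈ U0) (hz : z ∈ U0) (h : ¬ r0 x z) :
    ∀ᶠ p in 𝓝 ((x, z) : E4 × E4),
      ¬ (dp (frac p.1) < 1/25 ∧ ∃ m, p.2 = psi (frac p.1) + tr m) := by
  have ht : Tendsto (Prod.fst : E4 × E4 → E4) (𝓝 (x, z)) (𝓝 x) :=
    continuous_fst.continuousAt
  rcases frac_cases x with hc | hc
  · have hfx : frac x = x - tr (fl x) := hc.self_of_nhds
    have hdx : 1/100 < dp (frac x) := hx.1
    have hnot : ¬ ∃ m, z - psi (frac x) = tr m := by
      rintro ⟨m, hm⟩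
      have hz' : z = psi (frac x) + tr m := by
        rw [← hm]
        abel
      have h1 : dm (frac z) = 1 / (2500 * dp (frac x)) := by
        rw [hz', dm_frac_add_tr, frac_psi hdx, dm_psi (by linarith)]
      have h2 : dp (frac x) < 1/25 := by
        have h3 := hz.2
        rw [h1, lt_div_iff₀ (by linarith)] at h3
        linarith
      exact h ⟨hx, hz, Or.inr (Or.inl ⟨h2, m, hz'⟩)⟩
    have hcont : ContinuousAt (fun p : E4 × E4 => p.2 - psi (p.1 - tr (fl x))) (x, z) := by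
      have h1 : ContinuousAt psi (x - tr (fl x)) := by
        rw [← hfx]
        exact (contDiffAt_psi (by linarith)).continuousAt
      have h2 : ContinuousAt (fun p : E4 × E4 => p.1 - tr (fl x)) (x, z) := by fun_prop
      have h3 : ContinuousAt (fun p : E4 × E4 => psi (p.1 - tr (fl x))) (x, z) :=
        ContinuousAt.comp (f := fun p : E4 × E4 => p.1 - tr (fl x)) (g := psi) h1 h2
      exact continuousAt_snd.sub h3
    have hev := closed_aux hcont (by
      show ¬ ∃ m, z - psi (x - tr (fl x)) = tr m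
      rw [← hfx]
      exact hnot)
    have hc' : ∀ᶠ p in 𝓝 ((x, z) : E4 × E4), frac p.1 = p.1 - tr (fl x) :=
      ht.eventually hc
    filter_upwards [hev, hc'] with p hp hp'
    rintro ⟨-, m, hm⟩
    apply hp
    refine ⟨m, ?_⟩
    rw [← hp', hm]
    abel
  · have hc' : ∀ᶠ p in 𝓝 ((x, z) : E4 × E4), 1/18 < dp (frac p.1) ∧ 1/18 < dm (frac p.1) :=
      ht.eventually hc
    filter_upwards [hc'] with p hp
    rintro ⟨h1, -⟩
    linarith [hp.1]

/-- B5 (Closed.lean) uses B1, B2, B3 -/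
theorem r0_closed {x z : E4} (hx : x ∈ U0) (hz : z ∈ U0) (h : ¬ r0 x z) :
    ∀ᶠ p in 𝓝 ((x, z) : E4 × E4), ¬ r0 p.1 p.2 := by
  have h1 : ∀ᶠ p in 𝓝 ((x, z) : E4 × E4), ¬ ∃ m, p.2 - p.1 = tr m := by
    refine closed_aux (f := fun p : E4 × E4 => p.2 - p.1) (by fun_prop) ?_
    rintro ⟨m, hm⟩
    refine h ⟨hx, hz, Or.inl ⟨m, ?_⟩⟩
    rw [← hm]
    abel
  have h2 := closed_psi hx hz h
  have h3 : ∀ᶠ p in 𝓝 ((x, z) : E4 × E4),
      ¬ (dp (frac p.2) < 1/25 ∧ ∃ m, p.1 = psi (frac p.2) + tr m) := by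
    have h4 := closed_psi hz hx (fun h' => h (r0_symm h'))
    have h5 : Tendsto (Prod.swap : E4 × E4 → E4 × E4) (𝓝 (x, z)) (𝓝 (z, x)) :=
      continuous_swap.continuousAt
    exact h5.eventually h4
  filter_upwards [h1, h2, h3] with p hp1 hp2 hp3
  rintro ⟨-, -, h6 | h6 | h6⟩
  · obtain ⟨m, hm⟩ := h6
    apply hp1
    refine ⟨m, ?_⟩
    rw [hm]
    abel
  · exact hp2 h6
  · exact hp3 h6

end SphTw
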