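import Pool.Agent.Lib.MP_3f8e0b_gt.S0Good
import Pool.Agent.Lib.MP_3f8e0b_gt.Rel

/-!
# The example is compact
-/

open Set Filter Topology
open scoped ContDiff Manifold

noncomputable section

namespace SphTw

/-- A compact set which meets every class. -/
def Compact_K : Set E4 := {x | (∀ i, x i ∈ Icc (0 : ℝ) 1) ∧ 1/50 ≤ dp x ∧ 1/50 ≤ dm x}

theorem Compact_K_isCompact : IsCompact Compact_K := by
  refine Metric.isCompact_of_isClosed_isBounded ?_ ?_
  · have h1 : IsClosed {x : E4 | ∀ i, x i ∈ Icc (0 : ℝ) 1} := by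
      have : {x : E4 | ∀ i, x i ∈ Icc (0 : ℝ) 1} = ⋂ i, (fun x : E4 => x i) ⁻¹' Icc 0 1 := by
        ext x
        simp
      rw [this]
      refine isClosed_iInter fun i => isClosed_Icc.preimage ?_
      fun_prop
    have h2 : IsClosed {x : E4 | 1/50 ≤ dp x} := isClosed_le continuous_const frac_dp_continuous
    have h3 : IsClosed {x : E4 | 1/50 ≤ dm x} := isClosed_le continuous_const frac_dm_continuous
    exact h1.inter (h2.inter h3)
  · refine (Metric.isBounded_closedBall (x := (0 : E4)) (r := 2)).subset fun x hx => ?_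
    rw [mem_closedBall_zero_iff, EuclideanSpace.norm_eq]
    rw [Real.sqrt_le_left (by norm_num)]
    have : ∑ i, ‖x i‖ ^ 2 ≤ ∑ _i : Fin 4, (1 : ℝ) := by
      refine Finset.sum_le_sum fun i _ => ?_
      have h := hx.1 i
      rw [Real.norm_eq_abs, sq_abs]
      nlinarith [h.1, h.2]
    refine this.trans ?_
    norm_num

theorem Compact_fract_cases {t : ℝ} (h : t ∈ Icc (0 : ℝ) 1) : Int.fract t = t ∨ t = 1 := by
  rcases lt_or_eq_of_le h.2 with h1 | h1
  · exact Or.inl (Int.fract_eq_self.2 ⟨h.1, h1⟩)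
  · exact Or.inr h1

theorem Compact_K_sub : Compact_K ⊆ U0 := by
  rintro x ⟨hx, h1, h2⟩
  have e0 := Compact_fract_cases (hx 0)
  have e1 := Compact_fract_cases (hx 1)
  have e2 := Compact_fract_cases (hx 2)
  simp only [dp, dm] at h1 h2
  show 1/100 < dp (frac x) ∧ 1/100 < dm (frac x)
  simp only [dp, dm, frac, P_zero, P_one, P_two]
  have s1 := sq_nonneg (Int.fract (x 0) - 1/4)
  have s2 := sq_nonneg (Int.fract (x 0) - 3/4)
  have s3 := sq_nonneg (Int.fract (x 1) - 1/2)
  have s4 := sq_nonneg (Int.fract (x 2) - 1/2)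
  rcases e0 with e0 | e0
  · rcases e1 with e1 | e1
    · rcases e2 with e2 | e2
      · rw [e0, e1, e2]
        constructor <;> linarith
      · have : Int.fract (x 2) = 0 := by rw [e2]; simp
        rw [this] at s4 ⊢
        constructor <;> nlinarith
    · have : Int.fract (x 1) = 0 := by rw [e1]; simp
      rw [this] at s3 ⊢
      constructor <;> nlinarith
  · have : Int.fract (x 0) = 0 := by rw [e0]; simp
    rw [this] at s1 s2 ⊢
    constructor <;> nlinarith

theorem Compact_psi {x : E4} (h3 : x 3 ∈ Ico (0 : ℝ) 1) (h1 : 1/100 < dp x) (h2 : dp x < 1/50) :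
    psi x ∈ Compact_K := by
  have hd := psi_dm_lt h1
  have hb := psi_bounds_dm hd
  have hp := psi_dp_of_dm hd
  have hm := dm_psi (x := x) (by linarith)
  refine ⟨fun i => ?_, by linarith, ?_⟩
  · fin_cases i
    · show (psi x) 0 ∈ Icc (0 : ℝ) 1
      exact ⟨by linarith [hb.1.1], by linarith [hb.1.2]⟩
    · show (psi x) 1 ∈ Icc (0 : ℝ) 1
      exact ⟨by linarith [hb.2.1.1], by linarith [hb.2.1.2]⟩
    · show (psi x) 2 ∈ Icc (0 : ℝ) 1
      exact ⟨by linarith [hb.2.2.1], by linarith [hb.2.2.2]⟩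
    · exact ⟨h3.1, h3.2.le⟩
  · rw [hm, div_le_div_iff₀ (by norm_num) (by linarith)]
    linarith

theorem Compact_psiInv {x : E4} (h3 : x 3 ∈ Ico (0 : ℝ) 1) (h1 : 1/100 < dm x)
    (h2 : dm x < 1/50) : psiInv x ∈ Compact_K := by
  have hd := psi_dp_lt h1
  have hb := psi_bounds_dp hd
  have hp := psi_dm_of_dp hd
  have hm := dp_psiInv (z := x) (by linarith)
  refine ⟨fun i => ?_, ?_, by linarith⟩
  · fin_cases i
    · show (psiInv x) 0 ∈ Icc (0 : ℝ) 1
      exact ⟨by linarith [hb.1.1], by linarith [hb.1.2]⟩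
    · show (psiInv x) 1 ∈ Icc (0 : ℝ) 1
      exact ⟨by linarith [hb.2.1.1], by linarith [hb.2.1.2]⟩
    · show (psiInv x) 2 ∈ Icc (0 : ℝ) 1
      exact ⟨by linarith [hb.2.2.1], by linarith [hb.2.2.2]⟩
    · exact ⟨h3.1, h3.2.le⟩
  · rw [hm, div_le_div_iff₀ (by norm_num) (by linarith)]
    linarith

/-- B7 (Compact.lean) uses B1-B3, S0_good -/
theorem compactSpace_S0 : CompactSpace S0.X := by
  have hS := S0_good
  refine ⟨?_⟩
  have h1 : IsCompact (S0.pr '' Compact_K) :=
    Compact_K_isCompact.image_of_continuousOn (hS.continuousOn_pr.mono Compact_K_sub)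
  have h2 : S0.pr '' Compact_K = univ := by
    refine eq_univ_of_forall fun q => ?_
    obtain ⟨x, hx, rfl⟩ := S0.pr_surj q
    set m : Fin 4 → ℤ := fun i => -⌊x i⌋ with hm
    have hco : ∀ i, (x + tr m) i = Int.fract (x i) := by
      intro i
      show x i + ((-⌊x i⌋ : ℤ) : ℝ) = _
      rw [← Int.self_sub_floor]
      push_cast
      ring
    have hI : ∀ i, (x + tr m) i ∈ Ico (0 : ℝ) 1 := by
      intro i
      rw [hco]
      exact ⟨Int.fract_nonneg _, Int.fract_lt_one _⟩
    have hU : x + tr m ∈ U0 := add_tr_mem_U0 hx m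
    have hfr : frac (x + tr m) = x + tr m := frac_eq_self (hI 0) (hI 1) (hI 2)
    have hr : S0.r x (x + tr m) := r0_tr hx m
    rw [hS.pr_eq hr]
    have hU' := hU
    rw [U0, mem_ofPred_eq, hfr] at hU'
    by_cases hp : dp (x + tr m) < 1/50
    · refine ⟨psi (x + tr m), Compact_psi (hI 3) hU'.1 hp, ?_⟩
      exact (hS.pr_eq (r0_psi hU'.1 (by linarith) hfr)).symm
    · by_cases hq : dm (x + tr m) < 1/50
      · refine ⟨psiInv (x + tr m), Compact_psiInv (hI 3) hU'.2 hq, ?_⟩
        have h3 : frac (psiInv (x + tr m)) = psiInv (x + tr m) := frac_psiInv hU'.2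
        have h4 : S0.r (x + tr m) (psiInv (x + tr m)) := by
          refine ⟨hU, psiInv_mem hU'.2 (by linarith), Or.inr (Or.inr ⟨?_, 0, ?_⟩)⟩
          · rw [h3]
            exact psi_dp_lt hU'.2
          · rw [h3, psi_psiInv (by linarith [hU'.2]), rel_tr_zero, add_zero]
        exact (hS.pr_eq h4).symm
      · exact ⟨_, ⟨fun i => ⟨(hI i).1, (hI i).2.le⟩, not_lt.1 hp, not_lt.1 hq⟩, rfl⟩
  rw [← h2]
  exact h1

end SphTw
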