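import Pool.Agent.Lib.MP_3f8e0b_gt.S0Good

/-!
# The example is connected
-/

open Set Filter Topology
open scoped ContDiff Manifold

noncomputable section

namespace SphTw

theorem Conn_fract_sq {t : ℝ} {n : ℤ} (h1 : (n : ℝ) ≤ t) (h2 : t ≤ n + 1) :
    (Int.fract t - 1/2) ^ 2 = (t - n - 1/2) ^ 2 := by
  rcases lt_or_eq_of_le h2 with h | h
  · have h3 : ⌊t⌋ = n := Int.floor_eq_iff.2 ⟨h1, h⟩
    rw [← Int.self_sub_floor, h3]
  · have h3 : Int.fract t = 0 := by
      rw [h]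
      have : ((n : ℝ) + 1) = ((n + 1 : ℤ) : ℝ) := by push_cast; ring
      rw [this, Int.fract_intCast]
    rw [h3, h]
    ring

theorem Conn_mem {x : E4} (h : (1 : ℝ) / 100 < (Int.fract (x 1) - 1/2) ^ 2) : x ∈ U0 := by
  constructor
  · simp only [dp, frac, P_zero, P_one, P_two]
    nlinarith [sq_nonneg (Int.fract (x 0) - 1/4), sq_nonneg (Int.fract (x 2) - 1/2)]
  · simp only [dm, frac, P_zero, P_one, P_two]
    nlinarith [sq_nonneg (Int.fract (x 0) - 3/4), sq_nonneg (Int.fract (x 2) - 1/2)]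

theorem Conn_seg {x : E4} (hx : x ∈ U0) :
    ∃ (z : E4) (n : ℤ), z 1 = n ∧ segment ℝ x z ⊆ U0 := by
  obtain ⟨hx1, hx2⟩ := hx
  simp only [dp, dm, frac, P_zero, P_one, P_two] at hx1 hx2
  obtain ⟨c, hc⟩ : ∃ c : ℤ, (c = ⌊x 1⌋ ∧ Int.fract (x 1) ≤ 1/2) ∨
      (c = ⌊x 1⌋ + 1 ∧ 1/2 ≤ Int.fract (x 1)) := by
    rcases le_total (Int.fract (x 1)) (1/2) with h | h
    · exact ⟨_, Or.inl ⟨rfl, h⟩⟩
    · exact ⟨_, Or.inr ⟨rfl, h⟩⟩
  refine ⟨P (x 0) c (x 2) (x 3), c, rfl, ?_⟩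
  rintro y ⟨a, b, ha, hb, hab, rfl⟩
  have e0 : (a • x + b • P (x 0) c (x 2) (x 3) : E4) 0 = x 0 := by
    simp only [PiLp.add_apply, PiLp.smul_apply, smul_eq_mul, P_zero]
    rw [← add_mul, hab, one_mul]
  have e2 : (a • x + b • P (x 0) c (x 2) (x 3) : E4) 2 = x 2 := by
    simp only [PiLp.add_apply, PiLp.smul_apply, smul_eq_mul, P_two]
    rw [← add_mul, hab, one_mul]
  have e1 : (a • x + b • P (x 0) c (x 2) (x 3) : E4) 1 = a * x 1 + b * c := by
    simp only [PiLp.add_apply, PiLp.smul_apply, smul_eq_mul, P_one]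
  have hf : Int.fract (x 1) = x 1 - ⌊x 1⌋ := (Int.self_sub_floor _).symm
  have hf0 := Int.fract_nonneg (x 1)
  have hf1 := Int.fract_lt_one (x 1)
  have hb1 : b ≤ 1 := by linarith
  have ha' : a = 1 - b := by linarith
  have key : (Int.fract (x 1) - 1/2) ^ 2 ≤ (Int.fract (a * x 1 + b * c) - 1/2) ^ 2 := by
    rcases hc with ⟨hc, h⟩ | ⟨hc, h⟩
    · have h1 : ((⌊x 1⌋ : ℤ) : ℝ) ≤ a * x 1 + b * c := by
        rw [hc, ha']
        nlinarith
      have h2 : a * x 1 + b * c ≤ (⌊x 1⌋ : ℤ) + 1 := by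
        rw [hc, ha']
        nlinarith
      rw [Conn_fract_sq h1 h2]
      have h3 : a * x 1 + b * c - (⌊x 1⌋ : ℤ) = (1 - b) * Int.fract (x 1) := by
        rw [hc, ha', hf]
        ring
      rw [h3]
      have h4 : (1 - b) * Int.fract (x 1) ≤ Int.fract (x 1) := by nlinarith
      have h5 : 0 ≤ (1 - b) * Int.fract (x 1) := mul_nonneg (by linarith) hf0
      nlinarith
    · have h0 : a * x 1 + b * c - (⌊x 1⌋ : ℤ) = (1 - b) * Int.fract (x 1) + b := by
        rw [hc, ha', hf]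
        push_cast
        ring
      have h5 : 0 ≤ (1 - b) * Int.fract (x 1) := mul_nonneg (by linarith) hf0
      have h6 : (1 - b) * Int.fract (x 1) + b ≤ 1 := by nlinarith
      have h7 : Int.fract (x 1) ≤ (1 - b) * Int.fract (x 1) + b := by nlinarith
      have h1 : ((⌊x 1⌋ : ℤ) : ℝ) ≤ a * x 1 + b * c := by linarith
      have h2 : a * x 1 + b * c ≤ (⌊x 1⌋ : ℤ) + 1 := by linarith
      rw [Conn_fract_sq h1 h2, h0]
      nlinarith
  constructor
  · simp only [dp, frac, P_zero, P_one, P_two]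
    rw [e0, e1, e2]
    linarith
  · simp only [dm, frac, P_zero, P_one, P_two]
    rw [e0, e1, e2]
    linarith

/-- B8 (Conn.lean) uses S0_good -/
theorem connectedSpace_S0 : ConnectedSpace S0.X := by
  have hS := S0_good
  set C : Set E4 := {x | x 1 = 0} with hC
  have hCU : C ⊆ U0 := by
    intro x hx
    apply Conn_mem
    rw [show x 1 = 0 from hx, Int.fract_zero]
    norm_num
  have hCconv : Convex ℝ C := by
    intro x hx y hy a b _ _ _
    show (a • x + b • y : E4) 1 = 0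
    simp only [PiLp.add_apply, PiLp.smul_apply, smul_eq_mul]
    rw [show x 1 = 0 from hx, show y 1 = 0 from hy]
    ring
  have h1 : IsPreconnected (S0.pr '' C) :=
    hCconv.isPreconnected.image _ (hS.continuousOn_pr.mono hCU)
  have h0 : (0 : E4) ∈ C := rfl
  have h2 : IsPreconnected (univ : Set S0.X) := by
    refine isPreconnected_of_forall (S0.pr 0) fun q _ => ?_
    obtain ⟨x, hx, rfl⟩ := S0.pr_surj q
    obtain ⟨z, n, hz, hseg⟩ := Conn_seg hx
    have hzU : z ∈ U0 := hseg (right_mem_segment ℝ x z)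
    have hw : z + tr ![0, -n, 0, 0] ∈ C := by
      show (z + tr ![0, -n, 0, 0] : E4) 1 = 0
      simp [hz]
    have hr : S0.r z (z + tr ![0, -n, 0, 0]) :=
      ⟨hzU, hCU hw, Or.inl ⟨_, rfl⟩⟩
    have hpr := hS.pr_eq hr
    have h3 : IsPreconnected (S0.pr '' segment ℝ x z) :=
      (convex_segment x z).isPreconnected.image _ (hS.continuousOn_pr.mono hseg)
    refine ⟨S0.pr '' C ∪ S0.pr '' segment ℝ x z, subset_univ _,
      Or.inl (mem_image_of_mem _ h0), Or.inr (mem_image_of_mem _ (left_mem_segment ℝ x z)), ?_⟩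
    refine IsPreconnected.union (S0.pr z) ?_ (mem_image_of_mem _ (right_mem_segment ℝ x z)) h1 h3
    rw [hpr]
    exact mem_image_of_mem _ hw
  exact @ConnectedSpace.mk _ _ ⟨h2⟩ ⟨S0.pr 0⟩

end SphTw
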