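import Pool.Agent.Lib.MP_3f8e0b_gt.Basic

/-!
# A criterion for the smoothness of a self-map of the quotient
-/

open Set Filter Topology
open scoped ContDiff Manifold

noncomputable section

namespace SphTw

namespace Etale

variable {E : Type*} [NormedAddCommGroup E] [NormedSpace ℝ E] {S : Etale E}

/-- A map with smooth local lifts is smooth. -/
theorem Mfd.contMDiff_of_lift [ChartedSpace E S.X] (hM : S.Mfd) (hS : S.Good) {F : S.X → S.X}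
    (hF : ∀ x ∈ S.U, ∀ z ∈ S.U, S.pr z = F (S.pr x) → ∃ G, S.Lift1 F x z G) :
    ContMDiff 𝓘(ℝ, E) 𝓘(ℝ, E) ∞ F := by
  have _ := hS
  intro q
  obtain ⟨x, hx, rfl⟩ := S.pr_surj q
  obtain ⟨z, hz, hzF⟩ := S.pr_surj (F (S.pr x))
  obtain ⟨G, hG1, hG2, hG3⟩ := hF x hx z hz hzF
  obtain ⟨σ, hσ1, hσ2⟩ := hM.sec x hx
  have h1 : ContMDiffAt 𝓘(ℝ, E) 𝓘(ℝ, E) ∞ σ (S.pr x) := hσ2.self_of_nhds.1
  have h2 : ContMDiffAt 𝓘(ℝ, E) 𝓘(ℝ, E) ∞ G (σ (S.pr x)) := by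
    rw [hσ1]
    exact hG1.self_of_nhds.contMDiffAt
  have h3 : ContMDiffAt 𝓘(ℝ, E) 𝓘(ℝ, E) ∞ S.pr (G (σ (S.pr x))) := by
    rw [hσ1, hG2]
    exact hM.pr_smooth z hz
  have h4 : ContMDiffAt 𝓘(ℝ, E) 𝓘(ℝ, E) ∞ (fun q => S.pr (G (σ q))) (S.pr x) :=
    h3.comp (S.pr x) (h2.comp (S.pr x) h1)
  refine h4.congr_of_eventuallyEq ?_
  have h5 : Tendsto σ (𝓝 (S.pr x)) (𝓝 x) := by
    have := h1.continuousAt
    rw [ContinuousAt, hσ1] at this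
    exact this
  filter_upwards [hσ2, h5.eventually hG3] with q hq1 hq2
  rw [hq2.2, hq1.2.2]

end Etale

end SphTw
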