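import Pool.Agent.Lib.MP_3f8e0b_gt.FlowCont

/-!
# MP_3f8e0b_gt (A7): a continuous real lift of the change of a circle function
-/

open Set Filter Topology
open scoped ContDiff Manifold unitInterval

noncomputable section

namespace SphTw

namespace Etale

variable {E : Type*} [NormedAddCommGroup E] [NormedSpace ℝ E] {S : Etale E}

theorem dLiftA_coe_eq {a b : ℝ} : ((a : AddCircle (1 : ℝ)) = b) ↔ ∃ m : ℤ, a = b + m := by
  rw [← sub_eq_zero, ← AddCircle.coe_sub, AddCircle.coe_eq_zero_iff]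
  constructor
  · rintro ⟨n, hn⟩
    refine ⟨n, ?_⟩
    rw [zsmul_eq_mul, mul_one] at hn
    linarith
  · rintro ⟨n, hn⟩
    refine ⟨n, ?_⟩
    rw [zsmul_eq_mul, mul_one]
    linarith

/-- a circle function descends to the quotient -/
theorem dLiftA_desc (hS : S.Good) {Q : E → ℝ} (hQ : S.CF Q) :
    ∃ qq : S.X → AddCircle (1 : ℝ), Continuous qq ∧ ∀ x ∈ S.U, qq (S.pr x) = (Q x : AddCircle (1 : ℝ)) := by
  choose c hc1 hc2 using S.pr_surj
  have h1 : ∀ x ∈ S.U, (Q (c (S.pr x)) : AddCircle (1 : ℝ)) = Q x := by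
    intro x hx
    have h2 : S.r (c (S.pr x)) x := (hS.pr_eq_iff (hc1 _) hx).1 (hc2 _)
    obtain ⟨m, hm⟩ := hQ.per h2
    rw [eq_comm, dLiftA_coe_eq]
    exact ⟨m, hm⟩
  refine ⟨fun p => (Q (c p) : AddCircle (1 : ℝ)), ?_, h1⟩
  refine hS.continuous_of fun x hx => ?_
  have h3 : ContinuousAt (fun y => (Q y : AddCircle (1 : ℝ))) x :=
    (AddCircle.continuous_mk' (1 : ℝ)).continuousAt.comp (hQ.smooth x hx).continuousAt
  refine h3.congr ?_
  filter_upwards [hS.isOpen_U.mem_nhds hx] with y hy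
  exact (h1 y hy).symm

/-- A7 (DLiftA.lean): a continuous real lift of the change of a circle function. -/
theorem exists_dlift_cont (hS : S.Good) {T : ℝ → S.X → S.X}
    (hT : S.SFlow T) {Q : E → ℝ} (hQ : S.CF Q) :
    ∃ Δ : ℝ → S.X → ℝ, Continuous (fun p : ℝ × S.X => Δ p.1 p.2) ∧ (∀ q, Δ 0 q = 0) ∧
      ∀ s, ∀ x ∈ S.U, ∀ z ∈ S.U, S.pr z = T s (S.pr x) →
        ∃ m : ℤ, Q z = Q x + Δ s (S.pr x) + m := by
  obtain ⟨qq, hqq1, hqq2⟩ := dLiftA_desc hS hQ
  have hTc := SFlow.continuous hS hT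
  let H : C(I × (ℝ × S.X), AddCircle (1 : ℝ)) :=
    ⟨fun p => qq (T ((p.1 : ℝ) * p.2.1) p.2.2) - qq p.2.2, by
      refine (hqq1.comp (hTc.comp (f := fun p : I × (ℝ × S.X) =>
        (((p.1 : ℝ) * p.2.1, p.2.2) : ℝ × S.X)) ?_)).sub (hqq1.comp ?_)
      · fun_prop
      · fun_prop⟩
  let f : C(ℝ × S.X, ℝ) := ContinuousMap.const _ 0
  have cov := AddCircle.isCoveringMap_coe (1 : ℝ)
  have H0 : ∀ a, H (0, a) = ((f a : ℝ) : AddCircle (1 : ℝ)) := by
    intro a
    simp [H, f, hT.zero]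
  let L := cov.liftHomotopy H f H0
  have hL := cov.liftHomotopy_lifts H f H0
  have hL0 := cov.liftHomotopy_zero H f H0
  refine ⟨fun s p => L (1, (s, p)), ?_, ?_, ?_⟩
  · exact L.continuous.comp (by fun_prop)
  · intro p
    have h1 : (fun t : I => L (t, ((0 : ℝ), p))) = fun _ => 0 := by
      refine cov.eq_of_comp_eq (L.continuous.comp (by fun_prop)) continuous_const ?_ 0 (hL0 _)
      funext t
      have := congrFun hL (t, ((0 : ℝ), p))
      simp only [Function.comp_apply] at this ⊢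
      rw [this]
      simp [H, hT.zero]
    exact congrFun h1 1
  · intro s x hx z hz hzx
    have h1 := congrFun hL ((1 : I), (s, S.pr x))
    simp only [Function.comp_apply] at h1
    have h2 : H ((1 : I), (s, S.pr x)) = (Q z : AddCircle (1 : ℝ)) - (Q x : AddCircle (1 : ℝ)) := by
      change qq (T (((1 : I) : ℝ) * s) (S.pr x)) - qq (S.pr x) = _
      rw [Set.Icc.coe_one, one_mul, ← hzx, hqq2 z hz, hqq2 x hx]
    rw [h2, ← AddCircle.coe_sub, eq_comm, dLiftA_coe_eq] at h1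
    obtain ⟨m, hm⟩ := h1
    refine ⟨m, ?_⟩
    linarith

end Etale

end SphTw
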