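import Pool.Agent.Lib.MP_3f8e0b_gt.DLiftA

/-!
# MP_3f8e0b_gt (A8): the real change of a circle function along a flow
-/

open Set Filter Topology
open scoped ContDiff Manifold

noncomputable section

namespace SphTw

namespace Etale

variable {E : Type*} [NormedAddCommGroup E] [NormedSpace ℝ E] {S : Etale E}

/-- integer valued continuous functions on a preconnected space are constant -/
theorem dLiftB_const {M : Type*} [TopologicalSpace M] [PreconnectedSpace M] {f : M → ℝ}
    (hf : Continuous f) (h : ∀ a, ∃ m : ℤ, f a = m) (a b : M) : f a = f b := by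
  choose m hm using h
  have h1 : f = fun a => (m a : ℝ) := funext hm
  have h2 : Continuous m := by
    rw [Int.isClosedEmbedding_coe_real.isInducing.continuous_iff]
    rw [h1] at hf
    exact hf
  rw [hm a, hm b, PreconnectedSpace.constant inferInstance h2]

/-- A8 (DLiftB.lean) uses A6, A7 -/
theorem exists_dlift (hS : S.Good) [ConnectedSpace S.X] {T : ℝ → S.X → S.X}
    (hT : S.SFlow T) {Q : E → ℝ} (hQ : S.CF Q) :
    ∃ (Δ : ℝ → S.X → ℝ) (κ : ℤ), S.DLift T Q Δ κ := by
  obtain ⟨Δ, hc, h0, heq⟩ := exists_dlift_cont hS hT hQ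
  have hTc := SFlow.continuous hS hT
  have hint : ∀ q, ∃ m : ℤ, Δ 1 q = m := by
    intro q
    obtain ⟨x, hx, rfl⟩ := S.pr_surj q
    obtain ⟨m, hm⟩ := heq 1 x hx x hx (hT.one _).symm
    refine ⟨-m, ?_⟩
    push_cast
    linarith
  have hc1 : Continuous (fun q => Δ 1 q) := hc.comp (by fun_prop : Continuous fun q : S.X => ((1 : ℝ), q))
  obtain ⟨κ, hκ⟩ := hint (S.pr S.base)
  refine ⟨Δ, κ, h0, ?_, ?_, ?_, heq⟩
  · intro q
    rw [← hκ]
    exact dLiftB_const hc1 hint _ _
  · intro s t q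
    have hcs : Continuous fun s => Δ (s + t) q - Δ s (T t q) - Δ t q := by
      have e1 : Continuous fun s => Δ (s + t) q :=
        hc.comp (by fun_prop : Continuous fun s : ℝ => (s + t, q))
      have e2 : Continuous fun s => Δ s (T t q) :=
        hc.comp (by fun_prop : Continuous fun s : ℝ => (s, T t q))
      exact (e1.sub e2).sub continuous_const
    have hi : ∀ s, ∃ m : ℤ, Δ (s + t) q - Δ s (T t q) - Δ t q = m := by
      intro s
      obtain ⟨x, hx, rfl⟩ := S.pr_surj q
      obtain ⟨y, hy, hyx⟩ := S.pr_surj (T t (S.pr x))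
      obtain ⟨z, hz, hzy⟩ := S.pr_surj (T s (S.pr y))
      obtain ⟨m1, hm1⟩ := heq t x hx y hy hyx
      obtain ⟨m2, hm2⟩ := heq s y hy z hz hzy
      have hzx : S.pr z = T (s + t) (S.pr x) := by rw [hzy, hyx, hT.add]
      obtain ⟨m3, hm3⟩ := heq (s + t) x hx z hz hzx
      refine ⟨m1 + m2 - m3, ?_⟩
      rw [← hyx]
      push_cast
      linarith
    have h3 := dLiftB_const hcs hi s 0
    simp only [zero_add, h0] at h3
    linarith
  · intro s x hx
    obtain ⟨z, hz, hzx⟩ := S.pr_surj (T s (S.pr x))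
    obtain ⟨Z, hZ1, hZ2, hZ3⟩ := hT.lift s x hx z hz hzx
    have hZc : ContinuousAt Z (s, x) := hZ1.self_of_nhds.continuousAt
    set g : ℝ × E → ℝ := fun p => Q (Z p) - Q p.2 - Δ p.1 (S.pr p.2) with hg
    have hQZ : ContDiffAt ℝ ∞ (fun p : ℝ × E => Q (Z p)) (s, x) := by
      refine ContDiffAt.comp (g := Q) (s, x) ?_ hZ1.self_of_nhds
      rw [hZ2]
      exact hQ.smooth z hz
    have hQ2 : ContDiffAt ℝ ∞ (fun p : ℝ × E => Q p.2) (s, x) :=
      ContDiffAt.comp (g := Q) (s, x) (hQ.smooth x hx) contDiffAt_snd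
    have hΔc : ContinuousAt (fun p : ℝ × E => Δ p.1 (S.pr p.2)) (s, x) := by
      refine ContinuousAt.comp (g := fun p : ℝ × S.X => Δ p.1 p.2)
        (f := fun p : ℝ × E => (p.1, S.pr p.2)) hc.continuousAt ?_
      refine continuousAt_fst.prodMk ?_
      exact ContinuousAt.comp (g := S.pr) (hS.continuousAt_pr hx) continuousAt_snd
    have hgc : ContinuousAt g (s, x) := (hQZ.continuousAt.sub hQ2.continuousAt).sub hΔc
    have hU : ∀ᶠ p in 𝓝 ((s, x) : ℝ × E), p.2 ∈ S.U :=
      continuousAt_snd.eventually (hS.isOpen_U.mem_nhds hx)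
    have hgi : ∀ᶠ p in 𝓝 ((s, x) : ℝ × E), ∃ m : ℤ, g p = m := by
      filter_upwards [hZ3, hU] with p hp hpU
      obtain ⟨m, hm⟩ := heq p.1 p.2 hpU (Z p) hp.1 hp.2
      exact ⟨m, by rw [hg]; simp only; linarith⟩
    obtain ⟨m0, hm0⟩ := hgi.self_of_nhds
    have hgeq : ∀ᶠ p in 𝓝 ((s, x) : ℝ × E), g p = m0 := by
      have h4 : ∀ᶠ p in 𝓝 ((s, x) : ℝ × E), |g p - g (s, x)| < 1 := by
        have := hgc.eventually (Metric.ball_mem_nhds _ one_pos)
        filter_upwards [this] with p hp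
        rwa [Real.dist_eq] at hp
      filter_upwards [h4, hgi] with p hp ⟨m, hm⟩
      rw [hm, hm0] at hp
      have h5 : |m - m0| < 1 := by exact_mod_cast hp
      have h6 : m = m0 := by
        have := Int.abs_lt_one_iff.1 h5
        omega
      rw [hm, h6]
    have h7 : ContDiffAt ℝ ∞ (fun p : ℝ × E => Q (Z p) - Q p.2 - m0) (s, x) :=
      (hQZ.sub hQ2).sub contDiffAt_const
    refine h7.congr_of_eventuallyEq ?_
    filter_upwards [hgeq] with p hp
    rw [hg] at hp
    simp only at hp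
    linarith

end Etale

end SphTw
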