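import Mathlib

/-!
# MP_3f8e0b_gt: definitions

`Etale E`: an open set `U` in a normed space with a relation `r` (a pseudogroup relation), its
quotient space `X = U / r`, and the explicit 4-dimensional example `S0`: the mapping torus of the
sphere twist along the nonseparating sphere of `T³ # (S¹ × S²)`.
-/

open Set Filter Topology
open scoped ContDiff Manifold

noncomputable section

namespace SphTw

/-- An open set with a relation; see `Etale.Good` for the properties required. -/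
structure Etale (E : Type*) where
  U : Set E
  r : E → E → Prop
  base : E
  base_mem : base ∈ U

namespace Etale

variable {E : Type*}

/-- The quotient space `U / r`. -/
def X (S : Etale E) : Type _ := Quot (fun x z : S.U => S.r x z)

instance (S : Etale E) [TopologicalSpace E] : TopologicalSpace S.X :=
  inferInstanceAs (TopologicalSpace (Quot _))

open Classical in
/-- The projection (with a junk value outside `U`). -/
def pr (S : Etale E) (x : E) : S.X :=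
  if h : x ∈ S.U then Quot.mk _ ⟨x, h⟩ else Quot.mk _ ⟨S.base, S.base_mem⟩

variable [NormedAddCommGroup E] [NormedSpace ℝ E]

/-- `g` is a local smooth map whose graph is the relation `r` near `(x, z)`. -/
def IsGraph (S : Etale E) (x z : E) (g : E → E) : Prop :=
  (∀ᶠ y in 𝓝 x, ContDiffAt ℝ ∞ g y) ∧ g x = z ∧
    ∀ᶠ p in 𝓝 ((x, z) : E × E), (S.r p.1 p.2 ↔ p.2 = g p.1)

/-- The properties of an étale relation on an open set. -/
structure Good (S : Etale E) : Prop where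
  isOpen_U : IsOpen S.U
  mem : ∀ {x z}, S.r x z → x ∈ S.U ∧ z ∈ S.U
  refl : ∀ {x}, x ∈ S.U → S.r x x
  symm : ∀ {x z}, S.r x z → S.r z x
  trans : ∀ {x y z}, S.r x y → S.r y z → S.r x z
  graph : ∀ {x z}, S.r x z → ∃ g : E → E, S.IsGraph x z g
  closed : ∀ {x z}, x ∈ S.U → z ∈ S.U → ¬ S.r x z →
    ∀ᶠ p in 𝓝 ((x, z) : E × E), ¬ S.r p.1 p.2

/-- `G` is a smooth local lift of `F : X → X` at `x`, with `G x = z`. -/
def Lift1 (S : Etale E) (F : S.X → S.X) (x z : E) (G : E → E) : Prop :=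
  (∀ᶠ y in 𝓝 x, ContDiffAt ℝ ∞ G y) ∧ G x = z ∧
    ∀ᶠ y in 𝓝 x, G y ∈ S.U ∧ S.pr (G y) = F (S.pr y)

/-- `Z` is a smooth local lift of `T : ℝ → X → X` at `(s, x)`, with `Z (s, x) = z`. -/
def Lift (S : Etale E) (T : ℝ → S.X → S.X) (s : ℝ) (x z : E) (Z : ℝ × E → E) : Prop :=
  (∀ᶠ p in 𝓝 ((s, x) : ℝ × E), ContDiffAt ℝ ∞ Z p) ∧ Z (s, x) = z ∧
    ∀ᶠ p in 𝓝 ((s, x) : ℝ × E), Z p ∈ S.U ∧ S.pr (Z p) = T p.1 (S.pr p.2)

/-- A smooth flow on `X` with `T 1 = id` (smoothness is stated through local lifts). -/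
structure SFlow (S : Etale E) (T : ℝ → S.X → S.X) : Prop where
  zero : ∀ q, T 0 q = q
  add : ∀ s t q, T (s + t) q = T s (T t q)
  one : ∀ q, T 1 q = q
  lift : ∀ s, ∀ x ∈ S.U, ∀ z ∈ S.U, S.pr z = T s (S.pr x) → ∃ Z, S.Lift T s x z Z

/-- `Q` is (a lift of) a smooth function `X → ℝ / ℤ`. -/
structure CF (S : Etale E) (Q : E → ℝ) : Prop where
  smooth : ∀ x ∈ S.U, ContDiffAt ℝ ∞ Q x
  per : ∀ {x z}, S.r x z → ∃ m : ℤ, Q z = Q x + m

/-- `Q` is (a lift of) a smooth function `X → ℝ`. -/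
structure RF (S : Etale E) (u : E → ℝ) : Prop where
  smooth : ∀ x ∈ S.U, ContDiffAt ℝ ∞ u x
  inv : ∀ {x z}, S.r x z → u z = u x

/-- `Δ s q` is the real change of the circle function `Q` along the path `T t q`, `t ∈ [0, s]`;
`κ` is the degree of the closed orbits. -/
structure DLift (S : Etale E) (T : ℝ → S.X → S.X) (Q : E → ℝ) (Δ : ℝ → S.X → ℝ) (κ : ℤ) :
    Prop where
  zero : ∀ q, Δ 0 q = 0
  one : ∀ q, Δ 1 q = κ
  add : ∀ s t q, Δ (s + t) q = Δ s (T t q) + Δ t q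
  smooth : ∀ s, ∀ x ∈ S.U, ContDiffAt ℝ ∞ (fun p : ℝ × E => Δ p.1 (S.pr p.2)) (s, x)
  eq : ∀ s, ∀ x ∈ S.U, ∀ z ∈ S.U, S.pr z = T s (S.pr x) →
    ∃ m : ℤ, Q z = Q x + Δ s (S.pr x) + m

/-- What we use of a smooth manifold structure on `X`: `pr` is smooth and has smooth local
sections. -/
structure Mfd (S : Etale E) [ChartedSpace E S.X] : Prop where
  isManifold : IsManifold 𝓘(ℝ, E) ∞ S.X
  pr_smooth : ∀ x ∈ S.U, ContMDiffAt 𝓘(ℝ, E) 𝓘(ℝ, E) ∞ S.pr x
  sec : ∀ x ∈ S.U, ∃ σ : S.X → E, σ (S.pr x) = x ∧ ∀ᶠ q in 𝓝 (S.pr x),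
    ContMDiffAt 𝓘(ℝ, E) 𝓘(ℝ, E) ∞ σ q ∧ σ q ∈ S.U ∧ S.pr (σ q) = q

end Etale

/-! ### The explicit example -/

abbrev E4 := EuclideanSpace ℝ (Fin 4)

/-- The point `(a, b, c, d)`. -/
def P (a b c d : ℝ) : E4 := !₂[a, b, c, d]

@[simp] lemma P_zero (a b c d : ℝ) : P a b c d 0 = a := rfl
@[simp] lemma P_one (a b c d : ℝ) : P a b c d 1 = b := rfl
@[simp] lemma P_two (a b c d : ℝ) : P a b c d 2 = c := rfl
@[simp] lemma P_three (a b c d : ℝ) : P a b c d 3 = d := rfl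

/-- Integral translation vectors. -/
def tr (m : Fin 4 → ℤ) : E4 := WithLp.toLp 2 (fun i => (m i : ℝ))

@[simp] lemma tr_apply (m : Fin 4 → ℤ) (i : Fin 4) : tr m i = m i := rfl

/-- First three coordinates reduced to `[0, 1)`, the fourth one unchanged. -/
def frac (x : E4) : E4 := P (Int.fract (x 0)) (Int.fract (x 1)) (Int.fract (x 2)) (x 3)

/-- Integral part vector (fourth entry `0`), so that `frac x = x - tr (fl x)`. -/
def fl (x : E4) : Fin 4 → ℤ := ![⌊x 0⌋, ⌊x 1⌋, ⌊x 2⌋, 0]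

/-- Squared distance of the first three coordinates to `(1/4, 1/2, 1/2)`. -/
def dp (x : E4) : ℝ := (x 0 - 1/4) ^ 2 + (x 1 - 1/2) ^ 2 + (x 2 - 1/2) ^ 2

/-- Squared distance of the first three coordinates to `(3/4, 1/2, 1/2)`. -/
def dm (x : E4) : ℝ := (x 0 - 3/4) ^ 2 + (x 1 - 1/2) ^ 2 + (x 2 - 1/2) ^ 2

/-- The gluing map from the shell around `(1/4, 1/2, 1/2)` to the one around `(3/4, 1/2, 1/2)`. -/
def psi (x : E4) : E4 :=
  P (3/4 - (x 0 - 1/4) / (50 * dp x))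
    (1/2 + (Real.cos (2 * Real.pi * x 3) * (x 1 - 1/2)
      - Real.sin (2 * Real.pi * x 3) * (x 2 - 1/2)) / (50 * dp x))
    (1/2 + (Real.sin (2 * Real.pi * x 3) * (x 1 - 1/2)
      + Real.cos (2 * Real.pi * x 3) * (x 2 - 1/2)) / (50 * dp x))
    (x 3)

/-- The inverse gluing map. -/
def psiInv (z : E4) : E4 :=
  P (1/4 - (z 0 - 3/4) / (50 * dm z))
    (1/2 + (Real.cos (2 * Real.pi * z 3) * (z 1 - 1/2)
      + Real.sin (2 * Real.pi * z 3) * (z 2 - 1/2)) / (50 * dm z))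
    (1/2 + (- Real.sin (2 * Real.pi * z 3) * (z 1 - 1/2)
      + Real.cos (2 * Real.pi * z 3) * (z 2 - 1/2)) / (50 * dm z))
    (z 3)

/-- The complement of the tubes. -/
def U0 : Set E4 := {x | 1/100 < dp (frac x) ∧ 1/100 < dm (frac x)}

/-- The gluing relation. -/
def r0 (x z : E4) : Prop :=
  x ∈ U0 ∧ z ∈ U0 ∧
    ((∃ m, z = x + tr m) ∨ (dp (frac x) < 1/25 ∧ ∃ m, z = psi (frac x) + tr m) ∨
      (dp (frac z) < 1/25 ∧ ∃ m, x = psi (frac z) + tr m))

lemma zero_mem_U0 : (0 : E4) ∈ U0 := by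
  constructor <;> simp [frac, dp, dm] <;> norm_num

/-- The example. -/
def S0 : Etale E4 where
  U := U0
  r := r0
  base := 0
  base_mem := zero_mem_U0

/-! ### Circle functions and cutoffs on the example -/

/-- A smooth degree one function, constant `1/2` on `[1/20, 19/20]`, with
`α (t + 1) = α t + 1`. -/
def alpha (t : ℝ) : ℝ :=
  ⌊t⌋ - 1/2 + Real.smoothTransition (1/2 + 10 * Int.fract t)
    + Real.smoothTransition (1/2 + 10 * (Int.fract t - 1))

/-- A smooth cutoff with `β ρ = 1` for `ρ ≤ 9/625`, `β ρ = 0` for `ρ ≥ 1/36` and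
`β ρ + β (1/(2500 ρ)) = 1` for `ρ > 0`. -/
def beta (ρ : ℝ) : ℝ :=
  Real.smoothTransition (1/2 + 2 * ((1/2500 - ρ ^ 2) / (1/2500 + ρ ^ 2)))

/-- Partition weight. -/
def chi (x : E4) : ℝ := 1 - beta (dp (frac x)) - beta (dm (frac x))

/-- The handle coordinate. -/
def dh (x : E4) : ℝ := beta (dp (frac x)) - beta (dm (frac x))

/-- The four circle functions `q₀, …, q₃`. -/
def Q (i : Fin 4) (x : E4) : ℝ := if i = 3 then x 3 else alpha (x i)

/-! ### The frame -/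

/-- Cutoff for the frame: `1` for `ρ ≤ 9/200`, `0` for `ρ ≥ 11/200`. -/
def sig (ρ : ℝ) : ℝ := Real.smoothTransition (11/2 - 100 * ρ)

/-- First three components of the (scaled) rotation `w ↦ q w q̄`, `q = (1 - s) + s v`. -/
def uu (s : ℝ) (x w : E4) (i : Fin 3) : ℝ :=
  let v : Fin 3 → ℝ := ![x 0 - 1/4, x 1 - 1/2, x 2 - 1/2]
  let w' : Fin 3 → ℝ := ![w 0, w 1, w 2]
  ((1 - s) ^ 2 - s ^ 2 * dp x) * w' i
    + 2 * s ^ 2 * (v 0 * w' 0 + v 1 * w' 1 + v 2 * w' 2) * v i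
    + 2 * (1 - s) * s * (![v 1 * w' 2 - v 2 * w' 1, v 2 * w' 0 - v 0 * w' 2,
        v 0 * w' 1 - v 1 * w' 0] i)

/-- The frame as a function of the cutoff `s`, the point `x` (near `(1/4,1/2,1/2)`) and the
vector `w`. -/
def bf (s : ℝ) (x w : E4) : E4 :=
  P (((1 - s) + s / (50 * dp x ^ 2)) * uu s x w 0)
    (((1 - s) + s / (50 * dp x ^ 2)) *
        (Real.cos (Real.pi * s * (2 * x 3 + 1)) * uu s x w 1
          - Real.sin (Real.pi * s * (2 * x 3 + 1)) * uu s x w 2)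
      + s * (2 * Real.pi / (50 * dp x)) * (- Real.sin (2 * Real.pi * x 3) * (x 1 - 1/2)
          - Real.cos (2 * Real.pi * x 3) * (x 2 - 1/2)) * w 3)
    (((1 - s) + s / (50 * dp x ^ 2)) *
        (Real.sin (Real.pi * s * (2 * x 3 + 1)) * uu s x w 1
          + Real.cos (Real.pi * s * (2 * x 3 + 1)) * uu s x w 2)
      + s * (2 * Real.pi / (50 * dp x)) * (Real.cos (2 * Real.pi * x 3) * (x 1 - 1/2)
          - Real.sin (2 * Real.pi * x 3) * (x 2 - 1/2)) * w 3)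
    (w 3)

/-- `bf` as a linear map. -/
def bL (s : ℝ) (x : E4) : E4 →ₗ[ℝ] E4 where
  toFun := bf s x
  map_add' w w' := by
    ext i
    fin_cases i <;> simp [bf, uu] <;> ring
  map_smul' a w := by
    ext i
    fin_cases i <;> simp [bf, uu] <;> ring

/-- The frame. -/
def B (x : E4) : E4 →L[ℝ] E4 :=
  LinearMap.toContinuousLinearMap (bL (sig (dp (frac x))) (frac x))

/-! ### Integration -/

/-- The Jacobian of four functions. -/
def jac (F : Fin 4 → E4 → ℝ) (x : E4) : ℝ :=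
  Matrix.det (Matrix.of fun i j : Fin 4 => fderiv ℝ (F i) x (EuclideanSpace.single j 1))

/-- `cof F j k x` is the determinant of the Jacobian matrix of `F` with row `j` replaced by the
`k`-th unit vector. -/
def cof (F : Fin 4 → E4 → ℝ) (j k : Fin 4) (x : E4) : ℝ :=
  Matrix.det (Matrix.of fun i l : Fin 4 =>
    if i = j then (if l = k then (1 : ℝ) else 0) else
      fderiv ℝ (F i) x (EuclideanSpace.single l 1))

/-- The unit cell. -/
def cell : Set E4 := {x | ∀ i, x i ∈ Ico (0 : ℝ) 1}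

/-- The (half-open) fundamental domain of the relation. -/
def FD : Set E4 := {x | x ∈ cell ∧ 1/50 ≤ dp x ∧ 1/50 < dm x}

end SphTw
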