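import Pool.Agent.Lib.MP_3f8e0b_gt.Basic

/-!
# MP_3f8e0b_gt (A6): continuity of flows; the dyadic argument
-/

open Set Filter Topology
open scoped ContDiff Manifold

noncomputable section

namespace SphTw

namespace Etale

variable {E : Type*} [NormedAddCommGroup E] [NormedSpace ℝ E] {S : Etale E}

theorem flowCont_map_nhds (hS : S.Good) (s : ℝ) {x : E} (hx : x ∈ S.U) :
    Filter.map (fun p : ℝ × E => (p.1, S.pr p.2)) (𝓝 (s, x)) = 𝓝 (s, S.pr x) := by
  rw [nhds_prod_eq, nhds_prod_eq, ← hS.map_pr_nhds hx]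
  have := Filter.prod_map_map_eq (f₁ := 𝓝 s) (f₂ := 𝓝 x) (m₁ := id) (m₂ := S.pr)
  rw [Filter.map_id] at this
  exact this.symm

/-- A6 -/
theorem SFlow.continuous (hS : S.Good) {T : ℝ → S.X → S.X} (hT : S.SFlow T) :
    Continuous (fun p : ℝ × S.X => T p.1 p.2) := by
  rw [continuous_iff_continuousAt]
  rintro ⟨s, q⟩
  obtain ⟨x, hx, rfl⟩ := S.pr_surj q
  obtain ⟨z, hz, hzq⟩ := S.pr_surj (T s (S.pr x))
  obtain ⟨Z, hZ1, hZ2, hZ3⟩ := hT.lift s x hx z hz hzq
  unfold ContinuousAt
  rw [← flowCont_map_nhds hS s hx, tendsto_map'_iff]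
  have h1 : ContinuousAt (fun p : ℝ × E => S.pr (Z p)) (s, x) := by
    refine ContinuousAt.comp (g := S.pr) ?_ hZ1.self_of_nhds.continuousAt
    rw [hZ2]
    exact hS.continuousAt_pr hz
  have h2 : (fun p : ℝ × E => S.pr (Z p)) =ᶠ[𝓝 (s, x)] fun p => T p.1 (S.pr p.2) :=
    hZ3.mono fun p hp => hp.2
  exact h1.congr h2

theorem flowCont_halve {T : ℝ → S.X → S.X} (hT : S.SFlow T) (h : ∀ q, T (1/2) q = q) :
    S.SFlow (fun s q => T (s / 2) q) where
  zero q := by simpa using hT.zero q
  add s t q := by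
    rw [add_div]
    exact hT.add _ _ _
  one q := h q
  lift s x hx z hz hzq := by
    obtain ⟨Z, hZ1, hZ2, hZ3⟩ := hT.lift (s / 2) x hx z hz hzq
    have hc : Continuous (fun p : ℝ × E => (p.1 / 2, p.2)) := by fun_prop
    have ht : Tendsto (fun p : ℝ × E => (p.1 / 2, p.2)) (𝓝 (s, x)) (𝓝 (s / 2, x)) :=
      hc.continuousAt
    refine ⟨fun p => Z (p.1 / 2, p.2), ?_, hZ2, ?_⟩
    · filter_upwards [ht.eventually hZ1] with p hp
      refine ContDiffAt.comp (g := Z) p hp ?_
      fun_prop
    · exact ht.eventually hZ3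

/-- A6: the dyadic argument -/
theorem trivial_of_half (hS : S.Good)
    (hhalf : ∀ T : ℝ → S.X → S.X, S.SFlow T → ∀ q, T (1/2) q = q)
    {T : ℝ → S.X → S.X} (hT : S.SFlow T) : ∀ s q, T s q = q := by
  have h1 : ∀ n : ℕ, S.SFlow (fun s q => T (s / 2 ^ n) q) := by
    intro n
    induction n with
    | zero => simpa using hT
    | succ n ih =>
      have := flowCont_halve ih (hhalf _ ih)
      have h2 : (fun s q => T (s / 2 ^ (n + 1)) q) = fun s q => T (s / 2 / 2 ^ n) q := by
        funext s q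
        congr 1
        field_simp
        ring
      rw [h2]
      exact this
  let G : AddSubgroup ℝ :=
    { carrier := {s | ∀ q, T s q = q}
      zero_mem' := hT.zero
      add_mem' := by
        intro a b ha hb q
        rw [hT.add, hb, ha]
      neg_mem' := by
        intro a ha q
        have h3 := hT.add (-a) a q
        rw [neg_add_cancel, hT.zero, ha q] at h3
        exact h3.symm }
  have hmem : ∀ n : ℕ, (1 / 2 ^ n : ℝ) ∈ G := fun n q => (h1 n).one q
  have hdense : Dense (G : Set ℝ) := by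
    refine G.dense_of_not_isolated_zero fun ε hε => ?_
    obtain ⟨n, hn⟩ := exists_pow_lt_of_lt_one hε (by norm_num : (1 / 2 : ℝ) < 1)
    refine ⟨1 / 2 ^ n, hmem n, by positivity, ?_⟩
    rwa [one_div_pow] at hn
  have := hS.t2
  intro s q
  have hcl : IsClosed {s : ℝ | T s q = q} := by
    refine isClosed_eq ?_ continuous_const
    exact (SFlow.continuous hS hT).comp (continuous_id.prodMk continuous_const)
  have hsub : (G : Set ℝ) ⊆ {s : ℝ | T s q = q} := fun s hs => hs q
  have := hcl.closure_subset_iff.2 hsub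
  rw [hdense.closure_eq] at this
  exact this (mem_univ s)

end Etale

end SphTw
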