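import Pool.Agent.Lib.MP_3f8e0b_gt.S0Good
import Pool.Agent.Lib.MP_3f8e0b_gt.FrameA

/-!
# The frame on the example
-/

open Set Filter Topology MeasureTheory
open scoped ContDiff Manifold

noncomputable section

namespace SphTw

private theorem frameB_sig_one {ρ : ℝ} (h : ρ < 1/25) : sig ρ = 1 :=
  Real.smoothTransition.one_of_one_le (by linarith)

private theorem frameB_sig_zero {ρ : ℝ} (h : 1/18 < ρ) : sig ρ = 0 :=
  Real.smoothTransition.zero_of_nonpos (by linarith)

private theorem frameB_sig_mem (ρ : ℝ) : sig ρ ∈ Icc (0 : ℝ) 1 :=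
  ⟨Real.smoothTransition.nonneg _, Real.smoothTransition.le_one _⟩

private theorem frameB_B_one {x : E4} (h1 : 1/100 < dp (frac x)) (h2 : dp (frac x) < 1/25) :
    B x = fderiv ℝ psi (frac x) := by
  rw [fderiv_psi_eq (by linarith), B, frameB_sig_one h2]

private theorem frameB_B_id {x : E4} (h1 : 1/18 < dp (frac x)) :
    B x = ContinuousLinearMap.id ℝ E4 := by
  rw [B, frameB_sig_zero h1, bL_zero]
  rfl

private theorem frameB_pi {f : E4 → E4} {x : E4} (h : ∀ i, ContinuousAt (fun y => f y i) x) :
    ContinuousAt f x := by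
  have h1 : ContinuousAt (fun y => (WithLp.toLp 2 (fun i => f y i) : E4)) x :=
    ((PiLp.continuous_toLp 2 _).continuousAt).comp (f := fun y => (fun i => f y i))
      (continuousAt_pi.2 h)
  exact h1

private theorem frameB_cont {x w : E4} (hx : 0 < dp x) :
    ContinuousAt (fun y : E4 => bf (sig (dp y)) y w) x := by
  have hdp : Continuous dp := frac_dp_continuous
  have hsig : Continuous (fun y : E4 => sig (dp y)) := by
    unfold sig
    exact Real.smoothTransition.continuous.comp (by fun_prop)
  have hc : ∀ i : Fin 4, Continuous (fun y : E4 => y i) := fun i =>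
    (psi_contDiff_coord i).continuous
  have hsigx : ContinuousAt (fun y : E4 => sig (dp y)) x := hsig.continuousAt
  have hdpx : ContinuousAt dp x := hdp.continuousAt
  have hinv1 : ContinuousAt (fun y : E4 => 1 / (50 * dp y)) x :=
    continuousAt_const.div (by fun_prop) (by positivity)
  have hinv2 : ContinuousAt (fun y : E4 => 1 / (50 * dp y ^ 2)) x :=
    continuousAt_const.div (by fun_prop) (by positivity)
  have hu : ∀ i : Fin 3, ContinuousAt (fun y : E4 => uu (sig (dp y)) y w i) x := by
    intro i
    fin_cases i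
    · simp only [uu]
      simp
      fun_prop
    · simp only [uu]
      simp
      fun_prop
    · simp only [uu]
      simp
      fun_prop
  apply frameB_pi
  intro i
  fin_cases i
  · have h : (fun y : E4 => bf (sig (dp y)) y w 0) = fun y =>
        ((1 - sig (dp y)) + sig (dp y) * (1 / (50 * dp y ^ 2))) * uu (sig (dp y)) y w 0 := by
      funext y
      show ((1 - sig (dp y)) + sig (dp y) / (50 * dp y ^ 2)) * uu (sig (dp y)) y w 0 = _
      ring
    show ContinuousAt (fun y : E4 => bf (sig (dp y)) y w 0) x
    rw [h]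
    have := hu 0
    fun_prop
  · have h : (fun y : E4 => bf (sig (dp y)) y w 1) = fun y =>
        ((1 - sig (dp y)) + sig (dp y) * (1 / (50 * dp y ^ 2))) *
        (Real.cos (Real.pi * sig (dp y) * (2 * y 3 + 1)) * uu (sig (dp y)) y w 1
          - Real.sin (Real.pi * sig (dp y) * (2 * y 3 + 1)) * uu (sig (dp y)) y w 2)
      + sig (dp y) * (2 * Real.pi * (1 / (50 * dp y))) *
          (- Real.sin (2 * Real.pi * y 3) * (y 1 - 1/2)
          - Real.cos (2 * Real.pi * y 3) * (y 2 - 1/2)) * w 3 := by
      funext y
      simp only [bf, P_one]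
      ring
    show ContinuousAt (fun y : E4 => bf (sig (dp y)) y w 1) x
    rw [h]
    have := hu 1
    have := hu 2
    fun_prop
  · have h : (fun y : E4 => bf (sig (dp y)) y w 2) = fun y =>
        ((1 - sig (dp y)) + sig (dp y) * (1 / (50 * dp y ^ 2))) *
        (Real.sin (Real.pi * sig (dp y) * (2 * y 3 + 1)) * uu (sig (dp y)) y w 1
          + Real.cos (Real.pi * sig (dp y) * (2 * y 3 + 1)) * uu (sig (dp y)) y w 2)
      + sig (dp y) * (2 * Real.pi * (1 / (50 * dp y))) *
          (Real.cos (2 * Real.pi * y 3) * (y 1 - 1/2)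
          - Real.sin (2 * Real.pi * y 3) * (y 2 - 1/2)) * w 3 := by
      funext y
      simp only [bf, P_two]
      ring
    show ContinuousAt (fun y : E4 => bf (sig (dp y)) y w 2) x
    rw [h]
    have := hu 1
    have := hu 2
    fun_prop
  · exact continuousAt_const

theorem B_continuousOn : ContinuousOn B U0 := by
  rw [continuousOn_clm_apply]
  intro w x hx
  apply ContinuousAt.continuousWithinAt
  have h0 : (fun y : E4 => B y w) = fun y => bf (sig (dp (frac y))) (frac y) w := rfl
  rcases frac_cases x with h | h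
  · have hfx : frac x = x - tr (fl x) := frac_eq x
    have h1 : ContinuousAt (fun y : E4 => bf (sig (dp y)) y w) (x - tr (fl x)) := by
      apply frameB_cont
      rw [← hfx]
      exact lt_trans (by norm_num) hx.1
    have h2 : ContinuousAt (fun y : E4 => bf (sig (dp (y - tr (fl x)))) (y - tr (fl x)) w) x :=
      ContinuousAt.comp (f := fun y : E4 => y - tr (fl x)) h1 (by fun_prop)
    refine h2.congr ?_
    filter_upwards [h] with y hy
    show _ = bf (sig (dp (frac y))) (frac y) w
    rw [hy]
  · have h2 : ContinuousAt (fun _ : E4 => w) x := continuousAt_const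
    refine h2.congr ?_
    filter_upwards [h] with y hy
    rw [frameB_B_id hy.1]
    rfl

theorem B_injective {x : E4} (hx : x ∈ U0) : Function.Injective (B x) :=
  bL_injective (frameB_sig_mem _) (lt_trans (by norm_num) hx.1)

theorem B_equiv {x z : E4} {g : E4 → E4} (h : r0 x z) (hθ : z 3 = x 3)
    (hg : S0.IsGraph x z g) : (B z).comp (fderiv ℝ g x) = B x := by
  have hx : x ∈ U0 := h.1
  have hz : z ∈ U0 := h.2.1
  rcases r0_cases h with ⟨m, rfl⟩ | ⟨h1, m, rfl⟩ | ⟨h1, m, rfl⟩
  · have hm : (m 3 : ℝ) = 0 := by
      have : (x + tr m) 3 = x 3 + m 3 := rfl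
      linarith
    have he := S0_good.graph_unique hg (graph_tr hx m)
    rw [he.fderiv_eq]
    have h2 : fderiv ℝ (fun y : E4 => y + tr m) x = ContinuousLinearMap.id ℝ E4 := by
      rw [fderiv_add_const]
      exact fderiv_id
    rw [h2, ContinuousLinearMap.comp_id]
    have h3 : frac (x + tr m) = frac x := by
      rw [frac_add_tr, hm]
      ext i
      fin_cases i <;> simp
    rw [B, B, h3]
  · have hx1 : 1/100 < dp (frac x) := hx.1
    have hm : (m 3 : ℝ) = 0 := by
      have : (psi (frac x) + tr m) 3 = x 3 + m 3 := rfl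
      linarith
    have he := S0_good.graph_unique hg (graph_psi hx h1 m)
    rw [he.fderiv_eq, fderiv_add_const]
    have h2 : fderiv ℝ (fun y : E4 => psi (y - tr (fl x))) x = fderiv ℝ psi (frac x) := by
      rw [fderiv_comp_sub, ← frac_eq]
    have h3 : frac (psi (frac x) + tr m) = psi (frac x) := by
      rw [frac_add_tr, hm, frac_psi hx1]
      ext i
      fin_cases i <;> simp
    have h4 : 1/18 < dp (frac (psi (frac x) + tr m)) := by
      rw [h3]
      have := psi_dp_of_dm (psi_dm_lt hx1)
      linarith
    rw [h2, frameB_B_id h4, ContinuousLinearMap.id_comp, frameB_B_one hx1 h1]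
  · have hx1 : 1/100 < dm (frac x) := hx.2
    have hm : (m 3 : ℝ) = 0 := by
      have : (psiInv (frac x) + tr m) 3 = x 3 + m 3 := rfl
      linarith
    have he := S0_good.graph_unique hg (graph_psiInv hx h1 m)
    rw [he.fderiv_eq, fderiv_add_const]
    have h2 : fderiv ℝ (fun y : E4 => psiInv (y - tr (fl x))) x = fderiv ℝ psiInv (frac x) := by
      rw [fderiv_comp_sub, ← frac_eq]
    have h3 : frac (psiInv (frac x) + tr m) = psiInv (frac x) := by
      rw [frac_add_tr, hm, frac_psiInv hx1]
      ext i
      fin_cases i <;> simp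
    have h5 : 1/18 < dp (frac x) := by
      have := psi_dp_of_dm h1
      linarith
    have h6 : dp (frac (psiInv (frac x) + tr m)) < 1/25 := by
      rw [h3]
      exact psi_dp_lt hx1
    have h7 : 1/100 < dp (frac (psiInv (frac x) + tr m)) := hz.1
    rw [h2, frameB_B_id h5, frameB_B_one h7 h6, h3]
    have hpos : 0 < dm (frac x) := by linarith
    have hpos' : 0 < dp (psiInv (frac x)) := by rw [h3] at h7; linarith
    have hd1 : DifferentiableAt ℝ psi (psiInv (frac x)) :=
      (contDiffAt_psi hpos').differentiableAt (by simp)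
    have hd2 : DifferentiableAt ℝ psiInv (frac x) :=
      (contDiffAt_psiInv hpos).differentiableAt (by simp)
    have h8 := fderiv_comp (frac x) hd1 hd2
    rw [← h8]
    have h9 : (psi ∘ psiInv) =ᶠ[𝓝 (frac x)] id := by
      have h10 : ∀ᶠ y in 𝓝 (frac x), 0 < dm y :=
        frac_dm_continuous.continuousAt.eventually (lt_mem_nhds hpos)
      filter_upwards [h10] with y hy
      exact psi_psiInv hy
    rw [h9.fderiv_eq, fderiv_id]

end SphTw
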