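import Pool.Agent.Lib.MP_3f8e0b_gt.Basic
import Pool.Agent.Lib.MP_3f8e0b_gt.Frac
import Pool.Agent.Lib.MP_3f8e0b_gt.Psi
import Pool.Agent.Lib.MP_3f8e0b_gt.Rel

open Set Filter Topology MeasureTheory
open scoped ContDiff Manifold Quaternion

noncomputable section

namespace SphTw

/-- Related points have the same image. -/
private theorem fd_pr_eq {x y : E4} (h : r0 x y) : S0.pr x = S0.pr y := by
  rw [S0.pr_of_mem (x := x) h.1, S0.pr_of_mem (x := y) h.2.1]
  exact Quot.sound h

private theorem mem_cell_frac {x : E4} (hx : x ∈ cell) : frac x = x :=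
  frac_eq_self (hx 0) (hx 1) (hx 2)

private theorem tr_eq_of_cell {x z : E4} (hx : x ∈ cell) (hz : z ∈ cell) {m : Fin 4 → ℤ}
    (h : z = x + tr m) : z = x := by
  have h1 : ∀ i, m i = 0 := by
    intro i
    have h2 : z i = x i + m i := by rw [h]; rfl
    have h3 := hx i
    have h4 := hz i
    rw [h2] at h4
    have h5 : (m i : ℝ) < 1 := by linarith [h4.2, h3.1]
    have h6 : (-1 : ℝ) < m i := by linarith [h4.1, h3.2]
    have h7 : m i < 1 := by exact_mod_cast h5
    have h8 : -1 < m i := by exact_mod_cast h6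
    omega
  rw [h]
  ext i
  change x i + (m i : ℝ) = x i
  rw [h1 i]
  simp

private theorem psi_cell {x : E4} (hx : x ∈ cell) (h1 : 1/100 < dp x) : psi x ∈ cell := by
  have h := frac_psi h1
  have e : ∀ i : Fin 4, frac (psi x) i = psi x i := fun i => by rw [h]
  intro i
  fin_cases i
  · have := e 0
    change Int.fract (psi x 0) = psi x 0 at this
    change psi x 0 ∈ Ico (0 : ℝ) 1
    rw [← this]
    exact ⟨Int.fract_nonneg _, Int.fract_lt_one _⟩
  · have := e 1
    change Int.fract (psi x 1) = psi x 1 at this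
    change psi x 1 ∈ Ico (0 : ℝ) 1
    rw [← this]
    exact ⟨Int.fract_nonneg _, Int.fract_lt_one _⟩
  · have := e 2
    change Int.fract (psi x 2) = psi x 2 at this
    change psi x 2 ∈ Ico (0 : ℝ) 1
    rw [← this]
    exact ⟨Int.fract_nonneg _, Int.fract_lt_one _⟩
  · exact hx 3

private theorem psiInv_cell {x : E4} (hx : x ∈ cell) (h1 : 1/100 < dm x) : psiInv x ∈ cell := by
  have h := frac_psiInv h1
  have e : ∀ i : Fin 4, frac (psiInv x) i = psiInv x i := fun i => by rw [h]
  intro i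
  fin_cases i
  · have := e 0
    change Int.fract (psiInv x 0) = psiInv x 0 at this
    change psiInv x 0 ∈ Ico (0 : ℝ) 1
    rw [← this]
    exact ⟨Int.fract_nonneg _, Int.fract_lt_one _⟩
  · have := e 1
    change Int.fract (psiInv x 1) = psiInv x 1 at this
    change psiInv x 1 ∈ Ico (0 : ℝ) 1
    rw [← this]
    exact ⟨Int.fract_nonneg _, Int.fract_lt_one _⟩
  · have := e 2
    change Int.fract (psiInv x 2) = psiInv x 2 at this
    change psiInv x 2 ∈ Ico (0 : ℝ) 1
    rw [← this]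
    exact ⟨Int.fract_nonneg _, Int.fract_lt_one _⟩
  · exact hx 3

theorem FD_subset : FD ⊆ U0 := by
  rintro x ⟨hc, h1, h2⟩
  have hf := mem_cell_frac hc
  refine ⟨?_, ?_⟩
  · rw [hf]; linarith
  · rw [hf]; linarith

private theorem FD_psi {x z : E4} (hx : x ∈ FD) (hz : z ∈ FD) (_h : dp (frac x) < 1/25)
    {m : Fin 4 → ℤ} (hm : z = psi (frac x) + tr m) : False := by
  have hf := mem_cell_frac hx.1
  rw [hf] at hm
  have h0 : 1/100 < dp x := by linarith [hx.2.1]
  have h1 := tr_eq_of_cell (psi_cell hx.1 h0) hz.1 hm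
  have h2 := dm_psi (x := x) (by linarith)
  have h3 := hz.2.2
  rw [h1, h2] at h3
  have h4 : (0 : ℝ) < 2500 * dp x := by linarith
  rw [lt_div_iff₀ h4] at h3
  linarith [hx.2.1]

theorem FD_unique {x z : E4} (hx : x ∈ FD) (hz : z ∈ FD) (h : r0 x z) : x = z := by
  obtain ⟨-, -, ⟨m, hm⟩ | ⟨h1, m, hm⟩ | ⟨h1, m, hm⟩⟩ := h
  · exact (tr_eq_of_cell hx.1 hz.1 hm).symm
  · exact (FD_psi hx hz h1 hm).elim
  · exact (FD_psi hz hx h1 hm).elim

theorem exists_mem_FD (q : S0.X) : ∃ x ∈ FD, S0.pr x = q := by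
  obtain ⟨x, hx, rfl⟩ := S0.pr_surj q
  change x ∈ U0 at hx
  set m : Fin 4 → ℤ := fun i => - ⌊x i⌋ with hm
  set y : E4 := x + tr m with hy
  have hyU : y ∈ U0 := add_tr_mem_U0 hx m
  have hr : r0 x y := r0_tr hx m
  have hyc : y ∈ cell := by
    intro i
    have : y i = Int.fract (x i) := by
      change x i + ((m i : ℤ) : ℝ) = _
      rw [hm]
      simp only [Int.cast_neg]
      rw [Int.fract]
      ring
    rw [this]
    exact ⟨Int.fract_nonneg _, Int.fract_lt_one _⟩
  have hyf := mem_cell_frac hyc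
  have hp : S0.pr x = S0.pr y := fd_pr_eq hr
  have h1 : 1/100 < dp y := by have := hyU.1; rwa [hyf] at this
  have h2 : 1/100 < dm y := by have := hyU.2; rwa [hyf] at this
  by_cases h3 : dp y < 1/50
  · have h4 : 1/100 < dp y := h1
    have h5 := dm_psi (x := y) (by linarith)
    have h6 : (0 : ℝ) < 2500 * dp y := by linarith
    have h7 : 1/50 < dm (psi y) := by
      rw [h5, lt_div_iff₀ h6]; linarith
    have h8 : dm (psi y) < 1/16 := by
      rw [h5, div_lt_iff₀ h6]; linarith
    have h9 : 1/16 ≤ dp (psi y) := by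
      by_contra hcon
      exact not_dp_dm (not_le.1 hcon) h8
    refine ⟨psi y, ⟨psi_cell hyc h1, by linarith, h7⟩, ?_⟩
    rw [hp]
    exact (fd_pr_eq (r0_psi h1 (by linarith) hyf)).symm
  · by_cases h4 : dm y ≤ 1/50
    · have h5 := dp_psiInv (z := y) (by linarith)
      have h6 : (0 : ℝ) < 2500 * dm y := by linarith
      have h7 : 1/50 ≤ dp (psiInv y) := by
        rw [h5, le_div_iff₀ h6]; linarith
      have h8 : dp (psiInv y) < 1/25 := by
        rw [h5, div_lt_iff₀ h6]; linarith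
      have h9 : 1/16 ≤ dm (psiInv y) := by
        by_contra hcon
        exact not_dp_dm (by linarith) (not_le.1 hcon)
      refine ⟨psiInv y, ⟨psiInv_cell hyc h2, h7, by linarith⟩, ?_⟩
      rw [hp]
      have h10 := r0_psi (x := psiInv y) (by linarith) h8 (frac_psiInv h2)
      rw [psi_psiInv (by linarith)] at h10
      exact fd_pr_eq h10
    · exact ⟨y, ⟨hyc, not_lt.1 h3, not_le.1 h4⟩, hp.symm⟩

end SphTw
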