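import Pool.Agent.Lib.MP_3f8e0b_gt.Rel

/-!
# Precise local graphs of the gluing relation
-/

open Set Filter Topology
open scoped ContDiff Manifold

namespace SphTw

theorem Graph_continuous_dp : Continuous dp := by
  unfold dp
  fun_prop

theorem Graph_continuous_dm : Continuous dm := by
  unfold dm
  fun_prop

/-- integral translation vectors at distance less than one are equal -/
theorem Graph_tr_eq {m m' : Fin 4 → ℤ} (h : ‖tr m' - tr m‖ < 1) : m' = m := by
  funext i
  have h1 : ‖(tr m' - tr m) i‖ ≤ ‖tr m' - tr m‖ := PiLp.norm_apply_le _ i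
  have h2 : (tr m' - tr m) i = ((m' i - m i : ℤ) : ℝ) := by
    simp
  rw [h2, Real.norm_eq_abs] at h1
  have h3 : |((m' i - m i : ℤ) : ℝ)| < 1 := lt_of_le_of_lt h1 h
  rw [← Int.cast_abs] at h3
  have h4 : |m' i - m i| < 1 := by exact_mod_cast h3
  have h5 := Int.abs_lt_one_iff.mp h4
  omega

/-- closeness of the shell functions -/
theorem Graph_near (x : E4) : ∀ᶠ y in 𝓝 x,
    (dp (frac y) < 1/25 → dp (frac x) < 1/18) ∧ (dm (frac y) < 1/25 → dm (frac x) < 1/18) := by
  rcases frac_cases x with h | h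
  · have hc : Continuous (fun y : E4 => y - tr (fl x)) := by fun_prop
    have hp : ContinuousAt (fun y : E4 => dp (y - tr (fl x))) x :=
      (Graph_continuous_dp.comp hc).continuousAt
    have hm : ContinuousAt (fun y : E4 => dm (y - tr (fl x))) x :=
      (Graph_continuous_dm.comp hc).continuousAt
    have h1 : ∀ᶠ y in 𝓝 x, (dp (frac y) < 1/25 → dp (frac x) < 1/18) := by
      by_cases hx : dp (frac x) < 1/18
      · exact Eventually.of_forall fun _ _ => hx
      · have h2 : (1/25 : ℝ) < dp (x - tr (fl x)) := by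
          rw [← frac_eq]
          push Not at hx
          linarith
        filter_upwards [h, hp.eventually (lt_mem_nhds h2)] with y hy1 hy2 hy3
        rw [hy1] at hy3
        exact absurd hy3 (not_lt.mpr hy2.le)
    have h3 : ∀ᶠ y in 𝓝 x, (dm (frac y) < 1/25 → dm (frac x) < 1/18) := by
      by_cases hx : dm (frac x) < 1/18
      · exact Eventually.of_forall fun _ _ => hx
      · have h2 : (1/25 : ℝ) < dm (x - tr (fl x)) := by
          rw [← frac_eq]
          push Not at hx
          linarith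
        filter_upwards [h, hm.eventually (lt_mem_nhds h2)] with y hy1 hy2 hy3
        rw [hy1] at hy3
        exact absurd hy3 (not_lt.mpr hy2.le)
    exact h1.and h3
  · filter_upwards [h] with y hy
    exact ⟨fun h1 => by linarith [hy.1], fun h1 => by linarith [hy.2]⟩

theorem Graph_not {x : E4} (h : dp (frac x) < 1/18) (h' : dm (frac x) < 1/18) : False :=
  not_dp_dm (x := frac x) (by linarith) (by linarith)

theorem Graph_inv {a : ℝ} (h : 1/100 < a) : 1 / (2500 * a) < 1/25 := by
  rw [div_lt_div_iff₀ (by linarith) (by norm_num)]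
  linarith

theorem Graph_dm_psi {x : E4} (hx : x ∈ U0) (m : Fin 4 → ℤ) :
    dm (frac (psi (frac x) + tr m)) < 1/25 := by
  rw [dm_frac_add_tr, frac_psi hx.1, dm_psi (lt_trans (by norm_num) hx.1)]
  exact Graph_inv hx.1

theorem Graph_dp_psiInv {x : E4} (hx : x ∈ U0) (m : Fin 4 → ℤ) :
    dp (frac (psiInv (frac x) + tr m)) < 1/25 := by
  rw [dp_frac_add_tr, frac_psiInv hx.2, dp_psiInv (lt_trans (by norm_num) hx.2)]
  exact Graph_inv hx.2

theorem Graph_P_eq (n : ℤ) : P 0 0 0 (n : ℝ) = tr ![0, 0, 0, n] := by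
  ext i
  fin_cases i <;> simp

theorem Graph_tr_sub (m m' : Fin 4 → ℤ) : tr m - tr m' = tr (m - m') := by
  ext i
  simp

theorem Graph_tr_add (m m' : Fin 4 → ℤ) : tr m + tr m' = tr (m + m') := by
  ext i
  simp

/-- Normal form of the relation. B4 -/
theorem r0_cases {x z : E4} (h : r0 x z) :
    (∃ m, z = x + tr m) ∨ (dp (frac x) < 1/25 ∧ ∃ m, z = psi (frac x) + tr m) ∨
      (dm (frac x) < 1/25 ∧ ∃ m, z = psiInv (frac x) + tr m) := by
  obtain ⟨hx, hz, h1 | h1 | ⟨h1, m, hm⟩⟩ := h
  · exact Or.inl h1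
  · exact Or.inr (Or.inl h1)
  · right
    right
    have hz1 : 1/100 < dp (frac z) := hz.1
    have hf : frac x = psi (frac z) + tr ![0, 0, 0, m 3] := by
      rw [hm, frac_add_tr, frac_psi hz1, Graph_P_eq]
    refine ⟨?_, fl z - ![0, 0, 0, m 3], ?_⟩
    · have := Graph_dm_psi hz m
      rwa [← hm] at this
    · have h2 : psiInv (frac x) = frac z + tr ![0, 0, 0, m 3] := by
        rw [hf, ← Graph_P_eq, psiInv_add_theta, psiInv_psi (lt_trans (by norm_num) hz1)]
      rw [h2, ← Graph_tr_sub, frac_eq z]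
      abel

theorem graph_tr {x : E4} (hx : x ∈ U0) (m : Fin 4 → ℤ) :
    S0.IsGraph x (x + tr m) (fun y => y + tr m) := by
  refine ⟨Eventually.of_forall fun y => by fun_prop, rfl, ?_⟩
  have hfst : Tendsto (fun p : E4 × E4 => p.1) (𝓝 (x, x + tr m)) (𝓝 x) :=
    (continuous_fst.tendsto' _ _ rfl)
  have hsnd : Tendsto (fun p : E4 × E4 => p.2 - tr m) (𝓝 (x, x + tr m)) (𝓝 x) := by
    have : Continuous (fun p : E4 × E4 => p.2 - tr m) := by fun_prop
    exact this.tendsto' _ _ (by simp)
  have hdiff : Tendsto (fun p : E4 × E4 => ‖(p.2 - p.1) - tr m‖) (𝓝 (x, x + tr m)) (𝓝 0) := by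
    have : Continuous (fun p : E4 × E4 => ‖(p.2 - p.1) - tr m‖) := by fun_prop
    exact this.tendsto' _ _ (by simp)
  filter_upwards [hfst.eventually (isOpen_U0.mem_nhds hx), hfst.eventually (Graph_near x),
    hsnd.eventually (Graph_near x), hdiff.eventually (gt_mem_nhds one_pos)] with p h1 h2 h3 h4
  constructor
  · intro h
    have h5 : dm (frac (p.2 - tr m)) = dm (frac p.2) := by
      have := dm_frac_add_tr (p.2 - tr m) m
      rw [sub_add_cancel] at this
      exact this.symm
    have h6 : dp (frac (p.2 - tr m)) = dp (frac p.2) := by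
      have := dp_frac_add_tr (p.2 - tr m) m
      rw [sub_add_cancel] at this
      exact this.symm
    rw [h5, h6] at h3
    rcases r0_cases h with ⟨m', hm'⟩ | ⟨h7, m', hm'⟩ | ⟨h7, m', hm'⟩
    · have h8 : p.2 - p.1 = tr m' := by rw [hm', add_sub_cancel_left]
      rw [h8] at h4
      rw [hm', Graph_tr_eq h4]
    · exfalso
      have h8 := Graph_dm_psi h1 m'
      rw [← hm'] at h8
      exact Graph_not (h2.1 h7) (h3.2 h8)
    · exfalso
      have h8 := Graph_dp_psiInv h1 m'
      rw [← hm'] at h8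
      exact Graph_not (h3.1 h8) (h2.2 h7)
  · intro h
    rw [h]
    exact r0_tr h1 m

theorem graph_psi {x : E4} (hx : x ∈ U0) (h : dp (frac x) < 1/25) (m : Fin 4 → ℤ) :
    S0.IsGraph x (psi (frac x) + tr m) (fun y => psi (y - tr (fl x)) + tr m) := by
  have hx1 : 1/100 < dp (frac x) := hx.1
  have hcsub : Continuous (fun y : E4 => y - tr (fl x)) := by fun_prop
  have hcdp : ContinuousAt (fun y : E4 => dp (y - tr (fl x))) x :=
    (Graph_continuous_dp.comp hcsub).continuousAt
  have hpos : ∀ᶠ y in 𝓝 x, 0 < dp (y - tr (fl x)) := by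
    refine hcdp.eventually (lt_mem_nhds ?_)
    show 0 < dp (x - tr (fl x))
    rw [← frac_eq]
    linarith
  have hlt : ∀ᶠ y in 𝓝 x, dp (y - tr (fl x)) < 1/25 := by
    refine hcdp.eventually (gt_mem_nhds ?_)
    show dp (x - tr (fl x)) < 1/25
    rw [← frac_eq]
    exact h
  have hfr : ∀ᶠ y in 𝓝 x, frac y = y - tr (fl x) := by
    rcases frac_cases x with h1 | h1
    · exact h1
    · have := h1.self_of_nhds.1
      linarith
  have hsm : ∀ᶠ y in 𝓝 x, ContDiffAt ℝ ∞ (fun y => psi (y - tr (fl x)) + tr m) y := by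
    filter_upwards [hpos] with y hy
    have h1 : ContDiffAt ℝ ∞ (fun y : E4 => y - tr (fl x)) y := by fun_prop
    exact ((contDiffAt_psi hy).comp y h1).add contDiffAt_const
  refine ⟨hsm, ?_, ?_⟩
  · show psi (x - tr (fl x)) + tr m = _
    rw [← frac_eq]
  set z := psi (frac x) + tr m with hz
  have hgx : psi (x - tr (fl x)) + tr m = z := by rw [← frac_eq]
  have hcg : ContinuousAt (fun y => psi (y - tr (fl x)) + tr m) x :=
    hsm.self_of_nhds.continuousAt
  have hfst : Tendsto (fun p : E4 × E4 => p.1) (𝓝 (x, z)) (𝓝 x) :=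
    (continuous_fst.tendsto' _ _ rfl)
  have hsnd : Tendsto (fun p : E4 × E4 => p.2) (𝓝 (x, z)) (𝓝 z) :=
    (continuous_snd.tendsto' _ _ rfl)
  have hdiff : Tendsto (fun p : E4 × E4 => ‖p.2 - (psi (p.1 - tr (fl x)) + tr m)‖)
      (𝓝 (x, z)) (𝓝 0) := by
    have h1 : Tendsto (fun p : E4 × E4 => psi (p.1 - tr (fl x)) + tr m) (𝓝 (x, z)) (𝓝 z) := by
      have := hcg.tendsto.comp hfst
      rwa [hgx] at this
    have h2 := (hsnd.sub h1).norm
    simpa using h2
  filter_upwards [hfst.eventually (isOpen_U0.mem_nhds hx), hfst.eventually hlt,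
    hfst.eventually hfr, hsnd.eventually (Graph_near z),
    hdiff.eventually (gt_mem_nhds one_pos)] with p h1 h2 h3 h4 h5
  have h6 : dp (frac p.1) < 1/25 := by rw [h3]; exact h2
  rw [← h3]
  rw [← h3] at h5
  constructor
  · intro hr
    rcases r0_cases hr with ⟨m', hm'⟩ | ⟨h7, m', hm'⟩ | ⟨h7, m', hm'⟩
    · exfalso
      have h8 : dp (frac p.2) < 1/25 := by
        rw [hm', dp_frac_add_tr]
        exact h6
      have h9 := Graph_dm_psi hx m
      rw [← hz] at h9
      exact Graph_not (h4.1 h8) (lt_trans h9 (by norm_num))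
    · have h8 : p.2 - (psi (frac p.1) + tr m) = tr m' - tr m := by
        rw [hm']
        abel
      rw [h8] at h5
      rw [hm', Graph_tr_eq h5]
    · exfalso
      exact Graph_not (x := p.1) (by linarith) (by linarith)
  · intro hr
    refine ⟨h1, ?_, Or.inr (Or.inl ⟨h6, m, hr⟩)⟩
    rw [hr]
    exact add_tr_mem_U0 (psi_mem h1.1 h6) m

theorem graph_psiInv {x : E4} (hx : x ∈ U0) (h : dm (frac x) < 1/25) (m : Fin 4 → ℤ) :
    S0.IsGraph x (psiInv (frac x) + tr m) (fun y => psiInv (y - tr (fl x)) + tr m) := by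
  have hx1 : 1/100 < dm (frac x) := hx.2
  have hcsub : Continuous (fun y : E4 => y - tr (fl x)) := by fun_prop
  have hcdm : ContinuousAt (fun y : E4 => dm (y - tr (fl x))) x :=
    (Graph_continuous_dm.comp hcsub).continuousAt
  have hpos : ∀ᶠ y in 𝓝 x, 0 < dm (y - tr (fl x)) := by
    refine hcdm.eventually (lt_mem_nhds ?_)
    show 0 < dm (x - tr (fl x))
    rw [← frac_eq]
    linarith
  have hlt : ∀ᶠ y in 𝓝 x, dm (y - tr (fl x)) < 1/25 := by
    refine hcdm.eventually (gt_mem_nhds ?_)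
    show dm (x - tr (fl x)) < 1/25
    rw [← frac_eq]
    exact h
  have hfr : ∀ᶠ y in 𝓝 x, frac y = y - tr (fl x) := by
    rcases frac_cases x with h1 | h1
    · exact h1
    · have := h1.self_of_nhds.2
      linarith
  have hsm : ∀ᶠ y in 𝓝 x, ContDiffAt ℝ ∞ (fun y => psiInv (y - tr (fl x)) + tr m) y := by
    filter_upwards [hpos] with y hy
    have h1 : ContDiffAt ℝ ∞ (fun y : E4 => y - tr (fl x)) y := by fun_prop
    exact ((contDiffAt_psiInv hy).comp y h1).add contDiffAt_const
  refine ⟨hsm, ?_, ?_⟩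
  · show psiInv (x - tr (fl x)) + tr m = _
    rw [← frac_eq]
  set z := psiInv (frac x) + tr m with hz
  have hgx : psiInv (x - tr (fl x)) + tr m = z := by rw [← frac_eq]
  have hcg : ContinuousAt (fun y => psiInv (y - tr (fl x)) + tr m) x :=
    hsm.self_of_nhds.continuousAt
  have hfst : Tendsto (fun p : E4 × E4 => p.1) (𝓝 (x, z)) (𝓝 x) :=
    (continuous_fst.tendsto' _ _ rfl)
  have hsnd : Tendsto (fun p : E4 × E4 => p.2) (𝓝 (x, z)) (𝓝 z) :=
    (continuous_snd.tendsto' _ _ rfl)
  have hdiff : Tendsto (fun p : E4 × E4 => ‖p.2 - (psiInv (p.1 - tr (fl x)) + tr m)‖)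
      (𝓝 (x, z)) (𝓝 0) := by
    have h1 : Tendsto (fun p : E4 × E4 => psiInv (p.1 - tr (fl x)) + tr m)
        (𝓝 (x, z)) (𝓝 z) := by
      have := hcg.tendsto.comp hfst
      rwa [hgx] at this
    have h2 := (hsnd.sub h1).norm
    simpa using h2
  filter_upwards [hfst.eventually (isOpen_U0.mem_nhds hx), hfst.eventually hlt,
    hfst.eventually hfr, hsnd.eventually (Graph_near z),
    hdiff.eventually (gt_mem_nhds one_pos)] with p h1 h2 h3 h4 h5
  have h6 : dm (frac p.1) < 1/25 := by rw [h3]; exact h2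
  rw [← h3]
  rw [← h3] at h5
  constructor
  · intro hr
    rcases r0_cases hr with ⟨m', hm'⟩ | ⟨h7, m', hm'⟩ | ⟨h7, m', hm'⟩
    · exfalso
      have h8 : dm (frac p.2) < 1/25 := by
        rw [hm', dm_frac_add_tr]
        exact h6
      have h9 := Graph_dp_psiInv hx m
      rw [← hz] at h9
      exact Graph_not (lt_trans h9 (by norm_num)) (h4.2 h8)
    · exfalso
      exact Graph_not (x := p.1) (by linarith) (by linarith)
    · have h8 : p.2 - (psiInv (frac p.1) + tr m) = tr m' - tr m := by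
        rw [hm']
        abel
      rw [h8] at h5
      rw [hm', Graph_tr_eq h5]
  · intro hr
    have h7 : 1/100 < dm (frac p.1) := h1.2
    have h8 : frac p.2 = psiInv (frac p.1) + P 0 0 0 (m 3) := by
      rw [hr, frac_add_tr, frac_psiInv h7]
    refine ⟨h1, ?_, Or.inr (Or.inr ⟨?_, fl p.1 - ![0, 0, 0, m 3], ?_⟩)⟩
    · rw [hr]
      exact add_tr_mem_U0 (psiInv_mem h7 h6) m
    · have := Graph_dp_psiInv h1 m
      rwa [← hr] at this
    · rw [h8, psi_add_theta, psi_psiInv (lt_trans (by norm_num) h7), ← Graph_tr_sub,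
        Graph_P_eq, frac_eq p.1]
      abel

end SphTw
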