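import Pool.Agent.Lib.MP_3f8e0b_gt.Basic

/-!
# Green's formula on the unit square for two functions with proportional differentials
-/

open Set Filter Topology MeasureTheory
open scoped ContDiff Manifold Quaternion

noncomputable section

namespace SphTw

lemma green_hasFDerivAt {D : ℝ × ℝ → ℝ} {p : ℝ × ℝ} (hD : ContDiffAt ℝ ∞ D p) (v : ℝ × ℝ) :
    HasFDerivAt (fun q => fderiv ℝ D q v) ((fderiv ℝ (fderiv ℝ D) p).flip v) p := by
  have h1 : ContDiffAt ℝ 1 (fderiv ℝ D) p := hD.fderiv_right (by norm_cast)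
  have h2 : HasFDerivAt (fderiv ℝ D) (fderiv ℝ (fderiv ℝ D) p) p :=
    (h1.differentiableAt (by norm_num)).hasFDerivAt
  have h3 := h2.clm_apply (hasFDerivAt_const v p)
  have e : ((fderiv ℝ D p).comp (0 : ℝ × ℝ →L[ℝ] ℝ × ℝ) + (fderiv ℝ (fderiv ℝ D) p).flip v) =
      (fderiv ℝ (fderiv ℝ D) p).flip v := by
    ext <;> simp
  rw [e] at h3
  exact h3

lemma green_line_t {D : ℝ × ℝ → ℝ} {s t : ℝ} (hD : DifferentiableAt ℝ D (s, t)) :
    HasDerivAt (fun τ => D (s, τ)) (fderiv ℝ D (s, t) (0, 1)) t := by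
  have h1 : HasDerivAt (fun τ : ℝ => ((s, τ) : ℝ × ℝ)) (0, 1) t :=
    (hasDerivAt_const t s).prodMk (hasDerivAt_id t)
  exact hD.hasFDerivAt.comp_hasDerivAt t h1

lemma green_line_s {D : ℝ × ℝ → ℝ} {s t : ℝ} (hD : DifferentiableAt ℝ D (s, t)) :
    HasDerivAt (fun σ => D (σ, t)) (fderiv ℝ D (s, t) (1, 0)) s := by
  have h1 : HasDerivAt (fun σ : ℝ => ((σ, t) : ℝ × ℝ)) (1, 0) s :=
    (hasDerivAt_id s).prodMk (hasDerivAt_const s t)
  exact hD.hasFDerivAt.comp_hasDerivAt s h1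

/-- A9 (Green.lean): pure calculus. -/
theorem green_square {A D : ℝ × ℝ → ℝ} {V : Set (ℝ × ℝ)} (hV : IsOpen V)
    (hsub : Icc (0 : ℝ) 1 ×ˢ Icc (0 : ℝ) 1 ⊆ V)
    (hA : ContDiffOn ℝ ∞ A V) (hD : ContDiffOn ℝ ∞ D V)
    (hjac : ∀ p ∈ V, fderiv ℝ A p (1, 0) * fderiv ℝ D p (0, 1)
      = fderiv ℝ A p (0, 1) * fderiv ℝ D p (1, 0))
    {kA kD a d : ℝ}
    (hA1 : ∀ t ∈ Icc (0 : ℝ) 1, A (1, t) = A (0, t) + kA)
    (hD1 : ∀ t ∈ Icc (0 : ℝ) 1, D (1, t) = D (0, t) + kD)
    (hA2 : ∀ s ∈ Icc (0 : ℝ) 1, A (s, 1) = A (s, 0) + a)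
    (hD2 : ∀ s ∈ Icc (0 : ℝ) 1, D (s, 1) = D (s, 0) + d) : kA * d = kD * a := by
  have hAat : ∀ p ∈ V, ContDiffAt ℝ ∞ A p := fun p hp => hA.contDiffAt (hV.mem_nhds hp)
  have hDat : ∀ p ∈ V, ContDiffAt ℝ ∞ D p := fun p hp => hD.contDiffAt (hV.mem_nhds hp)
  have hAd : ∀ p ∈ V, DifferentiableAt ℝ A p := fun p hp => (hAat p hp).differentiableAt (by simp)
  have hDd : ∀ p ∈ V, DifferentiableAt ℝ D p := fun p hp => (hDat p hp).differentiableAt (by simp)
  have hrect : ∀ s ∈ Icc (0 : ℝ) 1, ∀ t ∈ Icc (0 : ℝ) 1, ((s, t) : ℝ × ℝ) ∈ V :=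
    fun s hs t ht => hsub ⟨hs, ht⟩
  have h0 : (0 : ℝ) ∈ Icc (0 : ℝ) 1 := ⟨le_rfl, zero_le_one⟩
  have h1 : (1 : ℝ) ∈ Icc (0 : ℝ) 1 := ⟨zero_le_one, le_rfl⟩
  set f : ℝ × ℝ → ℝ := fun p => A p * fderiv ℝ D p (0, 1) with hf
  set g : ℝ × ℝ → ℝ := fun p => -(A p * fderiv ℝ D p (1, 0)) with hg
  set f' : ℝ × ℝ → ℝ × ℝ →L[ℝ] ℝ := fun p =>
    A p • ((fderiv ℝ (fderiv ℝ D) p).flip (0, 1)) + (fderiv ℝ D p (0, 1)) • fderiv ℝ A p with hf'
  set g' : ℝ × ℝ → ℝ × ℝ →L[ℝ] ℝ := fun p =>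
    -(A p • ((fderiv ℝ (fderiv ℝ D) p).flip (1, 0)) + (fderiv ℝ D p (1, 0)) • fderiv ℝ A p) with hg'
  have Hf : ∀ p ∈ V, HasFDerivAt f (f' p) p := fun p hp =>
    (hAd p hp).hasFDerivAt.mul (green_hasFDerivAt (hDat p hp) (0, 1))
  have Hg : ∀ p ∈ V, HasFDerivAt g (g' p) p := fun p hp =>
    ((hAd p hp).hasFDerivAt.mul (green_hasFDerivAt (hDat p hp) (1, 0))).neg
  have hzero : ∀ p ∈ V, f' p (1, 0) + g' p (0, 1) = 0 := by
    intro p hp
    have hsym : IsSymmSndFDerivAt ℝ D p := (hDat p hp).isSymmSndFDerivAt (by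
      simp only [minSmoothness_of_isRCLikeNormedField]
      exact WithTop.coe_le_coe.2 le_top)
    have e1 := hsym (1, 0) (0, 1)
    have e2 := hjac p hp
    simp only [hf', hg', ContinuousLinearMap.add_apply, ContinuousLinearMap.smul_apply,
      ContinuousLinearMap.neg_apply, ContinuousLinearMap.flip_apply, smul_eq_mul]
    rw [e1]
    linarith
  have hsubu : uIcc (0 : ℝ) 1 ×ˢ uIcc (0 : ℝ) 1 ⊆ V := by
    rw [uIcc_of_le zero_le_one]
    exact hsub
  have key := MeasureTheory.integral2_divergence_prod_of_hasFDerivAt_off_countable f g f' g'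
    0 0 1 1 ∅ countable_empty
    (fun p hp => (Hf p (hsubu hp)).continuousAt.continuousWithinAt)
    (fun p hp => (Hg p (hsubu hp)).continuousAt.continuousWithinAt)
    (fun p hp => Hf p (hsub ⟨by
      have := hp.1.1
      simp only [zero_le_one, inf_of_le_left, sup_of_le_right] at this
      exact Ioo_subset_Icc_self this, by
      have := hp.1.2
      simp only [zero_le_one, inf_of_le_left, sup_of_le_right] at this
      exact Ioo_subset_Icc_self this⟩))
    (fun p hp => Hg p (hsub ⟨by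
      have := hp.1.1
      simp only [zero_le_one, inf_of_le_left, sup_of_le_right] at this
      exact Ioo_subset_Icc_self this, by
      have := hp.1.2
      simp only [zero_le_one, inf_of_le_left, sup_of_le_right] at this
      exact Ioo_subset_Icc_self this⟩))
    (by
      apply (integrableOn_zero (μ := volume) (s := uIcc (0 : ℝ) 1 ×ˢ uIcc (0 : ℝ) 1)).congr_fun
      · intro p hp
        exact (hzero p (hsubu hp)).symm
      · exact measurableSet_uIcc.prod measurableSet_uIcc)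
  have hlhs : (∫ x in (0 : ℝ)..1, ∫ y in (0 : ℝ)..1, f' (x, y) (1, 0) + g' (x, y) (0, 1)) = 0 := by
    have : (∫ x in (0 : ℝ)..1, ∫ y in (0 : ℝ)..1, f' (x, y) (1, 0) + g' (x, y) (0, 1)) =
        ∫ x in (0 : ℝ)..1, (0 : ℝ) := by
      apply intervalIntegral.integral_congr
      intro x hx
      rw [uIcc_of_le zero_le_one] at hx
      have : (∫ y in (0 : ℝ)..1, f' (x, y) (1, 0) + g' (x, y) (0, 1)) =
          ∫ y in (0 : ℝ)..1, (0 : ℝ) := by
        apply intervalIntegral.integral_congr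
        intro y hy
        rw [uIcc_of_le zero_le_one] at hy
        exact hzero _ (hrect x hx y hy)
      simp only [this, intervalIntegral.integral_zero]
    rw [this, intervalIntegral.integral_zero]
  rw [hlhs] at key
  -- the sides
  have hcf : ContinuousOn f V := fun p hp => (Hf p hp).continuousAt.continuousWithinAt
  have hcg : ContinuousOn g V := fun p hp => (Hg p hp).continuousAt.continuousWithinAt
  have hcDt : ContinuousOn (fun p => fderiv ℝ D p (0, 1)) V := fun p hp =>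
    (green_hasFDerivAt (hDat p hp) (0, 1)).continuousAt.continuousWithinAt
  have hcDs : ContinuousOn (fun p => fderiv ℝ D p (1, 0)) V := fun p hp =>
    (green_hasFDerivAt (hDat p hp) (1, 0)).continuousAt.continuousWithinAt
  have line_t : ∀ (h : ℝ × ℝ → ℝ), ContinuousOn h V → ∀ s ∈ Icc (0 : ℝ) 1,
      IntervalIntegrable (fun t => h (s, t)) volume 0 1 := by
    intro h hh s hs
    apply ContinuousOn.intervalIntegrable
    rw [uIcc_of_le zero_le_one]
    exact hh.comp (by fun_prop) (fun t ht => hrect s hs t ht)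
  have line_s : ∀ (h : ℝ × ℝ → ℝ), ContinuousOn h V → ∀ t ∈ Icc (0 : ℝ) 1,
      IntervalIntegrable (fun s => h (s, t)) volume 0 1 := by
    intro h hh t ht
    apply ContinuousOn.intervalIntegrable
    rw [uIcc_of_le zero_le_one]
    exact hh.comp (by fun_prop) (fun s hs => hrect s hs t ht)
  have eDt : ∀ t ∈ Icc (0 : ℝ) 1, fderiv ℝ D (1, t) (0, 1) = fderiv ℝ D (0, t) (0, 1) := by
    intro t ht
    have a1 := (green_line_t (hDd _ (hrect 1 h1 t ht))).hasDerivWithinAt (s := Icc (0 : ℝ) 1)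
    have a2 := ((green_line_t (hDd _ (hrect 0 h0 t ht))).add_const kD).hasDerivWithinAt
      (s := Icc (0 : ℝ) 1)
    have a3 : HasDerivWithinAt (fun τ => D (1, τ)) (fderiv ℝ D (0, t) (0, 1)) (Icc (0 : ℝ) 1) t :=
      a2.congr (fun τ hτ => hD1 τ hτ) (hD1 t ht)
    exact (uniqueDiffOn_Icc zero_lt_one t ht).eq_deriv _ a1 a3
  have eDs : ∀ s ∈ Icc (0 : ℝ) 1, fderiv ℝ D (s, 1) (1, 0) = fderiv ℝ D (s, 0) (1, 0) := by
    intro s hs
    have a1 := (green_line_s (hDd _ (hrect s hs 1 h1))).hasDerivWithinAt (s := Icc (0 : ℝ) 1)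
    have a2 := ((green_line_s (hDd _ (hrect s hs 0 h0))).add_const d).hasDerivWithinAt
      (s := Icc (0 : ℝ) 1)
    have a3 : HasDerivWithinAt (fun σ => D (σ, 1)) (fderiv ℝ D (s, 0) (1, 0)) (Icc (0 : ℝ) 1) s :=
      a2.congr (fun σ hσ => hD2 σ hσ) (hD2 s hs)
    exact (uniqueDiffOn_Icc zero_lt_one s hs).eq_deriv _ a1 a3
  have I1 : (∫ y in (0 : ℝ)..1, f (1, y)) - ∫ y in (0 : ℝ)..1, f (0, y) = kA * d := by
    rw [← intervalIntegral.integral_sub (line_t f hcf 1 h1) (line_t f hcf 0 h0)]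
    have e : (∫ y in (0 : ℝ)..1, (f (1, y) - f (0, y))) =
        ∫ y in (0 : ℝ)..1, kA * fderiv ℝ D (0, y) (0, 1) := by
      apply intervalIntegral.integral_congr
      intro t ht
      rw [uIcc_of_le zero_le_one] at ht
      simp only [hf]
      rw [hA1 t ht, eDt t ht]
      ring
    rw [e, intervalIntegral.integral_const_mul]
    have e2 : (∫ y in (0 : ℝ)..1, fderiv ℝ D (0, y) (0, 1)) = D (0, 1) - D (0, 0) := by
      apply intervalIntegral.integral_eq_sub_of_hasDerivAt (f := fun t => D (0, t))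
      · intro t ht
        rw [uIcc_of_le zero_le_one] at ht
        exact green_line_t (hDd _ (hrect 0 h0 t ht))
      · exact line_t _ hcDt 0 h0
    rw [e2, hD2 0 h0]
    ring
  have I2 : (∫ x in (0 : ℝ)..1, g (x, 1)) - ∫ x in (0 : ℝ)..1, g (x, 0) = -(kD * a) := by
    rw [← intervalIntegral.integral_sub (line_s g hcg 1 h1) (line_s g hcg 0 h0)]
    have e : (∫ x in (0 : ℝ)..1, (g (x, 1) - g (x, 0))) =
        ∫ x in (0 : ℝ)..1, (-a) * fderiv ℝ D (x, 0) (1, 0) := by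
      apply intervalIntegral.integral_congr
      intro s hs
      rw [uIcc_of_le zero_le_one] at hs
      simp only [hg]
      rw [hA2 s hs, eDs s hs]
      ring
    rw [e, intervalIntegral.integral_const_mul]
    have e2 : (∫ x in (0 : ℝ)..1, fderiv ℝ D (x, 0) (1, 0)) = D (1, 0) - D (0, 0) := by
      apply intervalIntegral.integral_eq_sub_of_hasDerivAt (f := fun s => D (s, 0))
      · intro s hs
        rw [uIcc_of_le zero_le_one] at hs
        exact green_line_s (hDd _ (hrect s hs 0 h0))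
      · exact line_s _ hcDs 0 h0
    rw [e2, hD1 0 h0]
    ring
  linarith

end SphTw
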