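import Pool.Agent.Lib.MP_3f8e0b_gt.Basic

/-!
# A11: the derivative of the flow read in a moving frame
-/

open Set Filter Topology MeasureTheory
open scoped ContDiff Manifold Quaternion

noncomputable section

namespace SphTw

namespace Etale

variable {E : Type*} [NormedAddCommGroup E] [NormedSpace ℝ E] {S : Etale E}

/-- Existence of a representative of `T s (pr x)` with a given value of the circle function. -/
theorem HH_ex (hS : S.Good) {T : ℝ → S.X → S.X} (hT : S.SFlow T) {θ : E → ℝ}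
    {Δ : ℝ → S.X → ℝ} {κ : ℤ} (hΔ : S.DLift T θ Δ κ)
    (hshift : ∀ x ∈ S.U, ∀ m : ℤ, ∃ z, S.r x z ∧ θ z = θ x + m) (s : ℝ) {x : E} (hx : x ∈ S.U) :
    ∃ z ∈ S.U, ∃ Z, S.pr z = T s (S.pr x) ∧ θ z = θ x + Δ s (S.pr x) ∧ S.Lift T s x z Z := by
  obtain ⟨w, hw, hwp⟩ := S.pr_surj (T s (S.pr x))
  obtain ⟨m, hm⟩ := hΔ.eq s x hx w hw hwp
  obtain ⟨z, hz, hzθ⟩ := hshift w hw (-m)
  have hzU := (hS.mem hz).2
  have hzp : S.pr z = T s (S.pr x) := by rw [← hwp]; exact (hS.pr_eq hz).symm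
  obtain ⟨Z, hZ⟩ := hT.lift s x hx z hzU hzp
  refine ⟨z, hzU, Z, hzp, ?_, hZ⟩
  rw [hzθ, hm]
  push_cast
  ring

theorem HH_slice_hasFDerivAt {Z : ℝ × E → E} {s : ℝ} {x : E} (h : DifferentiableAt ℝ Z (s, x)) :
    HasFDerivAt (fun y => Z (s, y))
      ((fderiv ℝ Z (s, x)).comp (ContinuousLinearMap.inr ℝ ℝ E)) x :=
  h.hasFDerivAt.comp x (hasFDerivAt_prodMk_right s x)

theorem Lift.HH_diff {T : ℝ → S.X → S.X} {s : ℝ} {x z : E} {Z : ℝ × E → E}
    (h : S.Lift T s x z Z) : DifferentiableAt ℝ Z (s, x) :=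
  h.1.self_of_nhds.differentiableAt (by simp)

theorem IsGraph.HH_diff {x z : E} {g : E → E} (h : S.IsGraph x z g) : DifferentiableAt ℝ g x :=
  h.1.self_of_nhds.differentiableAt (by simp)

theorem HH_indep (hS : S.Good) {T : ℝ → S.X → S.X} {θ : E → ℝ} {Δ : ℝ → S.X → ℝ}
    {B : E → (E →L[ℝ] E)}
    (hB : ∀ x z g, S.r x z → θ z = θ x → S.IsGraph x z g →
      (B z).comp (fderiv ℝ g x) = B x) {s : ℝ} {x z z' : E} {Z Z' : ℝ × E → E}
    (hz : z ∈ S.U) (hz' : z' ∈ S.U)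
    (hp : S.pr z = T s (S.pr x)) (hp' : S.pr z' = T s (S.pr x))
    (hθ : θ z = θ x + Δ s (S.pr x)) (hθ' : θ z' = θ x + Δ s (S.pr x))
    (hZ : S.Lift T s x z Z) (hZ' : S.Lift T s x z' Z') :
    (B z').comp (fderiv ℝ (fun y => Z' (s, y)) x) =
      (B z).comp (fderiv ℝ (fun y => Z (s, y)) x) := by
  have hr : S.r z z' := (hS.pr_eq_iff hz hz').1 (hp.trans hp'.symm)
  obtain ⟨g, hg⟩ := hS.graph hr
  have hBg := hB z z' g hr (hθ'.trans hθ.symm) hg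
  have hg' : S.IsGraph (Z (s, x)) (Z' (s, x)) g := by rw [hZ.2.1, hZ'.2.1]; exact hg
  have h1 : ∀ᶠ p in 𝓝 ((s, x) : ℝ × E), Z' p = g (Z p) :=
    hS.lift_eventually_r (f := fun p : ℝ × E => T p.1 (S.pr p.2)) hZ.HH_diff.continuousAt
      hZ'.HH_diff.continuousAt hZ.2.2 hZ'.2.2 hg'
  have hcont : Tendsto (fun y : E => ((s, y) : ℝ × E)) (𝓝 x) (𝓝 (s, x)) :=
    (Continuous.prodMk_right s).continuousAt
  have h2 : (fun y => Z' (s, y)) =ᶠ[𝓝 x] (fun y => g (Z (s, y))) := hcont.eventually h1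
  have h3 := HH_slice_hasFDerivAt hZ.HH_diff
  have hgd : HasFDerivAt g (fderiv ℝ g z) (Z (s, x)) := by
    rw [hZ.2.1]; exact hg.HH_diff.hasFDerivAt
  have h4 : HasFDerivAt (fun y => g (Z (s, y)))
      ((fderiv ℝ g z).comp (fderiv ℝ (fun y => Z (s, y)) x)) x := by
    rw [h3.fderiv]
    exact hgd.comp x h3
  rw [h2.fderiv_eq, h4.fderiv, ← ContinuousLinearMap.comp_assoc, hBg]

/-- A11 (HH.lean): the derivative of the flow read in a moving frame `B`. -/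
theorem exists_HH (hS : S.Good) {T : ℝ → S.X → S.X} (hT : S.SFlow T) {θ : E → ℝ}
    (hθ : S.CF θ) {Δ : ℝ → S.X → ℝ} {κ : ℤ} (hΔ : S.DLift T θ Δ κ)
    (hshift : ∀ x ∈ S.U, ∀ m : ℤ, ∃ z, S.r x z ∧ θ z = θ x + m)
    {B : E → (E →L[ℝ] E)} (hBc : ContinuousOn B S.U)
    (hB : ∀ x z g, S.r x z → θ z = θ x → S.IsGraph x z g →
      (B z).comp (fderiv ℝ g x) = B x) :
    ∃ H : ℝ → E → (E →L[ℝ] E),
      (∀ s, ∀ x ∈ S.U, ContinuousAt (fun p : ℝ × E => H p.1 p.2) (s, x)) ∧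
      (∀ s, ∀ x ∈ S.U, ∀ z ∈ S.U, ∀ Z, S.pr z = T s (S.pr x) → θ z = θ x + Δ s (S.pr x) →
        S.Lift T s x z Z → H s x = (B z).comp (fderiv ℝ (fun y => Z (s, y)) x)) := by
  classical
  choose zf hzf Zf hZf using fun (s : ℝ) (x : E) (hx : x ∈ S.U) => HH_ex hS hT hΔ hshift s hx
  set H : ℝ → E → (E →L[ℝ] E) := fun s x =>
    if hx : x ∈ S.U then (B (zf s x hx)).comp (fderiv ℝ (fun y => Zf s x hx (s, y)) x) else 0
    with hH
  have hchar : ∀ s, ∀ x ∈ S.U, ∀ z ∈ S.U, ∀ Z, S.pr z = T s (S.pr x) →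
      θ z = θ x + Δ s (S.pr x) → S.Lift T s x z Z →
      H s x = (B z).comp (fderiv ℝ (fun y => Z (s, y)) x) := by
    intro s x hx z hz Z hp hθz hZ
    simp only [hH, dif_pos hx]
    obtain ⟨h1, h2, h3⟩ := hZf s x hx
    exact HH_indep hS hB hz (hzf s x hx) hp h1 hθz h2 hZ h3
  refine ⟨H, ?_, hchar⟩
  intro s x hx
  obtain ⟨z, hz, Z, hp, hθz, hZ⟩ := HH_ex hS hT hΔ hshift s hx
  have hZc : ContinuousAt Z (s, x) := hZ.HH_diff.continuousAt
  -- the value of the circle function along the lift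
  have hval : ∀ᶠ p in 𝓝 ((s, x) : ℝ × E), θ (Z p) = θ p.2 + Δ p.1 (S.pr p.2) := by
    have hθ1 : ContinuousAt (fun p : ℝ × E => θ (Z p)) (s, x) := by
      have h1 : ContinuousAt θ (Z (s, x)) := by
        rw [hZ.2.1]
        exact (hθ.smooth z hz).continuousAt
      exact h1.comp hZc
    have hθ2 : ContinuousAt (fun p : ℝ × E => θ p.2 + Δ p.1 (S.pr p.2)) (s, x) := by
      have h1 : ContinuousAt (fun p : ℝ × E => θ p.2) (s, x) :=
        ContinuousAt.comp (f := fun p : ℝ × E => p.2) (g := θ) (hθ.smooth x hx).continuousAt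
          continuousAt_snd
      exact h1.add (hΔ.smooth s x hx).continuousAt
    have hd : ContinuousAt (fun p : ℝ × E => θ (Z p) - (θ p.2 + Δ p.1 (S.pr p.2))) (s, x) :=
      hθ1.sub hθ2
    have h0 : θ (Z (s, x)) - (θ x + Δ s (S.pr x)) = 0 := by rw [hZ.2.1, hθz]; ring
    have hev : ∀ᶠ p in 𝓝 ((s, x) : ℝ × E),
        |θ (Z p) - (θ p.2 + Δ p.1 (S.pr p.2))| < 1 := by
      have h1 := hd.abs
      have h2 : |θ (Z (s, x)) - (θ x + Δ s (S.pr x))| < 1 := by rw [h0, abs_zero]; norm_num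
      exact h1.eventually_lt continuousAt_const h2
    have hU : ∀ᶠ p in 𝓝 ((s, x) : ℝ × E), p.2 ∈ S.U :=
      continuousAt_snd.eventually (hS.isOpen_U.mem_nhds hx)
    filter_upwards [hev, hU, hZ.2.2] with p hp1 hp2 hp3
    obtain ⟨m, hm⟩ := hΔ.eq p.1 p.2 hp2 (Z p) hp3.1 hp3.2
    have h3 : θ (Z p) - (θ p.2 + Δ p.1 (S.pr p.2)) = m := by rw [hm]; ring
    rw [h3] at hp1
    have h4 : |m| < 1 := by exact_mod_cast hp1
    have h5 : m = 0 := by
      rw [← Int.abs_lt_one_iff]; exact h4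
    rw [hm, h5]
    push_cast
    ring
  have hU : ∀ᶠ p in 𝓝 ((s, x) : ℝ × E), p.2 ∈ S.U :=
    continuousAt_snd.eventually (hS.isOpen_U.mem_nhds hx)
  have hHeq : (fun p : ℝ × E => H p.1 p.2) =ᶠ[𝓝 (s, x)]
      (fun p => (B (Z p)).comp ((fderiv ℝ Z p).comp (ContinuousLinearMap.inr ℝ ℝ E))) := by
    filter_upwards [hval, hU, hZ.2.2, hZ.1.eventually_nhds, hZ.2.2.eventually_nhds]
      with p hp1 hp2 hp3 hp4 hp5
    have hL : S.Lift T p.1 p.2 (Z p) Z := ⟨hp4, rfl, hp5⟩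
    have h1 := hchar p.1 p.2 hp2 (Z p) hp3.1 Z hp3.2 hp1 hL
    rw [h1, (HH_slice_hasFDerivAt hL.HH_diff).fderiv]
  refine ContinuousAt.congr ?_ hHeq.symm
  have hB1 : ContinuousAt (fun p : ℝ × E => B (Z p)) (s, x) := by
    have h1 : ContinuousAt B (Z (s, x)) := by
      rw [hZ.2.1]
      exact hBc.continuousAt (hS.isOpen_U.mem_nhds hz)
    exact h1.comp hZc
  have hD : ContinuousAt (fderiv ℝ Z) (s, x) := by
    have h1 : ContDiffAt ℝ ∞ Z (s, x) := hZ.1.self_of_nhds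
    have h2 : ContDiffAt ℝ 0 (fderiv ℝ Z) (s, x) := h1.fderiv_right (by simp)
    exact h2.continuousAt
  exact hB1.clm_comp (hD.clm_comp continuousAt_const)

end Etale

end SphTw
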