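import Pool.Agent.Lib.MP_3f8e0b_gt.HH

/-!
# A12: consequences of the characterization of `H`
-/

open Set Filter Topology MeasureTheory
open scoped ContDiff Manifold Quaternion

noncomputable section

namespace SphTw

namespace Etale

variable {E : Type*} [NormedAddCommGroup E] [NormedSpace ℝ E] {S : Etale E}

/-- A map which projects to the identity and fixes `x` is the identity near `x`. -/
theorem HHProp_id (hS : S.Good) {x : E} (hx : x ∈ S.U) {G : E → E} (hG : ContinuousAt G x)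
    (hGx : G x = x) (h : ∀ᶠ y in 𝓝 x, G y ∈ S.U ∧ S.pr (G y) = S.pr y) : G =ᶠ[𝓝 x] id := by
  have h1 : Tendsto (fun y => (y, G y)) (𝓝 x) (𝓝 (x, x)) := by
    have h2 := hG
    rw [ContinuousAt, hGx] at h2
    exact tendsto_id.prodMk_nhds h2
  filter_upwards [h, hS.isOpen_U.mem_nhds hx, h1.eventually (hS.eventually_inj hx)]
    with y hy hyU hy2
  exact (hy2.1 ((hS.pr_eq_iff hyU hy.1).1 hy.2.symm)).symm

theorem HHProp_slice {T : ℝ → S.X → S.X} {s : ℝ} {x z : E} {Z : ℝ × E → E}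
    (h : S.Lift T s x z Z) : ∀ᶠ y in 𝓝 x, Z (s, y) ∈ S.U ∧ S.pr (Z (s, y)) = T s (S.pr y) := by
  have hcont : Tendsto (fun y : E => ((s, y) : ℝ × E)) (𝓝 x) (𝓝 (s, x)) :=
    (Continuous.prodMk_right s).continuousAt
  exact hcont.eventually h.2.2

theorem HHProp_slice_diff {T : ℝ → S.X → S.X} {s : ℝ} {x z : E} {Z : ℝ × E → E}
    (h : S.Lift T s x z Z) : DifferentiableAt ℝ (fun y => Z (s, y)) x :=
  (HH_slice_hasFDerivAt h.HH_diff).differentiableAt

/-- A12 (HHProp.lean): consequences of the characterization in A11. -/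
theorem HH_props (hS : S.Good) {T : ℝ → S.X → S.X} (hT : S.SFlow T) {θ : E → ℝ}
    (hθ : S.CF θ) {Δ : ℝ → S.X → ℝ} {κ : ℤ} (hΔ : S.DLift T θ Δ κ)
    (hshift : ∀ x ∈ S.U, ∀ m : ℤ, ∃ z, S.r x z ∧ θ z = θ x + m)
    {B : E → (E →L[ℝ] E)}
    {H : ℝ → E → (E →L[ℝ] E)}
    (hH : ∀ s, ∀ x ∈ S.U, ∀ z ∈ S.U, ∀ Z, S.pr z = T s (S.pr x) →
      θ z = θ x + Δ s (S.pr x) →
        S.Lift T s x z Z → H s x = (B z).comp (fderiv ℝ (fun y => Z (s, y)) x)) :
    (∀ x ∈ S.U, H 0 x = B x) ∧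
    (∀ s x z g, S.r x z → θ z = θ x → S.IsGraph x z g → (H s z).comp (fderiv ℝ g x) = H s x) ∧
    (∀ x z g, S.r x z → θ z = θ x + κ → S.IsGraph x z g → H 1 x = (B z).comp (fderiv ℝ g x)) ∧
    ((∀ x ∈ S.U, Function.Injective (B x)) → ∀ s, ∀ x ∈ S.U, Function.Injective (H s x)) := by
  have _ := hθ
  refine ⟨?_, ?_, ?_, ?_⟩
  · intro x hx
    have hp : S.pr x = T 0 (S.pr x) := (hT.zero _).symm
    obtain ⟨Z, hZ⟩ := hT.lift 0 x hx x hx hp
    have h1 := hH 0 x hx x hx Z hp (by rw [hΔ.zero]; ring) hZ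
    have h2 : (fun y => Z (0, y)) =ᶠ[𝓝 x] id := by
      refine HHProp_id hS hx (HHProp_slice_diff hZ).continuousAt hZ.2.1 ?_
      filter_upwards [HHProp_slice hZ] with y hy
      exact ⟨hy.1, by rw [hy.2, hT.zero]⟩
    rw [h1, h2.fderiv_eq, fderiv_id, ContinuousLinearMap.comp_id]
  · intro s x z g hr hθz hg
    have hxU := (hS.mem hr).1
    have hzU := (hS.mem hr).2
    have hpr := hS.pr_eq hr
    obtain ⟨w, hw, W, hwp, hwθ, hW⟩ := HH_ex hS hT hΔ hshift s hzU
    have h1 := hH s z hzU w hw W hwp hwθ hW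
    have hg' : ContinuousAt g x := hg.HH_diff.continuousAt
    have htend : Tendsto (fun p : ℝ × E => (p.1, g p.2)) (𝓝 (s, x)) (𝓝 (s, z)) := by
      have h2 : ContinuousAt (fun p : ℝ × E => (p.1, g p.2)) (s, x) := by
        refine continuousAt_fst.prodMk ?_
        exact ContinuousAt.comp (f := fun p : ℝ × E => p.2) (g := g) hg' continuousAt_snd
      have h3 : Tendsto (fun p : ℝ × E => (p.1, g p.2)) (𝓝 (s, x)) (𝓝 (s, g x)) := h2
      rw [hg.2.1] at h3
      exact h3
    have htend2 : Tendsto (fun p : ℝ × E => p.2) (𝓝 (s, x)) (𝓝 x) := continuousAt_snd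
    have hL : S.Lift T s x w (fun p => W (p.1, g p.2)) := by
      refine ⟨?_, ?_, ?_⟩
      · filter_upwards [htend.eventually hW.1, htend2.eventually hg.1] with p hp1 hp2
        have h4 : ContDiffAt ℝ ∞ (fun p : ℝ × E => (p.1, g p.2)) p :=
          contDiffAt_fst.prodMk (ContDiffAt.comp p (f := fun p : ℝ × E => p.2) (g := g) hp2
            contDiffAt_snd)
        exact ContDiffAt.comp p (f := fun p : ℝ × E => (p.1, g p.2)) (g := W) hp1 h4
      · simp only [hg.2.1]
        exact hW.2.1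
      · filter_upwards [htend.eventually hW.2.2, htend2.eventually (hS.graph_eventually hg)]
          with p hp1 hp2
        refine ⟨hp1.1, ?_⟩
        rw [hp1.2, hS.pr_eq hp2]
    have h5 := hH s x hxU w hw _ (by rw [hwp, hpr]) (by rw [hwθ, hθz, hpr]) hL
    have h6 : HasFDerivAt (fun y => W (s, g y))
        ((fderiv ℝ (fun y => W (s, y)) z).comp (fderiv ℝ g x)) x := by
      have h7 : HasFDerivAt (fun y => W (s, y)) (fderiv ℝ (fun y => W (s, y)) z) (g x) := by
        rw [hg.2.1]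
        exact (HHProp_slice_diff hW).hasFDerivAt
      exact h7.comp x hg.HH_diff.hasFDerivAt
    rw [h5, h6.fderiv, h1, ContinuousLinearMap.comp_assoc]
  · intro x z g hr hθz hg
    have hxU := (hS.mem hr).1
    have hzU := (hS.mem hr).2
    have hp : S.pr z = T 1 (S.pr x) := by rw [hT.one]; exact (hS.pr_eq hr).symm
    obtain ⟨Z, hZ⟩ := hT.lift 1 x hxU z hzU hp
    have h1 := hH 1 x hxU z hzU Z hp (by rw [hΔ.one]; exact hθz) hZ
    have h2 : (fun y => Z (1, y)) =ᶠ[𝓝 x] g := by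
      have h3 : Tendsto (fun y => (y, Z (1, y))) (𝓝 x) (𝓝 (x, z)) := by
        have h4 := (HHProp_slice_diff hZ).continuousAt
        rw [ContinuousAt, hZ.2.1] at h4
        exact tendsto_id.prodMk_nhds h4
      filter_upwards [HHProp_slice hZ, hS.isOpen_U.mem_nhds hxU, h3.eventually hg.2.2]
        with y hy hyU hy2
      exact hy2.1 ((hS.pr_eq_iff hyU hy.1).1 (by rw [hy.2, hT.one]))
    rw [h1, h2.fderiv_eq]
  · intro hBi s x hx
    obtain ⟨z, hz, Z, hzp, hzθ, hZ⟩ := HH_ex hS hT hΔ hshift s hx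
    rw [hH s x hx z hz Z hzp hzθ hZ]
    have hback : ∀ q, T (-s) (T s q) = q := by
      intro q
      rw [← hT.add, neg_add_cancel, hT.zero]
    obtain ⟨W, hW⟩ := hT.lift (-s) z hz x hx (by rw [hzp, hback])
    have hZc : ContinuousAt (fun y => Z (s, y)) x := (HHProp_slice_diff hZ).continuousAt
    have hZt : Tendsto (fun y => Z (s, y)) (𝓝 x) (𝓝 z) := by
      have h4 := hZc
      rw [ContinuousAt, hZ.2.1] at h4
      exact h4
    have hWd : HasFDerivAt (fun y => W (-s, y)) (fderiv ℝ (fun y => W (-s, y)) z) (Z (s, x)) := by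
      rw [hZ.2.1]
      exact (HHProp_slice_diff hW).hasFDerivAt
    have hcomp : HasFDerivAt (fun y => W (-s, Z (s, y)))
        ((fderiv ℝ (fun y => W (-s, y)) z).comp (fderiv ℝ (fun y => Z (s, y)) x)) x := by
      have h11 := HasFDerivAt.comp (g := fun y => W (-s, y)) (f := fun y => Z (s, y)) x hWd
        (HHProp_slice_diff hZ).hasFDerivAt
      exact h11
    have hid : (fun y => W (-s, Z (s, y))) =ᶠ[𝓝 x] id := by
      refine HHProp_id hS hx hcomp.continuousAt ?_ ?_
      · rw [hZ.2.1]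
        exact hW.2.1
      · filter_upwards [hZt.eventually (HHProp_slice hW), HHProp_slice hZ] with y hy1 hy2
        exact ⟨hy1.1, by rw [hy1.2, hy2.2, hback]⟩
    have h8 : (fderiv ℝ (fun y => W (-s, y)) z).comp (fderiv ℝ (fun y => Z (s, y)) x) =
        ContinuousLinearMap.id ℝ E := by
      rw [← hcomp.fderiv, hid.fderiv_eq, fderiv_id]
    intro u v huv
    have h9 : fderiv ℝ (fun y => Z (s, y)) x u = fderiv ℝ (fun y => Z (s, y)) x v := hBi z hz huv
    have h10 : ∀ w, (fderiv ℝ (fun y => W (-s, y)) z) (fderiv ℝ (fun y => Z (s, y)) x w) = w := by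
      intro w
      have := DFunLike.congr_fun h8 w
      exact this
    rw [← h10 u, h9, h10 v]

end Etale

end SphTw
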