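import Pool.Agent.Lib.MP_3f8e0b_gt.Basic

/-!
# MP_3f8e0b_gt, task A5: an involution with the identity 1-jet at a point is the identity
-/

open Set Filter Topology
open scoped ContDiff Manifold

namespace SphTw

namespace Etale

variable {E : Type*} [NormedAddCommGroup E] [NormedSpace ℝ E] {S : Etale E}

/-- Linearization: a lift of an involution with the identity 1-jet is the identity near `x`. -/
theorem Good.lin_near (hS : S.Good) {g : S.X → S.X} (hg : ∀ q, g (g q) = q)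
    {x : E} (hx : x ∈ S.U) {G : E → E} (hG : S.Lift1 g x x G)
    (hd : fderiv ℝ G x = ContinuousLinearMap.id ℝ E) : ∀ᶠ y in 𝓝 x, G y = y := by
  obtain ⟨h1, h2, h3⟩ := hG
  have hc : Tendsto G (𝓝 x) (𝓝 x) := by
    have := h1.self_of_nhds.continuousAt
    rwa [ContinuousAt, h2] at this
  have h4 : ∀ᶠ y in 𝓝 x, G (G y) ∈ S.U ∧ S.pr (G (G y)) = g (S.pr (G y)) := hc.eventually h3
  have h5 : Tendsto (fun y => (G (G y), y)) (𝓝 x) (𝓝 (x, x)) :=
    (hc.comp hc).prodMk_nhds tendsto_id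
  have h6 : ∀ᶠ y in 𝓝 x, G (G y) = y := by
    filter_upwards [h3, h4, h5.eventually (hS.eventually_inj hx), hS.isOpen_U.mem_nhds hx]
      with y a b c d
    refine c.1 ((hS.pr_eq_iff b.1 d).1 ?_)
    rw [b.2, a.2, hg]
  have h7 : HasStrictFDerivAt G (ContinuousLinearMap.id ℝ E) x := by
    rw [← hd]
    exact h1.self_of_nhds.hasStrictFDerivAt (by simp)
  have h8 : Tendsto (fun y => (G y, y)) (𝓝 x) (𝓝 (x, x)) := hc.prodMk_nhds tendsto_id
  have h9 := h8.eventually (h7.isLittleO.def (c := 1) one_pos)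
  filter_upwards [h6, h9] with y a b
  simp only [a, ContinuousLinearMap.id_apply, one_mul] at b
  have h10 : y - G y - (G y - y) = (-2 : ℝ) • (G y - y) := by
    module
  rw [h10, norm_smul] at b
  have h11 : ‖(-2 : ℝ)‖ = 2 := by simp
  rw [h11] at b
  have h12 : ‖G y - y‖ = 0 := le_antisymm (by linarith) (norm_nonneg _)
  exact sub_eq_zero.1 (norm_eq_zero.1 h12)

/-- A lift equal to the identity near `x` gives identity lifts at nearby points. -/
theorem Good.lin_open (hS : S.Good) {g : S.X → S.X} {x : E} (hx : x ∈ S.U) {G : E → E}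
    (hG : S.Lift1 g x x G) (h : ∀ᶠ y in 𝓝 x, G y = y) :
    ∀ᶠ y in 𝓝 x, y ∈ S.U ∧ S.Lift1 g y y G ∧ fderiv ℝ G y = ContinuousLinearMap.id ℝ E := by
  obtain ⟨h1, h2, h3⟩ := hG
  filter_upwards [hS.isOpen_U.mem_nhds hx, eventually_eventually_nhds.2 h1,
    eventually_eventually_nhds.2 h3, eventually_eventually_nhds.2 h] with y a b c d
  refine ⟨a, ⟨b, d.self_of_nhds, c⟩, ?_⟩
  have h4 : G =ᶠ[𝓝 y] fun w => w := d
  rw [h4.fderiv_eq]
  exact fderiv_fun_id

theorem lin_continuous (hS : S.Good) {g : S.X → S.X}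
    (hl : ∀ x ∈ S.U, ∀ z ∈ S.U, S.pr z = g (S.pr x) → ∃ G, S.Lift1 g x z G) :
    Continuous g := by
  refine hS.continuous_of fun x hx => ?_
  obtain ⟨z, hz, hzx⟩ := S.pr_surj (g (S.pr x))
  obtain ⟨G, h1, h2, h3⟩ := hl x hx z hz hzx
  have h4 : ContinuousAt (fun y => S.pr (G y)) x := by
    refine ContinuousAt.comp (f := G) (g := S.pr) ?_ h1.self_of_nhds.continuousAt
    rw [h2]
    exact hS.continuousAt_pr hz
  refine h4.congr ?_
  filter_upwards [h3] with y hy
  exact hy.2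

/-- A5: an involution with the identity 1-jet at a point is the identity. -/
theorem Good.involution_eq_id (hS : S.Good) [CompleteSpace E] [ConnectedSpace S.X] {g : S.X → S.X}
    (hg : ∀ q, g (g q) = q)
    (hl : ∀ x ∈ S.U, ∀ z ∈ S.U, S.pr z = g (S.pr x) → ∃ G, S.Lift1 g x z G)
    {x : E} (hx : x ∈ S.U) {G : E → E} (hG : S.Lift1 g x x G)
    (hd : fderiv ℝ G x = ContinuousLinearMap.id ℝ E) : ∀ q, g q = q := by
  classical
  haveI := hS.t2
  have hcont := lin_continuous hS hl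
  let A : Set S.X := {q | ∃ y ∈ S.U, S.pr y = q ∧ ∃ G, S.Lift1 g y y G ∧
    fderiv ℝ G y = ContinuousLinearMap.id ℝ E}
  have hAfix : ∀ q ∈ A, g q = q := by
    rintro q ⟨y, hy, rfl, K, hK, -⟩
    have := hK.2.2.self_of_nhds.2
    rw [hK.2.1] at this
    exact this.symm
  have hAnear : ∀ q ∈ A, ∀ᶠ p in 𝓝 q, p ∈ A := by
    rintro q ⟨y, hy, rfl, K, hK, hKd⟩
    rw [hS.eventually_pr hy]
    filter_upwards [hS.lin_open hy hK (hS.lin_near hg hy hK hKd)] with w hw
    exact ⟨w, hw.1, rfl, K, hw.2.1, hw.2.2⟩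
  have hAopen : IsOpen A := isOpen_iff_mem_nhds.2 hAnear
  have hAclosed : IsClosed A := by
    refine isClosed_of_closure_subset ?_
    intro q hq
    have hFix : IsClosed {q | g q = q} := isClosed_eq hcont continuous_id
    have hgq : g q = q := (closure_minimal (fun p hp => hAfix p hp) hFix) hq
    obtain ⟨y, hy, rfl⟩ := S.pr_surj q
    obtain ⟨K, hK⟩ := hl y hy y hy hgq.symm
    refine ⟨y, hy, rfl, K, hK, ?_⟩
    obtain ⟨h1, h2, h3⟩ := hK
    have hc : Tendsto K (𝓝 y) (𝓝 y) := by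
      have := h1.self_of_nhds.continuousAt
      rwa [ContinuousAt, h2] at this
    have h5 : Tendsto (fun w => (K w, w)) (𝓝 y) (𝓝 (y, y)) := hc.prodMk_nhds tendsto_id
    have hfreq : ∃ᶠ w in 𝓝 y, S.pr w ∈ A := by
      have h6 : ∃ᶠ p in 𝓝 (S.pr y), p ∈ A := mem_closure_iff_frequently.1 hq
      intro h7
      exact h6 ((hS.eventually_pr hy).2 h7)
    have hev : ∀ᶠ w in 𝓝 y, S.pr w ∈ A → fderiv ℝ K w = ContinuousLinearMap.id ℝ E := by
      filter_upwards [eventually_eventually_nhds.2 h3,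
        eventually_eventually_nhds.2 (h5.eventually (hS.eventually_inj hy)),
        eventually_eventually_nhds.2 (hS.isOpen_U.mem_nhds hy)] with w a b c hw
      have hwU : w ∈ S.U := mem_of_mem_nhds c
      have h8 : ∀ᶠ v in 𝓝 w, S.pr v ∈ A := (hS.eventually_pr hwU).1 (hAnear _ hw)
      have h9 : K =ᶠ[𝓝 w] fun v => v := by
        filter_upwards [a, b, c, h8] with v a' b' c' d'
        refine b'.1 ((hS.pr_eq_iff a'.1 c').1 ?_)
        rw [a'.2, hAfix _ d']
      rw [h9.fderiv_eq]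
      exact fderiv_fun_id
    have hfd : ContinuousAt (fderiv ℝ K) y :=
      (h1.self_of_nhds.fderiv_right (m := ∞) (by simp)).continuousAt
    by_contra hne
    have h10 : ∀ᶠ w in 𝓝 y, fderiv ℝ K w ≠ ContinuousLinearMap.id ℝ E := hfd.eventually_ne hne
    exact hfreq (by
      filter_upwards [hev, h10] with w a b hw
      exact b (a hw))
  have hAne : A.Nonempty := ⟨S.pr x, x, hx, rfl, G, hG, hd⟩
  have hAuniv : A = univ := IsClopen.eq_univ ⟨hAclosed, hAopen⟩ hAne
  intro q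
  exact hAfix q (hAuniv ▸ mem_univ q)

end Etale

end SphTw
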