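import Pool.Agent.Lib.MP_3f8e0b_gt.Graph
import Pool.Agent.Lib.MP_3f8e0b_gt.Closed

/-!
# The example satisfies the properties of an étale relation
-/

open Set Filter Topology
open scoped ContDiff Manifold

namespace SphTw

theorem S0_good : S0.Good where
  isOpen_U := isOpen_U0
  mem := fun h => ⟨h.1, h.2.1⟩
  refl := fun hx => r0_refl hx
  symm := fun h => r0_symm h
  trans := fun h h' => r0_trans h h'
  graph := by
    intro x z h
    rcases r0_cases h with ⟨m, rfl⟩ | ⟨h1, m, rfl⟩ | ⟨h1, m, rfl⟩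
    · exact ⟨_, graph_tr h.1 m⟩
    · exact ⟨_, graph_psi h.1 h1 m⟩
    · exact ⟨_, graph_psiInv h.1 h1 m⟩
  closed := fun hx hz h => r0_closed hx hz h

end SphTw
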