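import Pool.Agent.Lib.MP_3f8e0b_gt.Frac

/-!
# Generic values (C13)
-/

open Set Filter Topology MeasureTheory
open scoped ContDiff Manifold

noncomputable section

namespace SphTw

private theorem sard_null_sq (a : ℝ) {h : (Fin 3 → ℝ) → ℝ} (hh : Measurable h) :
    volume {p : ℝ × (Fin 3 → ℝ) | (p.1 - a) ^ 2 = h p.2} = 0 := by
  have hm : MeasurableSet {p : ℝ × (Fin 3 → ℝ) | (p.1 - a) ^ 2 = h p.2} := by
    apply measurableSet_eq_fun <;> fun_prop
  rw [Measure.volume_eq_prod, Measure.prod_apply_symm hm]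
  have hz : ∀ y : Fin 3 → ℝ,
      volume ((fun x => (x, y)) ⁻¹' {p : ℝ × (Fin 3 → ℝ) | (p.1 - a) ^ 2 = h p.2}) = 0 := by
    intro y
    apply Set.Finite.measure_zero
    apply Set.Finite.subset (Set.toFinite {a + √(h y), a - √(h y)})
    intro x hx
    have hx' : (x - a) ^ 2 = h y := hx
    have h1 : |x - a| = √(h y) := by rw [← hx', Real.sqrt_sq_eq_abs]
    rcases abs_cases (x - a) with ⟨h2, -⟩ | ⟨h2, -⟩
    · left; linarith
    · right; simp only [mem_singleton_iff]; linarith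
  exact (lintegral_congr hz).trans lintegral_zero

private theorem sard_null_quad (a b b' c : ℝ) :
    volume {x : E4 | (x 0 - a) ^ 2 + (x 1 - b) ^ 2 + (x 2 - b') ^ 2 = c} = 0 := by
  have hmp := EuclideanSpace.volume_preserving_symm_measurableEquiv_toLp (Fin 4)
  have hmp2 := volume_preserving_piFinSuccAbove (fun _ : Fin 4 => ℝ) 0
  have hcomp := hmp2.comp hmp
  have hh : Measurable fun r : Fin 3 → ℝ => c - (r 0 - b) ^ 2 - (r 1 - b') ^ 2 := by fun_prop
  have hm : MeasurableSet {p : ℝ × (Fin 3 → ℝ) |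
      (p.1 - a) ^ 2 = c - (p.2 0 - b) ^ 2 - (p.2 1 - b') ^ 2} := by
    apply measurableSet_eq_fun <;> fun_prop
  have h := hcomp.measure_preimage hm.nullMeasurableSet
  rw [sard_null_sq a hh] at h
  rw [← h]
  congr 1
  ext x
  constructor
  · intro hx
    change (x 0 - a) ^ 2 = c - (x 1 - b) ^ 2 - (x 2 - b') ^ 2
    have hx' : (x 0 - a) ^ 2 + (x 1 - b) ^ 2 + (x 2 - b') ^ 2 = c := hx
    linarith
  · intro hx
    have hx' : (x 0 - a) ^ 2 = c - (x 1 - b) ^ 2 - (x 2 - b') ^ 2 := hx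
    change (x 0 - a) ^ 2 + (x 1 - b) ^ 2 + (x 2 - b') ^ 2 = c
    linarith

private theorem sard_null_coord (i : Fin 4) (t : ℝ) : volume {x : E4 | x i = t} = 0 := by
  have hmp := EuclideanSpace.volume_preserving_symm_measurableEquiv_toLp (Fin 4)
  have hm : MeasurableSet {q : Fin 4 → ℝ | q i = t} := by
    apply measurableSet_eq_fun <;> fun_prop
  have h := hmp.measure_preimage hm.nullMeasurableSet
  have h0 : volume {q : Fin 4 → ℝ | q i = t} = 0 := by
    have h1 := Measure.pi_hyperplane (fun _ : Fin 4 => (volume : Measure ℝ)) i t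
    exact h1
  rw [h0] at h
  exact h

private theorem sard_det (F : Fin 4 → E4 → ℝ) {x : E4} (hF : ∀ i, DifferentiableAt ℝ (F i) x) :
    (fderiv ℝ (fun y : E4 => (WithLp.toLp 2 (fun i => F i y) : E4)) x).det = jac F x := by
  have hd : HasFDerivAt (fun y : E4 => (WithLp.toLp 2 (fun i => F i y) : E4))
      (fderiv ℝ (fun y : E4 => (WithLp.toLp 2 (fun i => F i y) : E4)) x) x := by
    apply DifferentiableAt.hasFDerivAt
    rw [differentiableAt_euclidean]
    exact fun i => hF i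
  have hc : ∀ (i : Fin 4) (v : E4),
      (fderiv ℝ (fun y : E4 => (WithLp.toLp 2 (fun i => F i y) : E4)) x v) i
        = fderiv ℝ (F i) x v := by
    intro i v
    have h1 := (hasFDerivWithinAt_euclidean.1 (hasFDerivWithinAt_univ.2 hd)) i
    have h2 := (hasFDerivWithinAt_univ.1 h1).fderiv
    have h3 : (fun y : E4 => (WithLp.toLp 2 (fun i => F i y) : E4) i) = F i := rfl
    rw [h3] at h2
    rw [h2]
    rfl
  rw [ContinuousLinearMap.det, ← LinearMap.det_toMatrix (EuclideanSpace.basisFun (Fin 4) ℝ).toBasis]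
  unfold jac
  congr 1
  ext i j
  rw [LinearMap.toMatrix_apply]
  simp only [OrthonormalBasis.coe_toBasis, EuclideanSpace.basisFun_apply,
    OrthonormalBasis.coe_toBasis_repr_apply, EuclideanSpace.basisFun_repr, Matrix.of_apply]
  exact hc i _

/-- C13: generic values. -/
theorem exists_good_value {F : Fin 4 → E4 → ℝ} (hF : ∀ i, ∀ x ∈ U0, ContDiffAt ℝ ∞ (F i) x) :
    ∃ p : Fin 4 → ℝ, ∀ x ∈ U0, (∀ i, ∃ m : ℤ, F i x = p i + m) →
      jac F x ≠ 0 ∧ (∀ i, ∀ n : ℤ, x i ≠ n) ∧ dp (frac x) ≠ 1/50 ∧ dm (frac x) ≠ 1/50 := by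
  set f : E4 → E4 := fun y => WithLp.toLp 2 (fun i => F i y) with hf
  have hFd : ∀ x ∈ U0, ∀ i, DifferentiableAt ℝ (F i) x := fun x hx i =>
    (hF i x hx).differentiableAt (by simp)
  have hfd : ∀ x ∈ U0, DifferentiableAt ℝ f x := by
    intro x hx
    rw [hf, differentiableAt_euclidean]
    exact fun i => hFd x hx i
  set B1 : Set E4 := {x | x ∈ U0 ∧ jac F x = 0} with hB1
  set B2 : Set E4 := {x | x ∈ U0 ∧ ((∃ (i : Fin 4) (n : ℤ), x i = n) ∨ dp (frac x) = 1/50 ∨
    dm (frac x) = 1/50)} with hB2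
  have h1 : volume (f '' B1) = 0 := by
    apply addHaar_image_eq_zero_of_det_fderivWithin_eq_zero (f' := fderiv ℝ f)
    · intro x hx
      exact (hfd x hx.1).hasFDerivAt.hasFDerivWithinAt
    · intro x hx
      rw [hf, sard_det F (hFd x hx.1)]
      exact hx.2
  have hB2' : volume B2 = 0 := by
    have hsub : B2 ⊆ (⋃ (i : Fin 4) (n : ℤ), {x : E4 | x i = n}) ∪
        ((⋃ m : Fin 4 → ℤ, {x : E4 | (x 0 - (1/4 + m 0)) ^ 2 + (x 1 - (1/2 + m 1)) ^ 2 +
          (x 2 - (1/2 + m 2)) ^ 2 = 1/50}) ∪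
        (⋃ m : Fin 4 → ℤ, {x : E4 | (x 0 - (3/4 + m 0)) ^ 2 + (x 1 - (1/2 + m 1)) ^ 2 +
          (x 2 - (1/2 + m 2)) ^ 2 = 1/50})) := by
      rintro x ⟨-, ⟨i, n, h⟩ | h | h⟩
      · left
        simp only [mem_iUnion]
        exact ⟨i, n, h⟩
      · right; left
        simp only [mem_iUnion]
        refine ⟨fl x, ?_⟩
        change (x 0 - (1/4 + (fl x 0 : ℝ))) ^ 2 + (x 1 - (1/2 + (fl x 1 : ℝ))) ^ 2 +
          (x 2 - (1/2 + (fl x 2 : ℝ))) ^ 2 = 1/50
        rw [← h]
        simp only [dp, frac, P_zero, P_one, P_two, fl, Int.fract, Matrix.cons_val_zero,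
          Matrix.cons_val_one, Matrix.cons_val]
        ring
      · right; right
        simp only [mem_iUnion]
        refine ⟨fl x, ?_⟩
        change (x 0 - (3/4 + (fl x 0 : ℝ))) ^ 2 + (x 1 - (1/2 + (fl x 1 : ℝ))) ^ 2 +
          (x 2 - (1/2 + (fl x 2 : ℝ))) ^ 2 = 1/50
        rw [← h]
        simp only [dm, frac, P_zero, P_one, P_two, fl, Int.fract, Matrix.cons_val_zero,
          Matrix.cons_val_one, Matrix.cons_val]
        ring
    apply measure_mono_null hsub
    apply measure_union_null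
    · exact measure_iUnion_null fun i => measure_iUnion_null fun n => sard_null_coord i n
    · apply measure_union_null
      · exact measure_iUnion_null fun m => sard_null_quad _ _ _ _
      · exact measure_iUnion_null fun m => sard_null_quad _ _ _ _
  have h2 : volume (f '' B2) = 0 := by
    apply addHaar_image_eq_zero_of_differentiableOn_of_addHaar_eq_zero
    · intro x hx
      exact (hfd x hx.1).differentiableWithinAt
    · exact hB2'
  have h3 : ∀ m : Fin 4 → ℤ, volume ((fun p : E4 => p + tr m) ⁻¹' (f '' B1 ∪ f '' B2)) = 0 := by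
    intro m
    rw [measure_preimage_add_right]
    exact measure_union_null h1 h2
  have h4 : volume (⋃ m : Fin 4 → ℤ, (fun p : E4 => p + tr m) ⁻¹' (f '' B1 ∪ f '' B2)) = 0 :=
    measure_iUnion_null h3
  obtain ⟨p, hp⟩ : ∃ p : E4, p ∉ ⋃ m : Fin 4 → ℤ,
      (fun p : E4 => p + tr m) ⁻¹' (f '' B1 ∪ f '' B2) := by
    by_contra hcon
    push Not at hcon
    have huniv : (⋃ m : Fin 4 → ℤ, (fun p : E4 => p + tr m) ⁻¹' (f '' B1 ∪ f '' B2)) = univ :=
      eq_univ_of_forall hcon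
    rw [huniv] at h4
    exact (NeZero.ne (volume : Measure E4)) (Measure.measure_univ_eq_zero.1 h4)
  refine ⟨fun i => p i, fun x hx hm => ?_⟩
  choose m hm using hm
  have hfx : f x = p + tr m := by
    ext i
    exact hm i
  have hnot : f x ∉ f '' B1 ∪ f '' B2 := by
    intro hmem
    apply hp
    simp only [mem_iUnion]
    refine ⟨m, ?_⟩
    change p + tr m ∈ f '' B1 ∪ f '' B2
    rw [← hfx]
    exact hmem
  refine ⟨fun h => hnot (Or.inl ⟨x, ⟨hx, h⟩, rfl⟩), fun i n h => hnot (Or.inr ⟨x, ⟨hx, Or.inl ⟨i, n, h⟩⟩, rfl⟩),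
    fun h => hnot (Or.inr ⟨x, ⟨hx, Or.inr (Or.inl h)⟩, rfl⟩),
    fun h => hnot (Or.inr ⟨x, ⟨hx, Or.inr (Or.inr h)⟩, rfl⟩)⟩

end SphTw
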