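import Pool.Agent.Lib.MP_3f8e0b_gt.Basic
import Pool.Agent.Lib.MP_3f8e0b_gt.Frac
import Pool.Agent.Lib.MP_3f8e0b_gt.ChiFacts
import Pool.Agent.Lib.MP_3f8e0b_gt.Bsl

/-! C8: the integral of `chi * jac F` does not change along a homotopy. -/

open Set Filter Topology MeasureTheory
open scoped ContDiff Manifold

noncomputable section

namespace SphTw

theorem homotopy_jac_cont {F : Fin 4 → E4 → ℝ} (hF : ∀ i, ∀ x ∈ U0, ContDiffAt ℝ ∞ (F i) x) :
    ContinuousOn (jac F) U0 := by
  intro x hx
  refine ContinuousAt.continuousWithinAt ?_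
  unfold jac
  refine Continuous.continuousAt (Continuous.matrix_det continuous_id) |>.comp
    (f := fun x => Matrix.of fun i j : Fin 4 =>
      fderiv ℝ (F i) x (EuclideanSpace.single j 1)) ?_
  refine continuousAt_pi.2 fun i => continuousAt_pi.2 fun j => ?_
  have h1 : ContDiffAt ℝ ∞ (fderiv ℝ (F i)) x :=
    (hF i x hx).fderiv_right (m := ∞) (by norm_num)
  exact h1.continuousAt.clm_apply continuousAt_const

theorem homotopy_cont {F : Fin 4 → E4 → ℝ} (hF : ∀ i, ∀ x ∈ U0, ContDiffAt ℝ ∞ (F i) x) :
    Continuous fun x => chi x * jac F x := by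
  rw [continuous_iff_continuousAt]
  intro x
  by_cases hx : x ∈ U0
  · exact chi_contDiff.continuous.continuousAt.mul
      ((homotopy_jac_cont hF).continuousAt (isOpen_U0.mem_nhds hx))
  · have h1 : x ∉ tsupport chi := fun h => hx (tsupport_chi h)
    have h2 : ∀ᶠ y in 𝓝 x, chi y = 0 := notMem_tsupport_iff_eventuallyEq.1 h1
    have h3 : (fun x => chi x * jac F x) =ᶠ[𝓝 x] fun _ => 0 := by
      filter_upwards [h2] with y hy
      rw [hy, zero_mul]
    exact continuousAt_const.congr h3.symm

theorem homotopy_integrable {f : E4 → ℝ} (hf : Continuous f) : IntegrableOn f cell := by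
  have h1 : IsCompact (Set.pi Set.univ fun _ : Fin 4 => Icc (0 : ℝ) 1) :=
    isCompact_univ_pi fun _ => isCompact_Icc
  have h2 := h1.image (PiLp.continuous_toLp 2 (fun _ : Fin 4 => ℝ))
  refine (hf.continuousOn.integrableOn_compact (μ := volume) h2).mono_set ?_
  intro x hx
  exact ⟨fun i => x i, fun i _ => ⟨(hx i).1, (hx i).2.le⟩, rfl⟩

theorem homotopy_jac_update {F : Fin 4 → E4 → ℝ} {k : Fin 4} {G : E4 → ℝ} {x : E4}
    (hF : DifferentiableAt ℝ (F k) x) (hG : DifferentiableAt ℝ G x) :
    jac F x = jac (Function.update F k G) x +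
      jac (Function.update F k (fun y => F k y - G y)) x := by
  have key : ∀ H : E4 → ℝ, (Matrix.of fun i j : Fin 4 =>
      fderiv ℝ (Function.update F k H i) x (EuclideanSpace.single j 1)) =
      Matrix.updateRow (Matrix.of fun i j : Fin 4 =>
        fderiv ℝ (F i) x (EuclideanSpace.single j 1)) k
        (fun j => fderiv ℝ H x (EuclideanSpace.single j 1)) := by
    intro H
    ext i j
    by_cases h : i = k
    · subst h
      rw [Matrix.updateRow_self]
      simp
    · rw [Matrix.updateRow_ne h]
      simp [Function.update_of_ne h]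
  unfold jac
  rw [key, key, ← Matrix.det_updateRow_add]
  congr 1
  have h2 : fderiv ℝ (fun y => F k y - G y) x = fderiv ℝ (F k) x - fderiv ℝ G x :=
    fderiv_fun_sub hF hG
  ext i j
  by_cases h : i = k
  · subst h
    rw [Matrix.updateRow_self]
    simp [h2]
  · rw [Matrix.updateRow_ne h]

theorem homotopy_step {F : Fin 4 → E4 → ℝ} (hF : ∀ i, S0.CF (F i))
    (hu : ∀ i, S0.RF (fun x => F i x - Q i x)) (k : Fin 4) :
    (∀ i, S0.CF (Function.update F k (Q k) i)) ∧
    (∀ i, S0.RF (fun x => Function.update F k (Q k) i x - Q i x)) ∧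
    ∫ x in cell, chi x * jac F x = ∫ x in cell, chi x * jac (Function.update F k (Q k)) x := by
  have hQ : S0.CF (Q k) := by
    refine ⟨fun x hx => ?_, fun {x z} h => ?_⟩
    · have h1 := ((hF k).smooth x hx).sub ((hu k).smooth x hx)
      refine h1.congr_of_eventuallyEq (Eventually.of_forall fun y => ?_)
      show Q k y = F k y - (F k y - Q k y)
      ring
    · obtain ⟨m, hm⟩ := (hF k).per h
      refine ⟨m, ?_⟩
      have h2 : F k z - Q k z = F k x - Q k x := (hu k).inv h
      linarith
  have hF' : ∀ i, S0.CF (Function.update F k (Q k) i) := by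
    intro i
    by_cases h : i = k
    · subst h; rw [Function.update_self]; exact hQ
    · rw [Function.update_of_ne h]; exact hF i
  refine ⟨hF', ?_, ?_⟩
  · intro i
    by_cases h : i = k
    · subst h
      rw [Function.update_self]
      refine ⟨fun x _ => ?_, fun {x z} _ => ?_⟩
      · simp only [sub_self]
        exact contDiffAt_const
      · simp
    · rw [Function.update_of_ne h]; exact hu i
  · set u : E4 → ℝ := fun x => F k x - Q k x with hudef
    have hu' : S0.RF u := hu k
    have huC : S0.CF u := ⟨hu'.smooth, fun {x z} h => ⟨0, by rw [hu'.inv h]; simp⟩⟩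
    have hFu : ∀ i, S0.CF (Function.update F k u i) := by
      intro i
      by_cases h : i = k
      · subst h; rw [Function.update_self]; exact huC
      · rw [Function.update_of_ne h]; exact hF i
    have h0 : ∫ x in cell, chi x * jac (Function.update F k u) x = 0 :=
      bsl hFu (j := k) (by rw [Function.update_self]; exact hu')
    have hpt : ∀ x, chi x * jac F x = chi x * jac (Function.update F k (Q k)) x +
        chi x * jac (Function.update F k u) x := by
      intro x
      by_cases hx : x ∈ U0
      · rw [homotopy_jac_update (G := Q k)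
          (((hF k).smooth x hx).differentiableAt (by norm_num))
          ((hQ.smooth x hx).differentiableAt (by norm_num)), mul_add]
      · have : chi x = 0 := by
          by_contra h
          exact hx (tsupport_chi (subset_tsupport _ h))
        rw [this]; ring
    simp_rw [hpt]
    rw [integral_add, h0, add_zero]
    · exact homotopy_integrable (homotopy_cont fun i => (hF' i).smooth)
    · exact homotopy_integrable (homotopy_cont fun i => (hFu i).smooth)

/-- C8 (Homotopy.lean) uses C6 -/
theorem integral_homotopy {F : Fin 4 → E4 → ℝ} (hF : ∀ i, S0.CF (F i))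
    (hu : ∀ i, S0.RF (fun x => F i x - Q i x)) :
    ∫ x in cell, chi x * jac F x = ∫ x in cell, chi x * jac Q x := by
  obtain ⟨a0, b0, c0⟩ := homotopy_step hF hu 0
  obtain ⟨a1, b1, c1⟩ := homotopy_step a0 b0 1
  obtain ⟨a2, b2, c2⟩ := homotopy_step a1 b1 2
  obtain ⟨a3, b3, c3⟩ := homotopy_step a2 b2 3
  have hQ : Function.update (Function.update (Function.update (Function.update F 0 (Q 0)) 1 (Q 1))
      2 (Q 2)) 3 (Q 3) = Q := by
    funext i
    fin_cases i <;> rfl
  rw [c0, c1, c2, c3, hQ]

end SphTw
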