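import Pool.Agent.Lib.MP_3f8e0b_gt.Basic
import Pool.Agent.Lib.MP_3f8e0b_gt.Frac
import Pool.Agent.Lib.MP_3f8e0b_gt.AlphaBeta

/-!
# C9: the degree of the standard functions
-/

open Set Filter Topology MeasureTheory
open scoped ContDiff Manifold Quaternion

noncomputable section

namespace SphTw

theorem JacQ_proj (i : Fin 4) (y : E4) :
    (EuclideanSpace.proj (𝕜 := ℝ) i : E4 →L[ℝ] ℝ) y = y i := rfl

theorem JacQ_fderiv (i j : Fin 4) (x : E4) :
    fderiv ℝ (Q i) x (EuclideanSpace.single j 1) =
      if i = j then (if i = 3 then 1 else deriv alpha (x i)) else 0 := by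
  by_cases hi : i = 3
  · have h1 : Q i = fun y : E4 => (EuclideanSpace.proj (𝕜 := ℝ) i : E4 →L[ℝ] ℝ) y := by
      funext y
      rw [JacQ_proj, Q, if_pos hi, hi]
    rw [h1, ContinuousLinearMap.fderiv, JacQ_proj]
    simp only [hi, if_true]
    by_cases hj : j = 3
    · subst hj
      simp
    · have hj' : ¬ (3 : Fin 4) = j := fun h => hj h.symm
      simp [hj', hj]
  · have h1 : Q i = fun y : E4 => alpha ((EuclideanSpace.proj (𝕜 := ℝ) i : E4 →L[ℝ] ℝ) y) := by
      funext y
      rw [JacQ_proj, Q, if_neg hi]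
    have hd : DifferentiableAt ℝ alpha (x i) :=
      (alpha_contDiff.differentiable (by simp)) (x i)
    have h2 : HasFDerivAt (fun y : E4 => alpha ((EuclideanSpace.proj (𝕜 := ℝ) i : E4 →L[ℝ] ℝ) y))
        (deriv alpha (x i) • (EuclideanSpace.proj (𝕜 := ℝ) i : E4 →L[ℝ] ℝ)) x := by
      have h3 : HasDerivAt alpha (deriv alpha (x i))
          ((EuclideanSpace.proj (𝕜 := ℝ) i : E4 →L[ℝ] ℝ) x) := hd.hasDerivAt
      exact h3.comp_hasFDerivAt x (ContinuousLinearMap.hasFDerivAt _)
    rw [h1, h2.fderiv]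
    simp only [smul_apply, JacQ_proj, smul_eq_mul, if_neg hi]
    by_cases hj : i = j
    · subst hj
      simp
    · simp [hj]

theorem JacQ_jac (x : E4) : jac Q x = ∏ i : Fin 4, (if i = 3 then 1 else deriv alpha (x i)) := by
  unfold jac
  have h : (Matrix.of fun i j : Fin 4 => fderiv ℝ (Q i) x (EuclideanSpace.single j 1)) =
      Matrix.diagonal (fun i : Fin 4 => if i = 3 then (1 : ℝ) else deriv alpha (x i)) := by
    ext i j
    rw [Matrix.of_apply, JacQ_fderiv, Matrix.diagonal_apply]
  rw [h, Matrix.det_diagonal]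

theorem JacQ_deriv_zero {t : ℝ} (h1 : 1/20 < t) (h2 : t < 19/20) : deriv alpha t = 0 := by
  have h3 : alpha =ᶠ[𝓝 t] fun _ => (1/2 : ℝ) := by
    filter_upwards [Ioo_mem_nhds h1 h2] with y hy
    exact alpha_const hy.1.le hy.2.le
  rw [h3.deriv_eq, deriv_const]

theorem JacQ_chi {x : E4} (hx : x ∈ cell) : chi x * jac Q x = jac Q x := by
  have hf : frac x = x := frac_eq_self (hx 0) (hx 1) (hx 2)
  by_cases h : 1/20 < x 0 ∧ x 0 < 19/20
  · have h0 : jac Q x = 0 := by
      rw [JacQ_jac]
      refine Finset.prod_eq_zero (Finset.mem_univ 0) ?_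
      rw [if_neg (by decide)]
      exact JacQ_deriv_zero h.1 h.2
    rw [h0, mul_zero]
  · have hx0 := hx 0
    have hcase : x 0 ≤ 1/20 ∨ 19/20 ≤ x 0 := by
      by_contra hno
      push Not at hno
      exact h ⟨hno.1, hno.2⟩
    have hdp : 1/36 ≤ dp x := by
      unfold dp
      have h1 := sq_nonneg (x 1 - 1/2)
      have h2 := sq_nonneg (x 2 - 1/2)
      rcases hcase with hc | hc
      · nlinarith [hx0.1]
      · nlinarith [hx0.2]
    have hdm : 1/36 ≤ dm x := by
      unfold dm
      have h1 := sq_nonneg (x 1 - 1/2)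
      have h2 := sq_nonneg (x 2 - 1/2)
      rcases hcase with hc | hc
      · nlinarith [hx0.1]
      · nlinarith [hx0.2]
    have hchi : chi x = 1 := by
      unfold chi
      rw [hf, beta_eq_zero hdp, beta_eq_zero hdm]
      ring
    rw [hchi, one_mul]

/-- the one-dimensional factors -/
def JacQ_f (i : Fin 4) (t : ℝ) : ℝ :=
  (Ico (0 : ℝ) 1).indicator (fun t => if i = 3 then (1 : ℝ) else deriv alpha t) t

theorem JacQ_f_integral (i : Fin 4) : ∫ t, JacQ_f i t = 1 := by
  unfold JacQ_f
  rw [integral_indicator measurableSet_Ico, ← integral_Icc_eq_integral_Ico,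
    integral_Icc_eq_integral_Ioc, ← intervalIntegral.integral_of_le zero_le_one]
  by_cases hi : i = 3
  · simp [hi]
  · simp only [if_neg hi]
    have hc : Continuous (deriv alpha) := alpha_contDiff.continuous_deriv (by simp)
    rw [intervalIntegral.integral_deriv_eq_sub
      (fun t _ => (alpha_contDiff.differentiable (by simp)) t)
      (hc.intervalIntegrable 0 1)]
    have := alpha_add_one 0
    rw [zero_add] at this
    rw [this]
    ring

/-- C9 (JacQ.lean) uses B9, C1 -/
theorem integral_jac_Q : ∫ x in cell, chi x * jac Q x = 1 := by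
  have hcell : MeasurableSet cell := by
    have : cell = ⋂ i : Fin 4, {x : E4 | x i ∈ Ico (0 : ℝ) 1} := by
      ext x
      simp [cell]
    rw [this]
    refine MeasurableSet.iInter (fun i => ?_)
    have hm : Measurable (fun x : E4 => x i) := by fun_prop
    exact hm measurableSet_Ico
  have h1 : ∫ x in cell, chi x * jac Q x = ∫ x : E4, ∏ i, JacQ_f i (x i) := by
    rw [← integral_indicator hcell]
    refine integral_congr_ae (Filter.Eventually.of_forall (fun x => ?_))
    simp only
    by_cases hx : x ∈ cell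
    · rw [indicator_of_mem hx, JacQ_chi hx, JacQ_jac]
      refine Finset.prod_congr rfl (fun i _ => ?_)
      unfold JacQ_f
      rw [indicator_of_mem (hx i)]
    · rw [indicator_of_notMem hx]
      have : ∃ i, x i ∉ Ico (0 : ℝ) 1 := by
        by_contra hno
        push Not at hno
        exact hx hno
      obtain ⟨i, hi⟩ := this
      refine (Finset.prod_eq_zero (Finset.mem_univ i) ?_).symm
      unfold JacQ_f
      rw [indicator_of_notMem hi]
  have h2 : ∫ x : E4, ∏ i, JacQ_f i (x i) = ∫ x : Fin 4 → ℝ, ∏ i, JacQ_f i (x i) := by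
    have hmp := PiLp.volume_preserving_ofLp (Fin 4)
    rw [← hmp.integral_comp (MeasurableEquiv.toLp 2 (Fin 4 → ℝ)).symm.measurableEmbedding]
  rw [h1, h2, integral_fintype_prod_volume_eq_prod]
  simp [JacQ_f_integral]

end SphTw
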