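import Pool.Agent.Lib.MP_3f8e0b_gt.Basic
import Pool.Agent.Lib.MP_3f8e0b_gt.Frac
import Pool.Agent.Lib.MP_3f8e0b_gt.Psi
import Pool.Agent.Lib.MP_3f8e0b_gt.AlphaBeta
import Pool.Agent.Lib.MP_3f8e0b_gt.ChiFacts
import Pool.Agent.Lib.MP_3f8e0b_gt.ChangeVar

/-! C10: the sharp fundamental domain against the smooth partition weight. -/

open Set Filter Topology MeasureTheory
open scoped ContDiff Manifold

noncomputable section

namespace SphTw

theorem sharp_frac_of_cell {x : E4} (hx : x ∈ cell) : frac x = x :=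
  frac_eq_self (hx 0) (hx 1) (hx 2)

theorem sharp_chi_zero {x : E4} (hx : x ∉ U0) : chi x = 0 := by
  by_contra h
  exact hx (tsupport_chi (subset_tsupport _ h))

theorem sharp_continuous {G : E4 → ℝ} (hG : ContinuousOn G U0) :
    Continuous fun x => chi x * G x := by
  rw [continuous_iff_continuousAt]
  intro x
  by_cases hx : x ∈ U0
  · exact chi_contDiff.continuous.continuousAt.mul (hG.continuousAt (isOpen_U0.mem_nhds hx))
  · have h1 : x ∉ tsupport chi := fun h => hx (tsupport_chi h)
    have h2 : ∀ᶠ y in 𝓝 x, chi y = 0 := by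
      have := notMem_tsupport_iff_eventuallyEq.1 h1
      exact this
    have h3 : (fun x => chi x * G x) =ᶠ[𝓝 x] fun _ => 0 := by
      filter_upwards [h2] with y hy
      rw [hy, zero_mul]
    exact continuousAt_const.congr h3.symm

/-- the closed cell -/
def sharpCell : Set E4 := {x | ∀ i, x i ∈ Icc (0 : ℝ) 1}

theorem sharp_isCompact_ccell : IsCompact sharpCell := by
  have h1 : IsCompact (Set.pi Set.univ fun _ : Fin 4 => Icc (0 : ℝ) 1) :=
    isCompact_univ_pi fun _ => isCompact_Icc
  have h2 : sharpCell = (WithLp.toLp 2) '' (Set.pi Set.univ fun _ : Fin 4 => Icc (0 : ℝ) 1) := by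
    ext x
    constructor
    · intro hx
      exact ⟨fun i => x i, fun i _ => hx i, rfl⟩
    · rintro ⟨y, hy, rfl⟩ i
      exact hy i trivial
  rw [h2]
  exact h1.image (PiLp.continuous_toLp 2 _)

theorem sharp_cell_subset : cell ⊆ sharpCell := fun _ hx i => ⟨(hx i).1, (hx i).2.le⟩

theorem sharp_meas_cell : MeasurableSet cell := by
  have h : cell = ⋂ i : Fin 4, (fun x : E4 => x i) ⁻¹' Ico (0 : ℝ) 1 := by
    ext x
    simp [cell]
  rw [h]
  refine MeasurableSet.iInter fun i => ?_
  have hc : Continuous fun x : E4 => x i := by fun_prop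
  exact hc.measurable measurableSet_Ico

theorem sharp_cont_dp : Continuous dp := by
  unfold dp
  fun_prop

theorem sharp_cont_dm : Continuous dm := by
  unfold dm
  fun_prop

theorem sharp_mem_U0 {x : E4} (hx : x ∈ sharpCell) (h1 : 1/100 < dp x) (h2 : 1/100 < dm x) :
    x ∈ U0 := by
  by_cases h : x 0 < 1 ∧ x 1 < 1 ∧ x 2 < 1
  · have hf : frac x = x := frac_eq_self ⟨(hx 0).1, h.1⟩ ⟨(hx 1).1, h.2.1⟩ ⟨(hx 2).1, h.2.2⟩
    exact ⟨by rw [hf]; exact h1, by rw [hf]; exact h2⟩
  · have h3 : x 0 = 1 ∨ x 1 = 1 ∨ x 2 = 1 := by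
      by_contra hcon
      push Not at hcon
      exact h ⟨lt_of_le_of_ne (hx 0).2 hcon.1, lt_of_le_of_ne (hx 1).2 hcon.2.1,
        lt_of_le_of_ne (hx 2).2 hcon.2.2⟩
    have e0 : frac x 0 = Int.fract (x 0) := rfl
    have e1 : frac x 1 = Int.fract (x 1) := rfl
    have e2 : frac x 2 = Int.fract (x 2) := rfl
    have s0 : 0 ≤ (frac x 0 - 1/4) ^ 2 := sq_nonneg _
    have s0' : 0 ≤ (frac x 0 - 3/4) ^ 2 := sq_nonneg _
    have s1 : 0 ≤ (frac x 1 - 1/2) ^ 2 := sq_nonneg _
    have s2 : 0 ≤ (frac x 2 - 1/2) ^ 2 := sq_nonneg _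
    rcases h3 with h3 | h3 | h3
    · have : frac x 0 = 0 := by rw [e0, h3]; exact Int.fract_one
      constructor
      · show 1/100 < (frac x 0 - 1/4) ^ 2 + (frac x 1 - 1/2) ^ 2 + (frac x 2 - 1/2) ^ 2
        rw [this]; norm_num; linarith
      · show 1/100 < (frac x 0 - 3/4) ^ 2 + (frac x 1 - 1/2) ^ 2 + (frac x 2 - 1/2) ^ 2
        rw [this]; norm_num; linarith
    · have : frac x 1 = 0 := by rw [e1, h3]; exact Int.fract_one
      constructor
      · show 1/100 < (frac x 0 - 1/4) ^ 2 + (frac x 1 - 1/2) ^ 2 + (frac x 2 - 1/2) ^ 2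
        rw [this]; norm_num; linarith
      · show 1/100 < (frac x 0 - 3/4) ^ 2 + (frac x 1 - 1/2) ^ 2 + (frac x 2 - 1/2) ^ 2
        rw [this]; norm_num; linarith
    · have : frac x 2 = 0 := by rw [e2, h3]; exact Int.fract_one
      constructor
      · show 1/100 < (frac x 0 - 1/4) ^ 2 + (frac x 1 - 1/2) ^ 2 + (frac x 2 - 1/2) ^ 2
        rw [this]; norm_num; linarith
      · show 1/100 < (frac x 0 - 3/4) ^ 2 + (frac x 1 - 1/2) ^ 2 + (frac x 2 - 1/2) ^ 2
        rw [this]; norm_num; linarith

theorem sharp_meas_FD : MeasurableSet FD := by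
  have h : FD = cell ∩ ({x | 1/50 ≤ dp x} ∩ {x | 1/50 < dm x}) := rfl
  rw [h]
  refine sharp_meas_cell.inter (MeasurableSet.inter ?_ ?_)
  · exact measurableSet_le measurable_const sharp_cont_dp.measurable
  · exact measurableSet_lt measurable_const sharp_cont_dm.measurable

theorem sharp_integrableOn_FD {G : E4 → ℝ} (hG : ContinuousOn G U0) : IntegrableOn G FD := by
  have hK : IsCompact (sharpCell ∩ ({x | 1/50 ≤ dp x} ∩ {x | 1/50 ≤ dm x})) := by
    refine sharp_isCompact_ccell.inter_right (IsClosed.inter ?_ ?_)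
    · exact isClosed_le continuous_const sharp_cont_dp
    · exact isClosed_le continuous_const sharp_cont_dm
  have hKU : (sharpCell ∩ ({x | 1/50 ≤ dp x} ∩ {x | 1/50 ≤ dm x})) ⊆ U0 := by
    rintro x ⟨h1, h2, h3⟩
    have h2' : 1/50 ≤ dp x := h2
    have h3' : 1/50 ≤ dm x := h3
    exact sharp_mem_U0 h1 (by linarith) (by linarith)
  have h1 := (hG.mono hKU).integrableOn_compact (μ := volume) hK
  refine h1.mono_set ?_
  rintro x ⟨h1, h2, h3⟩
  exact ⟨sharp_cell_subset h1, h2, le_of_lt h3⟩

theorem sharp_integrableOn_cell {G : E4 → ℝ} (hG : ContinuousOn G U0) :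
    IntegrableOn (fun x => chi x * G x) cell :=
  ((sharp_continuous hG).continuousOn.integrableOn_compact (μ := volume) sharp_isCompact_ccell).mono_set
    sharp_cell_subset

/-- the point `psi x` lies in the cell -/
theorem sharp_psi_cell {x : E4} (hx : x ∈ cell) (h1 : 1/100 < dp x) : psi x ∈ cell := by
  have hf := frac_psi h1
  intro i
  fin_cases i
  · have : psi x 0 = Int.fract (psi x 0) := by
      conv_lhs => rw [← hf]
      rfl
    show psi x 0 ∈ Ico (0 : ℝ) 1
    rw [this]
    exact ⟨Int.fract_nonneg _, Int.fract_lt_one _⟩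
  · have : psi x 1 = Int.fract (psi x 1) := by
      conv_lhs => rw [← hf]
      rfl
    show psi x 1 ∈ Ico (0 : ℝ) 1
    rw [this]
    exact ⟨Int.fract_nonneg _, Int.fract_lt_one _⟩
  · have : psi x 2 = Int.fract (psi x 2) := by
      conv_lhs => rw [← hf]
      rfl
    show psi x 2 ∈ Ico (0 : ℝ) 1
    rw [this]
    exact ⟨Int.fract_nonneg _, Int.fract_lt_one _⟩
  · exact hx 3

/-- C10 (Sharp.lean) uses C1, C5 -/
theorem integral_sharp {G : E4 → ℝ} (hG : ContinuousOn G U0)
    (hpsi : ∀ x ∈ cell, 1/100 < dp x → dp x < 1/25 → (fderiv ℝ psi x).det * G (psi x) = G x) :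
    ∫ x in FD, G x = ∫ x in cell, chi x * G x := by
  set f : E4 → ℝ := fun x => chi x * G x - FD.indicator G x with hf
  have hint1 := sharp_integrableOn_cell hG
  have hint2 : IntegrableOn (FD.indicator G) cell := by
    have := (sharp_integrableOn_FD hG).integrable_indicator sharp_meas_FD
    exact this.integrableOn
  have hfi : IntegrableOn f cell := hint1.sub hint2
  have hFDcell : FD ⊆ cell := fun x hx => hx.1
  have e1 : ∫ x in cell, FD.indicator G x = ∫ x in FD, G x := by
    rw [setIntegral_indicator sharp_meas_FD, inter_eq_self_of_subset_right hFDcell]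
  have e2 : ∫ x in cell, f x = (∫ x in cell, chi x * G x) - ∫ x in FD, G x := by
    rw [← e1]
    exact integral_sub hint1 hint2
  suffices h : ∫ x in cell, f x = 0 by linarith
  set Ap : Set E4 := {x | x ∈ cell ∧ 1/100 < dp x ∧ dp x < 1/25} with hAp
  set Am : Set E4 := {x | x ∈ cell ∧ 1/100 < dm x ∧ dm x < 1/25} with hAm
  have hApm : MeasurableSet Ap := by
    refine sharp_meas_cell.inter (MeasurableSet.inter ?_ ?_)
    · exact measurableSet_lt measurable_const sharp_cont_dp.measurable
    · exact measurableSet_lt sharp_cont_dp.measurable measurable_const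
  have hAmm : MeasurableSet Am := by
    refine sharp_meas_cell.inter (MeasurableSet.inter ?_ ?_)
    · exact measurableSet_lt measurable_const sharp_cont_dm.measurable
    · exact measurableSet_lt sharp_cont_dm.measurable measurable_const
  have hdisj : Disjoint Ap Am := by
    rw [Set.disjoint_left]
    rintro x ⟨-, -, h1⟩ ⟨-, -, h2⟩
    exact not_dp_dm (x := x) (by linarith) (by linarith)
  -- `f` vanishes off the two shells
  have hoff : ∀ x ∈ cell, x ∉ Ap ∪ Am → f x = 0 := by
    intro x hx hxn
    have hfr := sharp_frac_of_cell hx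
    have hn1 : ¬ (1/100 < dp x ∧ dp x < 1/25) := fun h => hxn (Or.inl ⟨hx, h⟩)
    have hn2 : ¬ (1/100 < dm x ∧ dm x < 1/25) := fun h => hxn (Or.inr ⟨hx, h⟩)
    by_cases h1 : 1/100 < dp x
    · by_cases h2 : 1/100 < dm x
      · have h3 : 1/25 ≤ dp x := by
          by_contra h; exact hn1 ⟨h1, not_le.1 h⟩
        have h4 : 1/25 ≤ dm x := by
          by_contra h; exact hn2 ⟨h2, not_le.1 h⟩
        have hFD : x ∈ FD := ⟨hx, by linarith, by linarith⟩
        have hchi : chi x = 1 := by
          unfold chi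
          rw [hfr, beta_eq_zero (by linarith), beta_eq_zero (by linarith)]
          ring
        simp only [hf]
        rw [hchi, indicator_of_mem hFD, one_mul, sub_self]
      · have hFD : x ∉ FD := fun h => by
          have : 1/50 < dm x := h.2.2
          linarith
        have hU : x ∉ U0 := fun h => h2 (by have := h.2; rwa [hfr] at this)
        simp only [hf]
        rw [sharp_chi_zero hU, indicator_of_notMem hFD, zero_mul, sub_zero]
    · have hFD : x ∉ FD := fun h => by
        have : 1/50 ≤ dp x := h.2.1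
        linarith
      have hU : x ∉ U0 := fun h => h1 (by have := h.1; rwa [hfr] at this)
      simp only [hf]
      rw [sharp_chi_zero hU, indicator_of_notMem hFD, zero_mul, sub_zero]
  have hsub : Ap ∪ Am ⊆ cell := by
    rintro x (h | h)
    · exact h.1
    · exact h.1
  have e3 : ∫ x in cell, f x = ∫ x in Ap ∪ Am, f x := by
    refine setIntegral_eq_of_subset_of_forall_sdiff_eq_zero sharp_meas_cell hsub ?_
    intro x hx
    exact hoff x hx.1 hx.2
  have e4 : ∫ x in Ap ∪ Am, f x = (∫ x in Ap, f x) + ∫ x in Am, f x :=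
    setIntegral_union hdisj hAmm (hfi.mono_set (subset_union_left.trans hsub))
      (hfi.mono_set (subset_union_right.trans hsub))
  have e5 : ∫ x in Am, f x = ∫ x in Ap, (fderiv ℝ psi x).det * f (psi x) := integral_psi f
  have e6 : ∫ x in Ap, (fderiv ℝ psi x).det * f (psi x) = ∫ x in Ap, - f x := by
    refine setIntegral_congr_fun hApm ?_
    rintro x ⟨hx, h1, h2⟩
    have hfr := sharp_frac_of_cell hx
    have hchi := chi_psi h1 h2 hfr
    have hpc := sharp_psi_cell hx h1
    have hdm := dm_psi (x := x) (by linarith)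
    have hdp0 : 0 < dp x := by linarith
    have hdmx : 1/16 ≤ dm x := by
      by_contra h
      exact not_dp_dm (x := x) (by linarith) (not_le.1 h)
    have hdm25 : dm (psi x) < 1/16 := by
      rw [hdm, div_lt_div_iff₀ (by positivity) (by norm_num)]
      linarith
    have hdpp : 1/16 ≤ dp (psi x) := by
      by_contra h
      exact not_dp_dm (x := psi x) (not_le.1 h) hdm25
    have hG' := hpsi x hx h1 h2
    show (fderiv ℝ psi x).det * (chi (psi x) * G (psi x) - FD.indicator G (psi x)) =
      -(chi x * G x - FD.indicator G x)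
    by_cases h3 : 1/50 ≤ dp x
    · have hFD : x ∈ FD := ⟨hx, h3, by linarith⟩
      have hFD' : psi x ∉ FD := by
        intro h
        have h4 : 1/50 < dm (psi x) := h.2.2
        rw [hdm, div_lt_div_iff₀ (by norm_num) (by positivity)] at h4
        linarith
      rw [indicator_of_mem hFD, indicator_of_notMem hFD', hchi]
      linear_combination (1 - chi x) * hG'
    · have hFD : x ∉ FD := fun h => h3 h.2.1
      have hFD' : psi x ∈ FD := by
        refine ⟨hpc, by linarith, ?_⟩
        rw [hdm, div_lt_div_iff₀ (by norm_num) (by positivity)]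
        push Not at h3
        linarith
      rw [indicator_of_notMem hFD, indicator_of_mem hFD', hchi]
      linear_combination (- chi x) * hG'
  rw [e3, e4, e5, e6, integral_neg]
  ring

end SphTw
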