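import Pool.Agent.Lib.MP_3f8e0b_gt.Basic
import Pool.Agent.Lib.MP_3f8e0b_gt.Frac
import Pool.Agent.Lib.MP_3f8e0b_gt.Psi
import Pool.Agent.Lib.MP_3f8e0b_gt.Rel
import Pool.Agent.Lib.MP_3f8e0b_gt.ChiFacts
import Pool.Agent.Lib.MP_3f8e0b_gt.ChangeVar
import Pool.Agent.Lib.MP_3f8e0b_gt.Bsl
import Pool.Agent.Lib.MP_3f8e0b_gt.BumpInt
import Pool.Agent.Lib.MP_3f8e0b_gt.Homotopy
import Pool.Agent.Lib.MP_3f8e0b_gt.JacQ
import Pool.Agent.Lib.MP_3f8e0b_gt.Sharp
import Pool.Agent.Lib.MP_3f8e0b_gt.LocalDeg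
import Pool.Agent.Lib.MP_3f8e0b_gt.Bump1

open Set Filter Topology MeasureTheory
open scoped ContDiff Manifold

noncomputable section

namespace SphTw

/-! ### The vector valued map -/

/-- The map with components `F i`. -/
def ssv (F : Fin 4 → E4 → ℝ) (y : E4) : E4 := WithLp.toLp 2 (fun i => F i y)

theorem ssv_apply (F : Fin 4 → E4 → ℝ) (y : E4) (i : Fin 4) : ssv F y i = F i y := rfl

theorem ssv_contDiffAt {F : Fin 4 → E4 → ℝ} {x : E4} (hF : ∀ i, ContDiffAt ℝ ∞ (F i) x) :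
    ContDiffAt ℝ ∞ (ssv F) x := by
  rw [contDiffAt_euclidean]
  exact hF

theorem ssv_det (F : Fin 4 → E4 → ℝ) {x : E4} (hF : ∀ i, DifferentiableAt ℝ (F i) x) :
    (fderiv ℝ (ssv F) x).det = jac F x := by
  have hd : HasFDerivAt (ssv F) (fderiv ℝ (ssv F) x) x := by
    apply DifferentiableAt.hasFDerivAt
    rw [differentiableAt_euclidean]
    exact fun i => hF i
  have hc : ∀ (i : Fin 4) (v : E4), (fderiv ℝ (ssv F) x v) i = fderiv ℝ (F i) x v := by
    intro i v
    have h1 := (hasFDerivWithinAt_euclidean.1 (hasFDerivWithinAt_univ.2 hd)) i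
    have h2 := (hasFDerivWithinAt_univ.1 h1).fderiv
    have h3 : (fun y : E4 => (ssv F y) i) = F i := rfl
    rw [h3] at h2
    rw [h2]
    rfl
  rw [ContinuousLinearMap.det, ← LinearMap.det_toMatrix (EuclideanSpace.basisFun (Fin 4) ℝ).toBasis]
  unfold jac
  congr 1
  ext i j
  rw [LinearMap.toMatrix_apply]
  simp only [OrthonormalBasis.coe_toBasis, EuclideanSpace.basisFun_apply,
    OrthonormalBasis.coe_toBasis_repr_apply, EuclideanSpace.basisFun_repr, Matrix.of_apply]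
  exact hc i _

/-! ### The pieces of a periodic bump -/

/-- The piece of `b` near `q`. -/
def ssp (b : ℝ → ℝ) (q t : ℝ) : ℝ := if |t - q| ≤ 1 / 2 then b t else 0

theorem ssp_continuous {b : ℝ → ℝ} {p ε : ℝ} (hb : Continuous b) (hε : ε < 1 / 4)
    (hs : ∀ t, b t ≠ 0 → ∃ n : ℤ, |t - (p + n)| < ε) (m : ℤ) : Continuous (ssp b (p + m)) := by
  unfold ssp
  apply Continuous.if_le hb continuous_const (by fun_prop) continuous_const
  intro t ht
  by_contra hc
  obtain ⟨n, hn⟩ := hs t hc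
  have h1 : |((n - m : ℤ) : ℝ)| < 1 := by
    have e : ((n - m : ℤ) : ℝ) = (t - (p + m)) - (t - (p + n)) := by push_cast; ring
    rw [e]
    calc |(t - (p + m)) - (t - (p + n))| ≤ |t - (p + m)| + |t - (p + n)| := abs_sub _ _
      _ < 1 := by linarith
  have h2 : n - m = 0 := Int.abs_lt_one_iff.mp (by exact_mod_cast h1)
  have h3 : n = m := by omega
  rw [h3] at hn
  linarith

theorem ssp_ne {b : ℝ → ℝ} {p ε : ℝ} (hε : ε < 1 / 4)
    (hs : ∀ t, b t ≠ 0 → ∃ n : ℤ, |t - (p + n)| < ε) (m : ℤ) {t : ℝ}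
    (ht : ssp b (p + m) t ≠ 0) : |t - (p + m)| < ε ∧ b t ≠ 0 := by
  unfold ssp at ht
  split_ifs at ht with h
  · refine ⟨?_, ht⟩
    obtain ⟨n, hn⟩ := hs t ht
    have h1 : |((n - m : ℤ) : ℝ)| < 1 := by
      have e : ((n - m : ℤ) : ℝ) = (t - (p + m)) - (t - (p + n)) := by push_cast; ring
      rw [e]
      calc |(t - (p + m)) - (t - (p + n))| ≤ |t - (p + m)| + |t - (p + n)| := abs_sub _ _
        _ < 1 := by linarith
    have h2 : n - m = 0 := Int.abs_lt_one_iff.mp (by exact_mod_cast h1)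
    have h3 : n = m := by omega
    rw [h3] at hn
    exact hn
  · exact absurd rfl ht

theorem ssp_integral {b : ℝ → ℝ} (hper : ∀ t, b (t + 1) = b t)
    (hint : ∫ t in (0 : ℝ)..1, b t = 1) (q : ℝ) : ∫ t, ssp b q t = 1 := by
  have e : ssp b q = (Icc (q - 1 / 2) (q + 1 / 2)).indicator b := by
    ext t
    unfold ssp
    by_cases h : |t - q| ≤ 1 / 2
    · rw [if_pos h, indicator_of_mem]
      rw [abs_le] at h
      exact ⟨by linarith, by linarith⟩
    · rw [if_neg h, indicator_of_notMem]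
      intro hm
      apply h
      rw [abs_le]
      exact ⟨by linarith [hm.1], by linarith [hm.2]⟩
  have hP : Function.Periodic b 1 := hper
  rw [e, integral_indicator measurableSet_Icc, integral_Icc_eq_integral_Ioc,
    ← intervalIntegral.integral_of_le (by linarith)]
  have e2 : q + 1 / 2 = (q - 1 / 2) + 1 := by ring
  rw [e2, hP.intervalIntegral_add_eq (q - 1 / 2) 0, zero_add, hint]

/-- The sum of the pieces. -/
theorem ssp_sum {b : ℝ → ℝ} {p ε : ℝ} (hε : ε < 1 / 4)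
    (hs : ∀ t, b t ≠ 0 → ∃ n : ℤ, |t - (p + n)| < ε) {N : ℤ} {t : ℝ}
    (ht : |t| + |p| + 1 ≤ N) : ∑ k ∈ Finset.Icc (-N) N, ssp b (p + k) t = b t := by
  by_cases hb : b t = 0
  · rw [hb]
    apply Finset.sum_eq_zero
    intro k _
    unfold ssp
    split_ifs
    · exact hb
    · rfl
  · obtain ⟨n, hn⟩ := hs t hb
    have h1 : |(n : ℝ)| ≤ N := by
      have e : (n : ℝ) = -(t - (p + n)) + t - p := by ring
      rw [e]
      calc |-(t - (p + n)) + t - p| ≤ |-(t - (p + n)) + t| + |p| := abs_sub _ _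
        _ ≤ |-(t - (p + n))| + |t| + |p| := by gcongr; exact abs_add_le _ _
        _ ≤ N := by rw [abs_neg]; linarith
    have h2 : n ∈ Finset.Icc (-N) N := by
      rw [Finset.mem_Icc]
      rw [abs_le] at h1
      exact ⟨by exact_mod_cast h1.1, by exact_mod_cast h1.2⟩
    rw [Finset.sum_eq_single_of_mem n h2]
    · unfold ssp
      rw [if_pos (by linarith)]
    · intro k _ hk
      by_contra hc
      obtain ⟨h3, _⟩ := ssp_ne hε hs k hc
      have h4 : |((n - k : ℤ) : ℝ)| < 1 := by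
        have e : ((n - k : ℤ) : ℝ) = (t - (p + k)) - (t - (p + n)) := by push_cast; ring
        rw [e]
        calc |(t - (p + k)) - (t - (p + n))| ≤ |t - (p + k)| + |t - (p + n)| := abs_sub _ _
          _ < 1 := by linarith
      have h5 : n - k = 0 := Int.abs_lt_one_iff.mp (by exact_mod_cast h4)
      exact hk (by omega)

/-- Fubini for a product function. -/
theorem ss_fubini (s : Fin 4 → ℝ → ℝ) : ∫ w : E4, ∏ i, s i (w i) = ∏ i, ∫ t, s i t := by
  rw [← integral_fintype_prod_volume_eq_prod (fun i => s i)]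
  have h := (PiLp.volume_preserving_ofLp (Fin 4))
  rw [← h.integral_comp (MeasurableEquiv.toLp 2 (Fin 4 → ℝ)).symm.measurableEmbedding]

/-! ### The compact fundamental domain -/

/-- The closed fundamental domain. -/
def ssC : Set E4 := {x | (∀ i, x i ∈ Icc (0 : ℝ) 1) ∧ 1/50 ≤ dp x ∧ 1/50 ≤ dm x}

theorem ssC_isClosed : IsClosed ssC := by
  have e : ssC = (⋂ i : Fin 4, {x : E4 | x i ∈ Icc (0 : ℝ) 1}) ∩
      ({x | 1/50 ≤ dp x} ∩ {x | 1/50 ≤ dm x}) := by
    ext x
    simp only [ssC, mem_inter_iff, mem_iInter, mem_ofPred_eq]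
  rw [e]
  refine IsClosed.inter (isClosed_iInter (fun i => ?_)) (IsClosed.inter ?_ ?_)
  · have hc : Continuous (fun x : E4 => x i) := by fun_prop
    exact isClosed_Icc.preimage hc
  · exact isClosed_le continuous_const bsl_dp_cont
  · exact isClosed_le continuous_const bsl_dm_cont

theorem ssC_isCompact : IsCompact ssC := by
  apply (isCompact_closedBall (0 : E4) 2).of_isClosed_subset ssC_isClosed
  intro x hx
  rw [mem_closedBall_zero_iff, EuclideanSpace.norm_eq]
  apply Real.sqrt_le_iff.mpr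
  refine ⟨by norm_num, ?_⟩
  calc ∑ i, ‖x i‖ ^ 2 ≤ ∑ i : Fin 4, (1 : ℝ) := by
        refine Finset.sum_le_sum (fun i _ => ?_)
        have := hx.1 i
        rw [Real.norm_of_nonneg this.1]
        nlinarith [this.1, this.2]
    _ = 2 ^ 2 := by norm_num

theorem ss_frac_far {x : E4} (h : Int.fract (x 0) = 0 ∨ Int.fract (x 1) = 0 ∨
    Int.fract (x 2) = 0) : 1/16 ≤ dp (frac x) ∧ 1/16 ≤ dm (frac x) := by
  unfold dp dm frac
  simp only [P_zero, P_one, P_two]
  rcases h with h | h | h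
  · rw [h]
    constructor <;>
      nlinarith [sq_nonneg (Int.fract (x 1) - 1/2), sq_nonneg (Int.fract (x 2) - 1/2)]
  · rw [h]
    constructor
    · nlinarith [sq_nonneg (Int.fract (x 0) - 1/4), sq_nonneg (Int.fract (x 2) - 1/2)]
    · nlinarith [sq_nonneg (Int.fract (x 0) - 3/4), sq_nonneg (Int.fract (x 2) - 1/2)]
  · rw [h]
    constructor
    · nlinarith [sq_nonneg (Int.fract (x 0) - 1/4), sq_nonneg (Int.fract (x 1) - 1/2)]
    · nlinarith [sq_nonneg (Int.fract (x 0) - 3/4), sq_nonneg (Int.fract (x 1) - 1/2)]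

theorem ssC_subset : ssC ⊆ U0 := by
  rintro x ⟨hx, h1, h2⟩
  by_cases h : x 0 = 1 ∨ x 1 = 1 ∨ x 2 = 1
  · have h3 : Int.fract (x 0) = 0 ∨ Int.fract (x 1) = 0 ∨ Int.fract (x 2) = 0 := by
      rcases h with h | h | h
      · left; rw [h]; exact Int.fract_one
      · right; left; rw [h]; exact Int.fract_one
      · right; right; rw [h]; exact Int.fract_one
    have h4 := ss_frac_far h3
    exact ⟨by linarith [h4.1], by linarith [h4.2]⟩
  · push Not at h
    have hf : frac x = x := frac_eq_self ⟨(hx 0).1, lt_of_le_of_ne (hx 0).2 h.1⟩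
      ⟨(hx 1).1, lt_of_le_of_ne (hx 1).2 h.2.1⟩ ⟨(hx 2).1, lt_of_le_of_ne (hx 2).2 h.2.2⟩
    unfold U0
    refine ⟨?_, ?_⟩ <;> rw [hf] <;> linarith

theorem ssFD_subset : FD ⊆ ssC := by
  rintro x ⟨hx, h1, h2⟩
  exact ⟨fun i => ⟨(hx i).1, (hx i).2.le⟩, h1, h2.le⟩

theorem ssFD_measurable : MeasurableSet FD := by
  have : FD = cell ∩ ({x | 1/50 ≤ dp x} ∩ {x | 1/50 < dm x}) := rfl
  rw [this]
  exact bsl_measurable_cell.inter ((isClosed_le continuous_const bsl_dp_cont).measurableSet.inter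
    (isOpen_lt continuous_const bsl_dm_cont).measurableSet)

/-- The bad part of the boundary. -/
def ssK : Set E4 := {x | x ∈ ssC ∧ ((∃ i, x i = 1) ∨ dm x = 1/50)}

theorem ssK_isCompact : IsCompact ssK := by
  apply ssC_isCompact.of_isClosed_subset _ (fun x hx => hx.1)
  have e : ssK = ssC ∩ ((⋃ i : Fin 4, {x : E4 | x i = 1}) ∪ {x | dm x = 1/50}) := by
    ext x
    simp only [ssK, mem_inter_iff, mem_union, mem_iUnion, mem_ofPred_eq]
  rw [e]
  refine ssC_isClosed.inter (IsClosed.union (isClosed_iUnion_of_finite (fun i => ?_)) ?_)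
  · exact isClosed_eq (by fun_prop) continuous_const
  · exact isClosed_eq bsl_dm_cont continuous_const

theorem ss_diff {x : E4} (hx : x ∈ ssC) (h : x ∉ FD) : x ∈ ssK := by
  refine ⟨hx, ?_⟩
  by_contra hc
  push Not at hc
  apply h
  refine ⟨fun i => ⟨(hx.1 i).1, lt_of_le_of_ne (hx.1 i).2 (hc.1 i)⟩, hx.2.1, ?_⟩
  exact lt_of_le_of_ne hx.2.2 (Ne.symm hc.2)

/-- Points over the good value are interior. -/
theorem ss_good {F : Fin 4 → E4 → ℝ} {p : Fin 4 → ℝ}
    (hp : ∀ x ∈ U0, (∀ i, ∃ m : ℤ, F i x = p i + m) →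
      jac F x ≠ 0 ∧ (∀ i, ∀ n : ℤ, x i ≠ n) ∧ dp (frac x) ≠ 1/50 ∧ dm (frac x) ≠ 1/50)
    {x : E4} (hx : x ∈ ssC) (hm : ∀ i, ∃ m : ℤ, F i x = p i + m) :
    x ∈ interior ssC ∧ jac F x ≠ 0 ∧ x ∉ ssK ∧ x ∈ FD := by
  obtain ⟨h1, h2, h3, h4⟩ := hp x (ssC_subset hx) hm
  have hI : ∀ i, 0 < x i ∧ x i < 1 := by
    intro i
    have e0 := h2 i 0
    have e1 := h2 i 1
    push_cast at e0 e1
    exact ⟨lt_of_le_of_ne (hx.1 i).1 (Ne.symm e0), lt_of_le_of_ne (hx.1 i).2 e1⟩
  have hf : frac x = x := frac_eq_self ⟨(hI 0).1.le, (hI 0).2⟩ ⟨(hI 1).1.le, (hI 1).2⟩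
    ⟨(hI 2).1.le, (hI 2).2⟩
  rw [hf] at h3 h4
  have h5 : 1/50 < dp x := lt_of_le_of_ne hx.2.1 (Ne.symm h3)
  have h6 : 1/50 < dm x := lt_of_le_of_ne hx.2.2 (Ne.symm h4)
  refine ⟨?_, h1, ?_, ⟨fun i => ⟨(hI i).1.le, (hI i).2⟩, h5.le, h6⟩⟩
  · rw [mem_interior]
    refine ⟨(⋂ i : Fin 4, {x : E4 | x i ∈ Ioo (0 : ℝ) 1}) ∩
      ({x | 1/50 < dp x} ∩ {x | 1/50 < dm x}), ?_, ?_, ?_⟩
    · rintro y ⟨hy1, hy2, hy3⟩
      rw [mem_iInter] at hy1
      exact ⟨fun i => ⟨(hy1 i).1.le, (hy1 i).2.le⟩, le_of_lt hy2, le_of_lt hy3⟩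
    · refine IsOpen.inter (isOpen_iInter_of_finite (fun i => ?_)) (IsOpen.inter ?_ ?_)
      · have hc : Continuous (fun x : E4 => x i) := by fun_prop
        exact isOpen_Ioo.preimage hc
      · exact isOpen_lt continuous_const bsl_dp_cont
      · exact isOpen_lt continuous_const bsl_dm_cont
    · exact ⟨mem_iInter.mpr (fun i => ⟨(hI i).1, (hI i).2⟩), h5, h6⟩
  · rintro ⟨_, hk | hk⟩
    · obtain ⟨i, hi⟩ := hk
      exact absurd hi (hI i).2.ne
    · exact h4 hk

/-- The distance between vectors with close coordinates. -/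
theorem ss_dist {w v : E4} {ε : ℝ} (h0 : 0 < ε) (h : ∀ i, |w i - v i| < ε) :
    dist w v < 3 * ε := by
  rw [EuclideanSpace.dist_eq]
  have h1 : ∑ i, dist (w i) (v i) ^ 2 ≤ 4 * ε ^ 2 := by
    calc ∑ i, dist (w i) (v i) ^ 2 ≤ ∑ i : Fin 4, ε ^ 2 := by
          refine Finset.sum_le_sum (fun i _ => ?_)
          rw [Real.dist_eq]
          exact pow_le_pow_left₀ (abs_nonneg _) (h i).le 2
      _ = 4 * ε ^ 2 := by simp
  calc Real.sqrt (∑ i, dist (w i) (v i) ^ 2) ≤ Real.sqrt (4 * ε ^ 2) := Real.sqrt_le_sqrt h1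
    _ = 2 * ε := by
        rw [show 4 * ε ^ 2 = (2 * ε) ^ 2 by ring]
        exact Real.sqrt_sq (by linarith)
    _ < 3 * ε := by linarith

theorem ss_bounded {F : Fin 4 → E4 → ℝ} (hF : ∀ i, ∀ x ∈ U0, ContDiffAt ℝ ∞ (F i) x)
    (p : Fin 4 → ℝ) : ∃ N : ℤ, ∀ i, ∀ x ∈ ssC, |F i x| + |p i| + 1 ≤ N := by
  have h1 : ∀ i, ∃ R : ℝ, ∀ x ∈ ssC, |F i x| ≤ R := by
    intro i
    have hc : ContinuousOn (F i) ssC := fun x hx =>
      (hF i x (ssC_subset hx)).continuousAt.continuousWithinAt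
    obtain ⟨R, hR⟩ := ssC_isCompact.exists_bound_of_continuousOn hc
    exact ⟨R, fun x hx => hR x hx⟩
  choose R hR using h1
  obtain ⟨N, hN⟩ := exists_int_gt (∑ i, (|R i| + |p i|) + 1)
  refine ⟨N, fun i x hx => ?_⟩
  have h2 : |R i| + |p i| ≤ ∑ i, (|R i| + |p i|) :=
    Finset.single_le_sum (f := fun i => |R i| + |p i|) (fun j _ => by positivity)
      (Finset.mem_univ i)
  have h3 := hR i x hx
  have h4 := le_abs_self (R i)
  linarith

theorem ss_mem_box {N : ℤ} {p : ℝ} {t : ℝ} (h : |t| + |p| + 1 ≤ N) {m : ℤ} (hm : t = p + m) :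
    m ∈ Finset.Icc (-N) N := by
  have e : (m : ℝ) = t - p := by rw [hm]; ring
  have h1 : |(m : ℝ)| ≤ N := by
    rw [e]
    calc |t - p| ≤ |t| + |p| := abs_sub _ _
      _ ≤ N := by linarith
  rw [Finset.mem_Icc]
  rw [abs_le] at h1
  exact ⟨by exact_mod_cast h1.1, by exact_mod_cast h1.2⟩

/-- C14: the sum of the signs over the fibre in the fundamental domain is one. -/
theorem sum_sign {F : Fin 4 → E4 → ℝ} (hF : ∀ i, S0.CF (F i))
    (hu : ∀ i, S0.RF (fun x => F i x - Q i x)) {p : Fin 4 → ℝ}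
    (hp : ∀ x ∈ U0, (∀ i, ∃ m : ℤ, F i x = p i + m) →
      jac F x ≠ 0 ∧ (∀ i, ∀ n : ℤ, x i ≠ n) ∧ dp (frac x) ≠ 1/50 ∧ dm (frac x) ≠ 1/50) :
    ∃ A : Finset E4, (∀ x, x ∈ A ↔ x ∈ FD ∧ ∀ i, ∃ m : ℤ, F i x = p i + m) ∧
      ∑ x ∈ A, (SignType.sign (jac F x) : ℤ) = 1 := by
  classical
  have hsm : ∀ i, ∀ x ∈ U0, ContDiffAt ℝ ∞ (F i) x := fun i x hx => (hF i).smooth x hx
  have hdet : ∀ x ∈ U0, (fderiv ℝ (ssv F) x).det = jac F x := fun x hx =>
    ssv_det F (fun i => (hsm i x hx).differentiableAt (by simp))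
  have hf : ∀ x ∈ U0, ContDiffAt ℝ ∞ (ssv F) x := fun x hx =>
    ssv_contDiffAt (fun i => hsm i x hx)
  obtain ⟨N, hN⟩ := ss_bounded hsm p
  set M : Finset (Fin 4 → ℤ) := Fintype.piFinset (fun _ => Finset.Icc (-N) N) with hM
  let pt : (Fin 4 → ℤ) → E4 := fun m => WithLp.toLp 2 (fun i => p i + m i)
  have hpt : ∀ m i, pt m i = p i + m i := fun m i => rfl
  have hfib : ∀ x m, ssv F x = pt m ↔ ∀ i, F i x = p i + m i := by
    intro x m
    constructor
    · intro h i
      have := congrArg (fun w : E4 => w i) h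
      exact this
    · intro h
      ext i
      exact h i
  -- local degrees
  have hloc : ∀ m : Fin 4 → ℤ, ∃ A : Finset E4, (∀ x, x ∈ A ↔ x ∈ ssC ∧ ssv F x = pt m) ∧
      ∃ ε > 0, ∀ φ : E4 → ℝ, Continuous φ → (∀ w, φ w ≠ 0 → dist w (pt m) < ε) →
        ∫ x in ssC, φ (ssv F x) * (fderiv ℝ (ssv F) x).det
          = ((∑ x ∈ A, (SignType.sign (fderiv ℝ (ssv F) x).det : ℤ) : ℤ) : ℝ) * ∫ w, φ w := by
    intro m
    apply local_degree ssC_isCompact isOpen_U0 ssC_subset hf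
    intro x hx hxm
    have h1 := ss_good hp hx (fun i => ⟨m i, (hfib x m).mp hxm i⟩)
    refine ⟨h1.1, ?_⟩
    rw [hdet x (ssC_subset hx)]
    exact h1.2.1
  choose A hA ε hε hφ using hloc
  -- distance from the bad part of the boundary
  have hK : ∀ m : Fin 4 → ℤ, ∃ δ > 0, ∀ x ∈ ssK, δ ≤ dist (ssv F x) (pt m) := by
    intro m
    by_cases hne : ssK.Nonempty
    · have hc : ContinuousOn (fun x => dist (ssv F x) (pt m)) ssK := by
        intro x hx
        exact ContinuousAt.continuousWithinAt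
          (Filter.Tendsto.dist (hf x (ssC_subset hx.1)).continuousAt tendsto_const_nhds)
      obtain ⟨x0, hx0, hmin⟩ := ssK_isCompact.exists_isMinOn hne hc
      refine ⟨dist (ssv F x0) (pt m), ?_, fun x hx => hmin hx⟩
      rw [gt_iff_lt, dist_pos]
      intro heq
      exact (ss_good hp hx0.1 (fun i => ⟨m i, (hfib x0 m).mp heq i⟩)).2.2.1 hx0
    · refine ⟨1, one_pos, fun x hx => absurd ⟨x, hx⟩ hne⟩
  choose δ hδ hδK using hK
  -- choice of the size of the bumps
  have hev : ∀ᶠ e in 𝓝[>] (0 : ℝ), ∀ m ∈ M, 3 * e < ε m ∧ 3 * e < δ m := by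
    rw [Filter.eventually_all_finset]
    intro m _
    have h3 : Tendsto (fun e : ℝ => 3 * e) (𝓝[>] 0) (𝓝 0) := by
      have : Tendsto (fun e : ℝ => 3 * e) (𝓝 0) (𝓝 (3 * 0)) :=
        (continuous_const.mul continuous_id).tendsto 0
      rw [mul_zero] at this
      exact this.mono_left nhdsWithin_le_nhds
    exact (h3.eventually (gt_mem_nhds (hε m))).and (h3.eventually (gt_mem_nhds (hδ m)))
  have hev2 : ∀ᶠ e in 𝓝[>] (0 : ℝ), e < 1 / 4 :=
    (gt_mem_nhds (by norm_num : (0 : ℝ) < 1 / 4)).filter_mono nhdsWithin_le_nhds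
  obtain ⟨e, ⟨he1, he2⟩, he0⟩ := ((hev.and hev2).and self_mem_nhdsWithin).exists
  have he0' : 0 < e := he0
  have hb := fun i : Fin 4 => exists_bump (p i) e he0'
  choose b hbs hbp hbi hbn using hb
  -- the integrand
  set G : E4 → ℝ := fun x => (∏ i, b i (F i x)) * jac F x with hG
  have hGc : ContinuousOn G U0 := by
    intro x hx
    refine ContinuousAt.continuousWithinAt (ContinuousAt.mul ?_
      (bsl_continuousAt_jac (fun i => hsm i x hx)))
    refine tendsto_finsetProd _ (fun i _ => ?_)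
    exact ((hbs i).continuous.continuousAt.comp (hsm i x hx).continuousAt)
  have h1 : ∫ x in FD, G x = 1 := by
    rw [integral_sharp hGc, integral_bump hF hbs hbp hbi, integral_homotopy hF hu,
      integral_jac_Q]
    intro x hxc hx1 hx2
    have hx0 : 0 < dp x := by linarith
    have hfn := bsl_frac_near hxc hx2
    have hrn : ∀ᶠ y in 𝓝 x, r0 y (psi y) := by
      filter_upwards [hfn, bsl_dp_cont.continuousAt.eventually (lt_mem_nhds hx1),
        bsl_dp_cont.continuousAt.eventually (gt_mem_nhds hx2)] with y hy1 hy2 hy3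
      exact r0_psi hy2 hy3 hy1
    have hr := hrn.self_of_nhds
    have hjc := jac_comp_psi (F := F) hx0
      (fun i => ((hsm i (psi x) hr.2.1).differentiableAt (by simp)))
    have hjj : jac (fun i y => F i (psi y)) x = jac F x :=
      bsl_jac_congr (fun i => bsl_fderiv_comp (hF i) (contDiffAt_psi hx0).continuousAt hrn)
    have hprod : ∏ i, b i (F i (psi x)) = ∏ i, b i (F i x) := by
      refine Finset.prod_congr rfl (fun i _ => ?_)
      obtain ⟨m, hm⟩ := (hF i).per (x := x) (z := psi x) hr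
      rw [hm, bump_per (hbp i)]
    simp only [hG]
    rw [hprod]
    calc (fderiv ℝ psi x).det * ((∏ i, b i (F i x)) * jac F (psi x))
        = (∏ i, b i (F i x)) * ((fderiv ℝ psi x).det * jac F (psi x)) := by ring
      _ = _ := by rw [← hjc, hjj]
  -- the pieces
  let φ : (Fin 4 → ℤ) → E4 → ℝ := fun m w => ∏ i, ssp (b i) (p i + m i) (w i)
  have hφc : ∀ m, Continuous (φ m) := by
    intro m
    refine continuous_finsetProd _ (fun i _ => ?_)
    exact (ssp_continuous (hbs i).continuous he2 (hbn i) (m i)).comp (by fun_prop)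
  have hφn : ∀ m w, φ m w ≠ 0 → ∀ i, |w i - (p i + m i)| < e := by
    intro m w hw i
    have := Finset.prod_ne_zero_iff.mp hw i (Finset.mem_univ i)
    exact (ssp_ne he2 (hbn i) (m i) this).1
  have hφd : ∀ m w, φ m w ≠ 0 → dist w (pt m) < 3 * e := by
    intro m w hw
    exact ss_dist he0' (fun i => by rw [hpt]; exact hφn m w hw i)
  have hφi : ∀ m, ∫ w, φ m w = 1 := by
    intro m
    have := ss_fubini (fun i => ssp (b i) (p i + m i))
    have e1 : (∫ w, φ m w) = ∫ w : E4, ∏ i, ssp (b i) (p i + m i) (w i) := rfl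
    rw [e1, this]
    apply Finset.prod_eq_one
    intro i _
    exact ssp_integral (hbp i) (hbi i) _
  have hsum : ∀ x ∈ ssC, ∏ i, b i (F i x) = ∑ m ∈ M, φ m (ssv F x) := by
    intro x hx
    have e1 : ∀ i, b i (F i x) = ∑ k ∈ Finset.Icc (-N) N, ssp (b i) (p i + k) (F i x) :=
      fun i => (ssp_sum he2 (hbn i) (hN i x hx)).symm
    calc ∏ i, b i (F i x)
        = ∏ i, ∑ k ∈ Finset.Icc (-N) N, ssp (b i) (p i + k) (F i x) :=
          Finset.prod_congr rfl (fun i _ => e1 i)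
      _ = ∑ m ∈ M, ∏ i, ssp (b i) (p i + m i) (F i x) := by
          rw [Finset.prod_univ_sum]
      _ = _ := rfl
  -- from the fundamental domain to the compact one
  have h2 : ∫ x in ssC, G x = 1 := by
    rw [← h1]
    apply setIntegral_eq_of_subset_of_forall_sdiff_eq_zero ssC_isClosed.measurableSet
      ssFD_subset
    intro x hx
    have hxK := ss_diff hx.1 hx.2
    have : ∏ i, b i (F i x) = 0 := by
      rw [hsum x hx.1]
      apply Finset.sum_eq_zero
      intro m hm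
      by_contra hc
      have h3 := hφd m _ hc
      have h4 := hδK m x hxK
      linarith [(he1 m hm).2]
    simp only [hG]
    rw [this, zero_mul]
  have hint : ∀ m, IntegrableOn (fun x => φ m (ssv F x) * (fderiv ℝ (ssv F) x).det) ssC := by
    intro m
    apply ContinuousOn.integrableOn_compact ssC_isCompact
    have hc : ContinuousOn (fun x => φ m (ssv F x) * jac F x) ssC := by
      intro x hx
      have hxU := ssC_subset hx
      exact (((hφc m).continuousAt.comp (hf x hxU).continuousAt).mul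
        (bsl_continuousAt_jac (fun i => hsm i x hxU))).continuousWithinAt
    refine hc.congr (fun x hx => ?_)
    rw [hdet x (ssC_subset hx)]
  have h3 : ∫ x in ssC, G x
      = ∑ m ∈ M, ((∑ x ∈ A m, (SignType.sign (fderiv ℝ (ssv F) x).det : ℤ) : ℤ) : ℝ) := by
    calc ∫ x in ssC, G x
        = ∫ x in ssC, ∑ m ∈ M, φ m (ssv F x) * (fderiv ℝ (ssv F) x).det := by
          apply setIntegral_congr_fun ssC_isClosed.measurableSet
          intro x hx
          simp only [hG]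
          rw [hsum x hx, hdet x (ssC_subset hx), Finset.sum_mul]
      _ = ∑ m ∈ M, ∫ x in ssC, φ m (ssv F x) * (fderiv ℝ (ssv F) x).det :=
          integral_finsetSum _ (fun m _ => hint m)
      _ = _ := by
          refine Finset.sum_congr rfl (fun m hm => ?_)
          rw [hφ m (φ m) (hφc m) (fun w hw => lt_trans (hφd m w hw) (he1 m hm).1), hφi m,
            mul_one]
  refine ⟨M.biUnion A, ?_, ?_⟩
  · intro x
    rw [Finset.mem_biUnion]
    constructor
    · rintro ⟨m, _, hx⟩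
      rw [hA] at hx
      have h4 : ∀ i, ∃ m : ℤ, F i x = p i + m := fun i => ⟨m i, (hfib x m).mp hx.2 i⟩
      exact ⟨(ss_good hp hx.1 h4).2.2.2, h4⟩
    · rintro ⟨hx, h4⟩
      choose m hm using h4
      refine ⟨m, ?_, ?_⟩
      · rw [hM, Fintype.mem_piFinset]
        intro i
        exact ss_mem_box (hN i x (ssFD_subset hx)) (hm i)
      · rw [hA]
        exact ⟨ssFD_subset hx, (hfib x m).mpr hm⟩
  · have hdis : (M : Set (Fin 4 → ℤ)).PairwiseDisjoint A := by
      intro m _ m' _ hne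
      rw [Function.onFun, Finset.disjoint_left]
      intro x hx hx'
      rw [hA] at hx hx'
      apply hne
      funext i
      have e1 := (hfib x m).mp hx.2 i
      have e2 := (hfib x m').mp hx'.2 i
      rw [e1] at e2
      exact_mod_cast (add_left_cancel e2)
    rw [Finset.sum_biUnion hdis]
    have h4 : ∀ m, ∑ x ∈ A m, (SignType.sign (jac F x) : ℤ)
        = ∑ x ∈ A m, (SignType.sign (fderiv ℝ (ssv F) x).det : ℤ) := by
      intro m
      refine Finset.sum_congr rfl (fun x hx => ?_)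
      rw [hA] at hx
      rw [hdet x (ssC_subset hx.1)]
    rw [Finset.sum_congr rfl (fun m _ => h4 m)]
    have h5 := h3.symm.trans h2
    exact_mod_cast h5

end SphTw
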