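import Pool.Agent.Lib.MP_3f8e0b_gt.Basic
import Pool.Agent.Lib.MP_3f8e0b_gt.Lin
import Pool.Agent.Lib.MP_3f8e0b_gt.S0Good
import Pool.Agent.Lib.MP_3f8e0b_gt.Conn
import Pool.Agent.Lib.MP_3f8e0b_gt.Sard
import Pool.Agent.Lib.MP_3f8e0b_gt.SumSign
import Pool.Agent.Lib.MP_3f8e0b_gt.FundDom

open Set Filter Topology MeasureTheory
open scoped ContDiff Manifold Quaternion

noncomputable section

namespace SphTw

/-- A locally integer valued continuous function is locally constant. -/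
private theorem invol_eventually_const {E : Type*} [TopologicalSpace E] {f : E → ℝ} {x : E}
    (hf : ContinuousAt f x) (hi : ∀ᶠ y in 𝓝 x, ∃ m : ℤ, f y = m) : ∀ᶠ y in 𝓝 x, f y = f x := by
  obtain ⟨m0, hm0⟩ := hi.self_of_nhds
  have h1 : ∀ᶠ y in 𝓝 x, |f y - f x| < 1 := by
    have := Metric.continuousAt_iff'.1 hf 1 one_pos
    filter_upwards [this] with y hy
    rwa [Real.dist_eq] at hy
  filter_upwards [hi, h1] with y ⟨m, hm⟩ hy
  rw [hm, hm0] at hy ⊢
  have h2 : |(m - m0 : ℤ)| < 1 := by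
    have : ((|(m - m0 : ℤ)| : ℤ) : ℝ) < 1 := by push_cast; exact hy
    exact_mod_cast this
  have h3 := Int.abs_lt_one_iff.1 h2
  have h4 : m = m0 := by omega
  rw [h4]

private theorem invol_ind {F : Fin 4 → E4 → ℝ} {x : E4} (hj : jac F x ≠ 0)
    {L : E4 →L[ℝ] E4} (h : ∀ i, (fderiv ℝ (F i) x).comp L = fderiv ℝ (F i) x) :
    L = ContinuousLinearMap.id ℝ E4 := by
  ext1 w
  have h1 : ∀ i, fderiv ℝ (F i) x (L w - w) = 0 := by
    intro i
    have := congrArg (fun M : E4 →L[ℝ] ℝ => M w) (h i)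
    simp only [ContinuousLinearMap.comp_apply] at this
    rw [map_sub, this, sub_self]
  have h2 : ∀ i, ∑ j : Fin 4, fderiv ℝ (F i) x (EuclideanSpace.single j 1) * (L w - w) j = 0 := by
    intro i
    rw [← h1 i]
    have h3 : (L w - w) = ∑ j : Fin 4, ((L w - w) j) • (EuclideanSpace.single j (1 : ℝ) : E4) := by
      have := (EuclideanSpace.basisFun (Fin 4) ℝ).sum_repr (L w - w)
      simp only [EuclideanSpace.basisFun_apply, EuclideanSpace.basisFun_repr] at this
      exact this.symm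
    conv_rhs => rw [h3]
    rw [map_sum]
    refine Finset.sum_congr rfl fun j _ => ?_
    rw [map_smul, smul_eq_mul, mul_comm]
  have h4 : (Matrix.of fun i j : Fin 4 => fderiv ℝ (F i) x (EuclideanSpace.single j 1)).mulVec
      (fun j => (L w - w) j) = 0 := by
    funext i
    exact h2 i
  have h5 := Matrix.eq_zero_of_mulVec_eq_zero hj h4
  have h6 : L w - w = 0 := by
    ext j
    exact congrFun h5 j
  exact sub_eq_zero.1 h6

private theorem invol_odd {A : Finset E4} {s : E4 → SignType} (hs : ∀ x ∈ A, s x ≠ 0)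
    (h : ∑ x ∈ A, (s x : ℤ) = 1) {τ : E4 → E4} (hτ : ∀ x ∈ A, τ x ∈ A)
    (hττ : ∀ x ∈ A, τ (τ x) = x) : ∃ x ∈ A, τ x = x := by
  by_contra hcon
  push Not at hcon
  have h1 : ∑ x ∈ A, (1 : ZMod 2) = 0 := by
    refine Finset.sum_involution (fun x _ => τ x) (fun x _ => by decide) (fun x hx _ => hcon x hx)
      (fun x hx => hτ x hx) (fun x hx => hττ x hx)
  have h2 : ((∑ x ∈ A, (s x : ℤ) : ℤ) : ZMod 2) = ∑ x ∈ A, (1 : ZMod 2) := by
    rw [Int.cast_sum]
    refine Finset.sum_congr rfl fun x hx => ?_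
    have := hs x hx
    cases hsx : s x with
    | zero => exact absurd hsx this
    | neg => simp
    | pos => simp
  rw [h, h1] at h2
  exact absurd h2 (by decide)

/-- C16 (Invol.lean) uses A5, C13, C14, C15, B8 -/
theorem involution_trivial {F : Fin 4 → E4 → ℝ} (hF : ∀ i, S0.CF (F i))
    (hu : ∀ i, S0.RF (fun x => F i x - Q i x)) {g : S0.X → S0.X} (hg : ∀ q, g (g q) = q)
    (hl : ∀ x ∈ S0.U, ∀ z ∈ S0.U, S0.pr z = g (S0.pr x) → ∃ G, S0.Lift1 g x z G)
    (hFg : ∀ x ∈ S0.U, ∀ z ∈ S0.U, S0.pr z = g (S0.pr x) → ∀ i, ∃ m : ℤ, F i z = F i x + m) :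
    ∀ q, g q = q := by
  obtain ⟨p, hp⟩ := exists_good_value (F := F) (fun i x hx => (hF i).smooth x hx)
  obtain ⟨A, hA, hsum⟩ := sum_sign hF hu hp
  have hτ : ∀ x : E4, ∃ z ∈ FD, S0.pr z = g (S0.pr x) := fun x => exists_mem_FD _
  choose τ hτ1 hτ2 using hτ
  have hs : ∀ x ∈ A, SignType.sign (jac F x) ≠ 0 := by
    intro x hx
    rw [Ne, sign_eq_zero_iff]
    obtain ⟨h1, h2⟩ := (hA x).1 hx
    exact (hp x (FD_subset h1) h2).1
  obtain ⟨x, hxA, hx⟩ := invol_odd hs hsum (τ := τ)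
    (fun x hx => by
      obtain ⟨h1, h2⟩ := (hA x).1 hx
      refine (hA _).2 ⟨hτ1 x, fun i => ?_⟩
      obtain ⟨m, hm⟩ := h2 i
      obtain ⟨m', hm'⟩ := hFg x (FD_subset h1) (τ x) (FD_subset (hτ1 x)) (hτ2 x) i
      exact ⟨m + m', by rw [hm', hm]; push_cast; ring⟩)
    (fun x hx => by
      obtain ⟨h1, -⟩ := (hA x).1 hx
      refine FD_unique (hτ1 _) h1 ?_
      refine (S0_good.pr_eq_iff (FD_subset (hτ1 _)) (FD_subset h1)).1 ?_
      rw [hτ2, hτ2, hg])
  obtain ⟨h1, h2⟩ := (hA x).1 hxA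
  have hxU : x ∈ S0.U := FD_subset h1
  have hgx : S0.pr x = g (S0.pr x) := by
    conv_lhs => rw [← hx]
    exact hτ2 x
  have hjac := (hp x hxU h2).1
  obtain ⟨G, hG⟩ := hl x hxU x hxU hgx
  have := connectedSpace_S0
  refine S0_good.involution_eq_id hg hl hxU hG ?_
  have hG1 : ContDiffAt ℝ ∞ G x := hG.1.self_of_nhds
  have hGx : G x = x := hG.2.1
  have hGc : ContinuousAt G x := hG1.continuousAt
  have hGd : DifferentiableAt ℝ G x := hG1.differentiableAt (by simp)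
  refine invol_ind hjac fun i => ?_
  have hFs : ContDiffAt ℝ ∞ (F i) x := (hF i).smooth x hxU
  have hFd : DifferentiableAt ℝ (F i) x := hFs.differentiableAt (by simp)
  have hFd' : DifferentiableAt ℝ (F i) (G x) := by rw [hGx]; exact hFd
  have hFc : ContinuousAt (F i) (G x) := hFd'.continuousAt
  have hU : ∀ᶠ y in 𝓝 x, y ∈ S0.U := S0_good.isOpen_U.mem_nhds hxU
  have h3 : ∀ᶠ y in 𝓝 x, (F i (G y) - F i y) = (F i (G x) - F i x) := by
    refine invol_eventually_const (f := fun y => F i (G y) - F i y) ?_ ?_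
    · exact (ContinuousAt.comp (f := G) hFc hGc).sub hFd.continuousAt
    · filter_upwards [hG.2.2, hU] with y hy hyU
      obtain ⟨m, hm⟩ := hFg y hyU (G y) hy.1 hy.2 i
      exact ⟨m, by rw [hm]; ring⟩
  have h4 : (fun y => F i (G y)) =ᶠ[𝓝 x] fun y => F i y + (F i (G x) - F i x) := by
    filter_upwards [h3] with y hy
    linarith
  have h5 : HasFDerivAt (fun y => F i (G y)) ((fderiv ℝ (F i) x).comp (fderiv ℝ G x)) x := by
    have := HasFDerivAt.comp x (g := F i) (f := G) hFd'.hasFDerivAt hGd.hasFDerivAt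
    rw [hGx] at this
    exact this
  have h6 : HasFDerivAt (fun y => F i (G y)) (fderiv ℝ (F i) x) x :=
    (hFd.hasFDerivAt.add_const (F i (G x) - F i x)).congr_of_eventuallyEq h4
  exact h5.unique h6

end SphTw
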