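import Pool.Agent.Lib.MP_3f8e0b_gt.Basic

/-!
# MP_3f8e0b_gt: the double cover argument (task A13)

No covering space theory: a fine subdivision in `s` and the explicit intertwiner
`1 - f₁' f₁ - f₂' f₂ - (f₁' f₂') (f₁ f₂)` between two anticommuting pairs of imaginary units.
-/

open Set Filter Topology MeasureTheory
open scoped ContDiff Manifold Quaternion

noncomputable section

namespace SphTw

/-- the dot product of imaginary parts -/
def spinDot (x y : ℍ[ℝ]) : ℝ := x.imI * y.imI + x.imJ * y.imJ + x.imK * y.imK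

def spinMk (a b c d : ℝ) : ℍ[ℝ] := ⟨a, b, c, d⟩

@[simp] theorem spinMk_re (a b c d : ℝ) : (spinMk a b c d).re = a := rfl
@[simp] theorem spinMk_imI (a b c d : ℝ) : (spinMk a b c d).imI = b := rfl
@[simp] theorem spinMk_imJ (a b c d : ℝ) : (spinMk a b c d).imJ = c := rfl
@[simp] theorem spinMk_imK (a b c d : ℝ) : (spinMk a b c d).imK = d := rfl

def spinW (x y : ℍ[ℝ]) : ℍ[ℝ] := (spinDot x x) • y.im - (spinDot x y) • x.im

def spinN (f g f' g' : ℍ[ℝ]) : ℍ[ℝ] := 1 - f' * f - g' * g - (f' * g') * (f * g)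

theorem spinN_self {f g : ℍ[ℝ]} (hf : f * f = -1) (hg : g * g = -1) (hfg : f * g = -(g * f)) :
    spinN f g f g = 4 := by
  have h3 : (f * g) * (f * g) = -1 := by
    calc (f * g) * (f * g) = f * (g * f) * g := by noncomm_ring
      _ = f * (-(f * g)) * g := by rw [hfg, neg_neg]
      _ = -((f * f) * (g * g)) := by noncomm_ring
      _ = -1 := by rw [hf, hg]; noncomm_ring
  unfold spinN
  rw [h3, hf, hg]
  norm_num

theorem spinN_left {f g f' g' : ℍ[ℝ]} (hf : f * f = -1) (hfg : g * f = -(f * g))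
    (hf' : f' * f' = -1) :
    spinN f g f' g' * f = f' * spinN f g f' g' := by
  have e1 : spinN f g f' g' * f = f - f' * (f * f) - g' * (g * f) - (f' * g') * (f * (g * f)) := by
    unfold spinN; noncomm_ring
  have e2 : f' * spinN f g f' g' = f' - (f' * f') * f - (f' * g') * g
      - (f' * f') * g' * (f * g) := by
    unfold spinN; noncomm_ring
  have e3 : f * (g * f) = g := by
    rw [hfg]
    calc f * -(f * g) = -((f * f) * g) := by noncomm_ring
      _ = g := by rw [hf]; noncomm_ring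
  rw [e1, e2, e3, hfg, hf, hf']
  noncomm_ring

theorem spinN_right {f g f' g' : ℍ[ℝ]} (hg : g * g = -1)
    (hg' : g' * g' = -1) (hfg' : f' * g' = -(g' * f')) :
    spinN f g f' g' * g = g' * spinN f g f' g' := by
  have e1 : spinN f g f' g' * g = g - f' * (f * g) - g' * (g * g) - (f' * g') * f * (g * g) := by
    unfold spinN; noncomm_ring
  have e2 : g' * spinN f g f' g' = g' - (g' * f') * f - (g' * g') * g
      - (g' * (f' * g')) * (f * g) := by
    unfold spinN; noncomm_ring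
  have e3 : g' * (f' * g') = f' := by
    rw [hfg']
    calc g' * -(g' * f') = -((g' * g') * f') := by noncomm_ring
      _ = f' := by rw [hg']; noncomm_ring
  have e4 : g' * f' = -(f' * g') := by rw [hfg', neg_neg]
  rw [e1, e2, e3, e4, hg, hg']
  noncomm_ring

theorem spin_im_mul_self (x : ℍ[ℝ]) : x.im * x.im = ((-(spinDot x x) : ℝ) : ℍ[ℝ]) := by
  ext <;> simp [spinDot] <;> ring

theorem spin_W_im (x y : ℍ[ℝ]) : (spinW x y).im = spinW x y := by
  ext <;> simp [spinW]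

theorem spin_im_mul_W (x y : ℍ[ℝ]) : x.im * spinW x y = -(spinW x y * x.im) := by
  ext <;> simp [spinW, spinDot] <;> ring

theorem spinDot_pos {x : ℍ[ℝ]} (h : x.im ≠ 0) : 0 < spinDot x x := by
  have h0 : 0 ≤ spinDot x x := by
    unfold spinDot; nlinarith [mul_self_nonneg x.imI, mul_self_nonneg x.imJ, mul_self_nonneg x.imK]
  rcases h0.lt_or_eq with h1 | h1
  · exact h1
  · exfalso
    apply h
    unfold spinDot at h1
    have hI : x.imI = 0 := by
      nlinarith [mul_self_nonneg x.imI, mul_self_nonneg x.imJ, mul_self_nonneg x.imK]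
    have hJ : x.imJ = 0 := by
      nlinarith [mul_self_nonneg x.imI, mul_self_nonneg x.imJ, mul_self_nonneg x.imK]
    have hK : x.imK = 0 := by
      nlinarith [mul_self_nonneg x.imI, mul_self_nonneg x.imJ, mul_self_nonneg x.imK]
    ext <;> simp [hI, hJ, hK]

/-- the normalised frame -/
def spinF (x : ℍ[ℝ]) : ℍ[ℝ] := (1 / Real.sqrt (spinDot x x)) • x.im

theorem spinF_sq {x : ℍ[ℝ]} (h : x.im ≠ 0) : spinF x * spinF x = -1 := by
  have h0 := spinDot_pos h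
  unfold spinF
  rw [smul_mul_smul_comm, spin_im_mul_self]
  have h1 : Real.sqrt (spinDot x x) * Real.sqrt (spinDot x x) = spinDot x x :=
    Real.mul_self_sqrt h0.le
  have h2 : 1 / Real.sqrt (spinDot x x) * (1 / Real.sqrt (spinDot x x)) = 1 / spinDot x x := by
    rw [div_mul_div_comm, one_mul, h1]
  rw [h2, ← Quaternion.coe_mul_eq_smul, ← Quaternion.coe_mul]
  have h3 : 1 / spinDot x x * -spinDot x x = -1 := by field_simp
  rw [h3]
  ext <;> simp

theorem spinF_anti (x y : ℍ[ℝ]) : spinF x * spinF (spinW x y) = -(spinF (spinW x y) * spinF x) := by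
  unfold spinF
  rw [smul_mul_smul_comm, smul_mul_smul_comm, spin_W_im, spin_im_mul_W, smul_neg,
    mul_comm (1 / Real.sqrt (spinDot x x))]


/-- linear independence gives a nonzero frame -/
theorem spin_li {a b c : ℍ[ℝ]} (h : LinearIndependent ℝ ![a, b, c]) :
    a ≠ 0 ∧ (a⁻¹ * b).im ≠ 0 ∧ (spinW (a⁻¹ * b) (a⁻¹ * c)).im ≠ 0 := by
  rw [Fintype.linearIndependent_iff] at h
  have hh : ∀ x y z : ℝ, x • a + y • b + z • c = 0 → x = 0 ∧ y = 0 ∧ z = 0 := by
    intro x y z hxyz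
    have := h ![x, y, z] (by rw [Fin.sum_univ_three]; simpa using hxyz)
    exact ⟨by simpa using this 0, by simpa using this 1, by simpa using this 2⟩
  have ha : a ≠ 0 := by
    intro ha
    have := hh 1 0 0 (by rw [ha]; simp)
    exact one_ne_zero this.1
  have hu : (a⁻¹ * b).im ≠ 0 := by
    intro hu
    have h1 : (a⁻¹ * b) = (((a⁻¹ * b).re : ℝ) : ℍ[ℝ]) := by
      have := Quaternion.re_add_im (a⁻¹ * b)
      rw [hu, add_zero] at this
      exact this.symm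
    have h2 : b = (a⁻¹ * b).re • a := by
      rw [← Quaternion.mul_coe_eq_smul, ← h1, mul_inv_cancel_left₀ ha]
    have := hh (-(a⁻¹ * b).re) 1 0 (by
      rw [neg_smul, ← h2]; simp)
    exact one_ne_zero this.2.1
  refine ⟨ha, hu, ?_⟩
  intro hW
  rw [spin_W_im] at hW
  set u := a⁻¹ * b with hudef
  set v := a⁻¹ * c with hvdef
  have hpos := spinDot_pos hu
  have hb : b = a * u := by rw [hudef, mul_inv_cancel_left₀ ha]
  have hc : c = a * v := by rw [hvdef, mul_inv_cancel_left₀ ha]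
  have h1 : (spinDot u u) • v - (spinDot u v) • u
      = (((spinDot u u) * v.re - (spinDot u v) * u.re : ℝ) : ℍ[ℝ]) := by
    unfold spinW at hW
    have hv := (Quaternion.re_add_im v).symm
    have hu' := (Quaternion.re_add_im u).symm
    calc (spinDot u u) • v - (spinDot u v) • u
        = (spinDot u u) • ((v.re : ℍ[ℝ]) + v.im) - (spinDot u v) • ((u.re : ℍ[ℝ]) + u.im) := by
          rw [← hv, ← hu']
      _ = (spinDot u u) • (v.re : ℍ[ℝ]) - (spinDot u v) • (u.re : ℍ[ℝ])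
          + ((spinDot u u) • v.im - (spinDot u v) • u.im) := by
          rw [smul_add, smul_add]; abel
      _ = (((spinDot u u) * v.re - (spinDot u v) * u.re : ℝ) : ℍ[ℝ]) := by
          rw [hW, add_zero, ← Quaternion.coe_mul_eq_smul, ← Quaternion.coe_mul_eq_smul,
            ← Quaternion.coe_mul, ← Quaternion.coe_mul, ← Quaternion.coe_sub]
  have h2 := hh (-((spinDot u u) * v.re - (spinDot u v) * u.re)) (-(spinDot u v)) (spinDot u u) (by
    have : a * ((spinDot u u) • v - (spinDot u v) • u)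
        = ((spinDot u u) * v.re - (spinDot u v) * u.re) • a := by
      rw [h1, Quaternion.mul_coe_eq_smul]
    rw [mul_sub, mul_smul_comm, mul_smul_comm, ← hb, ← hc] at this
    rw [neg_smul, ← this, neg_smul]
    abel)
  exact hpos.ne' h2.2.2

/-- The abstract frame: two anticommuting imaginary units depending continuously on `(s, t)`. -/
structure SpinFrame (f g : ℝ × ℝ → ℍ[ℝ]) : Prop where
  cf : ContinuousOn f (Icc 0 1 ×ˢ Icc 0 1)
  cg : ContinuousOn g (Icc 0 1 ×ˢ Icc 0 1)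
  sqf : ∀ p ∈ Icc (0 : ℝ) 1 ×ˢ Icc (0 : ℝ) 1, f p * f p = -1
  sqg : ∀ p ∈ Icc (0 : ℝ) 1 ×ˢ Icc (0 : ℝ) 1, g p * g p = -1
  anti : ∀ p ∈ Icc (0 : ℝ) 1 ×ˢ Icc (0 : ℝ) 1, f p * g p = -(g p * f p)
  per : ∀ s ∈ Icc (0 : ℝ) 1, f (s, 0) = f (s, 1) ∧ g (s, 0) = g (s, 1)

theorem SpinFrame.exists_delta {f g : ℝ × ℝ → ℍ[ℝ]} (hF : SpinFrame f g) :
    ∃ δ > 0, ∀ s ∈ Icc (0 : ℝ) 1, ∀ s' ∈ Icc (0 : ℝ) 1, |s' - s| < δ → ∀ t ∈ Icc (0 : ℝ) 1,
      spinN (f (s, t)) (g (s, t)) (f (s', t)) (g (s', t)) ≠ 0 := by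
  set K : Set (ℝ × ℝ × ℝ) := Icc (0 : ℝ) 1 ×ˢ (Icc (0 : ℝ) 1 ×ˢ Icc (0 : ℝ) 1) with hK
  have hKc : IsCompact K := isCompact_Icc.prod (isCompact_Icc.prod isCompact_Icc)
  set G : ℝ × ℝ × ℝ → ℍ[ℝ] := fun p =>
    spinN (f (p.1, p.2.2)) (g (p.1, p.2.2)) (f (p.2.1, p.2.2)) (g (p.2.1, p.2.2)) with hG
  have m1 : MapsTo (fun p : ℝ × ℝ × ℝ => (p.1, p.2.2)) K (Icc 0 1 ×ˢ Icc 0 1) := by
    intro p hp; exact ⟨hp.1, hp.2.2⟩
  have m2 : MapsTo (fun p : ℝ × ℝ × ℝ => (p.2.1, p.2.2)) K (Icc 0 1 ×ˢ Icc 0 1) := by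
    intro p hp; exact ⟨hp.2.1, hp.2.2⟩
  have f1 : ContinuousOn (fun p : ℝ × ℝ × ℝ => f (p.1, p.2.2)) K :=
    hF.cf.comp (by fun_prop) m1
  have g1 : ContinuousOn (fun p : ℝ × ℝ × ℝ => g (p.1, p.2.2)) K :=
    hF.cg.comp (by fun_prop) m1
  have f2 : ContinuousOn (fun p : ℝ × ℝ × ℝ => f (p.2.1, p.2.2)) K :=
    hF.cf.comp (by fun_prop) m2
  have g2 : ContinuousOn (fun p : ℝ × ℝ × ℝ => g (p.2.1, p.2.2)) K :=
    hF.cg.comp (by fun_prop) m2
  have hGc : ContinuousOn G K := by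
    rw [hG]; unfold spinN
    exact ((continuousOn_const.sub (f2.mul f1)).sub (g2.mul g1)).sub ((f2.mul g2).mul (f1.mul g1))
  have hu := hKc.uniformContinuousOn_of_continuous hGc
  rw [Metric.uniformContinuousOn_iff] at hu
  obtain ⟨δ, hδ, h⟩ := hu 4 (by norm_num)
  refine ⟨δ, hδ, ?_⟩
  intro s hs s' hs' hss t ht h0
  have h1 := h (s, s', t) ⟨hs, hs', ht⟩ (s, s, t) ⟨hs, hs, ht⟩ (by
    rw [Prod.dist_eq, Prod.dist_eq]
    simp only [dist_self]
    rw [Real.dist_eq]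
    simp [hss])
  have h2 : G (s, s, t) = 4 := spinN_self (hF.sqf _ ⟨hs, ht⟩) (hF.sqg _ ⟨hs, ht⟩)
    (hF.anti _ ⟨hs, ht⟩)
  have h3 : G (s, s', t) = 0 := h0
  rw [h2, h3, dist_eq_norm, zero_sub, norm_neg] at h1
  have h4 : ‖(4 : ℍ[ℝ])‖ = 4 := by
    have : (4 : ℍ[ℝ]) = ((4 : ℝ) : ℍ[ℝ]) := (map_ofNat (algebraMap ℝ ℍ[ℝ]) 4).symm
    rw [this, Quaternion.norm_coe]; norm_num
  rw [h4] at h1
  exact lt_irrefl _ h1

/-- the intertwiner between level `0` and level `s`. -/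
def SpinLift (f g : ℝ × ℝ → ℍ[ℝ]) (s : ℝ) : Prop :=
  ∃ q : ℝ → ℍ[ℝ], ContinuousOn q (Icc 0 1) ∧ q 0 = q 1 ∧ ∀ t ∈ Icc (0 : ℝ) 1, q t ≠ 0 ∧
    q t * f (0, t) = f (s, t) * q t ∧ q t * g (0, t) = g (s, t) * q t

theorem SpinFrame.step {f g : ℝ × ℝ → ℍ[ℝ]} (hF : SpinFrame f g) {s s' : ℝ}
    (hs : s ∈ Icc (0 : ℝ) 1) (hs' : s' ∈ Icc (0 : ℝ) 1)
    (hN : ∀ t ∈ Icc (0 : ℝ) 1, spinN (f (s, t)) (g (s, t)) (f (s', t)) (g (s', t)) ≠ 0)
    (h : SpinLift f g s) : SpinLift f g s' := by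
  obtain ⟨q, hq, hq01, hqt⟩ := h
  have ms : MapsTo (fun t : ℝ => ((s, t) : ℝ × ℝ)) (Icc 0 1) (Icc 0 1 ×ˢ Icc 0 1) :=
    fun t ht => ⟨hs, ht⟩
  have ms' : MapsTo (fun t : ℝ => ((s', t) : ℝ × ℝ)) (Icc 0 1) (Icc 0 1 ×ˢ Icc 0 1) :=
    fun t ht => ⟨hs', ht⟩
  have f1 : ContinuousOn (fun t : ℝ => f (s, t)) (Icc 0 1) := hF.cf.comp (by fun_prop) ms
  have g1 : ContinuousOn (fun t : ℝ => g (s, t)) (Icc 0 1) := hF.cg.comp (by fun_prop) ms
  have f2 : ContinuousOn (fun t : ℝ => f (s', t)) (Icc 0 1) := hF.cf.comp (by fun_prop) ms'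
  have g2 : ContinuousOn (fun t : ℝ => g (s', t)) (Icc 0 1) := hF.cg.comp (by fun_prop) ms'
  refine ⟨fun t => spinN (f (s, t)) (g (s, t)) (f (s', t)) (g (s', t)) * q t, ?_, ?_, ?_⟩
  · refine ContinuousOn.mul ?_ hq
    unfold spinN
    exact ((continuousOn_const.sub (f2.mul f1)).sub (g2.mul g1)).sub ((f2.mul g2).mul (f1.mul g1))
  · simp only
    rw [(hF.per s hs).1, (hF.per s hs).2, (hF.per s' hs').1, (hF.per s' hs').2, hq01]
  · intro t ht
    obtain ⟨h0, h1, h2⟩ := hqt t ht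
    have a1 := hF.anti _ (show ((s, t) : ℝ × ℝ) ∈ _ from ⟨hs, ht⟩)
    have a2 := hF.anti _ (show ((s', t) : ℝ × ℝ) ∈ _ from ⟨hs', ht⟩)
    have l1 := spinN_left (f := f (s, t)) (g := g (s, t)) (f' := f (s', t)) (g' := g (s', t))
      (hF.sqf _ ⟨hs, ht⟩) (by rw [a1, neg_neg]) (hF.sqf _ ⟨hs', ht⟩)
    have l2 := spinN_right (f := f (s, t)) (g := g (s, t)) (f' := f (s', t)) (g' := g (s', t))
      (hF.sqg _ ⟨hs, ht⟩) (hF.sqg _ ⟨hs', ht⟩) a2
    refine ⟨mul_ne_zero (hN t ht) h0, ?_, ?_⟩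
    · rw [mul_assoc, h1, ← mul_assoc, l1, mul_assoc]
    · rw [mul_assoc, h2, ← mul_assoc, l2, mul_assoc]

theorem SpinFrame.lift_one {f g : ℝ × ℝ → ℍ[ℝ]} (hF : SpinFrame f g) : SpinLift f g 1 := by
  obtain ⟨δ, hδ, hN⟩ := hF.exists_delta
  obtain ⟨n, hn⟩ := exists_nat_gt (1 / δ)
  have hn0 : (0 : ℝ) < n := lt_trans (by positivity) hn
  have hstep : (1 : ℝ) / n < δ := by
    rw [div_lt_iff₀ hn0]
    rw [div_lt_iff₀ hδ] at hn
    linarith
  have key : ∀ j : ℕ, j ≤ n → SpinLift f g (j / n) := by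
    intro j
    induction j with
    | zero =>
      intro _
      refine ⟨fun _ => 1, continuousOn_const, rfl, fun t ht => ⟨one_ne_zero, ?_, ?_⟩⟩ <;> simp
    | succ j ih =>
      intro hj
      have hj' : (j : ℝ) + 1 ≤ n := by exact_mod_cast hj
      have m1 : (j : ℝ) / n ∈ Icc (0 : ℝ) 1 := by
        constructor
        · positivity
        · rw [div_le_one hn0]; linarith
      have m2 : ((j + 1 : ℕ) : ℝ) / n ∈ Icc (0 : ℝ) 1 := by
        constructor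
        · positivity
        · rw [div_le_one hn0]; push_cast; linarith
      refine hF.step m1 m2 ?_ (ih (by omega))
      apply hN _ m1 _ m2
      have : ((j + 1 : ℕ) : ℝ) / n - (j : ℝ) / n = 1 / n := by push_cast; ring
      rw [this, abs_of_pos (by positivity)]
      exact hstep
  have := key n le_rfl
  rwa [div_self hn0.ne'] at this


/-- The final computation: a frame ending in the `κ`-fold rotation, half of it. -/
theorem spin_final {κ : ℤ} {f g : ℝ × ℝ → ℍ[ℝ]} {m : ℝ → ℝ} (hm : ContinuousOn m (Icc 0 1))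
    (hL : SpinLift f g 1)
    (h0 : ∀ t ∈ Icc (0 : ℝ) 1, f (0, t) = spinMk 0 1 0 0 ∧ g (0, t) = spinMk 0 0 1 0)
    (hm0 : m 0 = 1) (hm1 : m 1 = 0)
    (h1 : ∀ t ∈ Icc (0 : ℝ) 1, f (1, t) = spinMk 0 1 0 0 ∧
      g (1, t) = spinMk 0 0 (Real.cos (2 * Real.pi * κ * m t)) (Real.sin (2 * Real.pi * κ * m t))) :
    Even κ := by
  obtain ⟨q, hq, hq01, hqt⟩ := hL
  -- `q t = lam t * (cos ψ + sin ψ i)`
  set ψ : ℝ → ℝ := fun t => Real.pi * κ * m t with hψ
  set lam : ℝ → ℝ := fun t => (q t).re * Real.cos (ψ t) + (q t).imI * Real.sin (ψ t) with hlam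
  have key : ∀ t ∈ Icc (0 : ℝ) 1, (q t).re = lam t * Real.cos (ψ t) ∧
      (q t).imI = lam t * Real.sin (ψ t) ∧ lam t ≠ 0 := by
    intro t ht
    obtain ⟨hq0, hf, hg⟩ := hqt t ht
    rw [(h0 t ht).1, (h1 t ht).1] at hf
    rw [(h0 t ht).2, (h1 t ht).2] at hg
    have hdouble : 2 * Real.pi * κ * m t = 2 * ψ t := by simp only [hψ]; ring
    rw [hdouble, Real.cos_two_mul, Real.sin_two_mul] at hg
    have hJ : (q t).imJ = 0 := by
      have := congrArg (fun z : ℍ[ℝ] => z.imK) hf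
      simp at this
      linarith
    have hK : (q t).imK = 0 := by
      have := congrArg (fun z : ℍ[ℝ] => z.imJ) hf
      simp at this
      linarith
    have e1 := congrArg (fun z : ℍ[ℝ] => z.imJ) hg
    have e2 := congrArg (fun z : ℍ[ℝ] => z.imK) hg
    simp [hJ, hK] at e1 e2
    have hsc := Real.sin_sq_add_cos_sq (ψ t)
    have hne : (q t).re ≠ 0 ∨ (q t).imI ≠ 0 := by
      by_contra hcon
      push Not at hcon
      apply hq0
      ext <;> simp [hcon.1, hcon.2, hJ, hK]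
    have hcross : (q t).re * Real.sin (ψ t) = (q t).imI * Real.cos (ψ t) := by
      have a1 : Real.sin (ψ t) * ((q t).re * Real.sin (ψ t) - (q t).imI * Real.cos (ψ t)) = 0 := by
        linear_combination (1 / 2 : ℝ) * e1 + (q t).re * hsc
      have a2 : Real.cos (ψ t) * ((q t).re * Real.sin (ψ t) - (q t).imI * Real.cos (ψ t)) = 0 := by
        linear_combination -(1 / 2 : ℝ) * e2
      linear_combination Real.sin (ψ t) * a1 + Real.cos (ψ t) * a2
        - ((q t).re * Real.sin (ψ t) - (q t).imI * Real.cos (ψ t)) * hsc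
    have hre : (q t).re = lam t * Real.cos (ψ t) := by
      simp only [hlam]
      linear_combination -(q t).re * hsc + Real.sin (ψ t) * hcross
    have him : (q t).imI = lam t * Real.sin (ψ t) := by
      simp only [hlam]
      linear_combination -(q t).imI * hsc - Real.cos (ψ t) * hcross
    refine ⟨hre, him, ?_⟩
    intro hz
    rcases hne with h | h
    · apply h; rw [hre, hz, zero_mul]
    · apply h; rw [him, hz, zero_mul]
  have hψc : ContinuousOn ψ (Icc 0 1) := continuousOn_const.mul hm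
  have hlc : ContinuousOn lam (Icc 0 1) := by
    refine ContinuousOn.add ?_ ?_
    · exact (Quaternion.continuous_re.comp_continuousOn hq).mul
        (Real.continuous_cos.comp_continuousOn hψc)
    · exact (Quaternion.continuous_imI.comp_continuousOn hq).mul
        (Real.continuous_sin.comp_continuousOn hψc)
  have i0 : (0 : ℝ) ∈ Icc (0 : ℝ) 1 := ⟨le_rfl, zero_le_one⟩
  have i1 : (1 : ℝ) ∈ Icc (0 : ℝ) 1 := ⟨zero_le_one, le_rfl⟩
  have hψ0 : ψ 0 = κ * Real.pi := by simp only [hψ, hm0]; ring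
  have hψ1 : ψ 1 = 0 := by simp only [hψ, hm1]; ring
  have hrel : lam 0 * Real.cos (κ * Real.pi) = lam 1 := by
    have a0 := (key 0 i0).1
    have a1 := (key 1 i1).1
    rw [hψ0] at a0
    rw [hψ1, Real.cos_zero, mul_one] at a1
    rw [← a0, ← a1, hq01]
  by_contra hodd
  rw [Int.not_even_iff_odd] at hodd
  have hcos : Real.cos (κ * Real.pi) = -1 := by
    obtain ⟨n, hn⟩ := hodd
    rw [hn]; push_cast
    have : (2 * (n : ℝ) + 1) * Real.pi = Real.pi + n * (2 * Real.pi) := by ring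
    rw [this, Real.cos_add_int_mul_two_pi, Real.cos_pi]
  rw [hcos] at hrel
  have hpre : IsPreconnected (lam '' Icc (0 : ℝ) 1) := isPreconnected_Icc.image _ hlc
  have hord := hpre.ordConnected
  have hz : (0 : ℝ) ∈ lam '' Icc (0 : ℝ) 1 := by
    rcases le_total (lam 0) 0 with h | h
    · exact hord.out ⟨0, i0, rfl⟩ ⟨1, i1, rfl⟩ ⟨h, by linarith⟩
    · exact hord.out ⟨1, i1, rfl⟩ ⟨0, i0, rfl⟩ ⟨by linarith, h⟩
  obtain ⟨t, ht, hzt⟩ := hz
  exact (key t ht).2.2 hzt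


theorem spinDot_continuous : Continuous (fun z : ℍ[ℝ] × ℍ[ℝ] => spinDot z.1 z.2) := by
  unfold spinDot
  have c1 := Quaternion.continuous_imI
  have c2 := Quaternion.continuous_imJ
  have c3 := Quaternion.continuous_imK
  exact (((c1.comp continuous_fst).mul (c1.comp continuous_snd)).add
    ((c2.comp continuous_fst).mul (c2.comp continuous_snd))).add
    ((c3.comp continuous_fst).mul (c3.comp continuous_snd))

theorem spinW_continuous : Continuous (fun z : ℍ[ℝ] × ℍ[ℝ] => spinW z.1 z.2) := by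
  unfold spinW
  have c1 : Continuous (fun z : ℍ[ℝ] × ℍ[ℝ] => spinDot z.1 z.1) :=
    spinDot_continuous.comp (continuous_fst.prodMk continuous_fst)
  have c2 : Continuous (fun z : ℍ[ℝ] × ℍ[ℝ] => z.2.im) :=
    Quaternion.continuous_im.comp continuous_snd
  have c3 : Continuous (fun z : ℍ[ℝ] × ℍ[ℝ] => z.1.im) :=
    Quaternion.continuous_im.comp continuous_fst
  exact (c1.smul c2).sub (spinDot_continuous.smul c3)

theorem spinF_continuousOn {w : ℝ × ℝ → ℍ[ℝ]} {K : Set (ℝ × ℝ)} (hw : ContinuousOn w K)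
    (hw0 : ∀ p ∈ K, (w p).im ≠ 0) : ContinuousOn (fun p => spinF (w p)) K := by
  unfold spinF
  have h2 : ContinuousOn (fun p => (w p).im) K :=
    Quaternion.continuous_im.comp_continuousOn hw
  have h5 : ContinuousOn (fun p => (w p, w p)) K := hw.prodMk hw
  have h4 : ContinuousOn (fun p => spinDot (w p) (w p)) K := by
    have := spinDot_continuous.comp_continuousOn h5
    exact this
  have h3 : ContinuousOn (fun p => Real.sqrt (spinDot (w p) (w p))) K := h4.sqrt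
  have h1 : ContinuousOn (fun p => 1 / Real.sqrt (spinDot (w p) (w p))) K :=
    continuousOn_const.div h3 fun p hp => (Real.sqrt_pos.mpr (spinDot_pos (hw0 p hp))).ne'
  exact h1.smul h2

theorem spinW_continuousOn {u v : ℝ × ℝ → ℍ[ℝ]} {K : Set (ℝ × ℝ)} (hu : ContinuousOn u K)
    (hv : ContinuousOn v K) : ContinuousOn (fun p => spinW (u p) (v p)) K := by
  have h1 : ContinuousOn (fun p => (u p, v p)) K := hu.prodMk hv
  have h2 := spinW_continuous.comp_continuousOn h1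
  exact h2

theorem spin_frame_aux {u v : ℝ × ℝ → ℍ[ℝ]}
    (hu : ContinuousOn u (Icc 0 1 ×ˢ Icc 0 1)) (hv : ContinuousOn v (Icc 0 1 ×ˢ Icc 0 1))
    (hu0 : ∀ p ∈ Icc (0 : ℝ) 1 ×ˢ Icc (0 : ℝ) 1, (u p).im ≠ 0)
    (hv0 : ∀ p ∈ Icc (0 : ℝ) 1 ×ˢ Icc (0 : ℝ) 1, (spinW (u p) (v p)).im ≠ 0)
    (hper : ∀ s ∈ Icc (0 : ℝ) 1, u (s, 0) = u (s, 1) ∧ v (s, 0) = v (s, 1)) :
    SpinFrame (fun p => spinF (u p)) (fun p => spinF (spinW (u p) (v p))) where
  cf := spinF_continuousOn hu hu0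
  cg := spinF_continuousOn (spinW_continuousOn hu hv) hv0
  sqf := fun p hp => spinF_sq (hu0 p hp)
  sqg := fun p hp => spinF_sq (hv0 p hp)
  anti := fun p _ => spinF_anti _ _
  per := fun s hs => by
    obtain ⟨h1, h2⟩ := hper s hs
    constructor
    · show spinF (u (s, 0)) = spinF (u (s, 1))
      rw [h1]
    · show spinF (spinW (u (s, 0)) (v (s, 0))) = spinF (spinW (u (s, 1)) (v (s, 1)))
      rw [h1, h2]

theorem spin_frame {a b c : ℝ × ℝ → ℍ[ℝ]}
    (ha : ContinuousOn a (Icc 0 1 ×ˢ Icc 0 1)) (hb : ContinuousOn b (Icc 0 1 ×ˢ Icc 0 1))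
    (hc : ContinuousOn c (Icc 0 1 ×ˢ Icc 0 1))
    (hli : ∀ p ∈ Icc (0 : ℝ) 1 ×ˢ Icc (0 : ℝ) 1, LinearIndependent ℝ ![a p, b p, c p])
    (hper : ∀ s ∈ Icc (0 : ℝ) 1, a (s, 0) = a (s, 1) ∧ b (s, 0) = b (s, 1) ∧
      c (s, 0) = c (s, 1)) :
    SpinFrame (fun p => spinF ((a p)⁻¹ * b p))
      (fun p => spinF (spinW ((a p)⁻¹ * b p) ((a p)⁻¹ * c p))) := by
  have hai : ContinuousOn (fun p => (a p)⁻¹) (Icc 0 1 ×ˢ Icc 0 1) :=
    ha.inv₀ fun p hp => (spin_li (hli p hp)).1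
  refine spin_frame_aux (u := fun p => (a p)⁻¹ * b p) (v := fun p => (a p)⁻¹ * c p)
    (hai.mul hb) (hai.mul hc) (fun p hp => (spin_li (hli p hp)).2.1)
    (fun p hp => (spin_li (hli p hp)).2.2) ?_
  intro s hs
  obtain ⟨h1, h2, h3⟩ := hper s hs
  constructor
  · show (a (s, 0))⁻¹ * b (s, 0) = (a (s, 1))⁻¹ * b (s, 1)
    rw [h1, h2]
  · show (a (s, 0))⁻¹ * c (s, 0) = (a (s, 1))⁻¹ * c (s, 1)
    rw [h1, h3]

theorem spin_std (x y : ℝ) (h : x ^ 2 + y ^ 2 = 1) :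
    spinF ((1 : ℍ[ℝ])⁻¹ * spinMk 0 1 0 0) = spinMk 0 1 0 0 ∧
      spinF (spinW ((1 : ℍ[ℝ])⁻¹ * spinMk 0 1 0 0) ((1 : ℍ[ℝ])⁻¹ * spinMk 0 0 x y))
        = spinMk 0 0 x y := by
  rw [inv_one, one_mul, one_mul]
  have d1 : spinDot (spinMk 0 1 0 0) (spinMk 0 1 0 0) = 1 := by simp [spinDot]
  have d2 : spinDot (spinMk 0 1 0 0) (spinMk 0 0 x y) = 0 := by simp [spinDot]
  have w1 : spinW (spinMk 0 1 0 0) (spinMk 0 0 x y) = spinMk 0 0 x y := by
    unfold spinW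
    rw [d1, d2]
    ext <;> simp
  have d3 : spinDot (spinMk 0 0 x y) (spinMk 0 0 x y) = 1 := by
    simp [spinDot]; linarith
  constructor
  · unfold spinF
    rw [d1]
    ext <;> simp
  · rw [w1]
    unfold spinF
    rw [d3]
    ext <;> simp

/-- A13: the double cover argument. -/
theorem spin {κ : ℤ} {a b c : ℝ × ℝ → ℍ[ℝ]} {m : ℝ → ℝ}
    (ha : ContinuousOn a (Icc 0 1 ×ˢ Icc 0 1)) (hb : ContinuousOn b (Icc 0 1 ×ˢ Icc 0 1))
    (hc : ContinuousOn c (Icc 0 1 ×ˢ Icc 0 1)) (hm : ContinuousOn m (Icc 0 1))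
    (hli : ∀ p ∈ Icc (0 : ℝ) 1 ×ˢ Icc (0 : ℝ) 1, LinearIndependent ℝ ![a p, b p, c p])
    (h0 : ∀ t ∈ Icc (0 : ℝ) 1, a (0, t) = 1 ∧ b (0, t) = ⟨0, 1, 0, 0⟩ ∧ c (0, t) = ⟨0, 0, 1, 0⟩)
    (hper : ∀ s ∈ Icc (0 : ℝ) 1, a (s, 0) = a (s, 1) ∧ b (s, 0) = b (s, 1) ∧
      c (s, 0) = c (s, 1))
    (hm0 : m 0 = 1) (hm1 : m 1 = 0)
    (h1 : ∀ t ∈ Icc (0 : ℝ) 1, a (1, t) = 1 ∧ b (1, t) = ⟨0, 1, 0, 0⟩ ∧
      c (1, t) = ⟨0, 0, Real.cos (2 * Real.pi * κ * m t), Real.sin (2 * Real.pi * κ * m t)⟩) :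
    Even κ := by
  have hF := spin_frame ha hb hc hli hper
  refine spin_final (f := fun p => spinF ((a p)⁻¹ * b p))
    (g := fun p => spinF (spinW ((a p)⁻¹ * b p) ((a p)⁻¹ * c p))) hm hF.lift_one ?_ hm0 hm1 ?_
  · intro t ht
    obtain ⟨e1, e2, e3⟩ := h0 t ht
    have e2' : b (0, t) = spinMk 0 1 0 0 := e2
    have e3' : c (0, t) = spinMk 0 0 1 0 := e3
    rw [e1, e2', e3']
    exact spin_std 1 0 (by norm_num)
  · intro t ht
    obtain ⟨e1, e2, e3⟩ := h1 t ht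
    have e2' : b (1, t) = spinMk 0 1 0 0 := e2
    have e3' : c (1, t) = spinMk 0 0 (Real.cos (2 * Real.pi * κ * m t))
      (Real.sin (2 * Real.pi * κ * m t)) := e3
    rw [e1, e2', e3']
    exact spin_std _ _ (by rw [add_comm]; exact Real.sin_sq_add_cos_sq _)

end SphTw
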