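import Pool.Agent.Lib.MP_3f8e0b_gt.HH
import Pool.Agent.Lib.MP_3f8e0b_gt.HHProp
import Pool.Agent.Lib.MP_3f8e0b_gt.Spin
import Pool.Agent.Lib.MP_3f8e0b_gt.Rel
import Pool.Agent.Lib.MP_3f8e0b_gt.Graph
import Pool.Agent.Lib.MP_3f8e0b_gt.S0Good
import Pool.Agent.Lib.MP_3f8e0b_gt.CircFun
import Pool.Agent.Lib.MP_3f8e0b_gt.FrameA
import Pool.Agent.Lib.MP_3f8e0b_gt.FrameB

/-!
# The number `κ` of the fourth circle function is even
-/

open Set Filter Topology
open scoped ContDiff Manifold Quaternion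

noncomputable section

namespace SphTw

/-- A vector of `E4` as a quaternion, the last coordinate being the real part. -/
def kappaEven_J (w : E4) : ℍ[ℝ] := ⟨w 3, w 0, w 1, w 2⟩

/-- `kappaEven_J` as a linear map. -/
def kappaEven_JL : E4 →ₗ[ℝ] ℍ[ℝ] where
  toFun := kappaEven_J
  map_add' _ _ := (QuaternionAlgebra.mk_add_mk _ _ _ _ _ _ _ _).symm
  map_smul' a _ := (QuaternionAlgebra.smul_mk a _ _ _ _).symm

theorem kappaEven_J_continuous : Continuous kappaEven_J :=
  kappaEven_JL.continuous_of_finiteDimensional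

theorem kappaEven_J_injective : Function.Injective kappaEven_JL := by
  intro w w' h
  have h' : kappaEven_J w = kappaEven_J w' := h
  have e := (QuaternionAlgebra.ext_iff).1 h'
  simp only [kappaEven_J] at e
  obtain ⟨e3, e0, e1, e2⟩ := e
  ext i
  fin_cases i
  · exact e0
  · exact e1
  · exact e2
  · exact e3

/-- Radius along the path. -/
def kappaEven_rho (t : ℝ) : ℝ := 1/8 + 43/200 * t

/-- The handle path. -/
def kappaEven_h (θ t : ℝ) : E4 := P (3/8 + 43/200 * t) (1/2) (1/2) θ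

/-- The cutoff along the path. -/
def kappaEven_m (t : ℝ) : ℝ := sig (kappaEven_rho t ^ 2)

def kappaEven_lam (t : ℝ) : ℝ :=
  (1 - kappaEven_m t) + kappaEven_m t / (50 * (kappaEven_rho t ^ 2) ^ 2)

def kappaEven_N (t : ℝ) : ℝ :=
  (1 - kappaEven_m t) ^ 2 + kappaEven_m t ^ 2 * kappaEven_rho t ^ 2

def kappaEven_mu (t : ℝ) : ℝ := kappaEven_lam t * kappaEven_N t

def kappaEven_C (t : ℝ) : ℝ :=
  (1 - kappaEven_m t) ^ 2 - kappaEven_m t ^ 2 * kappaEven_rho t ^ 2

def kappaEven_S (t : ℝ) : ℝ :=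
  2 * (1 - kappaEven_m t) * kappaEven_m t * kappaEven_rho t

def kappaEven_p (θ t : ℝ) : ℝ :=
  kappaEven_lam t * (Real.cos (Real.pi * kappaEven_m t * (2 * θ + 1)) * kappaEven_C t
    - Real.sin (Real.pi * kappaEven_m t * (2 * θ + 1)) * kappaEven_S t)

def kappaEven_q (θ t : ℝ) : ℝ :=
  kappaEven_lam t * (Real.sin (Real.pi * kappaEven_m t * (2 * θ + 1)) * kappaEven_C t
    + Real.cos (Real.pi * kappaEven_m t * (2 * θ + 1)) * kappaEven_S t)

theorem kappaEven_dp (θ t : ℝ) : dp (kappaEven_h θ t) = kappaEven_rho t ^ 2 := by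
  simp [dp, kappaEven_h, kappaEven_rho]
  ring

theorem kappaEven_frac {t : ℝ} (ht : t ∈ Icc (0 : ℝ) 1) (θ : ℝ) :
    frac (kappaEven_h θ t) = kappaEven_h θ t := by
  obtain ⟨h0, h1⟩ := ht
  refine frac_eq_self ?_ ?_ ?_
  · constructor <;> simp [kappaEven_h] <;> linarith
  · constructor <;> (simp [kappaEven_h]; try norm_num)
  · constructor <;> (simp [kappaEven_h]; try norm_num)

theorem kappaEven_mem {t : ℝ} (ht : t ∈ Icc (0 : ℝ) 1) (θ : ℝ) : kappaEven_h θ t ∈ U0 := by
  have hf := kappaEven_frac ht θ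
  obtain ⟨h0, h1⟩ := ht
  refine ⟨?_, ?_⟩
  · rw [hf, kappaEven_dp, kappaEven_rho]
    nlinarith
  · rw [hf]
    simp only [dm, kappaEven_h, P_zero, P_one, P_two]
    nlinarith

theorem kappaEven_rho_pos {t : ℝ} (ht : t ∈ Icc (0 : ℝ) 1) : 0 < kappaEven_rho t := by
  have := ht.1
  rw [kappaEven_rho]; positivity

theorem kappaEven_m_mem (t : ℝ) : kappaEven_m t ∈ Icc (0 : ℝ) 1 :=
  ⟨Real.smoothTransition.nonneg _, Real.smoothTransition.le_one _⟩

theorem kappaEven_m_zero : kappaEven_m 0 = 1 := by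
  rw [kappaEven_m, sig, kappaEven_rho]
  exact Real.smoothTransition.one_of_one_le (by norm_num)

theorem kappaEven_m_one : kappaEven_m 1 = 0 := by
  rw [kappaEven_m, sig, kappaEven_rho]
  exact Real.smoothTransition.zero_of_nonpos (by norm_num)

theorem kappaEven_lam_pos {t : ℝ} (ht : t ∈ Icc (0 : ℝ) 1) : 0 < kappaEven_lam t := by
  have hρ := kappaEven_rho_pos ht
  obtain ⟨h0, h1⟩ := kappaEven_m_mem t
  rw [kappaEven_lam]
  rcases h0.eq_or_lt with h | h
  · rw [← h]; norm_num
  · have : 0 < kappaEven_m t / (50 * (kappaEven_rho t ^ 2) ^ 2) := by positivity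
    linarith

theorem kappaEven_N_pos {t : ℝ} (ht : t ∈ Icc (0 : ℝ) 1) : 0 < kappaEven_N t := by
  have hρ := kappaEven_rho_pos ht
  obtain ⟨h0, h1⟩ := kappaEven_m_mem t
  rw [kappaEven_N]
  rcases h0.eq_or_lt with h | h
  · rw [← h]; norm_num
  · positivity

theorem kappaEven_mu_pos {t : ℝ} (ht : t ∈ Icc (0 : ℝ) 1) : 0 < kappaEven_mu t :=
  mul_pos (kappaEven_lam_pos ht) (kappaEven_N_pos ht)

theorem kappaEven_pq (θ t : ℝ) :
    kappaEven_p θ t ^ 2 + kappaEven_q θ t ^ 2 = kappaEven_mu t ^ 2 := by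
  have h := Real.sin_sq_add_cos_sq (Real.pi * kappaEven_m t * (2 * θ + 1))
  have h2 : kappaEven_C t ^ 2 + kappaEven_S t ^ 2 = kappaEven_N t ^ 2 := by
    simp only [kappaEven_C, kappaEven_S, kappaEven_N]; ring
  simp only [kappaEven_p, kappaEven_q, kappaEven_mu]
  calc _ = kappaEven_lam t ^ 2 * ((Real.sin (Real.pi * kappaEven_m t * (2 * θ + 1)) ^ 2 +
        Real.cos (Real.pi * kappaEven_m t * (2 * θ + 1)) ^ 2) *
        (kappaEven_C t ^ 2 + kappaEven_S t ^ 2)) := by ring
    _ = _ := by rw [h, h2]; ring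

/-- The frame along the path. -/
theorem kappaEven_B {t : ℝ} (ht : t ∈ Icc (0 : ℝ) 1) (θ : ℝ) (w : E4) :
    B (kappaEven_h θ t) w = P (kappaEven_mu t * w 0)
      (kappaEven_p θ t * w 1 - kappaEven_q θ t * w 2)
      (kappaEven_q θ t * w 1 + kappaEven_p θ t * w 2) (w 3) := by
  have h1 : B (kappaEven_h θ t) w = bf (kappaEven_m t) (kappaEven_h θ t) w := by
    simp only [B, LinearMap.coe_toContinuousLinearMap', bL, LinearMap.coe_mk, AddHom.coe_mk]
    rw [kappaEven_frac ht, kappaEven_dp, kappaEven_m]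
  rw [h1, bf, kappaEven_dp]
  simp only [uu, kappaEven_dp]
  have e0 : kappaEven_h θ t 0 - 1/4 = kappaEven_rho t := by
    simp [kappaEven_h, kappaEven_rho]; ring
  have e1 : kappaEven_h θ t 1 - 1/2 = 0 := by simp [kappaEven_h]
  have e2 : kappaEven_h θ t 2 - 1/2 = 0 := by simp [kappaEven_h]
  have e3 : kappaEven_h θ t 3 = θ := by simp [kappaEven_h]
  rw [e0, e1, e2, e3]
  ext i
  fin_cases i
  · simp [kappaEven_mu, kappaEven_lam, kappaEven_N]
    ring
  · simp [kappaEven_p, kappaEven_q, kappaEven_lam, kappaEven_C, kappaEven_S]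
    ring
  · simp [kappaEven_p, kappaEven_q, kappaEven_lam, kappaEven_C, kappaEven_S]
    ring
  · simp

/-- The vector mapped to `e₁` by the frame at `θ = 0`. -/
def kappaEven_w (t : ℝ) : E4 :=
  P 0 (kappaEven_p 0 t / kappaEven_mu t ^ 2) (-(kappaEven_q 0 t / kappaEven_mu t ^ 2)) 0

theorem kappaEven_m_continuous : Continuous kappaEven_m := by
  have h1 : Continuous (fun t : ℝ => 11/2 - 100 * kappaEven_rho t ^ 2) := by
    unfold kappaEven_rho; fun_prop
  exact Real.smoothTransition.continuous.comp h1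

theorem kappaEven_lam_continuousOn : ContinuousOn kappaEven_lam (Icc 0 1) := by
  have hm := kappaEven_m_continuous
  have h1 : Continuous (fun t : ℝ => 50 * (kappaEven_rho t ^ 2) ^ 2) := by
    unfold kappaEven_rho; fun_prop
  unfold kappaEven_lam
  refine (continuous_const.sub hm).continuousOn.add (hm.continuousOn.div h1.continuousOn ?_)
  intro t ht
  have := kappaEven_rho_pos ht
  positivity

theorem kappaEven_mu_continuousOn : ContinuousOn kappaEven_mu (Icc 0 1) := by
  have hm := kappaEven_m_continuous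
  have h1 : Continuous kappaEven_N := by
    unfold kappaEven_N kappaEven_rho; fun_prop
  exact kappaEven_lam_continuousOn.mul h1.continuousOn

theorem kappaEven_p_continuousOn (θ : ℝ) : ContinuousOn (kappaEven_p θ) (Icc 0 1) := by
  have hm := kappaEven_m_continuous
  have h1 : Continuous (fun t => Real.cos (Real.pi * kappaEven_m t * (2 * θ + 1)) * kappaEven_C t
    - Real.sin (Real.pi * kappaEven_m t * (2 * θ + 1)) * kappaEven_S t) := by
    unfold kappaEven_C kappaEven_S kappaEven_rho; fun_prop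
  exact kappaEven_lam_continuousOn.mul h1.continuousOn

theorem kappaEven_q_continuousOn (θ : ℝ) : ContinuousOn (kappaEven_q θ) (Icc 0 1) := by
  have hm := kappaEven_m_continuous
  have h1 : Continuous (fun t => Real.sin (Real.pi * kappaEven_m t * (2 * θ + 1)) * kappaEven_C t
    + Real.cos (Real.pi * kappaEven_m t * (2 * θ + 1)) * kappaEven_S t) := by
    unfold kappaEven_C kappaEven_S kappaEven_rho; fun_prop
  exact kappaEven_lam_continuousOn.mul h1.continuousOn

theorem kappaEven_P_continuousOn {α : Type*} [TopologicalSpace α] {A : Set α}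
    {f0 f1 f2 f3 : α → ℝ} (h0 : ContinuousOn f0 A) (h1 : ContinuousOn f1 A)
    (h2 : ContinuousOn f2 A) (h3 : ContinuousOn f3 A) :
    ContinuousOn (fun t => P (f0 t) (f1 t) (f2 t) (f3 t)) A := by
  unfold P
  refine (PiLp.continuous_toLp 2 (fun _ : Fin 4 => ℝ)).comp_continuousOn ?_
  rw [continuousOn_pi]
  intro i
  fin_cases i
  · exact h0
  · exact h1
  · exact h2
  · exact h3

theorem kappaEven_w_continuousOn : ContinuousOn kappaEven_w (Icc 0 1) := by
  have hmu : ∀ t ∈ Icc (0 : ℝ) 1, kappaEven_mu t ^ 2 ≠ 0 := fun t ht =>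
    (pow_pos (kappaEven_mu_pos ht) 2).ne'
  have h1 := (kappaEven_p_continuousOn 0).div (kappaEven_mu_continuousOn.pow 2) hmu
  have h2 := ((kappaEven_q_continuousOn 0).div (kappaEven_mu_continuousOn.pow 2) hmu).neg
  exact kappaEven_P_continuousOn continuousOn_const h1 h2 continuousOn_const

/-- The frame on the three vectors. -/
theorem kappaEven_B3 {t : ℝ} (ht : t ∈ Icc (0 : ℝ) 1) (θ : ℝ) :
    B (kappaEven_h θ t) (P 0 0 0 1) = P 0 0 0 1 := by
  rw [kappaEven_B ht]; simp

theorem kappaEven_B0 {t : ℝ} (ht : t ∈ Icc (0 : ℝ) 1) (θ : ℝ) :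
    B (kappaEven_h θ t) (P (kappaEven_mu t)⁻¹ 0 0 0) = P 1 0 0 0 := by
  rw [kappaEven_B ht]
  have := (kappaEven_mu_pos ht).ne'
  simp [mul_inv_cancel₀ this]

theorem kappaEven_Bw {t : ℝ} (ht : t ∈ Icc (0 : ℝ) 1) (θ : ℝ) :
    B (kappaEven_h θ t) (kappaEven_w t) =
      P 0 (Real.cos (2 * Real.pi * θ * kappaEven_m t))
        (Real.sin (2 * Real.pi * θ * kappaEven_m t)) 0 := by
  rw [kappaEven_B ht, kappaEven_w]
  have hmu := (kappaEven_mu_pos ht).ne'
  have hpq := kappaEven_pq 0 t
  set φ := 2 * Real.pi * θ * kappaEven_m t with hφ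
  have e1 : Real.pi * kappaEven_m t * (2 * θ + 1) = Real.pi * kappaEven_m t * (2 * 0 + 1) + φ := by
    rw [hφ]; ring
  have hp : kappaEven_p θ t = Real.cos φ * kappaEven_p 0 t - Real.sin φ * kappaEven_q 0 t := by
    simp only [kappaEven_p, kappaEven_q]
    rw [e1, Real.cos_add, Real.sin_add]
    ring
  have hq : kappaEven_q θ t = Real.sin φ * kappaEven_p 0 t + Real.cos φ * kappaEven_q 0 t := by
    simp only [kappaEven_p, kappaEven_q]
    rw [e1, Real.cos_add, Real.sin_add]
    ring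
  simp only [P_one, P_two, P_zero, P_three, mul_zero]
  have h1 : kappaEven_p θ t * (kappaEven_p 0 t / kappaEven_mu t ^ 2) -
      kappaEven_q θ t * -(kappaEven_q 0 t / kappaEven_mu t ^ 2) = Real.cos φ := by
    rw [hp, hq]
    have : (Real.cos φ * kappaEven_p 0 t - Real.sin φ * kappaEven_q 0 t) *
        (kappaEven_p 0 t / kappaEven_mu t ^ 2) -
        (Real.sin φ * kappaEven_p 0 t + Real.cos φ * kappaEven_q 0 t) *
        -(kappaEven_q 0 t / kappaEven_mu t ^ 2) =
        Real.cos φ * (kappaEven_p 0 t ^ 2 + kappaEven_q 0 t ^ 2) / kappaEven_mu t ^ 2 := by ring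
    rw [this, hpq]
    field_simp
  have h2 : kappaEven_q θ t * (kappaEven_p 0 t / kappaEven_mu t ^ 2) +
      kappaEven_p θ t * -(kappaEven_q 0 t / kappaEven_mu t ^ 2) = Real.sin φ := by
    rw [hp, hq]
    have : (Real.sin φ * kappaEven_p 0 t + Real.cos φ * kappaEven_q 0 t) *
        (kappaEven_p 0 t / kappaEven_mu t ^ 2) +
        (Real.cos φ * kappaEven_p 0 t - Real.sin φ * kappaEven_q 0 t) *
        -(kappaEven_q 0 t / kappaEven_mu t ^ 2) =
        Real.sin φ * (kappaEven_p 0 t ^ 2 + kappaEven_q 0 t ^ 2) / kappaEven_mu t ^ 2 := by ring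
    rw [this, hpq]
    field_simp
  rw [h1, h2]

theorem kappaEven_mu_one : kappaEven_mu 1 = 1 := by
  simp [kappaEven_mu, kappaEven_lam, kappaEven_N, kappaEven_m_one]

theorem kappaEven_w_one : kappaEven_w 1 = P 0 1 0 0 := by
  have h1 : kappaEven_p 0 1 = 1 := by
    simp [kappaEven_p, kappaEven_lam, kappaEven_C, kappaEven_m_one]
  have h2 : kappaEven_q 0 1 = 0 := by
    simp [kappaEven_q, kappaEven_lam, kappaEven_S, kappaEven_m_one]
  rw [kappaEven_w, h1, h2, kappaEven_mu_one]
  simp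

theorem kappaEven_psi : psi (kappaEven_h 0 0) = kappaEven_h 0 1 := by
  have h := kappaEven_dp 0 0
  rw [psi, h]
  ext i
  fin_cases i
  · simp [kappaEven_h, kappaEven_rho]; norm_num
  · simp [kappaEven_h, kappaEven_rho]
  · simp [kappaEven_h, kappaEven_rho]
  · simp [kappaEven_h]

/-- B14 (KappaEven.lean) uses A11, A12, A13, B13 -/
theorem kappa_even {T : ℝ → S0.X → S0.X} (hT : S0.SFlow T)
    {Δ : ℝ → S0.X → ℝ} {κ : ℤ} (hΔ : S0.DLift T (Q 3) Δ κ) : Even κ := by
  have hS := S0_good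
  have hQ3 : ∀ x, Q 3 x = x 3 := fun x => by simp [Q]
  have hCF : S0.CF (Q 3) := Q_CF 3
  have hshift : ∀ x ∈ S0.U, ∀ m : ℤ, ∃ z, S0.r x z ∧ Q 3 z = Q 3 x + m := by
    intro x hx m
    refine ⟨x + tr ![0, 0, 0, m], r0_tr hx _, ?_⟩
    rw [hQ3, hQ3]
    simp
  have hBq : ∀ x z g, S0.r x z → Q 3 z = Q 3 x → S0.IsGraph x z g →
      (B z).comp (fderiv ℝ g x) = B x := by
    intro x z g h1 h2 h3
    rw [hQ3, hQ3] at h2
    exact B_equiv h1 h2 h3
  obtain ⟨H, hHc, hHl⟩ := Etale.exists_HH hS hT hCF hΔ hshift (B := B) B_continuousOn hBq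
  obtain ⟨hH0, hHr, hH1, hHi⟩ := Etale.HH_props hS hT hCF hΔ hshift hHl
  have hHi' := hHi (fun x hx => B_injective hx)
  -- the three vectors
  set e3 : E4 := P 0 0 0 1 with he3
  set u : ℝ → E4 := fun t => P (kappaEven_mu t)⁻¹ 0 0 0 with hu
  have hcontM : ContinuousOn (fun p : ℝ × ℝ => H p.1 (kappaEven_h 0 p.2))
      (Icc 0 1 ×ˢ Icc 0 1) := by
    intro p hp
    have h1 : ContinuousAt (fun p : ℝ × ℝ => ((p.1, kappaEven_h 0 p.2) : ℝ × E4)) p := by
      refine continuousAt_fst.prodMk ?_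
      have h2 : Continuous (fun t : ℝ => kappaEven_h 0 t) := by
        rw [← continuousOn_univ]
        exact kappaEven_P_continuousOn (by fun_prop) (by fun_prop) (by fun_prop) (by fun_prop)
      exact (h2.comp continuous_snd).continuousAt
    exact (ContinuousAt.comp (f := fun p : ℝ × ℝ => ((p.1, kappaEven_h 0 p.2) : ℝ × E4))
      (g := fun q : ℝ × E4 => H q.1 q.2)
      (hHc p.1 _ (kappaEven_mem hp.2 0)) h1).continuousWithinAt
  have hcontV : ∀ v : ℝ → E4, ContinuousOn v (Icc 0 1) →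
      ContinuousOn (fun p : ℝ × ℝ => kappaEven_J (H p.1 (kappaEven_h 0 p.2) (v p.2)))
        (Icc 0 1 ×ˢ Icc 0 1) := by
    intro v hv
    have h1 : ContinuousOn (fun p : ℝ × ℝ => v p.2) (Icc (0 : ℝ) 1 ×ˢ Icc (0 : ℝ) 1) :=
      hv.comp continuousOn_snd fun p hp => hp.2
    exact kappaEven_J_continuous.comp_continuousOn (hcontM.clm_apply h1)
  have hu_cont : ContinuousOn u (Icc 0 1) :=
    kappaEven_P_continuousOn (kappaEven_mu_continuousOn.inv₀
      fun t ht => (kappaEven_mu_pos ht).ne') continuousOn_const continuousOn_const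
      continuousOn_const
  have hM1 : ∀ t ∈ Icc (0 : ℝ) 1, H 1 (kappaEven_h 0 t) = B (kappaEven_h κ t) := by
    intro t ht
    have hx := kappaEven_mem ht 0
    have hz : kappaEven_h 0 t + tr ![0, 0, 0, κ] = kappaEven_h κ t := by
      ext i; fin_cases i <;> simp [kappaEven_h]
    have h := hH1 (kappaEven_h 0 t) (kappaEven_h 0 t + tr ![0, 0, 0, κ])
      (fun y => y + tr ![0, 0, 0, κ]) (r0_tr hx _) (by rw [hQ3, hQ3]; simp) (graph_tr hx _)
    rw [h, hz]
    have hd : fderiv ℝ (fun y : E4 => y + tr ![0, 0, 0, κ]) (kappaEven_h 0 t) =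
        ContinuousLinearMap.id ℝ E4 := by
      rw [fderiv_add_const]
      exact fderiv_id
    rw [hd, ContinuousLinearMap.comp_id]
  have h00 : (0 : ℝ) ∈ Icc (0 : ℝ) 1 := ⟨le_rfl, zero_le_one⟩
  have h11 : (1 : ℝ) ∈ Icc (0 : ℝ) 1 := ⟨zero_le_one, le_rfl⟩
  have hMper : ∀ s : ℝ, H s (kappaEven_h 0 0) =
      (H s (kappaEven_h 0 1)).comp (B (kappaEven_h 0 0)) := by
    intro s
    have hx := kappaEven_mem h00 0
    have hfr := kappaEven_frac h00 0
    have hdp : dp (kappaEven_h 0 0) < 1/25 := by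
      rw [kappaEven_dp, kappaEven_rho]; norm_num
    have hfl : fl (kappaEven_h 0 0) = 0 := by
      ext i
      fin_cases i <;> simp [fl, kappaEven_h] <;> norm_num
    have htr0 : tr 0 = 0 := by ext i; simp
    have hg := graph_psi hx (by rw [hfr]; exact hdp) 0
    rw [hfr, hfl, htr0, add_zero, kappaEven_psi] at hg
    simp only [sub_zero, add_zero] at hg
    have hr : S0.r (kappaEven_h 0 0) (kappaEven_h 0 1) := by
      rw [← kappaEven_psi]
      exact r0_psi (by rw [← hfr]; exact hx.1) hdp hfr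
    have h := hHr s (kappaEven_h 0 0) (kappaEven_h 0 1) _ hr
      (by rw [hQ3, hQ3]; simp [kappaEven_h]) hg
    rw [← h]
    congr 1
    have hpos : 0 < dp (kappaEven_h 0 0) := by
      rw [kappaEven_dp, kappaEven_rho]; norm_num
    have : B (kappaEven_h 0 0) = LinearMap.toContinuousLinearMap (bL 1 (kappaEven_h 0 0)) := by
      have hm0 : sig (dp (kappaEven_h 0 0)) = 1 := by
        rw [kappaEven_dp]; exact kappaEven_m_zero
      rw [B, hfr, hm0]
    rw [this]
    exact fderiv_psi_eq hpos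
  refine spin (κ := κ) (a := fun p => kappaEven_J (H p.1 (kappaEven_h 0 p.2) e3))
    (b := fun p => kappaEven_J (H p.1 (kappaEven_h 0 p.2) (u p.2)))
    (c := fun p => kappaEven_J (H p.1 (kappaEven_h 0 p.2) (kappaEven_w p.2)))
    (m := kappaEven_m) (hcontV _ continuousOn_const) (hcontV _ hu_cont)
    (hcontV _ kappaEven_w_continuousOn) kappaEven_m_continuous.continuousOn ?_ ?_ ?_
    kappaEven_m_zero kappaEven_m_one ?_
  · -- linear independence
    rintro ⟨s, t⟩ ⟨hs, ht⟩
    have hmu := kappaEven_mu_pos ht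
    have hli : LinearIndependent ℝ ![e3, u t, kappaEven_w t] := by
      rw [Fintype.linearIndependent_iff]
      intro g hg
      simp only [Fin.sum_univ_three, Matrix.cons_val_zero, Matrix.cons_val_one,
        Matrix.cons_val_two, Matrix.tail_cons, Matrix.head_cons] at hg
      have hc : ∀ i, (g 0 • e3 + g 1 • u t + g 2 • kappaEven_w t) i = 0 := by
        intro i; rw [hg]; rfl
      have c3 := hc 3
      have c0 := hc 0
      have c1 := hc 1
      have c2 := hc 2
      simp only [he3, hu, kappaEven_w, PiLp.add_apply, PiLp.smul_apply, P_zero, P_one, P_two,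
        P_three, smul_eq_mul, mul_zero, mul_one, add_zero, zero_add] at c0 c1 c2 c3
      have hpq := kappaEven_pq 0 t
      have g0 : g 0 = 0 := c3
      have g1 : g 1 = 0 := by
        rcases mul_eq_zero.1 c0 with h | h
        · exact h
        · exact absurd h (inv_pos.2 hmu).ne'
      have g2 : g 2 = 0 := by
        by_contra hne
        rcases mul_eq_zero.1 c1 with h | h
        · exact hne h
        rcases mul_eq_zero.1 c2 with h' | h'
        · exact hne h'
        have hmu2 : kappaEven_mu t ^ 2 ≠ 0 := (pow_pos hmu 2).ne'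
        have hp0 : kappaEven_p 0 t = 0 := by
          rcases div_eq_zero_iff.1 h with h | h
          · exact h
          · exact absurd h hmu2
        have hq0 : kappaEven_q 0 t = 0 := by
          rcases div_eq_zero_iff.1 (neg_eq_zero.1 h') with h | h
          · exact h
          · exact absurd h hmu2
        rw [hp0, hq0] at hpq
        exact hmu2 (by rw [← hpq]; ring)
      intro i
      fin_cases i
      · exact g0
      · exact g1
      · exact g2
    have hinj : Function.Injective (kappaEven_JL.comp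
        (H s (kappaEven_h 0 t) : E4 →ₗ[ℝ] E4)) :=
      kappaEven_J_injective.comp (hHi' s _ (kappaEven_mem ht 0))
    have h2 := hli.map' _ (LinearMap.ker_eq_bot.2 hinj)
    have h3 : (⇑(kappaEven_JL.comp (H s (kappaEven_h 0 t) : E4 →ₗ[ℝ] E4)) ∘
        ![e3, u t, kappaEven_w t]) = ![kappaEven_J (H s (kappaEven_h 0 t) e3),
        kappaEven_J (H s (kappaEven_h 0 t) (u t)),
        kappaEven_J (H s (kappaEven_h 0 t) (kappaEven_w t))] := by
      funext i
      fin_cases i <;> rfl
    rw [h3] at h2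
    exact h2
  · -- s = 0
    intro t ht
    have hB := hH0 _ (kappaEven_mem ht 0)
    refine ⟨?_, ?_, ?_⟩
    · simp only [hB, he3]
      rw [kappaEven_B3 ht]
      first | done | (ext <;> simp [kappaEven_J])
    · simp only [hB, hu]
      rw [kappaEven_B0 ht]
      first | done | rfl | (ext <;> simp [kappaEven_J])
    · simp only [hB]
      rw [kappaEven_Bw ht, kappaEven_J]
      simp only [P_zero, P_one, P_two, P_three, mul_zero, zero_mul, Real.cos_zero, Real.sin_zero]
      first | done | rfl | (ext <;> simp)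
  · -- periodicity in t
    intro s hs
    have hm := hMper s
    refine ⟨?_, ?_, ?_⟩
    · simp only [hm, ContinuousLinearMap.comp_apply, he3]
      rw [kappaEven_B3 h00]
    · simp only [hm, ContinuousLinearMap.comp_apply, hu]
      rw [kappaEven_B0 h00, kappaEven_mu_one, inv_one]
    · simp only [hm, ContinuousLinearMap.comp_apply]
      rw [kappaEven_Bw h00, kappaEven_w_one]
      simp
  · -- s = 1
    intro t ht
    have hB := hM1 t ht
    refine ⟨?_, ?_, ?_⟩
    · simp only [hB, he3]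
      rw [kappaEven_B3 ht]
      first | done | (ext <;> simp [kappaEven_J])
    · simp only [hB, hu]
      rw [kappaEven_B0 ht]
      first | done | rfl | (ext <;> simp [kappaEven_J])
    · simp only [hB]
      rw [kappaEven_Bw ht]
      first | done | rfl | (ext <;> simp [kappaEven_J])

end SphTw
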