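import Pool.Agent.Lib.MP_3f8e0b_gt.Basic
import Pool.Agent.Lib.MP_3f8e0b_gt.Green

/-!
# MP_3f8e0b_gt, task A10: the product relation between two degrees
-/

open Set Filter Topology
open scoped ContDiff Manifold

namespace SphTw

namespace Etale

variable {E : Type*} [NormedAddCommGroup E] [NormedSpace ℝ E] {S : Etale E}

theorem kappaMul_smooth {T : ℝ → S.X → S.X} {Q : E → ℝ} (hQ : S.CF Q) {ΔQ : ℝ → S.X → ℝ}
    {κQ : ℤ} (hΔQ : S.DLift T Q ΔQ κQ) {s t : ℝ} {x₀ w : E} (hx : x₀ + t • w ∈ S.U) :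
    ContDiffAt ℝ ∞ (fun p : ℝ × ℝ => Q (x₀ + p.2 • w) + ΔQ p.1 (S.pr (x₀ + p.2 • w))) (s, t) := by
  have h1 : ContDiff ℝ ∞ (fun p : ℝ × ℝ => x₀ + p.2 • w) :=
    contDiff_const.add (contDiff_snd.smul contDiff_const)
  have h2 : ContDiffAt ℝ ∞ (fun p : ℝ × ℝ => Q (x₀ + p.2 • w)) (s, t) :=
    ContDiffAt.comp (s, t) (f := fun p : ℝ × ℝ => x₀ + p.2 • w) (g := Q) (hQ.smooth _ hx)
      h1.contDiffAt
  have h3 : ContDiff ℝ ∞ (fun p : ℝ × ℝ => (p.1, x₀ + p.2 • w)) := contDiff_fst.prodMk h1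
  have h4 : ContDiffAt ℝ ∞ (fun p : ℝ × ℝ => ΔQ p.1 (S.pr (x₀ + p.2 • w))) (s, t) :=
    ContDiffAt.comp (s, t) (f := fun p : ℝ × ℝ => (p.1, x₀ + p.2 • w))
      (g := fun p : ℝ × E => ΔQ p.1 (S.pr p.2)) (hΔQ.smooth s _ hx) h3.contDiffAt
  exact h2.add h4

theorem kappaMul_fderiv {T : ℝ → S.X → S.X} {Q : E → ℝ} (hQ : S.CF Q)
    {ΔQ : ℝ → S.X → ℝ} {κQ : ℤ} (hΔQ : S.DLift T Q ΔQ κQ) (hU : IsOpen S.U)
    {s t : ℝ} {x₀ w z : E} (hx : x₀ + t • w ∈ S.U) (hz : z ∈ S.U) {Z : ℝ × E → E}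
    (hZ : S.Lift T s (x₀ + t • w) z Z) (h0 : fderiv ℝ Q z = 0) :
    fderiv ℝ (fun p : ℝ × ℝ => Q (x₀ + p.2 • w) + ΔQ p.1 (S.pr (x₀ + p.2 • w))) (s, t) = 0 := by
  obtain ⟨hZ1, hZ2, hZ3⟩ := hZ
  have h1 : ContDiff ℝ ∞ (fun p : ℝ × ℝ => x₀ + p.2 • w) :=
    contDiff_const.add (contDiff_snd.smul contDiff_const)
  have h3 : ContDiff ℝ ∞ (fun p : ℝ × ℝ => (p.1, x₀ + p.2 • w)) := contDiff_fst.prodMk h1
  have hi : Tendsto (fun p : ℝ × ℝ => (p.1, x₀ + p.2 • w)) (𝓝 (s, t)) (𝓝 (s, x₀ + t • w)) :=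
    h3.continuous.continuousAt
  have hi2 : Tendsto (fun p : ℝ × ℝ => x₀ + p.2 • w) (𝓝 (s, t)) (𝓝 (x₀ + t • w)) :=
    h1.continuous.continuousAt
  have hA := kappaMul_smooth hQ hΔQ (s := s) hx
  have hZi : ContDiffAt ℝ ∞ (fun p : ℝ × ℝ => Z (p.1, x₀ + p.2 • w)) (s, t) :=
    ContDiffAt.comp (s, t) (f := fun p : ℝ × ℝ => (p.1, x₀ + p.2 • w)) (g := Z)
      hZ1.self_of_nhds h3.contDiffAt
  have hQz : ContDiffAt ℝ ∞ Q (Z (s, x₀ + t • w)) := by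
    rw [hZ2]; exact hQ.smooth z hz
  have hQZ : ContDiffAt ℝ ∞ (fun p : ℝ × ℝ => Q (Z (p.1, x₀ + p.2 • w))) (s, t) :=
    ContDiffAt.comp (s, t) (f := fun p : ℝ × ℝ => Z (p.1, x₀ + p.2 • w)) (g := Q) hQz hZi
  set A : ℝ × ℝ → ℝ := fun p => Q (x₀ + p.2 • w) + ΔQ p.1 (S.pr (x₀ + p.2 • w)) with hAdef
  set B : ℝ × ℝ → ℝ := fun p => Q (Z (p.1, x₀ + p.2 • w)) with hBdef
  have hint : ∀ᶠ p in 𝓝 ((s, t) : ℝ × ℝ), ∃ m : ℤ, B p - A p = m := by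
    filter_upwards [hi.eventually hZ3, hi2.eventually (hU.mem_nhds hx)] with p hp hp2
    obtain ⟨m, hm⟩ := hΔQ.eq p.1 (x₀ + p.2 • w) hp2 (Z (p.1, x₀ + p.2 • w)) hp.1 hp.2
    exact ⟨m, by simp only [hAdef, hBdef]; rw [hm]; ring⟩
  have hcont : ContinuousAt (fun p => B p - A p) (s, t) :=
    hQZ.continuousAt.sub hA.continuousAt
  have hconst : A =ᶠ[𝓝 (s, t)] fun p => B p - (B (s, t) - A (s, t)) := by
    obtain ⟨m0, hm0⟩ := hint.self_of_nhds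
    have h5 : ∀ᶠ p in 𝓝 ((s, t) : ℝ × ℝ), |(B p - A p) - (B (s, t) - A (s, t))| < 1 := by
      have := hcont.eventually (Metric.ball_mem_nhds (B (s, t) - A (s, t)) one_pos)
      filter_upwards [this] with p hp
      rwa [Real.dist_eq] at hp
    filter_upwards [hint, h5] with p hp hp2
    obtain ⟨m, hm⟩ := hp
    rw [hm, hm0] at hp2
    have h6 : |m - m0| < 1 := by exact_mod_cast hp2
    have h7 : m = m0 := by
      have := Int.abs_lt_one_iff.1 h6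
      omega
    rw [hm0, ← h7, ← hm]
    ring
  rw [hconst.fderiv_eq, fderiv_sub_const]
  have h8 : fderiv ℝ B (s, t) = (fderiv ℝ Q (Z (s, x₀ + t • w))).comp
      (fderiv ℝ (fun p : ℝ × ℝ => Z (p.1, x₀ + p.2 • w)) (s, t)) := by
    rw [hBdef]
    exact fderiv_comp (s, t) (g := Q) (f := fun p : ℝ × ℝ => Z (p.1, x₀ + p.2 • w))
      (hQz.differentiableAt (by simp)) (hZi.differentiableAt (by simp))
  rw [h8, hZ2, h0]
  simp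

/-- A10 -/
theorem kappa_mul (hS : S.Good) {T : ℝ → S.X → S.X} (hT : S.SFlow T) {Q D : E → ℝ}
    (hQ : S.CF Q) (hD : S.CF D) {ΔQ ΔD : ℝ → S.X → ℝ} {κQ κD : ℤ}
    (hΔQ : S.DLift T Q ΔQ κQ) (hΔD : S.DLift T D ΔD κD)
    (hperp : ∀ x ∈ S.U, fderiv ℝ Q x = 0 ∨ fderiv ℝ D x = 0)
    {x₀ w : E} (hseg : ∀ t ∈ Icc (0 : ℝ) 1, x₀ + t • w ∈ S.U) (hr : S.r x₀ (x₀ + w)) :
    (κQ : ℝ) * (D (x₀ + w) - D x₀) = κD * (Q (x₀ + w) - Q x₀) := by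
  have hV : IsOpen {p : ℝ × ℝ | x₀ + p.2 • w ∈ S.U} := by
    refine hS.isOpen_U.preimage ?_
    fun_prop
  refine green_square (A := fun p : ℝ × ℝ => Q (x₀ + p.2 • w) + ΔQ p.1 (S.pr (x₀ + p.2 • w)))
    (D := fun p : ℝ × ℝ => D (x₀ + p.2 • w) + ΔD p.1 (S.pr (x₀ + p.2 • w)))
    hV ?_ ?_ ?_ ?_ ?_ ?_ ?_ ?_
  · rintro ⟨s, t⟩ ⟨-, ht⟩
    exact hseg t ht
  · rintro ⟨s, t⟩ hp
    exact (kappaMul_smooth hQ hΔQ hp).contDiffWithinAt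
  · rintro ⟨s, t⟩ hp
    exact (kappaMul_smooth hD hΔD hp).contDiffWithinAt
  · rintro ⟨s, t⟩ hp
    have hp' : x₀ + t • w ∈ S.U := hp
    obtain ⟨z, hz, hzT⟩ := S.pr_surj (T s (S.pr (x₀ + t • w)))
    obtain ⟨Z, hZ⟩ := hT.lift s _ hp' z hz hzT
    rcases hperp z hz with h | h
    · rw [kappaMul_fderiv hQ hΔQ hS.isOpen_U hp' hz hZ h]
      simp
    · rw [kappaMul_fderiv hD hΔD hS.isOpen_U hp' hz hZ h]
      simp
  · intro t _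
    simp only [hΔQ.one, hΔQ.zero]
    ring
  · intro t _
    simp only [hΔD.one, hΔD.zero]
    ring
  · intro s _
    have h1 : S.pr (x₀ + w) = S.pr x₀ := (hS.pr_eq hr).symm
    simp only [one_smul, zero_smul, add_zero, h1]
    ring
  · intro s _
    have h1 : S.pr (x₀ + w) = S.pr x₀ := (hS.pr_eq hr).symm
    simp only [one_smul, zero_smul, add_zero, h1]
    ring

end Etale

end SphTw
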