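import Pool.Agent.Lib.MP_3f8e0b_gt.AlphaBeta
import Pool.Agent.Lib.MP_3f8e0b_gt.Rel
import Pool.Agent.Lib.MP_3f8e0b_gt.CircFun
import Pool.Agent.Lib.MP_3f8e0b_gt.S0Good
import Pool.Agent.Lib.MP_3f8e0b_gt.Conn
import Pool.Agent.Lib.MP_3f8e0b_gt.DLiftB
import Pool.Agent.Lib.MP_3f8e0b_gt.KappaMul

/-!
# The circle degrees of the first three circle functions vanish (B11)
-/

open Set Filter Topology
open scoped ContDiff Manifold

namespace SphTw

theorem KappaZero_frac_of_P {a b c d : ℝ} (ha : a ∈ Ico (0 : ℝ) 1) (hb : b ∈ Ico (0 : ℝ) 1)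
    (hc : c ∈ Ico (0 : ℝ) 1) : frac (P a b c d) = P a b c d :=
  frac_eq_self (x := P a b c d) ha hb hc

theorem KappaZero_add (a b c d a' b' c' d' : ℝ) :
    P a b c d + P a' b' c' d' = P (a + a') (b + b') (c + c') (d + d') := by
  ext i
  fin_cases i <;> rfl

theorem KappaZero_smul (t a b c d : ℝ) :
    t • P a b c d = P (t * a) (t * b) (t * c) (t * d) := by
  ext i
  fin_cases i <;> rfl

/-- the segment from `0` to the unit vector `e_i` stays in `U0` -/
theorem KappaZero_seg (i : Fin 4) (m : Fin 4 → ℤ) (hm : m = Pi.single i 1) (hi : i ≠ 3) (t : ℝ) :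
    (0 : E4) + t • tr m ∈ U0 := by
  subst hm
  have key : ∀ j : Fin 4, ((0 : E4) + t • tr (Pi.single i 1)) j = if j = i then t else 0 := by
    intro j
    simp only [PiLp.smul_apply, tr_apply, smul_eq_mul, zero_add]
    by_cases h : j = i
    · subst h; simp
    · simp [h]
  have h01 : ∀ j : Fin 4, j ≠ i → ((0 : E4) + t • tr (Pi.single i 1)) j = 0 := by
    intro j hj
    rw [key j, if_neg hj]
  set x : E4 := (0 : E4) + t • tr (Pi.single i 1) with hx
  have hf0 : frac x 0 = Int.fract (x 0) := rfl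
  have hf1 : frac x 1 = Int.fract (x 1) := rfl
  have hf2 : frac x 2 = Int.fract (x 2) := rfl
  unfold U0 dp dm
  simp only [mem_ofPred_eq]
  rw [hf0, hf1, hf2]
  have hc : i = 0 ∨ i = 1 ∨ i = 2 := by
    fin_cases i
    · exact Or.inl rfl
    · exact Or.inr (Or.inl rfl)
    · exact Or.inr (Or.inr rfl)
    · exact absurd rfl hi
  rcases hc with rfl | rfl | rfl
  · rw [h01 1 (by decide), h01 2 (by decide)]
    simp only [Int.fract_zero]
    constructor <;> nlinarith [sq_nonneg (Int.fract (x 0) - 1/4), sq_nonneg (Int.fract (x 0) - 3/4)]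
  · rw [h01 0 (by decide), h01 2 (by decide)]
    simp only [Int.fract_zero]
    constructor <;> nlinarith [sq_nonneg (Int.fract (x 1) - 1/2)]
  · rw [h01 0 (by decide), h01 1 (by decide)]
    simp only [Int.fract_zero]
    constructor <;> nlinarith [sq_nonneg (Int.fract (x 2) - 1/2)]

theorem KappaZero_psi : psi (P (3/8) (1/2) (1/2) 0) = P (3/8) (1/2) (1/2) 0 + P (43/200) 0 0 0 := by
  have hdp : dp (P (3/8) (1/2) (1/2) 0) = 1/64 := by
    unfold dp; simp only [P_zero, P_one, P_two]; norm_num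
  rw [KappaZero_add]
  unfold psi
  rw [hdp]
  simp only [P_zero, P_one, P_two, P_three]
  ext i
  fin_cases i <;> simp [P] <;> norm_num

/-- B11 (KappaZero.lean) -/
theorem kappa_zero {T : ℝ → S0.X → S0.X} (hT : S0.SFlow T) {i : Fin 4} (hi : i ≠ 3)
    {Δ : ℝ → S0.X → ℝ} {κ : ℤ} (hΔ : S0.DLift T (Q i) Δ κ) : κ = 0 := by
  haveI := connectedSpace_S0
  obtain ⟨ΔD, κD, hΔD⟩ := Etale.exists_dlift S0_good hT dh_CF
  have hperp : ∀ x ∈ S0.U, fderiv ℝ (Q i) x = 0 ∨ fderiv ℝ dh x = 0 :=
    fun x hx => Q_dh_perp hi hx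
  -- first path
  have h1 := Etale.kappa_mul S0_good hT (Q_CF i) dh_CF hΔ hΔD hperp
    (x₀ := 0) (w := tr (Pi.single i 1))
    (fun t _ => KappaZero_seg i _ rfl hi t) (r0_tr zero_mem_U0 _)
  have hdh : dh ((0 : E4) + tr (Pi.single i 1)) = dh 0 := by
    unfold dh
    rw [dp_frac_add_tr, dm_frac_add_tr]
  have hQ : Q i ((0 : E4) + tr (Pi.single i 1)) - Q i 0 = 1 := by
    unfold Q
    rw [if_neg hi, if_neg hi]
    have : ((0 : E4) + tr (Pi.single i 1)) i = (0 : E4) i + 1 := by
      simp only [PiLp.add_apply, tr_apply, Pi.single_eq_same, Int.cast_one]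
    rw [this, alpha_add_one]
    ring
  rw [hdh, hQ, sub_self, mul_zero, mul_one] at h1
  have hκD : κD = 0 := by
    have : (κD : ℝ) = 0 := h1.symm
    exact_mod_cast this
  -- second path
  have hdp : dp (P (3/8) (1/2) (1/2) 0) = 1/64 := by
    unfold dp; simp only [P_zero, P_one, P_two]; norm_num
  have hfr : frac (P (3/8) (1/2) (1/2) 0) = P (3/8) (1/2) (1/2) 0 :=
    KappaZero_frac_of_P (by constructor <;> norm_num) (by constructor <;> norm_num)
      (by constructor <;> norm_num)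
  have hr : r0 (P (3/8) (1/2) (1/2) 0) (P (3/8) (1/2) (1/2) 0 + P (43/200) 0 0 0) := by
    rw [← KappaZero_psi]
    exact r0_psi (by rw [hdp]; norm_num) (by rw [hdp]; norm_num) hfr
  have hseg : ∀ t ∈ Icc (0 : ℝ) 1,
      P (3/8) (1/2) (1/2) 0 + t • P (43/200) 0 0 0 ∈ S0.U := by
    intro t ht
    rw [KappaZero_smul, KappaZero_add]
    show _ ∈ U0
    unfold U0
    have hfr' : frac (P (3/8 + t * (43/200)) (1/2 + t * 0) (1/2 + t * 0) (0 + t * 0)) =
        P (3/8 + t * (43/200)) (1/2 + t * 0) (1/2 + t * 0) (0 + t * 0) := by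
      apply KappaZero_frac_of_P
      · constructor <;> nlinarith [ht.1, ht.2]
      · constructor <;> norm_num
      · constructor <;> norm_num
    simp only [mem_ofPred_eq]
    rw [hfr']
    unfold dp dm
    simp only [P_zero, P_one, P_two]
    constructor <;> nlinarith [ht.1, ht.2, mul_nonneg ht.1 (sub_nonneg.2 ht.2), mul_nonneg ht.1 ht.1]
  have h2 := Etale.kappa_mul S0_good hT (Q_CF i) dh_CF hΔ hΔD hperp hseg hr
  rw [hκD] at h2
  have hfr2 : frac (P (3/8) (1/2) (1/2) 0 + P (43/200) 0 0 0) =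
      P (3/8 + 43/200) (1/2 + 0) (1/2 + 0) (0 + 0) := by
    rw [KappaZero_add]
    exact KappaZero_frac_of_P (by constructor <;> norm_num) (by constructor <;> norm_num)
      (by constructor <;> norm_num)
  have hd1 : dh (P (3/8) (1/2) (1/2) 0) = beta (1/64) := by
    unfold dh
    rw [hfr, hdp]
    have : dm (P (3/8) (1/2) (1/2) 0) = 9/64 := by
      unfold dm; simp only [P_zero, P_one, P_two]; norm_num
    rw [this, beta_eq_zero (ρ := 9/64) (by norm_num)]
    ring
  have hd2 : dh (P (3/8) (1/2) (1/2) 0 + P (43/200) 0 0 0) = - beta (16/625) := by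
    unfold dh
    rw [hfr2]
    have e1 : dm (P (3/8 + 43/200) (1/2 + 0) (1/2 + 0) (0 + 0)) = 16/625 := by
      unfold dm; simp only [P_zero, P_one, P_two]; norm_num
    have e2 : dp (P (3/8 + 43/200) (1/2 + 0) (1/2 + 0) (0 + 0)) = 289/2500 := by
      unfold dp; simp only [P_zero, P_one, P_two]; norm_num
    rw [e1, e2, beta_eq_zero (ρ := 289/2500) (by norm_num)]
    ring
  have hb : beta (1/64) + beta (16/625) = 1 := by
    have := beta_add (ρ := 1/64) (by norm_num)
    rw [show (1 : ℝ) / (2500 * (1/64)) = 16/625 by norm_num] at this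
    exact this
  rw [hd1, hd2] at h2
  have h3 : (κ : ℝ) = 0 := by
    have e : (-beta (16/625) - beta (1/64) : ℝ) = -1 := by linarith
    rw [e] at h2
    push_cast at h2
    linarith
  exact_mod_cast h3

end SphTw
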