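import Pool.Agent.Lib.MP_3f8e0b_gt.DLiftB
import Pool.Agent.Lib.MP_3f8e0b_gt.KappaZero
import Pool.Agent.Lib.MP_3f8e0b_gt.KappaEven
import Pool.Agent.Lib.MP_3f8e0b_gt.Invol

/-!
# The time one half map of a period one flow is the identity
-/

open Set Filter Topology
open scoped ContDiff Manifold

namespace SphTw

/-- The degrees `κ i` of the orbits of a period one flow are even. -/
theorem half_even {T : ℝ → S0.X → S0.X} (hT : S0.SFlow T) (i : Fin 4)
    {Δ : ℝ → S0.X → ℝ} {κ : ℤ} (hΔ : S0.DLift T (Q i) Δ κ) : Even κ := by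
  by_cases hi : i = 3
  · subst hi
    exact kappa_even hT hΔ
  · rw [kappa_zero hT hi hΔ]
    exact Even.zero

theorem half {T : ℝ → S0.X → S0.X} (hT : S0.SFlow T) : ∀ q, T (1/2) q = q := by
  have hS := S0_good
  have := connectedSpace_S0
  have h1 : ∀ i : Fin 4, ∃ (Δ : ℝ → S0.X → ℝ) (κ : ℤ), S0.DLift T (Q i) Δ κ :=
    fun i => Etale.exists_dlift hS hT (Q_CF i)
  choose Δ κ hΔ using h1
  have hev : ∀ i, ∃ j : ℤ, κ i = j + j := fun i => half_even hT i (hΔ i)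
  choose j hj using hev
  have hΔs : ∀ i, ∀ x ∈ S0.U, ContDiffAt ℝ ∞ (fun x => Δ i (1/2) (S0.pr x)) x := by
    intro i x hx
    have h2 := (hΔ i).smooth (1/2) x hx
    exact h2.comp x (contDiffAt_const.prodMk contDiffAt_id)
  have hsum : ∀ i q, Δ i (1/2) (T (1/2) q) + Δ i (1/2) q = j i + j i := by
    intro i q
    rw [← (hΔ i).add, show (1:ℝ)/2 + 1/2 = 1 by norm_num, (hΔ i).one, hj i]
    push_cast
    ring
  have hgg : ∀ q, T (1/2) (T (1/2) q) = q := by
    intro q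
    rw [← hT.add, show (1:ℝ)/2 + 1/2 = 1 by norm_num, hT.one]
  refine involution_trivial (F := fun i x => Q i x + Δ i (1/2) (S0.pr x) / 2) ?_ ?_ hgg ?_ ?_
  · intro i
    refine ⟨fun x hx => ((Q_CF i).smooth x hx).add ((hΔs i x hx).div_const 2), ?_⟩
    intro x z hxz
    obtain ⟨m, hm⟩ := (Q_CF i).per hxz
    refine ⟨m, ?_⟩
    show Q i z + Δ i (1/2) (S0.pr z) / 2 = Q i x + Δ i (1/2) (S0.pr x) / 2 + m
    rw [hm, hS.pr_eq hxz]
    ring
  · intro i
    have h3 : (fun x => Q i x + Δ i (1/2) (S0.pr x) / 2 - Q i x)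
        = fun x => Δ i (1/2) (S0.pr x) / 2 := by
      funext x; ring
    rw [h3]
    refine ⟨fun x hx => (hΔs i x hx).div_const 2, ?_⟩
    intro x z hxz
    show Δ i (1/2) (S0.pr z) / 2 = Δ i (1/2) (S0.pr x) / 2
    rw [hS.pr_eq hxz]
  · intro x hx z hz hxz
    obtain ⟨Z, hZ1, hZ2, hZ3⟩ := hT.lift (1/2) x hx z hz hxz
    have hc : Tendsto (fun y : E4 => ((1/2 : ℝ), y)) (𝓝 x) (𝓝 ((1/2 : ℝ), x)) :=
      tendsto_const_nhds.prodMk_nhds tendsto_id
    refine ⟨fun y => Z (1/2, y), ?_, hZ2, ?_⟩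
    · filter_upwards [hc.eventually hZ1] with y hy
      exact hy.comp y (contDiffAt_const.prodMk contDiffAt_id)
    · filter_upwards [hc.eventually hZ3] with y hy
      exact hy
  · intro x hx z hz hxz i
    obtain ⟨m, hm⟩ := (hΔ i).eq (1/2) x hx z hz hxz
    refine ⟨m + j i, ?_⟩
    have h4 := hsum i (S0.pr x)
    rw [← hxz] at h4
    show Q i z + Δ i (1/2) (S0.pr z) / 2 = Q i x + Δ i (1/2) (S0.pr x) / 2 + ((m + j i : ℤ) : ℝ)
    rw [hm]
    push_cast
    linarith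

end SphTw
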