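import Pool.Agent.Lib.MP_3f8e0b_gt.Basic

/-!
# C11: the local degree formula
-/

open Set Filter Topology MeasureTheory
open scoped ContDiff Manifold

noncomputable section

namespace SphTw

private lemma localDeg_det_cont {V : Set E4} {f : E4 → E4}
    (hf : ∀ x ∈ V, ContDiffAt ℝ ∞ f x) {x : E4} (hx : x ∈ V) :
    ContinuousAt (fun z => (fderiv ℝ f z).det) x := by
  have h1 : ContDiffAt ℝ 0 (fderiv ℝ f) x := (hf x hx).fderiv_right (m := 0) (by simp)
  exact ContinuousLinearMap.continuous_det.continuousAt.comp h1.continuousAt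

private lemma localDeg_nhd {C V : Set E4} (hCV : C ⊆ V)
    {f : E4 → E4} (hf : ∀ x ∈ V, ContDiffAt ℝ ∞ f x) {y : E4}
    (hy : ∀ x ∈ C, f x = y → x ∈ interior C ∧ (fderiv ℝ f x).det ≠ 0) {x : E4}
    (hx : x ∈ C) (hfx : f x = y) :
    ∃ W : Set E4, IsOpen W ∧ x ∈ W ∧ W ⊆ C ∧ InjOn f W ∧
      (∀ z ∈ W, SignType.sign (fderiv ℝ f z).det = SignType.sign (fderiv ℝ f x).det) := by
  obtain ⟨hint, hdet⟩ := hy x hx hfx
  set f' : E4 ≃L[ℝ] E4 := (fderiv ℝ f x).toContinuousLinearEquivOfDetNeZero hdet with hf'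
  have hstrict : HasStrictFDerivAt f (f' : E4 →L[ℝ] E4) x := by
    have h := (hf x (hCV hx)).hasStrictFDerivAt (by simp)
    rw [hf', ContinuousLinearMap.coe_toContinuousLinearEquivOfDetNeZero]
    exact h
  set Φ := hstrict.toOpenPartialHomeomorph f with hΦ
  have hsrc : Φ.source ∈ 𝓝 x :=
    Φ.open_source.mem_nhds hstrict.mem_toOpenPartialHomeomorph_source
  have hinj : InjOn f Φ.source := by
    have := Φ.injOn
    rwa [HasStrictFDerivAt.toOpenPartialHomeomorph_coe] at this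
  have hc := localDeg_det_cont hf (hCV hx)
  have hsign : ∀ᶠ z in 𝓝 x,
      SignType.sign (fderiv ℝ f z).det = SignType.sign (fderiv ℝ f x).det := by
    rcases lt_or_gt_of_ne hdet with hneg | hpos
    · have h1 : ∀ᶠ z in 𝓝 x, (fderiv ℝ f z).det < 0 := hc.eventually (gt_mem_nhds hneg)
      filter_upwards [h1] with z hz
      rw [sign_neg hz, sign_neg hneg]
    · have h1 : ∀ᶠ z in 𝓝 x, 0 < (fderiv ℝ f z).det := hc.eventually (lt_mem_nhds hpos)
      filter_upwards [h1] with z hz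
      rw [sign_pos hz, sign_pos hpos]
  have hall : ∀ᶠ z in 𝓝 x, z ∈ Φ.source ∧ z ∈ interior C ∧
      SignType.sign (fderiv ℝ f z).det = SignType.sign (fderiv ℝ f x).det :=
    (Filter.eventually_mem_set.mpr hsrc).and
      ((isOpen_interior.eventually_mem hint).and hsign)
  obtain ⟨W, hW, hWo, hxW⟩ := eventually_nhds_iff.mp hall
  exact ⟨W, hWo, hxW, fun z hz => interior_subset (hW z hz).2.1,
    hinj.mono fun z hz => (hW z hz).1, fun z hz => (hW z hz).2.2⟩

private lemma localDeg_image {C V : Set E4} (hCV : C ⊆ V)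
    {f : E4 → E4} (hf : ∀ x ∈ V, ContDiffAt ℝ ∞ f x) {y : E4}
    (hy : ∀ x ∈ C, f x = y → x ∈ interior C ∧ (fderiv ℝ f x).det ≠ 0) {x : E4}
    (hx : x ∈ C) (hfx : f x = y) {W : Set E4} (hW : IsOpen W) (hxW : x ∈ W) :
    f '' W ∈ 𝓝 y := by
  obtain ⟨hint, hdet⟩ := hy x hx hfx
  set f' : E4 ≃L[ℝ] E4 := (fderiv ℝ f x).toContinuousLinearEquivOfDetNeZero hdet with hf'
  have hstrict : HasStrictFDerivAt f (f' : E4 →L[ℝ] E4) x := by
    have h := (hf x (hCV hx)).hasStrictFDerivAt (by simp)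
    rw [hf', ContinuousLinearMap.coe_toContinuousLinearEquivOfDetNeZero]
    exact h
  have h := hstrict.map_nhds_eq_of_equiv
  rw [hfx] at h
  rw [← h]
  exact Filter.image_mem_map (hW.mem_nhds hxW)

/-- C11 (LocalDeg.lean): pure analysis. -/
theorem local_degree {C V : Set E4} (hC : IsCompact C) (hV : IsOpen V) (hCV : C ⊆ V)
    {f : E4 → E4} (hf : ∀ x ∈ V, ContDiffAt ℝ ∞ f x) {y : E4}
    (hy : ∀ x ∈ C, f x = y → x ∈ interior C ∧ (fderiv ℝ f x).det ≠ 0) :
    ∃ A : Finset E4, (∀ x, x ∈ A ↔ x ∈ C ∧ f x = y) ∧ ∃ ε > 0, ∀ φ : E4 → ℝ, Continuous φ →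
      (∀ w, φ w ≠ 0 → dist w y < ε) →
        ∫ x in C, φ (f x) * (fderiv ℝ f x).det
          = ((∑ x ∈ A, (SignType.sign (fderiv ℝ f x).det : ℤ) : ℤ) : ℝ) * ∫ w, φ w := by
  classical
  have hfc : ContinuousOn f C := fun x hx => (hf x (hCV hx)).continuousAt.continuousWithinAt
  set Z : Set E4 := C ∩ f ⁻¹' {y} with hZ
  have hZc : IsCompact Z := hC.of_isClosed_subset
    (hfc.preimage_isClosed_of_isClosed hC.isClosed isClosed_singleton) inter_subset_left
  -- neighbourhoods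
  have hnh : ∀ x : E4, ∃ W : Set E4, x ∈ Z → (IsOpen W ∧ x ∈ W ∧ W ⊆ C ∧ InjOn f W ∧
      (∀ z ∈ W, SignType.sign (fderiv ℝ f z).det = SignType.sign (fderiv ℝ f x).det)) := by
    intro x
    by_cases hx : x ∈ Z
    · obtain ⟨W, h⟩ := localDeg_nhd hCV hf hy hx.1 hx.2
      exact ⟨W, fun _ => h⟩
    · exact ⟨∅, fun h => absurd h hx⟩
  choose W hW using hnh
  have hZfin : Z.Finite := by
    obtain ⟨t, ht, hcov⟩ := hZc.elim_nhds_subcover W
      (fun x hx => (hW x hx).1.mem_nhds (hW x hx).2.1)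
    refine t.finite_toSet.subset ?_
    intro z hz
    obtain ⟨x, hxt, hzx⟩ := Set.mem_iUnion₂.mp (hcov hz)
    have hxZ := ht x hxt
    have : z = x := (hW x hxZ).2.2.2.1 hzx (hW x hxZ).2.1 (hz.2.trans hxZ.2.symm)
    rw [this]
    exact hxt
  obtain ⟨U, hU, hUd⟩ := hZfin.t2_separation
  set A : Finset E4 := hZfin.toFinset with hA
  have hmemA : ∀ x, x ∈ A ↔ x ∈ C ∧ f x = y := by
    intro x
    rw [hA, Set.Finite.mem_toFinset]
    rfl
  have hAZ : ∀ x, x ∈ A → x ∈ Z := fun x hx => (hmemA x).mp hx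
  set W' : E4 → Set E4 := fun x => W x ∩ U x with hW'
  have hW'o : ∀ x ∈ A, IsOpen (W' x) := fun x hx => (hW x (hAZ x hx)).1.inter (hU x).2
  have hW'x : ∀ x ∈ A, x ∈ W' x := fun x hx => ⟨(hW x (hAZ x hx)).2.1, (hU x).1⟩
  have hW'C : ∀ x ∈ A, W' x ⊆ C := fun x hx => inter_subset_left.trans (hW x (hAZ x hx)).2.2.1
  have hW'i : ∀ x ∈ A, InjOn f (W' x) := fun x hx =>
    (hW x (hAZ x hx)).2.2.2.1.mono inter_subset_left
  have hW's : ∀ x ∈ A, ∀ z ∈ W' x,
      SignType.sign (fderiv ℝ f z).det = SignType.sign (fderiv ℝ f x).det :=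
    fun x hx z hz => (hW x (hAZ x hx)).2.2.2.2 z hz.1
  have hW'd : Set.Pairwise (↑A : Set E4) (Function.onFun Disjoint W') := by
    intro x hx z hz hne
    have := hUd (hAZ x hx) (hAZ z hz) hne
    exact Disjoint.mono inter_subset_right inter_subset_right this
  -- the complement
  set K : Set E4 := C \ ⋃ x ∈ A, W' x with hK
  have hKc : IsCompact K := hC.diff (isOpen_biUnion hW'o)
  have hfK : IsCompact (f '' K) := hKc.image_of_continuousOn (hfc.mono sdiff_subset)
  have hyK : y ∉ f '' K := by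
    rintro ⟨z, hz, hfz⟩
    have hzA : z ∈ A := (hmemA z).mpr ⟨hz.1, hfz⟩
    exact hz.2 (Set.mem_iUnion₂.mpr ⟨z, hzA, hW'x z hzA⟩)
  have hN : (⋂ x ∈ A, f '' (W' x)) ∩ (f '' K)ᶜ ∈ 𝓝 y := by
    refine Filter.inter_mem ?_ (hfK.isClosed.isOpen_compl.mem_nhds hyK)
    rw [Filter.biInter_finset_mem]
    intro x hx
    exact localDeg_image hCV hf hy (hAZ x hx).1 (hAZ x hx).2 (hW'o x hx) (hW'x x hx)
  obtain ⟨ε, hε, hball⟩ := Metric.mem_nhds_iff.mp hN
  refine ⟨A, hmemA, ε, hε, fun φ hφ hsupp => ?_⟩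
  have hdetc : ContinuousOn (fun x => (fderiv ℝ f x).det) C :=
    fun x hx => (localDeg_det_cont hf (hCV hx)).continuousWithinAt
  have hFc : ContinuousOn (fun x => φ (f x) * (fderiv ℝ f x).det) C :=
    (hφ.comp_continuousOn hfc).mul hdetc
  have hFi : IntegrableOn (fun x => φ (f x) * (fderiv ℝ f x).det) C := hFc.integrableOn_compact hC
  -- reduction to the neighbourhoods
  have h1 : ∫ x in C, φ (f x) * (fderiv ℝ f x).det
      = ∫ x in ⋃ x ∈ A, W' x, φ (f x) * (fderiv ℝ f x).det := by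
    refine setIntegral_eq_of_subset_of_forall_sdiff_eq_zero hC.measurableSet ?_ ?_
    · exact Set.iUnion₂_subset hW'C
    · intro x hx
      have hφ0 : φ (f x) = 0 := by
        by_contra hne
        have hd := hsupp _ hne
        have := (hball (Metric.mem_ball.mpr hd)).2
        exact this ⟨x, hx, rfl⟩
      rw [hφ0, zero_mul]
  rw [h1, integral_biUnion_finset A (fun x hx => (hW'o x hx).measurableSet) hW'd
    (fun x hx => hFi.mono_set (hW'C x hx))]
  have h2 : ∀ x ∈ A, ∫ z in W' x, φ (f z) * (fderiv ℝ f z).det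
      = ((SignType.sign (fderiv ℝ f x).det : ℤ) : ℝ) * ∫ w, φ w := by
    intro x hx
    have hder : ∀ z ∈ W' x, HasFDerivWithinAt f (fderiv ℝ f z) (W' x) z := by
      intro z hz
      have hd : DifferentiableAt ℝ f z :=
        (hf z (hCV (hW'C x hx hz))).differentiableAt (by simp)
      exact hd.hasFDerivAt.hasFDerivWithinAt
    have hcv := integral_image_eq_integral_abs_det_fderiv_smul (μ := (volume : Measure E4))
      (hW'o x hx).measurableSet hder (hW'i x hx) φ
    have hfull : ∫ w in f '' (W' x), φ w = ∫ w, φ w := by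
      apply setIntegral_eq_integral_of_forall_compl_eq_zero
      intro w hw
      by_contra hne
      have hd := hsupp _ hne
      have := (hball (Metric.mem_ball.mpr hd)).1
      exact hw (Set.mem_iInter₂.mp this x hx)
    rw [← hfull, hcv, ← integral_const_mul]
    refine setIntegral_congr_fun (hW'o x hx).measurableSet ?_
    intro z hz
    have hs := hW's x hx z hz
    have habs : ((SignType.sign (fderiv ℝ f x).det : ℤ) : ℝ) * |(fderiv ℝ f z).det|
        = (fderiv ℝ f z).det := by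
      rw [← hs]
      have := sign_mul_abs (fderiv ℝ f z).det
      push_cast
      exact this
    simp only [smul_eq_mul]
    rw [← mul_assoc, habs, mul_comm]
  rw [Finset.sum_congr rfl h2, ← Finset.sum_mul]
  push_cast
  rfl

end SphTw
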