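import Pool.Agent.Lib.MP_3f8e0b_gt.Chart

/-!
# MP_3f8e0b_gt: the manifold structure on the quotient
-/

open Set Filter Topology
open scoped ContDiff Manifold

namespace SphTw

namespace Etale

variable {E : Type*} [NormedAddCommGroup E] [NormedSpace ℝ E] {S : Etale E}

theorem Good.exists_mfd (hS : S.Good) : ∃ c : ChartedSpace E S.X, S.Mfd := by
  classical
  choose rep hrepU hrep using S.pr_surj
  choose ch hch1 hch2 hch3 hch4 using
    fun q : S.X => hS.exists_chart (hrepU q)
  let c : ChartedSpace E S.X :=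
    { atlas := {e | e.target ⊆ S.U ∧ ∀ y ∈ e.target, e.symm y = S.pr y}
      chartAt := ch
      mem_chart_source := fun q => by
        have h := hch1 q
        rwa [hrep q] at h
      chart_mem_atlas := fun q => ⟨hch3 q, hch4 q⟩ }
  refine ⟨c, ?_⟩
  have hatlas : ∀ e : OpenPartialHomeomorph S.X E, e ∈ @atlas E _ S.X _ c ↔
      (e.target ⊆ S.U ∧ ∀ y ∈ e.target, e.symm y = S.pr y) := fun e => Iff.rfl
  have hman : IsManifold 𝓘(ℝ, E) ∞ S.X := by
    refine isManifold_of_contDiffOn 𝓘(ℝ, E) ∞ S.X ?_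
    intro e e' he he'
    intro y hy
    have hy1 : y ∈ (e.symm ≫ₕ e').source := hy.1
    rw [OpenPartialHomeomorph.trans_source] at hy1
    have h := hS.chart_trans ((hatlas e).1 he) ((hatlas e').1 he') (y := y) hy1.1 hy1.2
    exact h.contDiffWithinAt
  refine ⟨hman, ?_, ?_⟩
  · intro x hx
    rw [contMDiffAt_iff_target]
    refine ⟨hS.continuousAt_pr hx, ?_⟩
    rw [contMDiffAt_iff_contDiffAt]
    obtain ⟨e, he1, he2, he3, he4⟩ := hS.exists_chart hx
    have hxt : x ∈ e.target := by
      rw [← he2]; exact e.map_source he1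
    have hsrc : S.pr x ∈ (chartAt E (S.pr x)).source := mem_chart_source E (S.pr x)
    have h1 := hS.chart_trans ⟨he3, he4⟩ ((hatlas _).1 (chart_mem_atlas E (S.pr x)))
      (y := x) hxt (by rw [he4 x hxt]; exact hsrc)
    refine h1.congr_of_eventuallyEq ?_
    filter_upwards [e.open_target.mem_nhds hxt] with y hy
    simp only [Function.comp_apply]
    rw [he4 y hy]
    rfl
  · intro x hx
    obtain ⟨e, he1, he2, he3, he4⟩ := hS.exists_chart hx
    refine ⟨e, he2, ?_⟩
    filter_upwards [e.open_source.mem_nhds he1] with q hq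
    refine ⟨?_, he3 (e.map_source hq), ?_⟩
    · exact contMDiffAt_of_mem_maximalAtlas
        (IsManifold.subset_maximalAtlas ((hatlas e).2 ⟨he3, he4⟩)) hq
    · rw [← he4 _ (e.map_source hq), e.left_inv hq]

end Etale

end SphTw
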