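import Mathlib

/-!
# Maps of finite order generate actions of `ZMod p`
-/

namespace SphTw

/-- From a map of finite order to an action of `ZMod p`. -/
theorem exists_zmod_action {X : Type*} {F : X → X} {p : ℕ} (hp : 0 < p)
    (hF : ∀ q, F^[p] q = q) :
    ∃ ρ : Multiplicative (ZMod p) →* Equiv.Perm X,
      ∀ (j : ZMod p) (q : X), ρ (Multiplicative.ofAdd j) q = F^[j.val] q := by
  have : NeZero p := ⟨hp.ne'⟩
  have hmod : ∀ (n : ℕ) (q : X), F^[n % p] q = F^[n] q := by
    intro n q
    have h1 : ∀ k : ℕ, F^[p * k] q = q := by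
      intro k
      induction k with
      | zero => simp
      | succ k ih => rw [Nat.mul_succ, Function.iterate_add_apply, hF, ih]
    conv_rhs => rw [← Nat.mod_add_div n p, Function.iterate_add_apply, h1]
  have hadd : ∀ (a b : ZMod p) (q : X), F^[(a + b).val] q = F^[a.val] (F^[b.val] q) := by
    intro a b q
    rw [ZMod.val_add, hmod, Function.iterate_add_apply]
  refine ⟨MonoidHom.toHomPerm
    { toFun := fun a => F^[(Multiplicative.toAdd a).val]
      map_one' := ?_
      map_mul' := ?_ }, ?_⟩
  · funext q
    simp
    rfl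
  · intro a b
    funext q
    exact hadd _ _ q
  · intro j q
    rfl

end SphTw
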