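import Pool.Agent.Lib.MP_3f8e0b_gt.Basic
import Pool.Agent.Lib.MP_3f8e0b_gt.Frac
import Pool.Agent.Lib.MP_3f8e0b_gt.Psi
import Pool.Agent.Lib.MP_3f8e0b_gt.Rel
import Pool.Agent.Lib.MP_3f8e0b_gt.S0Good

/-!
# The free cyclic action of odd order
-/

open Set Filter Topology
open scoped ContDiff Manifold

noncomputable section

namespace SphTw

namespace Zp

/-! ### Elementary rotations -/

/-- Rotation by the angle `φ` in the `(e₁, e₂)`-plane around `(1/4, 1/2, 1/2)`. -/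
def rotA (φ : ℝ) (x : E4) : E4 :=
  P (x 0) (1/2 + (Real.cos φ * (x 1 - 1/2) - Real.sin φ * (x 2 - 1/2)))
    (1/2 + (Real.sin φ * (x 1 - 1/2) + Real.cos φ * (x 2 - 1/2))) (x 3)

/-- Rotation by the angle `φ` in the `(e₀, e₁)`-plane around `(1/4, 1/2, 1/2)`. -/
def rotB (φ : ℝ) (x : E4) : E4 :=
  P (1/4 + (Real.cos φ * (x 0 - 1/4) - Real.sin φ * (x 1 - 1/2)))
    (1/2 + (Real.sin φ * (x 0 - 1/4) + Real.cos φ * (x 1 - 1/2))) (x 2) (x 3)

theorem ext4 {x y : E4} (h0 : x 0 = y 0) (h1 : x 1 = y 1) (h2 : x 2 = y 2) (h3 : x 3 = y 3) :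
    x = y := by
  ext i; fin_cases i
  · exact h0
  · exact h1
  · exact h2
  · exact h3

@[simp] theorem rotA_three (φ : ℝ) (x : E4) : rotA φ x 3 = x 3 := rfl
@[simp] theorem rotB_three (φ : ℝ) (x : E4) : rotB φ x 3 = x 3 := rfl

theorem dp_rotA (φ : ℝ) (x : E4) : dp (rotA φ x) = dp x := by
  have h := Real.sin_sq_add_cos_sq φ
  simp only [dp, rotA, P_zero, P_one, P_two]
  linear_combination ((x 1 - 1/2) ^ 2 + (x 2 - 1/2) ^ 2) * h

theorem dp_rotB (φ : ℝ) (x : E4) : dp (rotB φ x) = dp x := by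
  have h := Real.sin_sq_add_cos_sq φ
  simp only [dp, rotB, P_zero, P_one, P_two]
  linear_combination ((x 0 - 1/4) ^ 2 + (x 1 - 1/2) ^ 2) * h

theorem rotA_rotA (φ ψ : ℝ) (x : E4) : rotA φ (rotA ψ x) = rotA (φ + ψ) x := by
  apply ext4 <;> simp only [rotA, P_zero, P_one, P_two, P_three, Real.cos_add, Real.sin_add] <;>
    ring

theorem rotB_rotB (φ ψ : ℝ) (x : E4) : rotB φ (rotB ψ x) = rotB (φ + ψ) x := by
  apply ext4 <;> simp only [rotB, P_zero, P_one, P_two, P_three, Real.cos_add, Real.sin_add] <;>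
    ring

theorem rotA_zero (x : E4) : rotA 0 x = x := by
  apply ext4 <;> simp [rotA]

theorem rotB_zero (x : E4) : rotB 0 x = x := by
  apply ext4 <;> simp [rotB]

theorem rotA_int (φ : ℝ) (n : ℤ) (x : E4) : rotA (φ + n * (2 * Real.pi)) x = rotA φ x := by
  simp only [rotA, Real.cos_add_int_mul_two_pi, Real.sin_add_int_mul_two_pi]

theorem rotA_shift (φ t : ℝ) (x : E4) : rotA φ (x + P 0 0 0 t) = rotA φ x + P 0 0 0 t := by
  apply ext4 <;> simp [rotA]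

theorem rotB_shift (φ t : ℝ) (x : E4) : rotB φ (x + P 0 0 0 t) = rotB φ x + P 0 0 0 t := by
  apply ext4 <;> simp [rotB]

theorem dp_shift (t : ℝ) (x : E4) : dp (x + P 0 0 0 t) = dp x := by
  simp [dp]

/-! ### The twisting maps -/

/-- The cutoff. -/
def aa (ρ : ℝ) : ℝ := Real.smoothTransition (100 * ρ - 9/2)

theorem aa_zero {ρ : ℝ} (h : ρ ≤ 9/200) : aa ρ = 0 :=
  Real.smoothTransition.zero_of_nonpos (by linarith)

theorem aa_one {ρ : ℝ} (h : 11/200 ≤ ρ) : aa ρ = 1 :=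
  Real.smoothTransition.one_of_one_le (by linarith)

/-- `R`, with `σ = ±1` the sign. -/
def RR (k : ℤ) (σ : ℝ) (x : E4) : E4 := rotA (σ * (k * (2 * Real.pi * x 3))) x

/-- `S`. -/
def SS (σ : ℝ) (x : E4) : E4 := rotB (σ * (Real.pi * aa (dp x))) x

theorem dp_RR (k : ℤ) (σ : ℝ) (x : E4) : dp (RR k σ x) = dp x := dp_rotA _ _

theorem dp_SS (σ : ℝ) (x : E4) : dp (SS σ x) = dp x := dp_rotB _ _

@[simp] theorem RR_three (k : ℤ) (σ : ℝ) (x : E4) : RR k σ x 3 = x 3 := rfl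
@[simp] theorem SS_three (σ : ℝ) (x : E4) : SS σ x 3 = x 3 := rfl

theorem RR_inv (k : ℤ) {σ τ : ℝ} (h : σ + τ = 0) (x : E4) : RR k σ (RR k τ x) = x := by
  have h1 : σ * (k * (2 * Real.pi * (RR k τ x) 3)) + τ * (k * (2 * Real.pi * x 3)) = 0 := by
    rw [RR_three, ← add_mul, h, zero_mul]
  rw [RR, RR] at *
  rw [rotA_rotA, h1, rotA_zero]

theorem SS_inv {σ τ : ℝ} (h : σ + τ = 0) (x : E4) : SS σ (SS τ x) = x := by
  have h1 : σ * (Real.pi * aa (dp (SS τ x))) + τ * (Real.pi * aa (dp x)) = 0 := by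
    rw [dp_SS, ← add_mul, h, zero_mul]
  rw [SS, SS] at *
  rw [rotB_rotB, h1, rotB_zero]

theorem RR_shift (k : ℤ) (σ : ℤ) (n : ℤ) (x : E4) :
    RR k σ (x + P 0 0 0 n) = RR k σ x + P 0 0 0 n := by
  have h1 : (σ : ℝ) * (k * (2 * Real.pi * (x + P 0 0 0 (n : ℝ)) 3))
      = σ * (k * (2 * Real.pi * x 3)) + ((σ * (k * n) : ℤ) : ℝ) * (2 * Real.pi) := by
    simp only [PiLp.add_apply, P_three]; push_cast; ring
  rw [RR, h1, rotA_int, rotA_shift, RR]

theorem SS_shift (σ : ℝ) (t : ℝ) (x : E4) : SS σ (x + P 0 0 0 t) = SS σ x + P 0 0 0 t := by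
  rw [SS, dp_shift, rotB_shift, SS]

theorem contDiff_P {f0 f1 f2 f3 : E4 → ℝ} (h0 : ContDiff ℝ ∞ f0) (h1 : ContDiff ℝ ∞ f1)
    (h2 : ContDiff ℝ ∞ f2) (h3 : ContDiff ℝ ∞ f3) :
    ContDiff ℝ ∞ (fun x => P (f0 x) (f1 x) (f2 x) (f3 x)) := by
  rw [contDiff_euclidean]
  intro i; fin_cases i
  · exact h0
  · exact h1
  · exact h2
  · exact h3

theorem contDiff_coord (i : Fin 4) : ContDiff ℝ ∞ (fun x : E4 => x i) :=
  (contDiff_euclidean (n := ∞) (f := fun x : E4 => x)).1 contDiff_id i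

theorem contDiff_dp : ContDiff ℝ ∞ dp := by
  unfold dp
  have h0 := contDiff_coord 0
  have h1 := contDiff_coord 1
  have h2 := contDiff_coord 2
  fun_prop

theorem contDiff_RR (k : ℤ) (σ : ℝ) : ContDiff ℝ ∞ (RR k σ) := by
  have h0 := contDiff_coord 0
  have h1 := contDiff_coord 1
  have h2 := contDiff_coord 2
  have h3 := contDiff_coord 3
  have h4 : ContDiff ℝ ∞ (fun x : E4 => Real.cos (σ * (k * (2 * Real.pi * x 3)))) :=
    Real.contDiff_cos.comp (by fun_prop)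
  have h5 : ContDiff ℝ ∞ (fun x : E4 => Real.sin (σ * (k * (2 * Real.pi * x 3)))) :=
    Real.contDiff_sin.comp (by fun_prop)
  unfold RR rotA
  exact contDiff_P (by fun_prop) (by fun_prop) (by fun_prop) (by fun_prop)

theorem contDiff_SS (σ : ℝ) : ContDiff ℝ ∞ (SS σ) := by
  have h0 := contDiff_coord 0
  have h1 := contDiff_coord 1
  have h2 := contDiff_coord 2
  have h3 := contDiff_coord 3
  have h6 : ContDiff ℝ ∞ (fun x : E4 => aa (dp x)) := by
    unfold aa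
    exact Real.smoothTransition.contDiff.comp
      ((contDiff_const.mul contDiff_dp).sub contDiff_const)
  have h7 : ContDiff ℝ ∞ (fun x : E4 => σ * (Real.pi * aa (dp x))) :=
    contDiff_const.mul (contDiff_const.mul h6)
  have h4 : ContDiff ℝ ∞ (fun x : E4 => Real.cos (σ * (Real.pi * aa (dp x)))) :=
    Real.contDiff_cos.comp h7
  have h5 : ContDiff ℝ ∞ (fun x : E4 => Real.sin (σ * (Real.pi * aa (dp x)))) :=
    Real.contDiff_sin.comp h7
  unfold SS rotB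
  exact contDiff_P (by fun_prop) (by fun_prop) (by fun_prop) (by fun_prop)

theorem SS_eq_self (σ : ℝ) {x : E4} (h : dp x ≤ 9/200) : SS σ x = x := by
  rw [SS, aa_zero h, mul_zero, mul_zero, rotB_zero]

theorem rotB_pi (x : E4) : rotB Real.pi x = P (1/4 - (x 0 - 1/4)) (1/2 - (x 1 - 1/2)) (x 2) (x 3) := by
  apply ext4 <;> simp [rotB] <;> ring

theorem rotB_neg_pi (x : E4) :
    rotB (-Real.pi) x = P (1/4 - (x 0 - 1/4)) (1/2 - (x 1 - 1/2)) (x 2) (x 3) := by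
  apply ext4 <;> simp [rotB] <;> ring

/-- `Φ₀`. -/
def Ph (k : ℤ) (x : E4) : E4 := RR k 1 (SS 1 (RR k 1 (SS (-1) x)))

/-- `Ψ₀`, the inverse of `Φ₀`. -/
def Ps (k : ℤ) (x : E4) : E4 := SS 1 (RR k (-1) (SS (-1) (RR k (-1) x)))

theorem Ph_Ps (k : ℤ) (x : E4) : Ph k (Ps k x) = x := by
  rw [Ph, Ps, SS_inv (by norm_num), RR_inv k (by norm_num), SS_inv (by norm_num),
    RR_inv k (by norm_num)]

theorem Ps_Ph (k : ℤ) (x : E4) : Ps k (Ph k x) = x := by
  rw [Ph, Ps, RR_inv k (by norm_num), SS_inv (by norm_num), RR_inv k (by norm_num),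
    SS_inv (by norm_num)]

/-- The properties of a map supported in the ball `dp < 11/200`. -/
structure Loc (T : E4 → E4) : Prop where
  smooth : ContDiff ℝ ∞ T
  dp : ∀ y, dp (T y) = dp y
  three : ∀ y, T y 3 = y 3
  out : ∀ y, 11/200 ≤ SphTw.dp y → T y = y
  per : ∀ y, ∀ n : ℤ, T (y + P 0 0 0 n) = T y + P 0 0 0 n

theorem Ph_out (k : ℤ) {y : E4} (h : 11/200 ≤ dp y) : Ph k y = y := by
  have h1 : ∀ σ : ℝ, ∀ z : E4, dp z = dp y → SS σ z = rotB (σ * Real.pi) z := by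
    intro σ z hz
    rw [SS, hz, aa_one h, mul_one]
  have e1 : SS (-1) y = rotB (-Real.pi) y := by rw [h1 (-1) y rfl, neg_one_mul]
  have e2 : SS 1 (RR k 1 (SS (-1) y)) = rotB Real.pi (RR k 1 (rotB (-Real.pi) y)) := by
    rw [h1 1 _ (by rw [dp_RR, dp_SS]), one_mul, e1]
  rw [Ph, e2, rotB_pi]
  have hs := Real.sin_sq_add_cos_sq (1 * ((k : ℝ) * (2 * Real.pi * y 3)))
  apply ext4
  · simp [RR, rotA, rotB_neg_pi]
  · simp only [RR, rotA, rotB_neg_pi, P_zero, P_one, P_two, P_three]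
    linear_combination (y 1 - 1/2) * hs
  · simp only [RR, rotA, rotB_neg_pi, P_zero, P_one, P_two, P_three]
    linear_combination (y 2 - 1/2) * hs
  · simp

theorem Ph_loc (k : ℤ) : Loc (Ph k) where
  smooth := (contDiff_RR k 1).comp ((contDiff_SS 1).comp ((contDiff_RR k 1).comp
    (contDiff_SS (-1))))
  dp y := by rw [Ph, dp_RR, dp_SS, dp_RR, dp_SS]
  three y := by simp [Ph]
  out y h := Ph_out k h
  per y n := by
    have h1 := fun z => RR_shift k 1 n z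
    push_cast at h1
    rw [Ph, SS_shift, h1, SS_shift, h1, Ph]

theorem Ps_loc (k : ℤ) : Loc (Ps k) where
  smooth := (contDiff_SS 1).comp ((contDiff_RR k (-1)).comp ((contDiff_SS (-1)).comp
    (contDiff_RR k (-1))))
  dp y := by rw [Ps, dp_SS, dp_RR, dp_SS, dp_RR]
  three y := by simp [Ps]
  out y h := by
    have h1 := Ps_Ph k y
    rwa [Ph_out k h] at h1
  per y n := by
    have h1 := fun z => RR_shift k (-1) n z
    push_cast at h1
    rw [Ps, h1, SS_shift, h1, SS_shift, Ps]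

/-! ### Periodic extension -/

/-- Extension to a periodic map. -/
def Ex (T : E4 → E4) (x : E4) : E4 := x + (T (frac x) - frac x)

theorem frac_shift (x : E4) (t : ℝ) : frac (x + P 0 0 0 t) = frac x + P 0 0 0 t := by
  apply ext4 <;> simp [frac]

theorem Loc.frac_Ex {T : E4 → E4} (hT : Loc T) (x : E4) : frac (Ex T x) = T (frac x) := by
  by_cases h : 11/200 ≤ SphTw.dp (frac x)
  · rw [Ex, hT.out _ h, sub_self, add_zero]
  · have h1 : SphTw.dp (T (frac x)) < 11/200 := by rw [hT.dp]; exact not_le.1 h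
    have h2 : frac (T (frac x)) = T (frac x) := by
      simp only [SphTw.dp] at h1
      refine frac_eq_self ?_ ?_ ?_ <;> constructor <;>
        nlinarith [sq_nonneg (T (frac x) 0 - 1/4), sq_nonneg (T (frac x) 1 - 1/2),
          sq_nonneg (T (frac x) 2 - 1/2)]
    have h3 : Ex T x = T (frac x) + tr (fl x) := by
      rw [Ex, frac_eq x]
      abel
    rw [h3, frac_add_tr, h2]
    apply ext4 <;> simp [fl]

theorem Loc.Ex_tr {T : E4 → E4} (hT : Loc T) (x : E4) (m : Fin 4 → ℤ) :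
    Ex T (x + tr m) = Ex T x + tr m := by
  rw [Ex, frac_add_tr, hT.per, Ex]
  abel

theorem Loc.Ex_three {T : E4 → E4} (hT : Loc T) (x : E4) : Ex T x 3 = x 3 := by
  simp [Ex, hT.three]

theorem Loc.contDiff_Ex {T : E4 → E4} (hT : Loc T) : ContDiff ℝ ∞ (Ex T) := by
  rw [contDiff_iff_contDiffAt]
  intro x
  have h1 : ContDiffAt ℝ ∞ (fun y => (fun z => T z - z) (frac y)) x := by
    refine contDiffAt_comp_frac (c := 0) ?_ (hT.smooth.sub contDiff_id).contDiffAt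
    intro y hy _
    change T (frac y) - frac y = 0
    rw [hT.out _ (by linarith), sub_self]
  exact contDiffAt_id.add h1

theorem Ex_Ex {T T' : E4 → E4} (hT' : Loc T') (h : ∀ x, T (T' x) = x) (x : E4) :
    Ex T (Ex T' x) = x := by
  rw [Ex, hT'.frac_Ex, h, Ex]
  abel

theorem Loc.Ex_mem {T : E4 → E4} (hT : Loc T) {x : E4} (hx : x ∈ U0) : Ex T x ∈ U0 := by
  have h1 : SphTw.dp (frac (Ex T x)) = SphTw.dp (frac x) := by rw [hT.frac_Ex, hT.dp]
  refine ⟨h1 ▸ hx.1, ?_⟩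
  by_cases h : 11/200 ≤ SphTw.dp (frac x)
  · rw [hT.frac_Ex, hT.out _ h]; exact hx.2
  · by_contra h2
    exact not_dp_dm (x := frac (Ex T x)) (by rw [h1]; linarith) (by linarith)

/-! ### The action -/

/-- The action by `t ∈ ℝ`; compatible with the relation only for `t ∈ (1/p) ℤ`. -/
def GG (k : ℤ) (t : ℝ) (x : E4) : E4 := Ex (Ps k) (Ex (Ph k) x + P 0 0 0 t)

theorem shift_mem {x : E4} (hx : x ∈ U0) (t : ℝ) : x + P 0 0 0 t ∈ U0 := by
  have h1 : ∀ y : E4, dm (y + P 0 0 0 t) = dm y := by intro y; simp [dm]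
  constructor
  · rw [frac_shift, dp_shift]; exact hx.1
  · rw [frac_shift, h1]; exact hx.2

theorem GG_mem (k : ℤ) (t : ℝ) {x : E4} (hx : x ∈ U0) : GG k t x ∈ U0 :=
  (Ps_loc k).Ex_mem (shift_mem ((Ph_loc k).Ex_mem hx) t)

theorem GG_three (k : ℤ) (t : ℝ) (x : E4) : GG k t x 3 = x 3 + t := by
  rw [GG, (Ps_loc k).Ex_three]
  simp [(Ph_loc k).Ex_three]

theorem GG_tr (k : ℤ) (t : ℝ) (x : E4) (m : Fin 4 → ℤ) : GG k t (x + tr m) = GG k t x + tr m := by
  rw [GG, (Ph_loc k).Ex_tr, add_right_comm, (Ps_loc k).Ex_tr, GG]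

theorem contDiff_GG (k : ℤ) (t : ℝ) : ContDiff ℝ ∞ (GG k t) :=
  (Ps_loc k).contDiff_Ex.comp ((Ph_loc k).contDiff_Ex.add contDiff_const)

theorem GG_add (k : ℤ) (s t : ℝ) (x : E4) : GG k (s + t) x = GG k s (GG k t x) := by
  have h1 : P 0 0 0 (s + t) = P 0 0 0 t + P 0 0 0 s := by
    apply ext4 <;> simp [add_comm]
  rw [GG, GG, GG, Ex_Ex (Ps_loc k) (Ph_Ps k), h1, add_assoc]

theorem GG_int (k : ℤ) (n : ℤ) (x : E4) : GG k n x = x + tr ![0, 0, 0, n] := by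
  have h1 : P 0 0 0 (n : ℝ) = tr ![0, 0, 0, n] := by
    apply ext4 <;> simp
  rw [GG, h1, (Ps_loc k).Ex_tr, Ex_Ex (Ph_loc k) (Ps_Ph k)]

theorem frac_GG (k : ℤ) (t : ℝ) (x : E4) :
    frac (GG k t x) = Ps k (Ph k (frac x) + P 0 0 0 t) := by
  rw [GG, (Ps_loc k).frac_Ex, frac_shift, (Ph_loc k).frac_Ex]

theorem dp_frac_GG (k : ℤ) (t : ℝ) (x : E4) : dp (frac (GG k t x)) = dp (frac x) := by
  rw [frac_GG, (Ps_loc k).dp, dp_shift, (Ph_loc k).dp]

theorem GG_out (k : ℤ) (t : ℝ) {x : E4} (h : 11/200 ≤ dp (frac x)) :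
    GG k t x = x + P 0 0 0 t := by
  have h1 : ∀ T : E4 → E4, Loc T → ∀ y : E4, 11/200 ≤ dp (frac y) → Ex T y = y := by
    intro T hT y hy
    rw [Ex, hT.out _ hy, sub_self, add_zero]
  rw [GG, h1 _ (Ph_loc k) x h, h1 _ (Ps_loc k)]
  rw [frac_shift, dp_shift]; exact h

theorem psi_rotA (t : ℝ) (y : E4) :
    psi (rotA (-(2 * Real.pi * t)) y + P 0 0 0 t) = psi y + P 0 0 0 t := by
  have hd : dp (rotA (-(2 * Real.pi * t)) y + P 0 0 0 t) = dp y := by rw [dp_shift, dp_rotA]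
  have e0 : (rotA (-(2 * Real.pi * t)) y + P 0 0 0 t) 0 = y 0 := by simp [rotA]
  have e3 : (rotA (-(2 * Real.pi * t)) y + P 0 0 0 t) 3 = y 3 + t := by simp
  have e1 : (rotA (-(2 * Real.pi * t)) y + P 0 0 0 t) 1 = 1/2 +
      (Real.cos (2 * Real.pi * t) * (y 1 - 1/2) + Real.sin (2 * Real.pi * t) * (y 2 - 1/2)) := by
    simp [rotA]
  have e2 : (rotA (-(2 * Real.pi * t)) y + P 0 0 0 t) 2 = 1/2 +
      (- Real.sin (2 * Real.pi * t) * (y 1 - 1/2) + Real.cos (2 * Real.pi * t) * (y 2 - 1/2)) := by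
    simp [rotA]
  have hs := Real.sin_sq_add_cos_sq (2 * Real.pi * t)
  have hc : Real.cos (2 * Real.pi * (y 3 + t)) = Real.cos (2 * Real.pi * y 3) *
      Real.cos (2 * Real.pi * t) - Real.sin (2 * Real.pi * y 3) * Real.sin (2 * Real.pi * t) := by
    rw [mul_add, Real.cos_add]
  have hsn : Real.sin (2 * Real.pi * (y 3 + t)) = Real.sin (2 * Real.pi * y 3) *
      Real.cos (2 * Real.pi * t) + Real.cos (2 * Real.pi * y 3) * Real.sin (2 * Real.pi * t) := by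
    rw [mul_add, Real.sin_add]
  rw [psi, hd, e0, e1, e2, e3, hc, hsn]
  apply ext4
  · simp [psi]
  · simp only [psi, PiLp.add_apply, P_one]
    linear_combination ((Real.cos (2 * Real.pi * y 3) * (y 1 - 1/2)
      - Real.sin (2 * Real.pi * y 3) * (y 2 - 1/2)) / (50 * dp y)) * hs
  · simp only [psi, PiLp.add_apply, P_two]
    linear_combination ((Real.sin (2 * Real.pi * y 3) * (y 1 - 1/2)
      + Real.cos (2 * Real.pi * y 3) * (y 2 - 1/2)) / (50 * dp y)) * hs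
  · simp [psi]

theorem Ph_in (k : ℤ) {y : E4} (h : dp y ≤ 9/200) :
    Ph k y = rotA (2 * (k * (2 * Real.pi * y 3))) y := by
  rw [Ph, SS_eq_self _ h, SS_eq_self _ (by rw [dp_RR]; exact h)]
  rw [RR, RR_three, RR, rotA_rotA]
  congr 1; ring

theorem Ps_in (k : ℤ) {y : E4} (h : dp y ≤ 9/200) :
    Ps k y = rotA (-(2 * (k * (2 * Real.pi * y 3)))) y := by
  rw [Ps, SS_eq_self (-1) (by rw [dp_RR]; exact h), SS_eq_self _ (by rw [dp_RR, dp_RR]; exact h)]
  rw [RR, RR_three, RR, rotA_rotA]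
  congr 1; ring

/-- Compatibility with the gluing map. -/
theorem psi_frac_GG {k p j : ℤ} (hp : (p : ℝ) ≠ 0) (hk : 2 * k = p + 1) {x : E4}
    (h : dp (frac x) ≤ 9/200) :
    psi (frac (GG k (j / p) x)) = psi (frac x) + P 0 0 0 (j / p) := by
  rw [frac_GG, Ph_in k h, Ps_in k (by rw [dp_shift, dp_rotA]; exact h), rotA_shift, rotA_rotA]
  rw [← psi_rotA]
  congr 2
  have h1 : (2 : ℝ) * k = p + 1 := by exact_mod_cast hk
  have h2 : -(2 * ((k : ℝ) * (2 * Real.pi * (rotA (2 * (k * (2 * Real.pi * frac x 3))) (frac x)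
      + P 0 0 0 ((j : ℝ) / p)) 3))) + 2 * (k * (2 * Real.pi * frac x 3))
      = -(2 * Real.pi * (j / p)) + ((-j : ℤ) : ℝ) * (2 * Real.pi) := by
    simp only [PiLp.add_apply, P_three, rotA_three]
    push_cast
    field_simp
    linear_combination (-(j : ℝ)) * h1
  rw [h2, rotA_int]

theorem r0_GG_aux {k p j : ℤ} (hp : (p : ℝ) ≠ 0) (hk : 2 * k = p + 1) {x z : E4}
    (hx : x ∈ U0) (h : dp (frac x) < 1/25) (m : Fin 4 → ℤ) (hz : z = psi (frac x) + tr m) :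
    dp (frac (GG k (j / p) x)) < 1/25 ∧
      GG k (j / p) z = psi (frac (GG k (j / p) x)) + tr m := by
  refine ⟨by rw [dp_frac_GG]; exact h, ?_⟩
  rw [psi_frac_GG hp hk (by linarith), hz, GG_tr]
  congr 1
  apply GG_out
  have h1 : frac (psi (frac x)) = psi (frac x) := frac_psi hx.1
  rw [h1]
  by_contra h2
  have h3 : dm (psi (frac x)) < 1/25 := by
    have hpos : 0 < dp (frac x) := lt_trans (by norm_num) hx.1
    rw [dm_psi hpos, div_lt_div_iff₀ (by positivity) (by norm_num)]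
    have := hx.1
    linarith
  exact not_dp_dm (x := psi (frac x)) (by linarith) (by linarith)

theorem r0_GG {k p j : ℤ} (hp : (p : ℝ) ≠ 0) (hk : 2 * k = p + 1) {x z : E4} (h : r0 x z) :
    r0 (GG k (j / p) x) (GG k (j / p) z) := by
  obtain ⟨hx, hz, h⟩ := h
  refine ⟨GG_mem _ _ hx, GG_mem _ _ hz, ?_⟩
  rcases h with ⟨m, rfl⟩ | ⟨h, m, hm⟩ | ⟨h, m, hm⟩
  · exact Or.inl ⟨m, GG_tr _ _ _ _⟩
  · obtain ⟨h1, h2⟩ := r0_GG_aux (j := j) hp hk hx h m hm
    exact Or.inr (Or.inl ⟨h1, m, h2⟩)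
  · obtain ⟨h1, h2⟩ := r0_GG_aux (j := j) hp hk hz h m hm
    exact Or.inr (Or.inr ⟨h1, m, h2⟩)

theorem r0_three {x z : E4} (h : r0 x z) : ∃ n : ℤ, z 3 = x 3 + n := by
  obtain ⟨-, -, h⟩ := h
  rcases h with ⟨m, rfl⟩ | ⟨h, m, rfl⟩ | ⟨h, m, rfl⟩
  · exact ⟨m 3, by simp⟩
  · exact ⟨m 3, by simp [psi, frac]⟩
  · exact ⟨- m 3, by simp [psi, frac]⟩

/-- The induced map on the quotient. -/
def FF {k p : ℤ} (hp : (p : ℝ) ≠ 0) (hk : 2 * k = p + 1) (j : ℤ) : S0.X → S0.X :=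
  Quot.map (fun x : S0.U => (⟨GG k (j / p) x.1, GG_mem _ _ x.2⟩ : S0.U))
    (fun _ _ h => r0_GG hp hk h)

theorem FF_pr {k p : ℤ} (hp : (p : ℝ) ≠ 0) (hk : 2 * k = p + 1) (j : ℤ) {x : E4}
    (hx : x ∈ S0.U) : FF hp hk j (S0.pr x) = S0.pr (GG k (j / p) x) := by
  rw [S0.pr_of_mem hx, S0.pr_of_mem (GG_mem _ _ hx)]
  rfl

end Zp

open Zp

/-- B15 (Zp.lean) : the free cyclic action of odd order `p`. -/
theorem zp_action {p : ℕ} (hp : Odd p) (hp3 : 3 ≤ p) :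
    ∃ F : S0.X → S0.X,
      (∀ x ∈ S0.U, ∀ z ∈ S0.U, S0.pr z = F (S0.pr x) → ∃ G, S0.Lift1 F x z G) ∧
      (∀ q, F^[p] q = q) ∧ ∀ j, 0 < j → j < p → ∀ q, F^[j] q ≠ q := by
  obtain ⟨l, hl⟩ := hp
  have hp0 : (((p : ℕ) : ℤ) : ℝ) ≠ 0 := by
    have : (0 : ℝ) < p := by exact_mod_cast (by omega : 0 < p)
    push_cast; exact this.ne'
  have hk : 2 * ((l : ℤ) + 1) = ((p : ℕ) : ℤ) + 1 := by omega
  have hit : ∀ j : ℕ, ∀ x ∈ S0.U, (FF hp0 hk 1)^[j] (S0.pr x)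
      = S0.pr (GG (l + 1) ((j : ℝ) / p) x) := by
    intro j
    induction j with
    | zero =>
      intro x hx
      have h1 := GG_int (l + 1) 0 x
      have h2 : tr ![0, 0, 0, 0] = 0 := by apply ext4 <;> simp
      rw [h2, add_zero] at h1
      simp only [Function.iterate_zero, id_eq]
      have h3 : (((0 : ℕ) : ℝ) / p) = ((0 : ℤ) : ℝ) := by simp
      rw [h3, h1]
    | succ j ih =>
      intro x hx
      rw [Function.iterate_succ', Function.comp_apply, ih x hx, FF_pr hp0 hk 1 (GG_mem _ _ hx),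
        ← GG_add]
      congr 2
      push_cast
      ring
  refine ⟨FF hp0 hk 1, ?_, ?_, ?_⟩
  · intro x hx z hz h
    rw [FF_pr hp0 hk 1 hx] at h
    set G : E4 → E4 := GG (l + 1) (((1 : ℤ) : ℝ) / ((p : ℤ) : ℝ)) with hG
    have hGx : G x ∈ S0.U := GG_mem _ _ hx
    have h1 : S0.r (G x) z := (S0_good.pr_eq_iff hGx hz).1 h.symm
    obtain ⟨g, hg⟩ := S0_good.graph h1
    have h2 := S0_good.graph_eventually hg
    have hGs : ContDiff ℝ ∞ G := contDiff_GG _ _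
    refine ⟨fun y => g (G y), ?_, hg.2.1, ?_⟩
    · filter_upwards [hGs.continuous.continuousAt.eventually hg.1] with y hy
      exact hy.comp y hGs.contDiffAt
    · filter_upwards [hGs.continuous.continuousAt.eventually h2, S0_good.isOpen_U.mem_nhds hx]
        with y hy hyU
      refine ⟨(S0_good.mem hy).2, ?_⟩
      rw [FF_pr hp0 hk 1 hyU]
      exact (S0_good.pr_eq hy).symm
  · intro q
    obtain ⟨x, hx, rfl⟩ := S0.pr_surj q
    rw [hit p x hx]
    have h1 := GG_int (l + 1) 1 x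
    have h3 : ((p : ℝ) / p) = ((1 : ℤ) : ℝ) := by
      push_cast at hp0 ⊢
      exact div_self hp0
    rw [h3, h1]
    exact (S0_good.pr_eq (r0_tr hx _)).symm
  · intro j hj0 hjp q hq
    obtain ⟨x, hx, rfl⟩ := S0.pr_surj q
    rw [hit j x hx] at hq
    have h1 : S0.r (GG (l + 1) ((j : ℝ) / p) x) x :=
      (S0_good.pr_eq_iff (GG_mem _ _ hx) hx).1 hq
    obtain ⟨n, hn⟩ := r0_three h1
    rw [GG_three] at hn
    have hp1 : (0 : ℝ) < p := by exact_mod_cast (by omega : 0 < p)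
    have h2 : (j : ℝ) / p = -n := by linarith
    have h3 : (j : ℝ) = -n * p := by
      rw [← h2]; field_simp
    have h4 : (j : ℤ) = -n * p := by exact_mod_cast h3
    have h5 : (j : ℤ) % p = 0 := by rw [h4]; exact Int.mul_emod_left _ _
    have h6 : (j : ℤ) % p = j := Int.emod_eq_of_lt (by omega) (by omega)
    omega

end SphTw
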